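import Pool.Agent.P8H31.VC.Stm2
import Pool.Agent.P8H86.VC.Mc
import Pool.Agent.P8H86.VC.K23

/-!
Project VC (helper31): the means of `f = g + h ∂G + h e` and of `g`.
-/

set_option autoImplicit false
open MeasureTheory Filter Topology Complex
open scoped ContDiff ENNReal

namespace Pool.Agent.P8H31.VC

open Pool.Agent.W745.RW Pool.Agent.TH294.RS Pool.Agent.TH294.RG Pool.Agent.TH421.DF
open Pool.Agent.TH421.AC Pool.Agent.P8H31.NZ Pool.Agent.P8H86.VC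

noncomputable section

/-- averages with a kernel -/
def kav (κ : ℂ → ℝ) (r : ℝ) (f : ℂ → ℝ) (z : ℂ) : ℝ :=
  ∫ c in Metric.ball (0 : ℂ) 1, κ c * f (z + r * c)

lemma ball_cl : ∀ c ∈ Metric.ball (0 : ℂ) 1, c ∈ Metric.closedBall (0 : ℂ) 1 := fun _ hc =>
  Metric.ball_subset_closedBall hc

lemma kin {K : Set ℂ} {z : ℂ} {r : ℝ} (hm : ∀ c ∈ Metric.closedBall (0 : ℂ) 1, z + r * c ∈ K)
    {f κ : ℂ → ℝ} (hf : ContinuousOn f K) (hκ : ContinuousOn κ (Metric.closedBall 0 1)) :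
    IntegrableOn (fun c => κ c * f (z + r * c)) (Metric.ball (0 : ℂ) 1) := by
  have h1 : ContinuousOn (fun c => κ c * f (z + r * c)) (Metric.closedBall (0 : ℂ) 1) :=
    hκ.mul (hf.comp (by fun_prop) hm)
  exact (h1.integrableOn_compact (isCompact_closedBall (0 : ℂ) 1)).mono_set
    Metric.ball_subset_closedBall

lemma kco {S K : Set ℂ} (hK : IsCompact K) {r : ℝ}
    (hm : ∀ z ∈ S, ∀ c ∈ Metric.closedBall (0 : ℂ) 1, z + r * c ∈ K)
    {f κ : ℂ → ℝ} (hf : ContinuousOn f K) (hκ : ContinuousOn κ (Metric.closedBall 0 1)) :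
    ContinuousOn (kav κ r f) S := by
  obtain ⟨C, hC⟩ := hK.exists_bound_of_continuousOn hf
  obtain ⟨C', hC'⟩ := (isCompact_closedBall (0 : ℂ) 1).exists_bound_of_continuousOn hκ
  unfold kav
  refine continuousOn_of_dominated (bound := fun _ => |C'| * |C|) ?_ ?_ ?_ ?_
  · intro z hz
    exact (kin (hm z hz) hf hκ).aestronglyMeasurable
  · intro z hz
    filter_upwards [ae_restrict_mem measurableSet_ball] with c hc
    rw [norm_mul]
    exact mul_le_mul ((hC' c (ball_cl c hc)).trans (le_abs_self _))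
      ((hC _ (hm z hz c (ball_cl c hc))).trans (le_abs_self _)) (norm_nonneg _) (abs_nonneg _)
  · exact continuousOn_const.integrableOn_compact (isCompact_closedBall (0 : ℂ) 1) |>.mono_set
      Metric.ball_subset_closedBall
  · filter_upwards [ae_restrict_mem measurableSet_ball] with c hc
    refine continuousOn_const.mul (hf.comp (by fun_prop) fun z hz => hm z hz c (ball_cl c hc))

lemma mean_kav (r : ℝ) (f : ℂ → ℝ) (z : ℂ) : mean r f z = kav (fun _ => 1 / Real.pi) r f z := by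
  unfold mean kav
  rw [integral_const_mul]

/-- the decomposition -/
lemma dec {B K : Set ℂ} (hB : IsOpen B) (hKB : K ⊆ B) {f g G1 G2 e m χ : ℂ → ℝ}
    (hf : ContinuousOn f B) (hg : ContinuousOn g B) (hG1 : ContDiffOn ℝ ∞ G1 B)
    (hG2 : ContDiffOn ℝ ∞ G2 B) (he : ContinuousOn e B) (hm : ContinuousOn m B) {h : ℝ}
    (id : ∀ z ∈ B, f z = g z + h * (fderiv ℝ G1 z 1 + fderiv ℝ G2 z I) + h * e z)
    (hχ : TF (Metric.ball 0 1) χ) {z : ℂ} {r : ℝ} (hr : 0 < r)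
    (hz : ∀ c ∈ Metric.closedBall (0 : ℂ) 1, z + r * c ∈ K) :
    mean r f z - m z = mean r (fun w => g w - m w) z + ((mean r m z - m z) +
      kav (fun c => 1 / Real.pi - χ c) r (fun w => f w - g w) z +
      (-(h / r)) * kav (fun c => fderiv ℝ χ c 1) r G1 z +
      (-(h / r)) * kav (fun c => fderiv ℝ χ c I) r G2 z + h * kav χ r e z) := by
  have hzB : ∀ c ∈ Metric.closedBall (0 : ℂ) 1, z + r * c ∈ B := fun c hc => hKB (hz c hc)
  have c1 : ContinuousOn (fun _ : ℂ => 1 / Real.pi) (Metric.closedBall (0 : ℂ) 1) :=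
    continuousOn_const
  have cχ : ContinuousOn χ (Metric.closedBall (0 : ℂ) 1) := hχ.1.continuous.continuousOn
  have i1 := fun (F : ℂ → ℝ) (hF : ContinuousOn F B) => kin hzB hF c1
  have i2 := fun (F : ℂ → ℝ) (hF : ContinuousOn F B) => kin hzB hF cχ
  have d1 : ContinuousOn (fun z => fderiv ℝ G1 z 1) B := (rsd hB hG1 1).continuousOn
  have d2 : ContinuousOn (fun z => fderiv ℝ G2 z I) B := (rsd hB hG2 I).continuousOn
  have e1 : mean r (fun w => g w - m w) z = mean r g z - mean r m z := by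
    rw [mean_kav, mean_kav, mean_kav]
    unfold kav
    rw [← integral_sub (i1 g hg) (i1 m hm)]
    congr 1; funext c; ring
  have e2 : kav (fun c => 1 / Real.pi - χ c) r (fun w => f w - g w) z =
      mean r f z - mean r g z - kav χ r (fun w => f w - g w) z := by
    rw [mean_kav, mean_kav]
    unfold kav
    have j1 : IntegrableOn (fun c => 1 / Real.pi * f (z + r * c) - 1 / Real.pi * g (z + r * c))
      (Metric.ball (0 : ℂ) 1) := (i1 f hf).sub (i1 g hg)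
    have j2 : IntegrableOn (fun c => χ c * (f (z + r * c) - g (z + r * c)))
      (Metric.ball (0 : ℂ) 1) := i2 (fun w => f w - g w) (hf.sub hg)
    rw [← integral_sub (i1 f hf) (i1 g hg)]
    show _ = (∫ c in Metric.ball (0 : ℂ) 1,
      (1 / Real.pi * f (z + r * c) - 1 / Real.pi * g (z + r * c))) -
      ∫ c in Metric.ball (0 : ℂ) 1, χ c * (f (z + r * c) - g (z + r * c))
    rw [← integral_sub j1 j2]
    congr 1; funext c; ring
  have e3 : kav χ r (fun w => f w - g w) z =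
      h * (∫ c in Metric.ball (0 : ℂ) 1, χ c * fderiv ℝ G1 (z + r * c) 1) +
      h * (∫ c in Metric.ball (0 : ℂ) 1, χ c * fderiv ℝ G2 (z + r * c) I) + h * kav χ r e z := by
    unfold kav
    have j1 : IntegrableOn (fun c => h * (χ c * fderiv ℝ G1 (z + r * c) 1) +
        h * (χ c * fderiv ℝ G2 (z + r * c) I)) (Metric.ball (0 : ℂ) 1) :=
      ((i2 _ d1).const_mul h).add ((i2 _ d2).const_mul h)
    rw [← integral_const_mul, ← integral_const_mul, ← integral_const_mul,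
      ← integral_add ((i2 _ d1).const_mul h) ((i2 _ d2).const_mul h),
      ← integral_add j1 ((i2 _ he).const_mul h)]
    refine setIntegral_congr_fun measurableSet_ball fun c hc => ?_
    have := id _ (hzB c (ball_cl c hc))
    show χ c * (f (z + r * c) - g (z + r * c)) = _
    rw [this]; ring
  rw [k2 hB hG1 hχ hr hzB, k2 hB hG2 hχ hr hzB] at e3
  have e4 : ∀ v G, ∫ c in Metric.ball (0 : ℂ) 1, fderiv ℝ χ c v * G (z + r * c) =
    kav (fun c => fderiv ℝ χ c v) r G z := fun v G => rfl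
  rw [e4, e4] at e3
  rw [e1, e2, e3]
  field_simp
  ring

lemma sm_le {a b : ℝ} (ha : 0 ≤ a) (hb : 0 < b) : ∃ x : ℝ, 0 < x ∧ x ≤ 1 ∧ a * x ≤ b := by
  refine ⟨min 1 (b / (a + 1)), by positivity, min_le_left _ _, ?_⟩
  have h1 : a * min 1 (b / (a + 1)) ≤ a * (b / (a + 1)) :=
    mul_le_mul_of_nonneg_left (min_le_right _ _) ha
  refine h1.trans ?_
  have h2 : a * (b / (a + 1)) = b * (a / (a + 1)) := by field_simp
  rw [h2]
  refine mul_le_of_le_one_right hb.le ?_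
  rw [div_le_one (by positivity)]; linarith

lemma alg {ε : ℝ} (hε : 0 < ε) (X a b c d e k l : ℝ) :
    (X + (a + b + (-k) * c + (-k) * d + l * e)) ^ 2 ≤ (1 + ε) * X ^ 2 +
      5 * (1 + 1 / ε) * (a ^ 2 + b ^ 2 + k ^ 2 * c ^ 2 + k ^ 2 * d ^ 2 + l ^ 2 * e ^ 2) := by
  obtain ⟨c', hc⟩ : ∃ x : ℝ, x = (-k) * c := ⟨_, rfl⟩
  obtain ⟨d', hd⟩ : ∃ x : ℝ, x = (-k) * d := ⟨_, rfl⟩
  obtain ⟨e', he⟩ : ∃ x : ℝ, x = l * e := ⟨_, rfl⟩
  have ec : k ^ 2 * c ^ 2 = c' ^ 2 := by rw [hc]; ring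
  have ed : k ^ 2 * d ^ 2 = d' ^ 2 := by rw [hd]; ring
  have ee : l ^ 2 * e ^ 2 = e' ^ 2 := by rw [he]; ring
  rw [ec, ed, ee, ← hc, ← hd, ← he]
  obtain ⟨s, hs⟩ : ∃ s : ℝ, s = a + b + c' + d' + e' := ⟨_, rfl⟩
  have s5 : s ^ 2 ≤ 5 * (a ^ 2 + b ^ 2 + c' ^ 2 + d' ^ 2 + e' ^ 2) := by
    rw [hs]
    linarith [sq_nonneg (a - b), sq_nonneg (a - c'), sq_nonneg (a - d'), sq_nonneg (a - e'),
      sq_nonneg (b - c'), sq_nonneg (b - d'), sq_nonneg (b - e'), sq_nonneg (c' - d'),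
      sq_nonneg (c' - e'), sq_nonneg (d' - e')]
  rw [← hs]
  have s6 : (X + s) ^ 2 ≤ (1 + ε) * X ^ 2 + (1 + 1 / ε) * s ^ 2 := by
    have h1 : 0 ≤ (ε * X - s) ^ 2 / ε := by positivity
    have h2 : (ε * X - s) ^ 2 / ε = ε * X ^ 2 - 2 * X * s + 1 / ε * s ^ 2 := by
      field_simp
      ring
    rw [h2] at h1
    linarith
  have := mul_le_mul_of_nonneg_left s5 (show 0 ≤ 1 + 1 / ε by positivity)
  linarith

/-- **Comparison of the means.** -/
theorem comb (K1 : S_K1) (K4 : S_K4) (K5 : S_K5) {B : Set ℂ} {h : ℕ → ℝ} (hB : IsOpen B)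
    (hp : ∀ n, 0 < h n) (hh : Tendsto h atTop (𝓝 0)) {f g G1 G2 e : ℕ → ℂ → ℝ} (hf : RB B f)
    (hg : RB B g) (hG1 : RB B G1) (hG2 : RB B G2) (he : RB B e)
    (id : ∀ n, ∀ z ∈ B, f n z = g n z +
      h n * (fderiv ℝ (G1 n) z 1 + fderiv ℝ (G2 n) z I) + h n * e n z)
    {m : ℂ → ℝ} (hm : ContinuousOn m B) {φ : ℂ → ℝ} (hφ : TF B φ) (hφ0 : ∀ z, 0 ≤ φ z)
    {ε : ℝ} (hε : 0 < ε) : ∃ R0 r0 : ℝ, 0 < R0 ∧ 0 < r0 ∧ ∀ᶠ n in atTop, ∀ r : ℝ,
      R0 * h n ≤ r → r ≤ r0 → ∫ z, φ z * (mean r (f n) z - m z) ^ 2 ≤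
        (1 + ε) * (∫ z, φ z * (g n z - m z) ^ 2) + ε := by
  obtain ⟨r1, M, K, r1p, M0, cK, hKB, hSK, hin, hK1⟩ := K1 hB hφ.1.continuous hφ.2.1 hφ.2.2 hφ0
  obtain ⟨L, cL, hLB, hK4⟩ := K4 hB hφ.1.continuous hφ.2.1 hφ.2.2 hφ0
  obtain ⟨Cf, hCf⟩ := hf.2 K cK hKB
  obtain ⟨Cg, hCg⟩ := hg.2 K cK hKB
  obtain ⟨C2', hC2⟩ := hG1.2 K cK hKB
  obtain ⟨C3', hC3⟩ := hG2.2 K cK hKB
  obtain ⟨Ce', hCe⟩ := he.2 K cK hKB
  obtain ⟨CL, hCL⟩ := hg.2 L cL hLB
  have cφ : Continuous φ := hφ.1.continuous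
  obtain ⟨Φ, hΦ⟩ : ∃ Φ : ℝ, Φ = ∫ z, φ z := ⟨_, rfl⟩
  have Φ0 : 0 ≤ Φ := by rw [hΦ]; exact integral_nonneg hφ0
  obtain ⟨P, hP⟩ : ∃ P : ℝ, P = 5 * (1 + 1 / ε) := ⟨_, rfl⟩
  have P0 : 0 ≤ P := by rw [hP]; positivity
  -- the parameters
  obtain ⟨x4, x4p, -, hx4⟩ := sm_le (a := (1 + ε) * (2 * |CL| + 2 * ∫ z in L, m z ^ 2))
    (b := ε / 6) (by
      have : 0 ≤ ∫ z in L, m z ^ 2 := integral_nonneg fun z => sq_nonneg _
      positivity) (by positivity)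
  obtain ⟨x5, x5p, x51, hx5⟩ := sm_le (a := P * Φ) (b := ε / 6) (by positivity) (by positivity)
  obtain ⟨τ, τp, τ1, hτ⟩ := sm_le (a := P * (M * (2 * |Cf| + 2 * |Cg|))) (b := ε / 6)
    (by positivity) (by positivity)
  obtain ⟨χ, hχ, hχτ⟩ := k3 τ τp
  obtain ⟨a2, ha2⟩ : ∃ a : ℝ, a = (∫ c in Metric.ball (0 : ℂ) 1, |fderiv ℝ χ c 1|) ^ 2 := ⟨_, rfl⟩
  obtain ⟨a3, ha3⟩ : ∃ a : ℝ, a = (∫ c in Metric.ball (0 : ℂ) 1, |fderiv ℝ χ c I|) ^ 2 := ⟨_, rfl⟩
  obtain ⟨a4, ha4⟩ : ∃ a : ℝ, a = (∫ c in Metric.ball (0 : ℂ) 1, |χ c|) ^ 2 := ⟨_, rfl⟩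
  have a20 : 0 ≤ a2 := by rw [ha2]; positivity
  have a30 : 0 ≤ a3 := by rw [ha3]; positivity
  have a40 : 0 ≤ a4 := by rw [ha4]; positivity
  obtain ⟨q, qp, q1, hq⟩ := sm_le (a := P * (a2 * (M * |C2'|) + a3 * (M * |C3'|))) (b := ε / 6)
    (by positivity) (by positivity)
  obtain ⟨y, yp, y1, hy⟩ := sm_le (a := P * (a4 * (M * |Ce'|))) (b := ε / 6)
    (by positivity) (by positivity)
  obtain ⟨r4, r4p, hr4⟩ := hK4 x4 x4p
  obtain ⟨r5, r5p, hr5⟩ := K5 hB hφ.2.1 hφ.2.2 hm x5 x5p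
  refine ⟨1 / q, min r1 (min r4 r5), by positivity, by positivity, ?_⟩
  have hev : ∀ᶠ n in atTop, h n < y := hh.eventually (gt_mem_nhds yp)
  filter_upwards [hCf, hCg, hC2, hC3, hCe, hCL, hev] with n bf bg b2 b3 be bL hy' r hr hr'
  have rr1 : r ≤ r1 := hr'.trans (min_le_left _ _)
  have rr4 : r ≤ r4 := hr'.trans ((min_le_right _ _).trans (min_le_left _ _))
  have rr5 : r ≤ r5 := hr'.trans ((min_le_right _ _).trans (min_le_right _ _))
  have hn := hp n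
  have r0 : 0 < r := lt_of_lt_of_le (by positivity) hr
  have hrq : h n / r ≤ q := by
    rw [div_le_iff₀ r0]
    have := mul_le_mul_of_nonneg_left hr qp.le
    have e : q * (1 / q * h n) = h n := by field_simp
    linarith
  have hr0 : 0 ≤ h n / r := by positivity
  have hm1 : ∀ z ∈ tsupport φ, ∀ c ∈ Metric.closedBall (0 : ℂ) 1, z + r * c ∈ K :=
    fun z hz c hc => hin z hz c hc r r0.le rr1
  -- continuity
  have cf := (hf.1 n).continuousOn
  have cg := (hg.1 n).continuousOn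
  have ce := (he.1 n).continuousOn
  have cG1 := (hG1.1 n).continuousOn
  have cG2 := (hG2.1 n).continuousOn
  have cfg : ContinuousOn (fun w => f n w - g n w) B := cf.sub cg
  have cgm : ContinuousOn (fun w => g n w - m w) B := cg.sub hm
  have cχ : ContinuousOn χ (Metric.closedBall (0 : ℂ) 1) := hχ.1.continuous.continuousOn
  have cχ1 : ContinuousOn (fun c => 1 / Real.pi - χ c) (Metric.closedBall (0 : ℂ) 1) :=
    continuousOn_const.sub cχ
  have cd : ∀ v : ℂ, ContinuousOn (fun c => fderiv ℝ χ c v) (Metric.closedBall (0 : ℂ) 1) :=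
    fun v => ((hχ.1.fderiv_right (m := ∞) le_rfl).clm_apply contDiff_const).continuous.continuousOn
  obtain ⟨X, hX⟩ : ∃ X : ℂ → ℝ, X = mean r (fun w => g n w - m w) := ⟨_, rfl⟩
  obtain ⟨Y0, hY0⟩ : ∃ Y : ℂ → ℝ, Y = fun z => mean r m z - m z := ⟨_, rfl⟩
  obtain ⟨Y1, hY1⟩ : ∃ Y : ℂ → ℝ, Y = kav (fun c => 1 / Real.pi - χ c) r
    (fun w => f n w - g n w) := ⟨_, rfl⟩
  obtain ⟨Y2, hY2⟩ : ∃ Y : ℂ → ℝ, Y = kav (fun c => fderiv ℝ χ c 1) r (G1 n) := ⟨_, rfl⟩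
  obtain ⟨Y3, hY3⟩ : ∃ Y : ℂ → ℝ, Y = kav (fun c => fderiv ℝ χ c I) r (G2 n) := ⟨_, rfl⟩
  obtain ⟨Y4, hY4⟩ : ∃ Y : ℂ → ℝ, Y = kav χ r (e n) := ⟨_, rfl⟩
  have kX : ContinuousOn X (tsupport φ) := by
    have : X = kav (fun _ => 1 / Real.pi) r (fun w => g n w - m w) := by
      rw [hX]; funext z; exact mean_kav _ _ _
    rw [this]; exact kco cK hm1 (cgm.mono hKB) continuousOn_const
  have kY0 : ContinuousOn Y0 (tsupport φ) := by
    have : Y0 = fun z => kav (fun _ => 1 / Real.pi) r m z - m z := by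
      rw [hY0]; funext z; rw [mean_kav]
    rw [this]
    exact (kco cK hm1 (hm.mono hKB) continuousOn_const).sub (hm.mono hφ.2.2)
  have kY1 : ContinuousOn Y1 (tsupport φ) := by
    rw [hY1]; exact kco cK hm1 (cfg.mono hKB) cχ1
  have kY2 : ContinuousOn Y2 (tsupport φ) := by
    rw [hY2]; exact kco cK hm1 (cG1.mono hKB) (cd 1)
  have kY3 : ContinuousOn Y3 (tsupport φ) := by
    rw [hY3]; exact kco cK hm1 (cG2.mono hKB) (cd I)
  have kY4 : ContinuousOn Y4 (tsupport φ) := by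
    rw [hY4]; exact kco cK hm1 (ce.mono hKB) cχ
  have int : ∀ {F : ℂ → ℝ}, ContinuousOn F (tsupport φ) → Integrable (fun z => φ z * F z ^ 2) := by
    intro F hF
    refine rint hφ.2.1 (cφ.continuousOn.mul (hF.pow 2)) fun z hz => ?_
    rw [image_eq_zero_of_notMem_tsupport hz, zero_mul]
  -- the bounds
  have m0 : 0 ≤ ∫ z in L, m z ^ 2 := integral_nonneg fun z => sq_nonneg _
  have bX : ∫ z, φ z * X z ^ 2 ≤ (∫ z, φ z * (g n z - m z) ^ 2) +
      x4 * (2 * |CL| + 2 * ∫ z in L, m z ^ 2) := by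
    rw [hX]
    refine (hr4 _ cgm r r0.le rr4).trans ?_
    have h1 : ∫ z in L, (g n z - m z) ^ 2 ≤ 2 * |CL| + 2 * ∫ z in L, m z ^ 2 := by
      have i1 : IntegrableOn (fun z => g n z ^ 2) L :=
        ((cg.mono hLB).pow 2).integrableOn_compact cL
      have i2 : IntegrableOn (fun z => m z ^ 2) L :=
        ((hm.mono hLB).pow 2).integrableOn_compact cL
      have h2 : ∫ z in L, (g n z - m z) ^ 2 ≤ ∫ z in L, (2 * g n z ^ 2 + 2 * m z ^ 2) := by
        refine integral_mono_of_nonneg (ae_of_all _ fun z => sq_nonneg _)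
          ((i1.const_mul 2).add (i2.const_mul 2)) (ae_of_all _ fun z => ?_)
        show (g n z - m z) ^ 2 ≤ 2 * g n z ^ 2 + 2 * m z ^ 2
        nlinarith [sq_nonneg (g n z + m z)]
      rw [integral_add (i1.const_mul 2) (i2.const_mul 2), integral_const_mul,
        integral_const_mul] at h2
      have := bL.trans (le_abs_self CL)
      linarith
    have := mul_le_mul_of_nonneg_left h1 x4p.le
    linarith
  have bY0 : ∫ z, φ z * Y0 z ^ 2 ≤ x5 * Φ := by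
    have h1 : ∫ z, φ z * Y0 z ^ 2 ≤ ∫ z, x5 * φ z := by
      refine integral_mono_of_nonneg (ae_of_all _ fun z => mul_nonneg (hφ0 z) (sq_nonneg _))
        ((cφ.integrable_of_hasCompactSupport hφ.2.1).const_mul _) (ae_of_all _ fun z => ?_)
      show φ z * Y0 z ^ 2 ≤ x5 * φ z
      by_cases hz : z ∈ tsupport φ
      · have h2 : |Y0 z| ≤ x5 := by rw [hY0]; exact hr5 r r0.le rr5 z hz
        have h3 : Y0 z ^ 2 ≤ x5 := by
          rw [← sq_abs]
          have := pow_le_pow_left₀ (abs_nonneg _) h2 2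
          nlinarith
        have := mul_le_mul_of_nonneg_left h3 (hφ0 z)
        linarith
      · rw [image_eq_zero_of_notMem_tsupport hz]; simp
    rwa [integral_const_mul, ← hΦ] at h1
  have bY1 : ∫ z, φ z * Y1 z ^ 2 ≤ τ * (M * (2 * |Cf| + 2 * |Cg|)) := by
    rw [hY1]
    refine (hK1 _ cfg _ cχ1 r r0.le rr1).trans ?_
    have h1 : ∫ z in K, (f n z - g n z) ^ 2 ≤ 2 * |Cf| + 2 * |Cg| := by
      have i1 : IntegrableOn (fun z => f n z ^ 2) K :=
        ((cf.mono hKB).pow 2).integrableOn_compact cK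
      have i2 : IntegrableOn (fun z => g n z ^ 2) K :=
        ((cg.mono hKB).pow 2).integrableOn_compact cK
      have h2 : ∫ z in K, (f n z - g n z) ^ 2 ≤ ∫ z in K, (2 * f n z ^ 2 + 2 * g n z ^ 2) := by
        refine integral_mono_of_nonneg (ae_of_all _ fun z => sq_nonneg _)
          ((i1.const_mul 2).add (i2.const_mul 2)) (ae_of_all _ fun z => ?_)
        show (f n z - g n z) ^ 2 ≤ 2 * f n z ^ 2 + 2 * g n z ^ 2
        nlinarith [sq_nonneg (f n z + g n z)]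
      rw [integral_add (i1.const_mul 2) (i2.const_mul 2), integral_const_mul,
        integral_const_mul] at h2
      have := bf.trans (le_abs_self Cf)
      have := bg.trans (le_abs_self Cg)
      linarith
    have h3 : (∫ c in Metric.ball (0 : ℂ) 1, |1 / Real.pi - χ c|) ^ 2 ≤ τ := by
      have h4 : 0 ≤ ∫ c in Metric.ball (0 : ℂ) 1, |1 / Real.pi - χ c| :=
        integral_nonneg fun c => abs_nonneg _
      have := pow_le_pow_left₀ h4 hχτ 2
      nlinarith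
    have h5 : 0 ≤ ∫ z in K, (f n z - g n z) ^ 2 := integral_nonneg fun z => sq_nonneg _
    exact mul_le_mul h3 (mul_le_mul_of_nonneg_left h1 M0) (mul_nonneg M0 h5) τp.le
  have bY2 : ∫ z, φ z * Y2 z ^ 2 ≤ a2 * (M * |C2'|) := by
    rw [hY2, ha2]
    refine (hK1 _ cG1 _ (cd 1) r r0.le rr1).trans ?_
    exact mul_le_mul_of_nonneg_left (mul_le_mul_of_nonneg_left (b2.trans (le_abs_self _)) M0)
      (sq_nonneg _)
  have bY3 : ∫ z, φ z * Y3 z ^ 2 ≤ a3 * (M * |C3'|) := by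
    rw [hY3, ha3]
    refine (hK1 _ cG2 _ (cd I) r r0.le rr1).trans ?_
    exact mul_le_mul_of_nonneg_left (mul_le_mul_of_nonneg_left (b3.trans (le_abs_self _)) M0)
      (sq_nonneg _)
  have bY4 : ∫ z, φ z * Y4 z ^ 2 ≤ a4 * (M * |Ce'|) := by
    rw [hY4, ha4]
    refine (hK1 _ ce _ cχ r r0.le rr1).trans ?_
    exact mul_le_mul_of_nonneg_left (mul_le_mul_of_nonneg_left (be.trans (le_abs_self _)) M0)
      (sq_nonneg _)
  -- the sum
  have i0 : Integrable (fun z => (1 + ε) * (φ z * X z ^ 2)) := (int kX).const_mul _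
  have j0 : Integrable (fun z => P * (φ z * Y0 z ^ 2)) := (int kY0).const_mul _
  have j1 : Integrable (fun z => P * (φ z * Y1 z ^ 2)) := (int kY1).const_mul _
  have j2 : Integrable (fun z => P * (h n / r) ^ 2 * (φ z * Y2 z ^ 2)) := (int kY2).const_mul _
  have j3 : Integrable (fun z => P * (h n / r) ^ 2 * (φ z * Y3 z ^ 2)) := (int kY3).const_mul _
  have j4 : Integrable (fun z => P * h n ^ 2 * (φ z * Y4 z ^ 2)) := (int kY4).const_mul _
  have l1 : Integrable (fun z => P * (φ z * Y0 z ^ 2) + P * (φ z * Y1 z ^ 2)) := j0.add j1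
  have l2 : Integrable (fun z => P * (φ z * Y0 z ^ 2) + P * (φ z * Y1 z ^ 2) +
    P * (h n / r) ^ 2 * (φ z * Y2 z ^ 2)) := l1.add j2
  have l3 : Integrable (fun z => P * (φ z * Y0 z ^ 2) + P * (φ z * Y1 z ^ 2) +
    P * (h n / r) ^ 2 * (φ z * Y2 z ^ 2) + P * (h n / r) ^ 2 * (φ z * Y3 z ^ 2)) := l2.add j3
  have l4 : Integrable (fun z => P * (φ z * Y0 z ^ 2) + P * (φ z * Y1 z ^ 2) +
    P * (h n / r) ^ 2 * (φ z * Y2 z ^ 2) + P * (h n / r) ^ 2 * (φ z * Y3 z ^ 2) +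
      P * h n ^ 2 * (φ z * Y4 z ^ 2)) := l3.add j4
  have main : ∫ z, φ z * (mean r (f n) z - m z) ^ 2 ≤ ∫ z, ((1 + ε) * (φ z * X z ^ 2) +
      (P * (φ z * Y0 z ^ 2) + P * (φ z * Y1 z ^ 2) + P * (h n / r) ^ 2 * (φ z * Y2 z ^ 2) +
        P * (h n / r) ^ 2 * (φ z * Y3 z ^ 2) + P * h n ^ 2 * (φ z * Y4 z ^ 2))) := by
    refine integral_mono_of_nonneg (ae_of_all _ fun z => mul_nonneg (hφ0 z) (sq_nonneg _))
      (i0.add l4) (ae_of_all _ fun z => ?_)
    show φ z * (mean r (f n) z - m z) ^ 2 ≤ (1 + ε) * (φ z * X z ^ 2) +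
      (P * (φ z * Y0 z ^ 2) + P * (φ z * Y1 z ^ 2) + P * (h n / r) ^ 2 * (φ z * Y2 z ^ 2) +
        P * (h n / r) ^ 2 * (φ z * Y3 z ^ 2) + P * h n ^ 2 * (φ z * Y4 z ^ 2))
    by_cases hz : z ∈ tsupport φ
    · have D := dec hB hKB cf cg (hG1.1 n) (hG2.1 n) ce hm (id n) hχ r0 (hm1 z hz)
      have D' : mean r (f n) z - m z = X z + (Y0 z + Y1 z + (-(h n / r)) * Y2 z +
          (-(h n / r)) * Y3 z + h n * Y4 z) := by
        rw [hX, hY0, hY1, hY2, hY3, hY4]; exact D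
      rw [D']
      have s8 := mul_le_mul_of_nonneg_left (alg hε (X z) (Y0 z) (Y1 z) (Y2 z) (Y3 z) (Y4 z)
        (h n / r) (h n)) (hφ0 z)
      rw [← hP] at s8
      linarith
    · rw [image_eq_zero_of_notMem_tsupport hz]; simp
  rw [integral_add i0 l4, integral_add l3 j4, integral_add l2 j3, integral_add l1 j2,
    integral_add j0 j1] at main
  simp only [integral_const_mul] at main
  refine main.trans ?_
  have t1 := mul_le_mul_of_nonneg_left bX (show 0 ≤ 1 + ε by positivity)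
  have t2 := mul_le_mul_of_nonneg_left bY0 P0
  have t3 := mul_le_mul_of_nonneg_left bY1 P0
  have hr2 : (h n / r) ^ 2 ≤ q := by
    have := pow_le_pow_left₀ hr0 hrq 2
    nlinarith
  have hn2 : h n ^ 2 ≤ y := by nlinarith
  have n2 : 0 ≤ ∫ z, φ z * Y2 z ^ 2 := integral_nonneg fun z => mul_nonneg (hφ0 z) (sq_nonneg _)
  have n3 : 0 ≤ ∫ z, φ z * Y3 z ^ 2 := integral_nonneg fun z => mul_nonneg (hφ0 z) (sq_nonneg _)
  have n4 : 0 ≤ ∫ z, φ z * Y4 z ^ 2 := integral_nonneg fun z => mul_nonneg (hφ0 z) (sq_nonneg _)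
  have t4 : P * (h n / r) ^ 2 * (∫ z, φ z * Y2 z ^ 2) ≤ P * (q * (a2 * (M * |C2'|))) := by
    rw [mul_assoc]
    exact mul_le_mul_of_nonneg_left (mul_le_mul hr2 bY2 n2 qp.le) P0
  have t5 : P * (h n / r) ^ 2 * (∫ z, φ z * Y3 z ^ 2) ≤ P * (q * (a3 * (M * |C3'|))) := by
    rw [mul_assoc]
    exact mul_le_mul_of_nonneg_left (mul_le_mul hr2 bY3 n3 qp.le) P0
  have t6 : P * h n ^ 2 * (∫ z, φ z * Y4 z ^ 2) ≤ P * (y * (a4 * (M * |Ce'|))) := by
    rw [mul_assoc]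
    exact mul_le_mul_of_nonneg_left (mul_le_mul hn2 bY4 n4 yp.le) P0
  linarith

end

end Pool.Agent.P8H31.VC
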