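import Pool.Agent.P8H31.VC.Comb

/-!
Project VC (helper31): the means of `f = g + h ∂G + h e` and of `g` are close.
-/

set_option autoImplicit false
open MeasureTheory Filter Topology Complex
open scoped ContDiff ENNReal

namespace Pool.Agent.P8H31.VC

open Pool.Agent.W745.RW Pool.Agent.TH294.RS Pool.Agent.TH294.RG Pool.Agent.TH421.DF
open Pool.Agent.TH421.AC Pool.Agent.P8H31.NZ Pool.Agent.P8H86.VC

noncomputable section

lemma alg2 (b c d e k l : ℝ) :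
    (b + (-k) * c + (-k) * d + l * e) ^ 2 ≤
      4 * (b ^ 2 + k ^ 2 * c ^ 2 + k ^ 2 * d ^ 2 + l ^ 2 * e ^ 2) := by
  obtain ⟨c', hc⟩ : ∃ x : ℝ, x = (-k) * c := ⟨_, rfl⟩
  obtain ⟨d', hd⟩ : ∃ x : ℝ, x = (-k) * d := ⟨_, rfl⟩
  obtain ⟨e', he⟩ : ∃ x : ℝ, x = l * e := ⟨_, rfl⟩
  have ec : k ^ 2 * c ^ 2 = c' ^ 2 := by rw [hc]; ring
  have ed : k ^ 2 * d ^ 2 = d' ^ 2 := by rw [hd]; ring
  have ee : l ^ 2 * e ^ 2 = e' ^ 2 := by rw [he]; ring
  rw [ec, ed, ee, ← hc, ← hd, ← he]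
  linarith [sq_nonneg (b - c'), sq_nonneg (b - d'), sq_nonneg (b - e'), sq_nonneg (c' - d'),
      sq_nonneg (c' - e'), sq_nonneg (d' - e')]

/-- the means of `f` and `g` are close -/
theorem comb2 (K1 : S_K1) {B : Set ℂ} {h : ℕ → ℝ} (hB : IsOpen B)
    (hp : ∀ n, 0 < h n) (hh : Tendsto h atTop (𝓝 0)) {f g G1 G2 e : ℕ → ℂ → ℝ} (hf : RB B f)
    (hg : RB B g) (hG1 : RB B G1) (hG2 : RB B G2) (he : RB B e)
    (id : ∀ n, ∀ z ∈ B, f n z = g n z +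
      h n * (fderiv ℝ (G1 n) z 1 + fderiv ℝ (G2 n) z I) + h n * e n z)
    {φ : ℂ → ℝ} (hφ : TF B φ) (hφ0 : ∀ z, 0 ≤ φ z)
    {ε : ℝ} (hε : 0 < ε) : ∃ R0 r0 : ℝ, 0 < R0 ∧ 0 < r0 ∧ ∀ᶠ n in atTop, ∀ r : ℝ,
      R0 * h n ≤ r → r ≤ r0 → ∫ z, φ z * (mean r (f n) z - mean r (g n) z) ^ 2 ≤ ε := by
  obtain ⟨r1, M, K, r1p, M0, cK, hKB, hSK, hin, hK1⟩ := K1 hB hφ.1.continuous hφ.2.1 hφ.2.2 hφ0
  obtain ⟨Cf, hCf⟩ := hf.2 K cK hKB
  obtain ⟨Cg, hCg⟩ := hg.2 K cK hKB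
  obtain ⟨C2', hC2⟩ := hG1.2 K cK hKB
  obtain ⟨C3', hC3⟩ := hG2.2 K cK hKB
  obtain ⟨Ce', hCe⟩ := he.2 K cK hKB
  have cφ : Continuous φ := hφ.1.continuous
  obtain ⟨P, hP⟩ : ∃ P : ℝ, P = 4 := ⟨_, rfl⟩
  have P0 : 0 ≤ P := by rw [hP]; norm_num
  -- the parameters
  obtain ⟨τ, τp, τ1, hτ⟩ := sm_le (a := P * (M * (2 * |Cf| + 2 * |Cg|))) (b := ε / 6)
    (by positivity) (by positivity)
  obtain ⟨χ, hχ, hχτ⟩ := k3 τ τp
  obtain ⟨a2, ha2⟩ : ∃ a : ℝ, a = (∫ c in Metric.ball (0 : ℂ) 1, |fderiv ℝ χ c 1|) ^ 2 := ⟨_, rfl⟩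
  obtain ⟨a3, ha3⟩ : ∃ a : ℝ, a = (∫ c in Metric.ball (0 : ℂ) 1, |fderiv ℝ χ c I|) ^ 2 := ⟨_, rfl⟩
  obtain ⟨a4, ha4⟩ : ∃ a : ℝ, a = (∫ c in Metric.ball (0 : ℂ) 1, |χ c|) ^ 2 := ⟨_, rfl⟩
  have a20 : 0 ≤ a2 := by rw [ha2]; positivity
  have a30 : 0 ≤ a3 := by rw [ha3]; positivity
  have a40 : 0 ≤ a4 := by rw [ha4]; positivity
  obtain ⟨q, qp, q1, hq⟩ := sm_le (a := P * (a2 * (M * |C2'|) + a3 * (M * |C3'|))) (b := ε / 6)
    (by positivity) (by positivity)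
  obtain ⟨y, yp, y1, hy⟩ := sm_le (a := P * (a4 * (M * |Ce'|))) (b := ε / 6)
    (by positivity) (by positivity)
  refine ⟨1 / q, r1, by positivity, by positivity, ?_⟩
  have hev : ∀ᶠ n in atTop, h n < y := hh.eventually (gt_mem_nhds yp)
  filter_upwards [hCf, hCg, hC2, hC3, hCe, hev] with n bf bg b2 b3 be hy' r hr rr1
  have hn := hp n
  have r0 : 0 < r := lt_of_lt_of_le (by positivity) hr
  have hrq : h n / r ≤ q := by
    rw [div_le_iff₀ r0]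
    have := mul_le_mul_of_nonneg_left hr qp.le
    have e : q * (1 / q * h n) = h n := by field_simp
    linarith
  have hr0 : 0 ≤ h n / r := by positivity
  have hm1 : ∀ z ∈ tsupport φ, ∀ c ∈ Metric.closedBall (0 : ℂ) 1, z + r * c ∈ K :=
    fun z hz c hc => hin z hz c hc r r0.le rr1
  -- continuity
  have cf := (hf.1 n).continuousOn
  have cg := (hg.1 n).continuousOn
  have ce := (he.1 n).continuousOn
  have cG1 := (hG1.1 n).continuousOn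
  have cG2 := (hG2.1 n).continuousOn
  have cfg : ContinuousOn (fun w => f n w - g n w) B := cf.sub cg
  have cχ : ContinuousOn χ (Metric.closedBall (0 : ℂ) 1) := hχ.1.continuous.continuousOn
  have cχ1 : ContinuousOn (fun c => 1 / Real.pi - χ c) (Metric.closedBall (0 : ℂ) 1) :=
    continuousOn_const.sub cχ
  have cd : ∀ v : ℂ, ContinuousOn (fun c => fderiv ℝ χ c v) (Metric.closedBall (0 : ℂ) 1) :=
    fun v => ((hχ.1.fderiv_right (m := ∞) le_rfl).clm_apply contDiff_const).continuous.continuousOn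
  obtain ⟨Y1, hY1⟩ : ∃ Y : ℂ → ℝ, Y = kav (fun c => 1 / Real.pi - χ c) r
    (fun w => f n w - g n w) := ⟨_, rfl⟩
  obtain ⟨Y2, hY2⟩ : ∃ Y : ℂ → ℝ, Y = kav (fun c => fderiv ℝ χ c 1) r (G1 n) := ⟨_, rfl⟩
  obtain ⟨Y3, hY3⟩ : ∃ Y : ℂ → ℝ, Y = kav (fun c => fderiv ℝ χ c I) r (G2 n) := ⟨_, rfl⟩
  obtain ⟨Y4, hY4⟩ : ∃ Y : ℂ → ℝ, Y = kav χ r (e n) := ⟨_, rfl⟩
  have kY1 : ContinuousOn Y1 (tsupport φ) := by
    rw [hY1]; exact kco cK hm1 (cfg.mono hKB) cχ1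
  have kY2 : ContinuousOn Y2 (tsupport φ) := by
    rw [hY2]; exact kco cK hm1 (cG1.mono hKB) (cd 1)
  have kY3 : ContinuousOn Y3 (tsupport φ) := by
    rw [hY3]; exact kco cK hm1 (cG2.mono hKB) (cd I)
  have kY4 : ContinuousOn Y4 (tsupport φ) := by
    rw [hY4]; exact kco cK hm1 (ce.mono hKB) cχ
  have int : ∀ {F : ℂ → ℝ}, ContinuousOn F (tsupport φ) → Integrable (fun z => φ z * F z ^ 2) := by
    intro F hF
    refine rint hφ.2.1 (cφ.continuousOn.mul (hF.pow 2)) fun z hz => ?_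
    rw [image_eq_zero_of_notMem_tsupport hz, zero_mul]
  have bY1 : ∫ z, φ z * Y1 z ^ 2 ≤ τ * (M * (2 * |Cf| + 2 * |Cg|)) := by
    rw [hY1]
    refine (hK1 _ cfg _ cχ1 r r0.le rr1).trans ?_
    have h1 : ∫ z in K, (f n z - g n z) ^ 2 ≤ 2 * |Cf| + 2 * |Cg| := by
      have i1 : IntegrableOn (fun z => f n z ^ 2) K :=
        ((cf.mono hKB).pow 2).integrableOn_compact cK
      have i2 : IntegrableOn (fun z => g n z ^ 2) K :=
        ((cg.mono hKB).pow 2).integrableOn_compact cK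
      have h2 : ∫ z in K, (f n z - g n z) ^ 2 ≤ ∫ z in K, (2 * f n z ^ 2 + 2 * g n z ^ 2) := by
        refine integral_mono_of_nonneg (ae_of_all _ fun z => sq_nonneg _)
          ((i1.const_mul 2).add (i2.const_mul 2)) (ae_of_all _ fun z => ?_)
        show (f n z - g n z) ^ 2 ≤ 2 * f n z ^ 2 + 2 * g n z ^ 2
        nlinarith [sq_nonneg (f n z + g n z)]
      rw [integral_add (i1.const_mul 2) (i2.const_mul 2), integral_const_mul,
        integral_const_mul] at h2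
      have := bf.trans (le_abs_self Cf)
      have := bg.trans (le_abs_self Cg)
      linarith
    have h3 : (∫ c in Metric.ball (0 : ℂ) 1, |1 / Real.pi - χ c|) ^ 2 ≤ τ := by
      have h4 : 0 ≤ ∫ c in Metric.ball (0 : ℂ) 1, |1 / Real.pi - χ c| :=
        integral_nonneg fun c => abs_nonneg _
      have := pow_le_pow_left₀ h4 hχτ 2
      nlinarith
    have h5 : 0 ≤ ∫ z in K, (f n z - g n z) ^ 2 := integral_nonneg fun z => sq_nonneg _
    exact mul_le_mul h3 (mul_le_mul_of_nonneg_left h1 M0) (mul_nonneg M0 h5) τp.le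
  have bY2 : ∫ z, φ z * Y2 z ^ 2 ≤ a2 * (M * |C2'|) := by
    rw [hY2, ha2]
    refine (hK1 _ cG1 _ (cd 1) r r0.le rr1).trans ?_
    exact mul_le_mul_of_nonneg_left (mul_le_mul_of_nonneg_left (b2.trans (le_abs_self _)) M0)
      (sq_nonneg _)
  have bY3 : ∫ z, φ z * Y3 z ^ 2 ≤ a3 * (M * |C3'|) := by
    rw [hY3, ha3]
    refine (hK1 _ cG2 _ (cd I) r r0.le rr1).trans ?_
    exact mul_le_mul_of_nonneg_left (mul_le_mul_of_nonneg_left (b3.trans (le_abs_self _)) M0)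
      (sq_nonneg _)
  have bY4 : ∫ z, φ z * Y4 z ^ 2 ≤ a4 * (M * |Ce'|) := by
    rw [hY4, ha4]
    refine (hK1 _ ce _ cχ r r0.le rr1).trans ?_
    exact mul_le_mul_of_nonneg_left (mul_le_mul_of_nonneg_left (be.trans (le_abs_self _)) M0)
      (sq_nonneg _)
  -- the sum
  have j1 : Integrable (fun z => P * (φ z * Y1 z ^ 2)) := (int kY1).const_mul _
  have j2 : Integrable (fun z => P * (h n / r) ^ 2 * (φ z * Y2 z ^ 2)) := (int kY2).const_mul _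
  have j3 : Integrable (fun z => P * (h n / r) ^ 2 * (φ z * Y3 z ^ 2)) := (int kY3).const_mul _
  have j4 : Integrable (fun z => P * h n ^ 2 * (φ z * Y4 z ^ 2)) := (int kY4).const_mul _
  have l2 : Integrable (fun z => P * (φ z * Y1 z ^ 2) +
    P * (h n / r) ^ 2 * (φ z * Y2 z ^ 2)) := j1.add j2
  have l3 : Integrable (fun z => P * (φ z * Y1 z ^ 2) +
    P * (h n / r) ^ 2 * (φ z * Y2 z ^ 2) + P * (h n / r) ^ 2 * (φ z * Y3 z ^ 2)) := l2.add j3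
  have l4 : Integrable (fun z => P * (φ z * Y1 z ^ 2) +
    P * (h n / r) ^ 2 * (φ z * Y2 z ^ 2) + P * (h n / r) ^ 2 * (φ z * Y3 z ^ 2) +
      P * h n ^ 2 * (φ z * Y4 z ^ 2)) := l3.add j4
  have main : ∫ z, φ z * (mean r (f n) z - mean r (g n) z) ^ 2 ≤ ∫ z, (P * (φ z * Y1 z ^ 2) +
      P * (h n / r) ^ 2 * (φ z * Y2 z ^ 2) +
        P * (h n / r) ^ 2 * (φ z * Y3 z ^ 2) + P * h n ^ 2 * (φ z * Y4 z ^ 2)) := by
    refine integral_mono_of_nonneg (ae_of_all _ fun z => mul_nonneg (hφ0 z) (sq_nonneg _))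
      l4 (ae_of_all _ fun z => ?_)
    show φ z * (mean r (f n) z - mean r (g n) z) ^ 2 ≤ P * (φ z * Y1 z ^ 2) +
      P * (h n / r) ^ 2 * (φ z * Y2 z ^ 2) +
        P * (h n / r) ^ 2 * (φ z * Y3 z ^ 2) + P * h n ^ 2 * (φ z * Y4 z ^ 2)
    by_cases hz : z ∈ tsupport φ
    · have D := dec hB hKB cf cg (hG1.1 n) (hG2.1 n) ce (m := fun _ => 0) continuousOn_const
        (id n) hχ r0 (hm1 z hz)
      simp only [sub_zero] at D
      have z0 : mean r (fun _ => (0 : ℝ)) z = 0 := by unfold mean; simp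
      rw [z0, zero_add] at D
      have D' : mean r (f n) z - mean r (g n) z = Y1 z + (-(h n / r)) * Y2 z +
          (-(h n / r)) * Y3 z + h n * Y4 z := by
        rw [hY1, hY2, hY3, hY4]
        linarith
      rw [D']
      have s8 := mul_le_mul_of_nonneg_left (alg2 (Y1 z) (Y2 z) (Y3 z) (Y4 z)
        (h n / r) (h n)) (hφ0 z)
      rw [← hP] at s8
      linarith
    · rw [image_eq_zero_of_notMem_tsupport hz]; simp
  rw [integral_add l3 j4, integral_add l2 j3, integral_add j1 j2] at main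
  simp only [integral_const_mul] at main
  refine main.trans ?_
  have t3 := mul_le_mul_of_nonneg_left bY1 P0
  have hr2 : (h n / r) ^ 2 ≤ q := by
    have := pow_le_pow_left₀ hr0 hrq 2
    nlinarith
  have hn2 : h n ^ 2 ≤ y := by nlinarith
  have n2 : 0 ≤ ∫ z, φ z * Y2 z ^ 2 := integral_nonneg fun z => mul_nonneg (hφ0 z) (sq_nonneg _)
  have n3 : 0 ≤ ∫ z, φ z * Y3 z ^ 2 := integral_nonneg fun z => mul_nonneg (hφ0 z) (sq_nonneg _)
  have n4 : 0 ≤ ∫ z, φ z * Y4 z ^ 2 := integral_nonneg fun z => mul_nonneg (hφ0 z) (sq_nonneg _)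
  have t4 : P * (h n / r) ^ 2 * (∫ z, φ z * Y2 z ^ 2) ≤ P * (q * (a2 * (M * |C2'|))) := by
    rw [mul_assoc]
    exact mul_le_mul_of_nonneg_left (mul_le_mul hr2 bY2 n2 qp.le) P0
  have t5 : P * (h n / r) ^ 2 * (∫ z, φ z * Y3 z ^ 2) ≤ P * (q * (a3 * (M * |C3'|))) := by
    rw [mul_assoc]
    exact mul_le_mul_of_nonneg_left (mul_le_mul hr2 bY3 n3 qp.le) P0
  have t6 : P * h n ^ 2 * (∫ z, φ z * Y4 z ^ 2) ≤ P * (y * (a4 * (M * |Ce'|))) := by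
    rw [mul_assoc]
    exact mul_le_mul_of_nonneg_left (mul_le_mul hn2 bY4 n4 yp.le) P0
  linarith

end

end Pool.Agent.P8H31.VC
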