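import Pool.Agent.P8H31.VC.Phase
import Pool.Agent.P8H76.VC.E3

/-!
Project VC (helper31): the limits of the phase space averages; Wiener average.
-/

set_option autoImplicit false
open MeasureTheory Filter Topology Complex ProbabilityTheory
open scoped ContDiff ENNReal

namespace Pool.Agent.P8H31.VC

open Pool.Agent.W745.RW Pool.Agent.TH294.RS Pool.Agent.TH294.RG Pool.Agent.TH421.DF
open Pool.Agent.TH421.AC Pool.Agent.P8H31.NZ Pool.Agent.P8H86.VC

noncomputable section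

variable {m : ℂ → ℝ} {ν : Kernel ℂ ℝ}

/-- the limit of `D^i u conj (D^j u)` -/
def lmt (m : ℂ → ℝ) (ν : Kernel ℂ ℝ) (i j : ℕ) (z : ℂ) : ℂ :=
  (m z : ℂ) * ∫ α, ea α ^ i * (starRingEnd ℂ) (ea α ^ j) ∂(ν z)

lemma ea_cc (α : ℝ) : ea α * (starRingEnd ℂ) (ea α) = 1 := by
  rw [Complex.mul_conj, Complex.normSq_eq_norm_sq, ea_norm]; simp

lemma ea_ge {i j : ℕ} (hij : j ≤ i) (α : ℝ) :
    ea α ^ i * (starRingEnd ℂ) (ea α ^ j) = ea α ^ (i - j) := by
  obtain ⟨k, rfl⟩ := Nat.exists_eq_add_of_le hij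
  rw [map_pow, pow_add, Nat.add_sub_cancel_left]
  have : ea α ^ j * (starRingEnd ℂ) (ea α) ^ j = 1 := by rw [← mul_pow, ea_cc, one_pow]
  linear_combination (ea α ^ k) * this

lemma ea_le {i j : ℕ} (hij : i ≤ j) (α : ℝ) :
    ea α ^ i * (starRingEnd ℂ) (ea α ^ j) = (starRingEnd ℂ) (ea α ^ (j - i)) := by
  obtain ⟨k, rfl⟩ := Nat.exists_eq_add_of_le hij
  rw [map_pow, map_pow, pow_add, Nat.add_sub_cancel_left]
  have : ea α ^ i * (starRingEnd ℂ) (ea α) ^ i = 1 := by rw [← mul_pow, ea_cc, one_pow]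
  linear_combination ((starRingEnd ℂ) (ea α) ^ k) * this

lemma neg1 (k : ℕ) : ((-1 : ℂ)) ^ k * (-1) ^ k = 1 := by
  rw [← mul_pow]; simp

/-- even order -/
lemma cc_lmt {i j : ℕ} (hij : Even (i + j)) (z : ℂ) :
    cc (MM m ea ν) (i : ℤ) (-(j : ℤ)) z = (-1) ^ j * lmt m ν i j z := by
  have e1 : Even ((i : ℤ) + -(j : ℤ)) := by
    rw [Int.even_iff]
    rw [Nat.even_iff] at hij
    omega
  unfold cc
  rw [if_pos e1, Int.natAbs_natCast]
  have e2 : ((-1 : ℂ)) ^ i = (-1) ^ j := by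
    rcases Nat.even_or_odd i with h | h
    · rw [h.neg_one_pow, ((Nat.even_add.1 hij).1 h).neg_one_pow]
    · have : Odd j := by
        rw [← Nat.not_even_iff_odd] at h ⊢
        exact fun hj => h ((Nat.even_add.1 hij).2 hj)
      rw [h.neg_one_pow, this.neg_one_pow]
  rw [e2]
  congr 1
  unfold MZ lmt
  rcases le_or_gt j i with h | h
  · rw [if_pos (by omega)]
    have e3 : ((i : ℤ) + -(j : ℤ)).natAbs = i - j := by omega
    rw [e3]
    simp only [ea_ge h]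
    rfl
  · rw [if_neg (by omega)]
    have e3 : ((i : ℤ) + -(j : ℤ)).natAbs = j - i := by omega
    rw [e3]
    simp only [ea_le h.le]
    have e4 : ((-1 : ℂ)) ^ (j - i) = 1 := by
      refine Even.neg_one_pow ?_
      rw [Nat.even_iff] at hij ⊢
      omega
    rw [e4, one_mul]
    show (starRingEnd ℂ) ((m z : ℂ) * ∫ α, ea α ^ (j - i) ∂(ν z)) = _
    rw [map_mul, conj_ofReal]
    congr 1
    exact integral_conj.symm

/-- odd order -/
lemma cc_odd {i j : ℕ} (hij : ¬ Even (i + j)) (z : ℂ) :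
    cc (MM m ea ν) (i : ℤ) (-(j : ℤ)) z = 0 := by
  unfold cc
  rw [if_neg]
  rw [Int.even_iff]
  rw [Nat.even_iff] at hij
  omega

/-- smoothness of the limits -/
lemma lmt_sm {Ω : Set ℂ} (hm : ContDiffOn ℝ ∞ m Ω)
    (hν : ∀ k : ℕ, Even k → ∃ c : ℂ → ℂ, ContDiffOn ℝ ∞ c Ω ∧
      ∀ᵐ z ∂(volume.restrict Ω), ∫ α, ea α ^ k ∂(ν z) = c z) {i j : ℕ} (hij : Even (i + j)) :
    ∃ c : ℂ → ℂ, ContDiffOn ℝ ∞ c Ω ∧ ∀ᵐ z ∂(volume.restrict Ω), lmt m ν i j z = c z := by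
  have hm' : ContDiffOn ℝ ∞ (fun z => (m z : ℂ)) Ω := ofRealCLM.contDiff.comp_contDiffOn hm
  rcases le_or_gt j i with h | h
  · obtain ⟨c, hc, hc'⟩ := hν (i - j) (by rw [Nat.even_iff] at hij ⊢; omega)
    refine ⟨fun z => (m z : ℂ) * c z, hm'.mul hc, hc'.mono fun z hz => ?_⟩
    unfold lmt
    simp only [ea_ge h]
    rw [hz]
  · obtain ⟨c, hc, hc'⟩ := hν (j - i) (by rw [Nat.even_iff] at hij ⊢; omega)
    refine ⟨fun z => (m z : ℂ) * (starRingEnd ℂ) (c z), hm'.mul ?_, hc'.mono fun z hz => ?_⟩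
    · exact conjCLE.contDiff.comp_contDiffOn hc
    · unfold lmt
      simp only [ea_le h.le]
      rw [← hz]
      congr 1
      exact integral_conj

/-- the products of the ladder -/
lemma pr_eq (a : ℂ → ℝ) (h : ℕ → ℝ) (u : ℕ → ℂ → ℝ) (i j : ℕ) (n : ℕ) (z : ℂ) :
    pr a h u (i : ℤ) (-(j : ℤ)) n z = (-1) ^ j *
      ((DP a (h n))^[i] (fun w => (u n w : ℂ)) z *
        (starRingEnd ℂ) ((DP a (h n))^[j] (fun w => (u n w : ℂ)) z)) := by
  unfold pr
  rw [ww_neg (fun n z => conj_ofReal _), ww_nat]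
  unfold wn
  ring

end

end Pool.Agent.P8H31.VC
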