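import Pool.Agent.P8H31.VC.Conv

/-!
Project VC (helper31): the phase space averages in terms of the operator; the limits of odd order
vanish; the Wiener average.
-/

set_option autoImplicit false
open MeasureTheory Filter Topology Complex ProbabilityTheory
open scoped ContDiff ENNReal

namespace Pool.Agent.P8H31.VC

open Pool.Agent.W745.RW Pool.Agent.TH294.RS Pool.Agent.TH294.RG Pool.Agent.TH421.DF
open Pool.Agent.TH421.AC Pool.Agent.P8H31.NZ Pool.Agent.P8H86.VC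

noncomputable section

variable {m : ℂ → ℝ} {ν : Kernel ℂ ℝ} {Ω : Set ℂ} {a : ℂ → ℝ} {h : ℕ → ℝ}
  {u : ℕ → ℂ → ℝ} {K : Set ℂ} {T : ℝ}

/-- the limits of odd order vanish -/
lemma Hyp.odd (Y : Hyp m ν Ω a h u K T) {k : ℕ} (hk : ¬ Even k) :
    ∀ᵐ z ∂(volume.restrict (interior K)), MM m ea ν k z = 0 := by
  have hB : IsOpen (interior K) := isOpen_interior
  have ml := Y.ag.ml k
  have hloc : LocallyIntegrableOn (MM m ea ν k) (interior K) := by
    rw [locallyIntegrableOn_iff hB.isLocallyClosed]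
    intro K' hK'B hK'
    have : IsFiniteMeasure (volume.restrict K') := ⟨by simpa using hK'.measure_lt_top⟩
    exact (ml K' hK' hK'B).integrable one_le_two
  have h1 := hB.ae_eq_zero_of_integral_contDiff_smul_eq_zero hloc (fun g hg hgc hgs => by
    have t : TF (interior K) g := ⟨hg, hgc, hgs⟩
    have l1 := (Y.ag.qe k).lim g t
    have l2 := (Y.ag.two hB 0 (k : ℤ)).lim g t
    have l3 := tendsto_nhds_unique l1 l2
    have e0 : ∀ z, cc (MM m ea ν) 0 (k : ℤ) z = 0 := by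
      intro z
      unfold cc
      rw [if_neg]
      rw [zero_add, Int.even_coe_nat]
      exact hk
    simp only [e0, mul_zero, integral_zero] at l3
    rw [← l3]
    congr 1)
  rw [ae_restrict_iff' hB.measurableSet]
  exact h1

/-- the limits in all orders -/
lemma Hyp.key (Y : Hyp m ν Ω a h u K T) (i j : ℕ) :
    ∀ᵐ z ∂(volume.restrict (interior K)),
      cc (MM m ea ν) (i : ℤ) (-(j : ℤ)) z = (-1) ^ j * lmt m ν i j z := by
  by_cases hij : Even (i + j)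
  · exact ae_of_all _ fun z => cc_lmt hij z
  · rcases le_or_gt j i with h' | h'
    · refine (Y.odd (k := i - j) (by rw [Nat.even_iff] at hij ⊢; omega)).mono fun z hz => ?_
      rw [cc_odd hij]
      unfold lmt
      simp only [ea_ge h']
      have : (m z : ℂ) * ∫ α, ea α ^ (i - j) ∂(ν z) = MM m ea ν (i - j) z := rfl
      rw [this, hz, mul_zero]
    · refine (Y.odd (k := j - i) (by rw [Nat.even_iff] at hij ⊢; omega)).mono fun z hz => ?_
      rw [cc_odd hij]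
      unfold lmt
      simp only [ea_le h'.le]
      have : (m z : ℂ) * ∫ α, (starRingEnd ℂ) (ea α ^ (j - i)) ∂(ν z) =
          (starRingEnd ℂ) (MM m ea ν (j - i) z) := by
        show _ = (starRingEnd ℂ) ((m z : ℂ) * ∫ α, ea α ^ (j - i) ∂(ν z))
        rw [map_mul, conj_ofReal]
        congr 1
        exact integral_conj
      rw [this, hz, map_zero, mul_zero]

/-- the phase space density of order `(i, j)` -/
def dn (a : ℂ → ℝ) (h : ℕ → ℝ) (u : ℕ → ℂ → ℝ) (i j : ℕ) (n : ℕ) (z : ℂ) : ℂ :=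
  (DP a (h n))^[i] (fun w => (u n w : ℂ)) z *
    (starRingEnd ℂ) ((DP a (h n))^[j] (fun w => (u n w : ℂ)) z)

lemma nn1 (j : ℕ) (x : ℂ) : ‖(-1) ^ j * x‖ = ‖x‖ := by
  rw [norm_mul, norm_pow, norm_neg, norm_one, one_pow, one_mul]

lemma cmean_cmul (c : ℂ) (r : ℝ) (f : ℂ → ℂ) (z : ℂ) :
    cmean r (fun z => c * f z) z = c * cmean r f z := by
  unfold cmean
  rw [integral_const_mul]
  ring

/-- a version with a smooth limit -/
lemma Hyp.conv (Y : Hyp m ν Ω a h u K T) {φ : ℂ → ℝ} (hφ : TF (interior K) φ) (i j : ℕ)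
    {c : ℂ → ℂ} (hc : ∀ᵐ z ∂(volume.restrict Ω), cc (MM m ea ν) (i : ℤ) (-(j : ℤ)) z = c z)
    (n : ℕ) (r : ℝ) :
    VV φ (lmt m ν i j) (dn a h u i j n) r = VV φ c (pr a h u i (-(j : ℤ)) n) r := by
  have hB : IsOpen (interior K) := isOpen_interior
  have hBΩ : interior K ⊆ Ω := interior_subset.trans Y.hKΩ
  have hc' := ae_restrict_of_ae_restrict_of_subset hBΩ hc
  have k0 := Y.key i j
  rw [ae_restrict_iff' hB.measurableSet] at k0 hc'
  unfold VV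
  refine integral_congr_ae ?_
  filter_upwards [k0, hc'] with z h1 h2
  by_cases hz : z ∈ interior K
  · have e1 : pr a h u i (-(j : ℤ)) n = fun z => (-1) ^ j * dn a h u i j n z := by
      funext z; exact pr_eq a h u i j n z
    have e2 : c z = (-1) ^ j * lmt m ν i j z := by rw [← h2 hz, h1 hz]
    show φ z * ‖cmean r (dn a h u i j n) z - lmt m ν i j z‖ ^ 2 =
      φ z * ‖cmean r (pr a h u i (-(j : ℤ)) n) z - c z‖ ^ 2
    rw [e1, cmean_cmul, e2, ← mul_sub, nn1]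
  · show φ z * _ = φ z * _
    rw [TF.zero hφ hz, zero_mul, zero_mul]

/-- the smooth limit exists -/
lemma ex_lim (hm : ContDiffOn ℝ ∞ m Ω)
    (hν : ∀ k : ℕ, Even k → ∃ c : ℂ → ℂ, ContDiffOn ℝ ∞ c Ω ∧
      ∀ᵐ z ∂(volume.restrict Ω), ∫ α, ea α ^ k ∂(ν z) = c z) (i j : ℕ) :
    ∃ c : ℂ → ℂ, ContDiffOn ℝ ∞ c Ω ∧
      ∀ᵐ z ∂(volume.restrict Ω), cc (MM m ea ν) (i : ℤ) (-(j : ℤ)) z = c z := by
  by_cases hij : Even (i + j)
  · obtain ⟨c, hc, hc'⟩ := lmt_sm hm hν hij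
    refine ⟨fun z => (-1) ^ j * c z, contDiffOn_const.mul hc, hc'.mono fun z hz => ?_⟩
    rw [cc_lmt hij, hz]
  · exact ⟨fun _ => 0, contDiffOn_const, ae_of_all _ fun z => cc_odd hij z⟩

/-- the part of the excess, natural orders -/
lemma kap_nat (i j : ℕ) : kap (i : ℤ) (-(j : ℤ)) = if Even (i + j) then 2 / 3 else 0 := by
  unfold kap
  by_cases hij : Even (i + j)
  · rw [if_pos hij, if_pos]
    rw [Int.even_iff]
    rw [Nat.even_iff] at hij
    omega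
  · rw [if_neg hij, if_neg]
    rw [Int.even_iff]
    rw [Nat.even_iff] at hij
    omega

/-- all scales -/
theorem ph_up (GP1 : S_GP1) (GE2 : S_GE2) (Y : Hyp m ν Ω a h u K T)
    (hν : ∀ k : ℕ, Even k → ∃ c : ℂ → ℂ, ContDiffOn ℝ ∞ c Ω ∧
      ∀ᵐ z ∂(volume.restrict Ω), ∫ α, ea α ^ k ∂(ν z) = c z) {φ : ℂ → ℝ}
    (hφ : TF (interior K) φ) (hφ0 : ∀ z, 0 ≤ φ z) (i j : ℕ) {ε : ℝ} (hε : 0 < ε) :
    ∃ R0 r0 : ℝ, 0 < R0 ∧ 0 < r0 ∧ ∀ᶠ n in atTop, ∀ r : ℝ, R0 * h n ≤ r → r ≤ r0 →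
      VV φ (lmt m ν i j) (dn a h u i j n) r ≤
        (if Even (i + j) then 2 / 3 else 0) * exc φ m (u n) + ε := by
  obtain ⟨c, hc, hcc⟩ := ex_lim Y.hms hν i j
  obtain ⟨R0, r0, R0p, r0p, h1⟩ := phase_up GP1 GE2 Y hφ hφ0 (i : ℤ) (-(j : ℤ)) hc hcc hε
  refine ⟨R0, r0, R0p, r0p, h1.mono fun n hn r hr hr' => ?_⟩
  rw [Y.conv hφ i j hcc, ← kap_nat]
  exact hn r hr hr'

/-- the scale of the wavelength -/
theorem ph_eq (K6 : S_K6) (GP1 : S_GP1) (GE2 : S_GE2) (GE3 : S_GE3) (GE4 : S_GE4)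
    (Y : Hyp m ν Ω a h u K T)
    (hν : ∀ k : ℕ, Even k → ∃ c : ℂ → ℂ, ContDiffOn ℝ ∞ c Ω ∧
      ∀ᵐ z ∂(volume.restrict Ω), ∫ α, ea α ^ k ∂(ν z) = c z) {φ : ℂ → ℝ}
    (hφ : TF (interior K) φ) (hφ0 : ∀ z, 0 ≤ φ z) (i j : ℕ) {ε : ℝ} (hε : 0 < ε) :
    ∃ R0 : ℝ, 0 < R0 ∧ ∀ R : ℝ, R0 ≤ R → ∀ᶠ n in atTop,
      |VV φ (lmt m ν i j) (dn a h u i j n) (R * h n) -
        (if Even (i + j) then 2 / 3 else 0) * exc φ m (u n)| ≤ ε := by
  obtain ⟨c, hc, hcc⟩ := ex_lim Y.hms hν i j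
  obtain ⟨R1, r1, R1p, r1p, h1⟩ := phase_up GP1 GE2 Y hφ hφ0 (i : ℤ) (-(j : ℤ)) hc hcc hε
  obtain ⟨R2, R2p, h2⟩ := phase_low K6 GP1 GE2 GE3 GE4 Y hφ hφ0 (i : ℤ) (-(j : ℤ)) hc hcc hε
  refine ⟨max R1 R2, lt_max_of_lt_left R1p, fun R hR => ?_⟩
  have hsm : ∀ᶠ n in atTop, R * h n < r1 := by
    have : Tendsto (fun n => R * h n) atTop (𝓝 0) := by simpa using Y.H.hlim.const_mul R
    exact this.eventually (gt_mem_nhds r1p)
  filter_upwards [h1, h2 R ((le_max_right _ _).trans hR), hsm] with n b1 b2 b3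
  have hn := Y.H.hpos n
  have b4 := b1 (R * h n) (mul_le_mul_of_nonneg_right ((le_max_left _ _).trans hR) hn.le) b3.le
  rw [Y.conv hφ i j hcc, ← kap_nat, abs_le]
  constructor <;> linarith

/-- Wiener: the averages of the squares of the even moments tend to zero -/
theorem wiener (Y : Hyp m ν Ω a h u K T) {φ : ℂ → ℝ} (hφ : TF (interior K) φ)
    (hφ0 : ∀ z, 0 ≤ φ z) : Tendsto (fun S : ℕ => (S : ℝ)⁻¹ * ∑ s ∈ Finset.Icc 1 S,
      ∫ z, φ z * ‖lmt m ν (2 * s) 0 z‖ ^ 2) atTop (𝓝 0) := by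
  have := Y.mk1
  have hB : IsOpen (interior K) := isOpen_interior
  have hBΩ : interior K ⊆ Ω := interior_subset.trans Y.hKΩ
  have hmB : ∀ K' : Set ℂ, IsCompact K' → K' ⊆ interior K → MemLp m 2 (volume.restrict K') :=
    fun K' hK' hKB => Y.hm K' hK' (hKB.trans hBΩ)
  have hpB : ∀ᵐ z ∂(volume.restrict (interior K)), par ea (ν z) = 0 :=
    ae_restrict_of_ae_restrict_of_subset hBΩ Y.hp
  have hml : ∀ k, ML (interior K) (MM m ea ν k) := fun k => MM_ml ea_meas ea_norm hmB k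
  have hSN := SN0 (ν := ν) hB hmB hpB hφ
  simp only [ss_fK hml hφ] at hSN
  have hF := Pool.Agent.P8H76.VC.lemF (fun k => fK_nn hφ0 k) hSN
  have h2 : Tendsto (fun N : ℕ => 2 * N) atTop atTop :=
    tendsto_atTop_mono (fun N => by show N ≤ 2 * N; omega) tendsto_id
  have h3 := (hF.comp h2).const_mul 2
  rw [mul_zero] at h3
  have f0 : ∀ k, 0 ≤ fK (MM m ea ν) φ k := fun k => fK_nn hφ0 k
  have e1 : ∀ s : ℕ, ∫ z, φ z * ‖lmt m ν (2 * s) 0 z‖ ^ 2 =
      fK (MM m ea ν) φ ((2 * s : ℕ) : ℤ) := by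
    intro s
    unfold fK
    rw [if_pos (by rw [Int.even_coe_nat]; exact even_two_mul s), Int.natAbs_natCast]
    congr 1; funext z
    unfold lmt Pool.Agent.TH294.RG.MM cm
    simp only [pow_zero, map_one, mul_one]
  simp only [e1]
  refine squeeze_zero (fun S => mul_nonneg (by positivity) (Finset.sum_nonneg fun s _ => f0 _))
    (fun S => ?_) h3
  simp only [Function.comp_def]
  have e2 : ∑ s ∈ Finset.Icc 1 S, fK (MM m ea ν) φ ((2 * s : ℕ) : ℤ) ≤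
      ∑ j ∈ Finset.Icc 1 (2 * S), fK (MM m ea ν) φ (j : ℤ) :=
    sum_dbl1 (f := fun p => fK (MM m ea ν) φ (p : ℤ)) (fun p => f0 _) S
  rcases Nat.eq_zero_or_pos S with h0 | h0
  · rw [h0]; simp
  · have hS : (0 : ℝ) < S := by exact_mod_cast h0
    have e3 : 2 * (((2 * S : ℕ) : ℝ)⁻¹ * ∑ j ∈ Finset.Icc 1 (2 * S), fK (MM m ea ν) φ (j : ℤ)) =
        (S : ℝ)⁻¹ * ∑ j ∈ Finset.Icc 1 (2 * S), fK (MM m ea ν) φ (j : ℤ) := by
      push_cast
      field_simp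
    rw [e3]
    exact mul_le_mul_of_nonneg_left e2 (by positivity)

end

end Pool.Agent.P8H31.VC
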