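import Pool.Agent.P8H31.VC.PhaseF

/-!
Project VC (helper31): the phase space averages without a bound for the fourth moments.
-/

set_option autoImplicit false
open MeasureTheory Filter Topology Complex ProbabilityTheory
open scoped ContDiff ENNReal

namespace Pool.Agent.P8H31.VC

open Pool.Agent.W745.RW Pool.Agent.TH294.RS Pool.Agent.TH294.RG Pool.Agent.TH421.DF
open Pool.Agent.TH421.AC Pool.Agent.P8H31.NZ Pool.Agent.P8H86.VC

noncomputable section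

variable {m : ℂ → ℝ} {ν : Kernel ℂ ℝ} {Ω : Set ℂ} {a : ℂ → ℝ} {h : ℕ → ℝ}
  {u : ℕ → ℂ → ℝ} {K : Set ℂ}

/-- the limits in all orders -/
lemma keyF
    (O : ∀ {k : ℕ}, ¬ Even k → ∀ᵐ z ∂(volume.restrict (interior K)), MM m ea ν k z = 0)
    (i j : ℕ) :
    ∀ᵐ z ∂(volume.restrict (interior K)),
      cc (MM m ea ν) (i : ℤ) (-(j : ℤ)) z = (-1) ^ j * lmt m ν i j z := by
  by_cases hij : Even (i + j)
  · exact ae_of_all _ fun z => cc_lmt hij z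
  · rcases le_or_gt j i with h' | h'
    · refine (O (k := i - j) (by rw [Nat.even_iff] at hij ⊢; omega)).mono fun z hz => ?_
      rw [cc_odd hij]
      unfold lmt
      simp only [ea_ge h']
      have : (m z : ℂ) * ∫ α, ea α ^ (i - j) ∂(ν z) = MM m ea ν (i - j) z := rfl
      rw [this, hz, mul_zero]
    · refine (O (k := j - i) (by rw [Nat.even_iff] at hij ⊢; omega)).mono fun z hz => ?_
      rw [cc_odd hij]
      unfold lmt
      simp only [ea_le h'.le]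
      have : (m z : ℂ) * ∫ α, (starRingEnd ℂ) (ea α ^ (j - i)) ∂(ν z) =
          (starRingEnd ℂ) (MM m ea ν (j - i) z) := by
        show _ = (starRingEnd ℂ) ((m z : ℂ) * ∫ α, ea α ^ (j - i) ∂(ν z))
        rw [map_mul, conj_ofReal]
        congr 1
        exact integral_conj
      rw [this, hz, map_zero, mul_zero]

/-- a version with a smooth limit -/
lemma convF (hKΩ : K ⊆ Ω)
    (O : ∀ {k : ℕ}, ¬ Even k → ∀ᵐ z ∂(volume.restrict (interior K)), MM m ea ν k z = 0)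
    {φ : ℂ → ℝ} (hφ : TF (interior K) φ) (i j : ℕ)
    {c : ℂ → ℂ} (hc : ∀ᵐ z ∂(volume.restrict Ω), cc (MM m ea ν) (i : ℤ) (-(j : ℤ)) z = c z)
    (n : ℕ) (r : ℝ) :
    VV φ (lmt m ν i j) (dn a h u i j n) r = VV φ c (pr a h u i (-(j : ℤ)) n) r := by
  have hB : IsOpen (interior K) := isOpen_interior
  have hBΩ : interior K ⊆ Ω := interior_subset.trans hKΩ
  have hc' := ae_restrict_of_ae_restrict_of_subset hBΩ hc
  have k0 := keyF O i j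
  rw [ae_restrict_iff' hB.measurableSet] at k0 hc'
  unfold VV
  refine integral_congr_ae ?_
  filter_upwards [k0, hc'] with z h1 h2
  by_cases hz : z ∈ interior K
  · have e1 : pr a h u i (-(j : ℤ)) n = fun z => (-1) ^ j * dn a h u i j n z := by
      funext z; exact pr_eq a h u i j n z
    have e2 : c z = (-1) ^ j * lmt m ν i j z := by rw [← h2 hz, h1 hz]
    show φ z * ‖cmean r (dn a h u i j n) z - lmt m ν i j z‖ ^ 2 =
      φ z * ‖cmean r (pr a h u i (-(j : ℤ)) n) z - c z‖ ^ 2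
    rw [e1, cmean_cmul, e2, ← mul_sub, nn1]
  · show φ z * _ = φ z * _
    rw [TF.zero hφ hz, zero_mul, zero_mul]

/-- Wiener: the averages of the squares of the even moments tend to zero -/
theorem wienerF (Y : HypF m ν Ω a h u K) {φ : ℂ → ℝ} (hφ : TF (interior K) φ)
    (hφ0 : ∀ z, 0 ≤ φ z) : Tendsto (fun S : ℕ => (S : ℝ)⁻¹ * ∑ s ∈ Finset.Icc 1 S,
      ∫ z, φ z * ‖lmt m ν (2 * s) 0 z‖ ^ 2) atTop (𝓝 0) := by
  have := Y.mk1
  have hB : IsOpen (interior K) := isOpen_interior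
  have hBΩ : interior K ⊆ Ω := interior_subset.trans Y.hKΩ
  have hmB : ∀ K' : Set ℂ, IsCompact K' → K' ⊆ interior K → MemLp m 2 (volume.restrict K') :=
    fun K' hK' hKB => Y.hm K' hK' (hKB.trans hBΩ)
  have hpB : ∀ᵐ z ∂(volume.restrict (interior K)), par ea (ν z) = 0 :=
    ae_restrict_of_ae_restrict_of_subset hBΩ Y.hp
  have hml : ∀ k, ML (interior K) (MM m ea ν k) := fun k => MM_ml ea_meas ea_norm hmB k
  have hSN := SN0 (ν := ν) hB hmB hpB hφ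
  simp only [ss_fK hml hφ] at hSN
  have hF := Pool.Agent.P8H76.VC.lemF (fun k => fK_nn hφ0 k) hSN
  have h2 : Tendsto (fun N : ℕ => 2 * N) atTop atTop :=
    tendsto_atTop_mono (fun N => by show N ≤ 2 * N; omega) tendsto_id
  have h3 := (hF.comp h2).const_mul 2
  rw [mul_zero] at h3
  have f0 : ∀ k, 0 ≤ fK (MM m ea ν) φ k := fun k => fK_nn hφ0 k
  have e1 : ∀ s : ℕ, ∫ z, φ z * ‖lmt m ν (2 * s) 0 z‖ ^ 2 =
      fK (MM m ea ν) φ ((2 * s : ℕ) : ℤ) := by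
    intro s
    unfold fK
    rw [if_pos (by rw [Int.even_coe_nat]; exact even_two_mul s), Int.natAbs_natCast]
    congr 1; funext z
    unfold lmt Pool.Agent.TH294.RG.MM cm
    simp only [pow_zero, map_one, mul_one]
  simp only [e1]
  refine squeeze_zero (fun S => mul_nonneg (by positivity) (Finset.sum_nonneg fun s _ => f0 _))
    (fun S => ?_) h3
  simp only [Function.comp_def]
  have e2 : ∑ s ∈ Finset.Icc 1 S, fK (MM m ea ν) φ ((2 * s : ℕ) : ℤ) ≤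
      ∑ j ∈ Finset.Icc 1 (2 * S), fK (MM m ea ν) φ (j : ℤ) :=
    sum_dbl1 (f := fun p => fK (MM m ea ν) φ (p : ℤ)) (fun p => f0 _) S
  rcases Nat.eq_zero_or_pos S with h0 | h0
  · rw [h0]; simp
  · have hS : (0 : ℝ) < S := by exact_mod_cast h0
    have e3 : 2 * (((2 * S : ℕ) : ℝ)⁻¹ * ∑ j ∈ Finset.Icc 1 (2 * S), fK (MM m ea ν) φ (j : ℤ)) =
        (S : ℝ)⁻¹ * ∑ j ∈ Finset.Icc 1 (2 * S), fK (MM m ea ν) φ (j : ℤ) := by
      push_cast
      field_simp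
    rw [e3]
    exact mul_le_mul_of_nonneg_left e2 (by positivity)


/-- `1 + ∫_K u⁴` -/
def TT (K : Set ℂ) (u : ℂ → ℝ) : ℝ := 1 + ∫ z in K, u z ^ 4

lemma TT_one (K : Set ℂ) (u : ℂ → ℝ) : 1 ≤ TT K u := by
  have : 0 ≤ ∫ z in K, u z ^ 4 := integral_nonneg fun z => by positivity
  unfold TT; linarith

lemma unsc {K : Set ℂ} {u : ℕ → ℂ → ℝ} {n : ℕ} {V x ε : ℝ}
    (h : fc K u n ^ 4 * V ≤ fc K u n ^ 4 * x + ε) : V ≤ x + ε * TT K (u n) := by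
  have h1 := fc_mul K u n
  have h2 : 0 < fc K u n ^ 4 := by have := fc_pos K u n; positivity
  have h3 : ε = fc K u n ^ 4 * (ε * TT K (u n)) := by
    unfold TT
    rw [mul_left_comm, h1, mul_one]
  rw [h3, ← mul_add] at h
  exact le_of_mul_le_mul_left h h2

/-- all scales -/
theorem ph_upF (AGZ : S_AGZ) (FP1 : S_FP1) (FE2 : S_FE2) (ODD : S_ODD) (Y : HypF m ν Ω a h u K)
    (hν : ∀ k : ℕ, Even k → ∃ c : ℂ → ℂ, ContDiffOn ℝ ∞ c Ω ∧
      ∀ᵐ z ∂(volume.restrict Ω), ∫ α, ea α ^ k ∂(ν z) = c z) {φ : ℂ → ℝ}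
    (hφ : TF (interior K) φ) (hφ0 : ∀ z, 0 ≤ φ z) (i j : ℕ) {ε : ℝ} (hε : 0 < ε) :
    ∃ R0 r0 : ℝ, 0 < R0 ∧ 0 < r0 ∧ ∀ᶠ n in atTop, ∀ r : ℝ, R0 * h n ≤ r → r ≤ r0 →
      VV φ (lmt m ν i j) (dn a h u i j n) r ≤
        (if Even (i + j) then 2 / 3 else 0) * exc φ m (u n) + ε * TT K (u n) := by
  have hB : IsOpen (interior K) := isOpen_interior
  obtain ⟨c, hc, hcc⟩ := ex_lim Y.hms hν i j
  obtain ⟨R0, r0, R0p, r0p, h1⟩ := phase_upF AGZ FP1 FE2 Y hφ hφ0 (i : ℤ) (-(j : ℤ)) hc hcc hε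
  obtain ⟨r7, K7, r7p, cK7, hK7, hin7⟩ := rad hB hφ hφ0
  refine ⟨R0, min r0 r7, R0p, by positivity, h1.mono fun n hn r hr hr' => ?_⟩
  have rp : 0 ≤ r := (mul_nonneg R0p.le (Y.H.hpos n).le).trans hr
  rw [convF Y.hKΩ (ODD Y) hφ i j hcc, ← kap_nat]
  have h2 := hn r hr (hr'.trans (min_le_left _ _))
  rw [VV_sc Y hK7 (fun z hz c hc => hin7 z hz c hc r rp (hr'.trans (min_le_right _ _)))] at h2
  refine unsc (h2.trans (le_of_eq ?_))
  unfold excF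
  ring

/-- the scale of the wavelength -/
theorem ph_eqF (K6 : S_K6) (AGZ : S_AGZ) (FP1 : S_FP1) (FE2 : S_FE2) (FE3 : S_FE3)
    (FE4 : S_FE4) (ODD : S_ODD) (Y : HypF m ν Ω a h u K)
    (hν : ∀ k : ℕ, Even k → ∃ c : ℂ → ℂ, ContDiffOn ℝ ∞ c Ω ∧
      ∀ᵐ z ∂(volume.restrict Ω), ∫ α, ea α ^ k ∂(ν z) = c z) {φ : ℂ → ℝ}
    (hφ : TF (interior K) φ) (hφ0 : ∀ z, 0 ≤ φ z) (i j : ℕ) {ε : ℝ} (hε : 0 < ε) :
    ∃ R0 : ℝ, 0 < R0 ∧ ∀ R : ℝ, R0 ≤ R → ∀ᶠ n in atTop,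
      |VV φ (lmt m ν i j) (dn a h u i j n) (R * h n) -
        (if Even (i + j) then 2 / 3 else 0) * exc φ m (u n)| ≤ ε * TT K (u n) := by
  have hB : IsOpen (interior K) := isOpen_interior
  obtain ⟨c, hc, hcc⟩ := ex_lim Y.hms hν i j
  obtain ⟨R1, r1, R1p, r1p, h1⟩ := ph_upF AGZ FP1 FE2 ODD Y hν hφ hφ0 i j hε
  obtain ⟨R2, R2p, h2⟩ := phase_lowF K6 AGZ FP1 FE2 FE3 FE4 Y hφ hφ0 (i : ℤ) (-(j : ℤ)) hc hcc hε
  obtain ⟨r7, K7, r7p, cK7, hK7, hin7⟩ := rad hB hφ hφ0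
  refine ⟨max R1 R2, lt_max_of_lt_left R1p, fun R hR => ?_⟩
  have hsm : ∀ᶠ n in atTop, R * h n < min r1 r7 := by
    have : Tendsto (fun n => R * h n) atTop (𝓝 0) := by simpa using Y.H.hlim.const_mul R
    exact this.eventually (gt_mem_nhds (by positivity))
  filter_upwards [h1, h2 R ((le_max_right _ _).trans hR), hsm] with n b1 b2 b3
  have hn := Y.H.hpos n
  have Rp : 0 < R := lt_of_lt_of_le R1p ((le_max_left _ _).trans hR)
  have rp : 0 ≤ R * h n := mul_nonneg Rp.le hn.le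
  have b4 := b1 (R * h n) (mul_le_mul_of_nonneg_right ((le_max_left _ _).trans hR) hn.le)
    (b3.le.trans (min_le_left _ _))
  rw [VV_sc Y hK7 (fun z hz c hc => hin7 z hz c hc (R * h n) rp
    (b3.le.trans (min_le_right _ _)))] at b2
  have b5 : kap (i : ℤ) (-(j : ℤ)) * exc φ m (u n) ≤
      VV φ c (pr a h u i (-(j : ℤ)) n) (R * h n) + ε * TT K (u n) := by
    refine unsc (le_trans (le_of_eq ?_) b2)
    unfold excF
    ring
  rw [kap_nat, ← convF Y.hKΩ (ODD Y) hφ i j hcc] at b5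
  rw [abs_le]
  constructor <;> linarith

/-- **The excess is the mean square of the local plane waves.** -/
theorem planesF (K6 : S_K6) (AGZ : S_AGZ) (FP1 : S_FP1) (FE2 : S_FE2) (FE3 : S_FE3)
    (FE4 : S_FE4) (ODD : S_ODD) (Y : HypF m ν Ω a h u K)
    (hν : ∀ k : ℕ, Even k → ∃ c : ℂ → ℂ, ContDiffOn ℝ ∞ c Ω ∧
      ∀ᵐ z ∂(volume.restrict Ω), ∫ α, ea α ^ k ∂(ν z) = c z) {φ : ℂ → ℝ}
    (hφ : TF (interior K) φ) (hφ0 : ∀ z, 0 ≤ φ z) {ε : ℝ} (hε : 0 < ε) :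
    ∃ S0 : ℕ, ∀ S : ℕ, S0 ≤ S → ∃ R0 : ℝ, 0 < R0 ∧ ∀ R : ℝ, R0 ≤ R → ∀ᶠ n in atTop,
      |(S : ℝ)⁻¹ * (∑ s ∈ Finset.Icc 1 S,
          ∫ z, φ z * ‖cmean (R * h n) (dn a h u (2 * s) 0 n) z‖ ^ 2) -
        2 / 3 * exc φ m (u n)| ≤ ε * TT K (u n) := by
  have hB : IsOpen (interior K) := isOpen_interior
  have hBΩ : interior K ⊆ Ω := interior_subset.trans Y.hKΩ
  obtain ⟨E, E0, hE⟩ := Y.ebd hφ hφ0
  obtain ⟨t, t0, t1, ht⟩ := sm_le (a := E + 1) (b := ε / 4) (by positivity) (by positivity)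
  obtain ⟨δ, δ0, δ1, hδ⟩ := sm_le (a := 1 + 1 / t) (b := ε / 4) (by positivity) (by positivity)
  obtain ⟨ε', hε'⟩ : ∃ x : ℝ, x = min 1 (ε / 4) := ⟨_, rfl⟩
  have ε0 : 0 < ε' := by rw [hε']; positivity
  have ε1 : ε' ≤ 1 := by rw [hε']; exact min_le_left _ _
  have ε4 : ε' ≤ ε / 4 := by rw [hε']; exact min_le_right _ _
  have W := wienerF Y hφ hφ0
  obtain ⟨S0, hS0⟩ := eventually_atTop.1 ((W.eventually (gt_mem_nhds δ0)).and
    (eventually_gt_atTop 0))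
  refine ⟨S0, fun S hS => ?_⟩
  obtain ⟨hS1, hS2⟩ := hS0 S hS
  have Sp : (0 : ℝ) < S := by exact_mod_cast hS2
  -- the smooth limits
  choose c hc hcc using fun s : ℕ => ex_lim (ν := ν) Y.hms hν (2 * s) 0
  have ev : ∀ s : ℕ, ∀ᶠ R : ℝ in atTop, ∀ᶠ n in atTop,
      |VV φ (lmt m ν (2 * s) 0) (dn a h u (2 * s) 0 n) (R * h n) -
        2 / 3 * exc φ m (u n)| ≤ ε' * TT K (u n) := by
    intro s
    obtain ⟨R0, R0p, h1⟩ := ph_eqF K6 AGZ FP1 FE2 FE3 FE4 ODD Y hν hφ hφ0 (2 * s) 0 ε0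
    rw [if_pos (by rw [add_zero]; exact even_two_mul s)] at h1
    exact eventually_atTop.2 ⟨R0, h1⟩
  have ev2 : ∀ᶠ R : ℝ in atTop, ∀ s ∈ Finset.Icc 1 S, ∀ᶠ n in atTop,
      |VV φ (lmt m ν (2 * s) 0) (dn a h u (2 * s) 0 n) (R * h n) -
        2 / 3 * exc φ m (u n)| ≤ ε' * TT K (u n) := (Finset.eventually_all _).2 fun s _ => ev s
  obtain ⟨R0, hR0⟩ := eventually_atTop.1 (ev2.and (eventually_gt_atTop 0))
  obtain ⟨r7, K7, r7p, cK7, hK7, hin7⟩ := rad hB hφ hφ0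
  refine ⟨max R0 1, by positivity, fun R hR => ?_⟩
  obtain ⟨hR1, hR2⟩ := hR0 R ((le_max_left _ _).trans hR)
  have hsm : ∀ᶠ n in atTop, R * h n < r7 := by
    have : Tendsto (fun n => R * h n) atTop (𝓝 0) := by simpa using Y.H.hlim.const_mul R
    exact this.eventually (gt_mem_nhds r7p)
  have ev3 : ∀ᶠ n in atTop, ∀ s ∈ Finset.Icc 1 S,
      |VV φ (lmt m ν (2 * s) 0) (dn a h u (2 * s) 0 n) (R * h n) -
        2 / 3 * exc φ m (u n)| ≤ ε' * TT K (u n) := (Finset.eventually_all _).2 hR1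
  filter_upwards [ev3, hsm] with n b2 b3
  have b1 : 2 / 3 * exc φ m (u n) ≤ 0 + E * TT K (u n) := by
    refine unsc ?_
    have := hE n
    unfold excF at this
    rw [mul_zero, zero_add]
    linarith
  rw [zero_add] at b1
  have T1 := TT_one K (u n)
  have hn := Y.H.hpos n
  have rp : 0 ≤ R * h n := mul_nonneg hR2.le hn.le
  obtain ⟨x, hx⟩ : ∃ x : ℝ, x = 2 / 3 * exc φ m (u n) := ⟨_, rfl⟩
  obtain ⟨Tn, hTn⟩ : ∃ x : ℝ, x = TT K (u n) := ⟨_, rfl⟩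
  rw [← hx, ← hTn] at b1 b2 ⊢
  rw [← hTn] at T1
  obtain ⟨V, hV⟩ : ∃ V : ℕ → ℝ, V = fun s => VV φ (lmt m ν (2 * s) 0) (dn a h u (2 * s) 0 n)
    (R * h n) := ⟨_, rfl⟩
  obtain ⟨Q, hQ⟩ : ∃ Q : ℕ → ℝ, Q = fun s =>
    ∫ z, φ z * ‖cmean (R * h n) (dn a h u (2 * s) 0 n) z‖ ^ 2 := ⟨_, rfl⟩
  obtain ⟨C, hC⟩ : ∃ C : ℕ → ℝ, C = fun s => ∫ z, φ z * ‖lmt m ν (2 * s) 0 z‖ ^ 2 := ⟨_, rfl⟩
  have wc : ∀ k, ContinuousOn (ww a h (fun n z => (u n z : ℂ)) k n) (interior K) := fun k =>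
    ((Y.H.cmp hBΩ (σ := id) tendsto_id).lb2 hB k).co n
  have p1 : ∀ s : ℕ, |Q s - V s| ≤ t * V s + (1 + 1 / t) * C s := by
    intro s
    have h1 := pl_one hφ hφ0 cK7 hK7 (r := R * h n)
      (fun z hz c hc => hin7 z hz c hc (R * h n) rp b3.le)
      (f := pr a h u ((2 * s : ℕ) : ℤ) (-((0 : ℕ) : ℤ)) n) ((wc _).mul (wc _))
      ((hc s).continuousOn.mono hBΩ) t0
    have e1 : VV φ (c s) (pr a h u ((2 * s : ℕ) : ℤ) (-((0 : ℕ) : ℤ)) n) (R * h n) = V s := by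
      rw [hV]; exact (convF Y.hKΩ (ODD Y) hφ (2 * s) 0 (hcc s) n (R * h n)).symm
    have e2 : ∫ z, φ z * ‖cmean (R * h n) (pr a h u ((2 * s : ℕ) : ℤ) (-((0 : ℕ) : ℤ)) n) z‖ ^ 2 =
        Q s := by
      rw [hQ]
      have : pr a h u ((2 * s : ℕ) : ℤ) (-((0 : ℕ) : ℤ)) n = dn a h u (2 * s) 0 n := by
        funext z
        rw [pr_eq]
        show (-1) ^ 0 * dn a h u (2 * s) 0 n z = _
        rw [pow_zero, one_mul]
      rw [this]
    have e3 : ∫ z, φ z * ‖c s z‖ ^ 2 = C s := by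
      rw [hC]
      have h4 := ae_restrict_of_ae_restrict_of_subset hBΩ (hcc s)
      rw [ae_restrict_iff' hB.measurableSet] at h4
      refine integral_congr_ae ?_
      filter_upwards [h4] with z hz
      by_cases hzB : z ∈ interior K
      · show φ z * _ = φ z * _
        rw [← hz hzB, cc_lmt (by rw [add_zero]; exact even_two_mul s), nn1]
      · show φ z * _ = φ z * _
        rw [TF.zero hφ hzB, zero_mul, zero_mul]
    rw [e1, e2, e3] at h1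
    exact h1
  have p2 : ∀ s ∈ Finset.Icc 1 S, |V s - x| ≤ ε' * Tn := by rw [hV]; exact b2
  -- averages
  have avg : ∀ y : ℝ, (S : ℝ)⁻¹ * ∑ _s ∈ Finset.Icc 1 S, y = y := by
    intro y
    rw [Finset.sum_const, Nat.card_Icc, Nat.add_sub_cancel, nsmul_eq_mul, ← mul_assoc,
      inv_mul_cancel₀ Sp.ne', one_mul]
  have q0 : ∀ s ∈ Finset.Icc 1 S, |Q s - x| ≤ (ε' * Tn + t * (x + ε' * Tn)) + (1 + 1 / t) * C s := by
    intro s hs
    have h1 := p2 s hs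
    have h2 := p1 s
    rw [abs_le] at h1
    have h3 : t * V s ≤ t * (x + ε' * Tn) := mul_le_mul_of_nonneg_left (by linarith [h1.2]) t0.le
    rw [abs_le] at h2 ⊢
    constructor <;> linarith [h1.1, h1.2, h2.1, h2.2]
  have q1 : |(S : ℝ)⁻¹ * (∑ s ∈ Finset.Icc 1 S, Q s) - x| ≤
      (ε' * Tn + t * (x + ε' * Tn)) + (1 + 1 / t) * ((S : ℝ)⁻¹ * ∑ s ∈ Finset.Icc 1 S, C s) := by
    have e1 : (S : ℝ)⁻¹ * (∑ s ∈ Finset.Icc 1 S, Q s) - x =
        (S : ℝ)⁻¹ * ∑ s ∈ Finset.Icc 1 S, (Q s - x) := by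
      rw [Finset.sum_sub_distrib, mul_sub, avg]
    rw [e1, abs_mul, abs_of_nonneg (show 0 ≤ (S : ℝ)⁻¹ by positivity)]
    have h1 : |∑ s ∈ Finset.Icc 1 S, (Q s - x)| ≤
        ∑ s ∈ Finset.Icc 1 S, ((ε' * Tn + t * (x + ε' * Tn)) + (1 + 1 / t) * C s) :=
      (Finset.abs_sum_le_sum_abs _ _).trans (Finset.sum_le_sum q0)
    refine (mul_le_mul_of_nonneg_left h1 (show 0 ≤ (S : ℝ)⁻¹ by positivity)).trans (le_of_eq ?_)
    rw [Finset.sum_add_distrib, mul_add, avg, ← Finset.mul_sum]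
    ring
  have q2 : (S : ℝ)⁻¹ * ∑ s ∈ Finset.Icc 1 S, C s < δ := by rw [hC]; exact hS1
  have q3 : (1 + 1 / t) * ((S : ℝ)⁻¹ * ∑ s ∈ Finset.Icc 1 S, C s) ≤ (1 + 1 / t) * δ :=
    mul_le_mul_of_nonneg_left q2.le (by positivity)
  have w1 : ε' * Tn ≤ Tn := mul_le_of_le_one_left (by linarith) ε1
  have q4 : t * (x + ε' * Tn) ≤ t * ((E + 1) * Tn) :=
    mul_le_mul_of_nonneg_left (by linarith) t0.le
  have q5 : t * ((E + 1) * Tn) ≤ ε / 4 * Tn := by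
    have := mul_le_mul_of_nonneg_right ht (show 0 ≤ Tn by linarith)
    linarith
  have q6 : ε' * Tn ≤ ε / 4 * Tn := mul_le_mul_of_nonneg_right ε4 (by linarith)
  have q7 : ε / 4 ≤ ε / 4 * Tn := le_mul_of_one_le_right (by positivity) T1
  rw [hQ] at q1
  refine q1.trans ?_
  have q8 : ε / 4 * Tn + ε / 4 * Tn + ε / 4 * Tn ≤ ε * Tn := by
    have : 0 ≤ ε * Tn := by positivity
    linarith
  linarith

end

end Pool.Agent.P8H31.VC
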