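import Pool.Agent.P8H31.VC.Words

/-!
Project VC (helper31), MP_a52643_an: packages. Limit laws of eigenfunctions and vacuum discs.

`rd h v H n z = h n * fderiv ℝ (H n) z v`, `cx H n z = (H n z : ℂ)`, `MK2 B h k f`: `f` and its
semiclassical derivatives `hd` up to order `k` are bounded in `L²` on compact subsets of `B`
(eventually), `wd h u l` = iterated `rd` (`Pool.Agent.P8H31.VC.Words`), `dir true = 1`,
`dir false = I`. Useful: `Pool.Agent.TH421.AC.En` (`rd_sm`, `mk_rd`, `lb_re`, `rint`, `out_int`,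
`l1_bd`, the proof of `energy`), `Pool.Agent.P8H31.VC.Words` (`wd_sm`, `wd_mk`),
`Pool.Agent.TH294.RG.L2a` (`MK2.smulc`, `MK2.sub`, `MK2.congr`).
-/

set_option autoImplicit false
open MeasureTheory Filter Topology Complex
open scoped ContDiff ENNReal

namespace Pool.Agent.P8H31.VC

open Pool.Agent.W745.RW Pool.Agent.TH294.RS Pool.Agent.TH294.RG Pool.Agent.TH421.DF
open Pool.Agent.TH421.AC Pool.Agent.P8H31.NZ

noncomputable section

/-- GR (growth of the derivatives, 120 lines). Proof. Call `H : ℕ → ℂ → ℝ` a near solution if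
`H n` is smooth on `B`, `∀ k, MK2 B h k (cx H)` and there is `E` with `E n` smooth on `B`,
`∀ k, MK2 B h k (cx E)` and `rd 1 (rd 1 H) + rd I (rd I H) = -ρ H + h n * E n` on `B`.
(i) If `H` is a near solution, so is `rd h v H`, `v = 1` or `I`: the derivatives commute
(compare `hL_hd`, `fd_comm` in `Pool.Agent.TH294.RS.MK`), and
`rd v (-ρ H + h E) = -ρ (rd v H) + h (rd v E - (∂_v ρ) H)`.
(ii) For a near solution, `∑_v ∫ χ (rd v H)² ≤ ∫ χ ρ H² + o(1)`: integrate `∂_v (χ H ∂_v H)` over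
the plane (`Pool.Agent.W366.RW.int_zero`, see the proof of `energy` in `Pool.Agent.TH421.AC.En`, the
case `g = 1`): `∫ χ (rd v H)² = -∫ χ H rd v (rd v H) - h ∫ (∂_v χ) H (rd v H)`, and
`-∫ χ H (∑ rd v rd v H) = ∫ χ ρ H² - h ∫ χ H E`; the integrals with a factor `h` are `O(h)` by the
`L²` bounds. (iii) Induction on the word `l`. -/
def S_GR : Prop := ∀ {B : Set ℂ} {h : ℕ → ℝ}, IsOpen B → (∀ n, 0 < h n) → Tendsto h atTop (𝓝 0) →
  ∀ {ρ : ℂ → ℝ}, ContDiffOn ℝ ∞ ρ B → ∀ {u : ℕ → ℂ → ℝ}, (∀ n, ContDiffOn ℝ ∞ (u n) B) →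
  (∀ k, MK2 B h k (cx u)) →
  (∀ n, ∀ z ∈ B, rd h 1 (rd h 1 u) n z + rd h I (rd h I u) n z = -(ρ z * u n z)) →
  ∀ {χ : ℂ → ℝ}, TF B χ → (∀ z, 0 ≤ χ z) → ∀ {b L : ℝ}, 0 ≤ b → (∀ z ∈ tsupport χ, ρ z ≤ b) →
  (∀ᶠ n in atTop, ∫ z, χ z * u n z ^ 2 ≤ L) → ∀ l : List Bool, ∀ ε : ℝ, 0 < ε →
  ∀ᶠ n in atTop, ∫ z, χ z * wd h u l n z ^ 2 ≤ b ^ l.length * L + ε

/-- the mean of `f` over the disc of centre `z` and radius `r` -/
def mean (r : ℝ) (f : ℂ → ℝ) (z : ℂ) : ℝ :=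
  (1 / Real.pi) * ∫ c in Metric.ball (0 : ℂ) 1, f (z + r * c)

/-- MC (continuity of the mean, 30 lines): on a compact `S ⊆ Ω`, for small `r` (so that the closed
`r`-neighbourhood of `S` is a compact subset of `Ω`). For instance extend `f` by Tietze or cut it
off, or use uniform continuity on the compact neighbourhood directly. -/
def S_MC : Prop := ∀ {Ω S : Set ℂ}, IsOpen Ω → IsCompact S → S ⊆ Ω → ∃ r0 : ℝ, 0 < r0 ∧
  ∀ f : ℂ → ℝ, ContinuousOn f Ω → ∀ r : ℝ, 0 ≤ r → r ≤ r0 → ContinuousOn (mean r f) S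

/-- FU (Fubini, 50 lines): if the integral over `Z` of `φ(z) f(z + r c)` is at most `ε` for all `c`
in the unit disc, the integral of `φ` times the mean is at most `ε`. -/
def S_FU : Prop := ∀ {Ω : Set ℂ} {φ : ℂ → ℝ}, IsOpen Ω → Continuous φ → HasCompactSupport φ →
  tsupport φ ⊆ Ω → (∀ z, 0 ≤ φ z) → ∃ r0 : ℝ, 0 < r0 ∧
  ∀ f : ℂ → ℝ, ContinuousOn f Ω → ∀ r : ℝ, 0 ≤ r → r ≤ r0 → ∀ Z : Set ℂ, MeasurableSet Z →
  Z ⊆ tsupport φ → ∀ ε : ℝ, (∀ c ∈ Metric.ball (0 : ℂ) 1, ∫ z in Z, φ z * f (z + r * c) ≤ ε) →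
  ∫ z in Z, φ z * mean r f z ≤ ε

/-- UP (100 lines): the integral of `φ f` over the set where the mean of `f ≥ 0` is at most `η` is
at most `C η`. Proof. Let `S = tsupport φ`, `φ ≤ M`, `K` the closed `2 r0`-neighbourhood of `S`,
compact in `Ω`, `r ≤ r0`, `V = {z ∈ S : mean r f z ≤ η}`. If `z ∈ V` and `|c| < 1/2` then
`w = z - r c` lies in `V' = {w ∈ K1 : mean (r/2) f w ≤ 4 η}` (`K1` the closed
`r0`-neighbourhood), because `D(w, r/2) ⊆ D(z, r)` and `f ≥ 0`. Hence for each such `c`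
`∫_V φ f = ∫ 1_V(w + r c) φ(w + r c) f(w + r c) dw ≤ M ∫_{V'} f(w + r c) dw`. Average over
`|c| < 1/2` (area `π/4`) and use Fubini: `∫_V φ f ≤ M ∫_{V'} mean (r/2) f ≤ 4 M vol(K1) η`. -/
def S_UP : Prop := ∀ {Ω : Set ℂ} {φ : ℂ → ℝ}, IsOpen Ω → Continuous φ → HasCompactSupport φ →
  tsupport φ ⊆ Ω → (∀ z, 0 ≤ φ z) → ∃ C r0 : ℝ, 0 ≤ C ∧ 0 < r0 ∧
  ∀ f : ℂ → ℝ, ContinuousOn f Ω → (∀ z ∈ Ω, 0 ≤ f z) → ∀ r : ℝ, 0 < r → r ≤ r0 →
  ∀ η : ℝ, 0 ≤ η → ∫ z in {z | z ∈ tsupport φ ∧ mean r f z ≤ η}, φ z * f z ≤ C * η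

end

end Pool.Agent.P8H31.VC
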