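import Pool.Agent.P8H31.VC.Ext
import Pool.Agent.P8H31.VC.Stm

/-!
Project VC (helper31): where the solution is small, all its translates by `O(h)` are small in `L²`.
-/

set_option autoImplicit false
open MeasureTheory Filter Topology Complex
open scoped ContDiff ENNReal

namespace Pool.Agent.P8H31.VC

open Pool.Agent.W745.RW Pool.Agent.TH294.RS Pool.Agent.TH294.RG Pool.Agent.TH421.DF
open Pool.Agent.TH421.AC Pool.Agent.P8H31.NZ

noncomputable section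

variable {B : Set ℂ} {h : ℕ → ℝ}

/-- the mass of the translate by `h c` of a derivative over the set where `u` is small -/
def mm (h : ℕ → ℝ) (u : ℕ → ℂ → ℝ) (φ : ℂ → ℝ) (n : ℕ) (δ : ℝ) (l : List Bool) (c : ℂ) : ℝ :=
  ∫ z in Sub φ (fun z => |u n z| ≤ δ), φ z * wd h u l n (z + h n * c) ^ 2

lemma mS (hB : IsOpen B) {u : ℕ → ℂ → ℝ} (hu : ∀ n, ContDiffOn ℝ ∞ (u n) B) {φ : ℂ → ℝ}
    (hφ : TF B φ) (n : ℕ) (δ : ℝ) : MeasurableSet (Sub φ (fun z => |u n z| ≤ δ)) :=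
  (Sub_le hφ.2.1 ((hu n).continuousOn.mono hφ.2.2).abs continuousOn_const).measurableSet

/-- the growth bound -/
lemma gb (GR : S_GR) (hB : IsOpen B) (hp : ∀ n, 0 < h n) (hh : Tendsto h atTop (𝓝 0))
    {ρ : ℂ → ℝ} (hρ : ContDiffOn ℝ ∞ ρ B)
    {u : ℕ → ℂ → ℝ} (hu : ∀ n, ContDiffOn ℝ ∞ (u n) B) (hM : ∀ k, MK2 B h k (cx u))
    (he : ∀ n, ∀ z ∈ B, rd h 1 (rd h 1 u) n z + rd h I (rd h I u) n z = -(ρ z * u n z))
    {φ : ℂ → ℝ} (hφ : TF B φ) (hφ0 : ∀ z, 0 ≤ φ z) {R : ℝ} (hR : 0 ≤ R) :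
    ∃ C b : ℝ, 0 ≤ C ∧ 1 ≤ b ∧ ∀ l : List Bool, ∀ᶠ n in atTop, ∀ c ∈ Metric.closedBall (0 : ℂ) R,
      (∀ z ∈ tsupport φ, z + h n * c ∈ B) ∧ ∀ δ, mm h u φ n δ l c ≤ C * b ^ l.length := by
  obtain ⟨S, hS⟩ : ∃ S : Set ℂ, S = tsupport φ := ⟨_, rfl⟩
  have hSc : IsCompact S := by rw [hS]; exact hφ.2.1
  have hSB : S ⊆ B := by rw [hS]; exact hφ.2.2
  obtain ⟨δ0, hδ0, hδB⟩ := hSc.exists_cthickening_subset_open hB hSB
  have cK : IsCompact (Metric.cthickening δ0 S) := hSc.cthickening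
  obtain ⟨χ, hχ, hχ1, χ0, χ2⟩ := exists_cut hB cK hδB
  obtain ⟨b1, hb1⟩ := hχ.2.1.exists_bound_of_continuousOn (hρ.continuousOn.mono hχ.2.2)
  obtain ⟨M, hM1⟩ := hSc.exists_bound_of_continuousOn hφ.1.continuous.continuousOn
  obtain ⟨L, L0, hL⟩ := lb_re (hM 0).lb hχ.2.1 hχ.2.2
  obtain ⟨b, hb⟩ : ∃ b : ℝ, b = |b1| + 1 := ⟨_, rfl⟩
  have b0 : 1 ≤ b := by rw [hb]; linarith [abs_nonneg b1]
  have hρb : ∀ z ∈ tsupport χ, ρ z ≤ b := fun z hz => by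
    have := hb1 z hz
    rw [Real.norm_eq_abs] at this
    rw [hb]; linarith [le_abs_self (ρ z), le_abs_self b1]
  have sW : ∀ l n, ContDiffOn ℝ ∞ (wd h u l n) B := fun l n => wd_sm hB hu l n
  have iχ : ∀ l n, Integrable (fun z => χ z * wd h u l n z ^ 2) := fun l n => by
    refine rint hχ.2.1 (hχ.1.continuous.continuousOn.mul
      (((sW l n).continuousOn.mono hχ.2.2).pow 2)) fun z hz => ?_
    rw [image_eq_zero_of_notMem_tsupport hz, zero_mul]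
  have hL' : ∀ᶠ n in atTop, ∫ z, χ z * u n z ^ 2 ≤ L := by
    refine hL.mono fun n hn => le_trans ?_ hn
    rw [out_int (S := tsupport χ) fun z hz => by
      rw [image_eq_zero_of_notMem_tsupport hz, zero_mul]]
    refine intK_mono hχ.2.1 (hχ.1.continuous.continuousOn.mul
      (((hu n).continuousOn.mono hχ.2.2).pow 2)) (((hu n).continuousOn.mono hχ.2.2).pow 2)
      fun z _ => ?_
    exact mul_le_of_le_one_left (sq_nonneg _) (χ2 z)
  refine ⟨|M| * (L + 1), b, by positivity, b0, fun l => ?_⟩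
  have g1 := GR hB hp hh hρ hu hM he hχ χ0 (zero_le_one.trans b0) hρb hL' l 1 one_pos
  have g2 : ∀ᶠ n in atTop, h n * R < δ0 := by
    have : Tendsto (fun n => h n * R) atTop (𝓝 0) := by simpa using hh.mul_const R
    exact this.eventually (gt_mem_nhds hδ0)
  filter_upwards [g1, g2] with n g1 g2 c hc
  have inK : ∀ z ∈ S, z + h n * c ∈ Metric.cthickening δ0 S := by
    intro z hz
    refine Metric.mem_cthickening_of_dist_le _ z δ0 S hz ?_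
    rw [dist_eq_norm, add_sub_cancel_left, norm_mul, norm_real, Real.norm_eq_abs,
      abs_of_pos (hp n)]
    rw [mem_closedBall_zero_iff] at hc
    exact (mul_le_mul_of_nonneg_left hc (hp n).le).trans g2.le
  refine ⟨fun z hz => hδB (inK z (by rwa [hS])), fun δ => ?_⟩
  have mZ := mS hB hu hφ n δ
  obtain ⟨Z, hZ⟩ : ∃ Z : Set ℂ, Z = Sub φ (fun z => |u n z| ≤ δ) := ⟨_, rfl⟩
  have ZS : Z ⊆ S := by rw [hZ, hS]; exact fun z hz => hz.1
  rw [← hZ] at mZ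
  have e1 : mm h u φ n δ l c = ∫ w, Z.indicator φ (w - h n * c) * wd h u l n w ^ 2 := by
    unfold mm
    rw [← hZ, ← integral_indicator mZ, ← integral_add_right_eq_self
      (fun w => Z.indicator φ (w - h n * c) * wd h u l n w ^ 2) ((h n : ℂ) * c)]
    congr 1; funext z
    rw [add_sub_cancel_right]
    by_cases hz : z ∈ Z
    · rw [Set.indicator_of_mem hz, Set.indicator_of_mem hz]
    · rw [Set.indicator_of_notMem hz, Set.indicator_of_notMem hz, zero_mul]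
  have e2 : ∫ w, Z.indicator φ (w - h n * c) * wd h u l n w ^ 2 ≤
      ∫ w, |M| * (χ w * wd h u l n w ^ 2) := by
    refine integral_mono_of_nonneg (ae_of_all _ fun w => ?_) ((iχ l n).const_mul _)
      (ae_of_all _ fun w => ?_)
    · exact mul_nonneg (Set.indicator_nonneg (fun z _ => hφ0 z) _) (sq_nonneg _)
    · show Z.indicator φ (w - h n * c) * wd h u l n w ^ 2 ≤ |M| * (χ w * wd h u l n w ^ 2)
      by_cases hz : w - h n * c ∈ Z
      · rw [Set.indicator_of_mem hz]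
        have h1 := inK _ (ZS hz)
        rw [sub_add_cancel] at h1
        rw [hχ1 w h1, one_mul]
        refine mul_le_mul_of_nonneg_right ?_ (sq_nonneg _)
        have h2 := hM1 _ (ZS hz)
        rw [Real.norm_eq_abs] at h2
        exact (le_abs_self _).trans (h2.trans (le_abs_self M))
      · rw [Set.indicator_of_notMem hz, zero_mul]
        exact mul_nonneg (abs_nonneg _) (mul_nonneg (χ0 w) (sq_nonneg _))
  rw [integral_const_mul] at e2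
  rw [e1]
  refine e2.trans ?_
  have b1l : 1 ≤ b ^ l.length := one_le_pow₀ b0
  have h3 : ∫ z, χ z * wd h u l n z ^ 2 ≤ (L + 1) * b ^ l.length := by
    refine g1.trans ?_
    nlinarith
  have := mul_le_mul_of_nonneg_left h3 (abs_nonneg M)
  linarith

/-- smallness of all the derivatives, uniformly for the translates by `h c`, `c ∈ Q` -/
def PP (h : ℕ → ℝ) (u : ℕ → ℂ → ℝ) (φ : ℂ → ℝ) (Q : Set ℂ) : Prop :=
  ∀ l : List Bool, ∀ ε : ℝ, 0 < ε → ∃ δ : ℝ, 0 < δ ∧ ∀ᶠ n in atTop, ∀ c ∈ Q, mm h u φ n δ l c ≤ ε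

lemma mm_mono (hB : IsOpen B) {u : ℕ → ℂ → ℝ} (hu : ∀ n, ContDiffOn ℝ ∞ (u n) B) {φ : ℂ → ℝ}
    (hφ : TF B φ) (hφ0 : ∀ z, 0 ≤ φ z) {n : ℕ} {c : ℂ}
    (hin : ∀ z ∈ tsupport φ, z + h n * c ∈ B) {δ δ' : ℝ} (hd : δ ≤ δ') (l : List Bool) :
    mm h u φ n δ l c ≤ mm h u φ n δ' l c := by
  refine setIntegral_mono_set ?_ (ae_of_all _ fun z => mul_nonneg (hφ0 z) (sq_nonneg _))
    (HasSubset.Subset.eventuallyLE fun z hz => ⟨hz.1, hz.2.trans hd⟩)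
  refine (ContinuousOn.integrableOn_compact hφ.2.1 ?_).mono_set fun z hz => hz.1
  refine hφ.1.continuous.continuousOn.mul (ContinuousOn.pow ?_ 2)
  exact (wd_sm hB hu l n).continuousOn.comp (by fun_prop) hin

lemma PP.fin {u : ℕ → ℂ → ℝ} {φ : ℂ → ℝ} {Q : Set ℂ} (H : PP h u φ Q)
    (hB : IsOpen B) (hu : ∀ n, ContDiffOn ℝ ∞ (u n) B) (hφ : TF B φ) (hφ0 : ∀ z, 0 ≤ φ z)
    (hQ : ∀ᶠ n in atTop, ∀ c ∈ Q, ∀ z ∈ tsupport φ, z + h n * c ∈ B) (f : ℕ → List Bool)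
    (N : ℕ) {ε : ℝ} (hε : 0 < ε) :
    ∃ δ : ℝ, 0 < δ ∧ ∀ᶠ n in atTop, ∀ i < N, ∀ c ∈ Q, mm h u φ n δ (f i) c ≤ ε := by
  induction N with
  | zero => exact ⟨1, one_pos, Eventually.of_forall fun n i hi => absurd hi (Nat.not_lt_zero i)⟩
  | succ N ih =>
    obtain ⟨δ1, p1, h1⟩ := ih
    obtain ⟨δ2, p2, h2⟩ := H (f N) ε hε
    refine ⟨min δ1 δ2, lt_min p1 p2, ?_⟩
    filter_upwards [h1, h2, hQ] with n h1 h2 h3 i hi c hc
    rcases Nat.lt_succ_iff_lt_or_eq.1 hi with hi | rfl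
    · exact (mm_mono hB hu hφ hφ0 (h3 c hc) (min_le_left _ _) _).trans (h1 i hi c hc)
    · exact (mm_mono hB hu hφ hφ0 (h3 c hc) (min_le_right _ _) _).trans (h2 c hc)

lemma PP.ext (GR : S_GR) (hB : IsOpen B) (hp : ∀ n, 0 < h n) (hh : Tendsto h atTop (𝓝 0))
    {ρ : ℂ → ℝ} (hρ : ContDiffOn ℝ ∞ ρ B)
    {u : ℕ → ℂ → ℝ} (hu : ∀ n, ContDiffOn ℝ ∞ (u n) B) (hM : ∀ k, MK2 B h k (cx u))
    (he : ∀ n, ∀ z ∈ B, rd h 1 (rd h 1 u) n z + rd h I (rd h I u) n z = -(ρ z * u n z))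
    {φ : ℂ → ℝ} (hφ : TF B φ) (hφ0 : ∀ z, 0 ≤ φ z) {Q : Set ℂ} (H : PP h u φ Q) {b : Bool} {d : ℂ}
    (hd : d = dir b ∨ d = -dir b) {R R' : ℝ} (hR : 0 ≤ R)
    (hQ : ∀ c ∈ Q, ∀ t ∈ Set.Icc (0 : ℝ) R, c + t * d ∈ Metric.closedBall (0 : ℂ) R') :
    PP h u φ {c | ∃ c0 ∈ Q, ∃ t ∈ Set.Icc (0 : ℝ) R, c = c0 + t * d} := by
  rcases Q.eq_empty_or_nonempty with rfl | hne
  · exact fun l ε hε => ⟨1, one_pos, Eventually.of_forall fun n c ⟨c0, h0, _⟩ => absurd h0 (by simp)⟩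
  intro l ε hε
  have hR' : 0 ≤ R' := by
    obtain ⟨c, hc⟩ := hne
    have := hQ c hc 0 ⟨le_rfl, hR⟩
    rw [mem_closedBall_zero_iff] at this
    exact (norm_nonneg _).trans this
  obtain ⟨C, b0, C0, hb0, hG⟩ := gb GR hB hp hh hρ hu hM he hφ hφ0 hR'
  obtain ⟨X, hX⟩ : ∃ X : ℝ, X = 2 * R * R := ⟨_, rfl⟩
  have X0 : 0 ≤ X := by rw [hX]; positivity
  obtain ⟨N, hN⟩ : ∃ N : ℕ, X ^ N / (N.factorial : ℝ) * (C * b0 ^ (N + l.length)) ≤ ε / 2 := by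
    have h1 := FloorSemiring.tendsto_pow_div_factorial_atTop (X * b0)
    have h2 : Tendsto (fun N : ℕ => (X * b0) ^ N / (N.factorial : ℝ) * (C * b0 ^ l.length)) atTop
        (𝓝 0) := by simpa using h1.mul_const (C * b0 ^ l.length)
    obtain ⟨N, hN⟩ := (h2.eventually (ge_mem_nhds (show 0 < ε / 2 by positivity))).exists
    refine ⟨N, le_trans (le_of_eq ?_) hN⟩
    rw [mul_pow, pow_add]; ring
  obtain ⟨E, hE⟩ : ∃ E : ℝ, E = Real.exp X := ⟨_, rfl⟩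
  have E0 : 0 < E := by rw [hE]; exact Real.exp_pos _
  have Qin : ∀ᶠ n in atTop, ∀ c ∈ Q, ∀ z ∈ tsupport φ, z + h n * c ∈ B := by
    refine (hG []).mono fun n hn c hc => (hn c ?_).1
    have := hQ c hc 0 ⟨le_rfl, hR⟩
    simpa using this
  obtain ⟨δ, δ0, hδ⟩ := H.fin hB hu hφ hφ0 Qin (fun i => List.replicate i b ++ l) N
    (show 0 < ε / (4 * E) by positivity)
  refine ⟨δ, δ0, ?_⟩
  filter_upwards [hδ, hG (List.replicate N b ++ l)] with n h1 h2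
  rintro c ⟨c0, hc0, t, ht, rfl⟩
  have hin : ∀ z ∈ tsupport φ, ∀ t ∈ Set.Icc (0 : ℝ) R, z + h n * (c0 + t * d) ∈ B :=
    fun z hz t ht => (h2 _ (hQ c0 hc0 t ht)).1 z hz
  have mZ := mS hB hu hφ n δ
  obtain ⟨a, ha⟩ : ∃ a : ℕ → ℝ → ℝ, a = fun (j : ℕ) (s : ℝ) =>
    mm h u φ n δ (List.replicate j b ++ l) (c0 + s * d) := ⟨_, rfl⟩
  have ds := fun j => dstep (h := h) hB hu (n := n) hφ.2.1 mZ (fun z hz => hz.1)
    hφ.1.continuous hφ0 (c0 := c0) hd hin (List.replicate j b ++ l)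
  have k1 := recn (a := a) hR (fun j s hs => by rw [ha]; exact (ds j).2 s hs)
    (fun j => by rw [ha]; exact (ds j).1) (J := N) (S := C * b0 ^ (N + l.length))
    (fun s hs => by
      rw [ha]
      have := (h2 _ (hQ c0 hc0 s hs)).2 δ
      rwa [List.length_append, List.length_replicate] at this) N 0 (zero_add N) t ht
  have k2 : mm h u φ n δ l (c0 + t * d) = a 0 t := by rw [ha]; rfl
  rw [k2]
  refine k1.trans ?_
  have tX0 : 0 ≤ 2 * R * t := mul_nonneg (by positivity) ht.1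
  have tX : 2 * R * t ≤ X := by
    rw [hX]; exact mul_le_mul_of_nonneg_left ht.2 (by positivity)
  have k3 : ∑ i ∈ Finset.range N, (2 * R * t) ^ i / (i.factorial : ℝ) * a (0 + i) 0 ≤
      E * (ε / (4 * E)) := by
    have k4 : ∑ i ∈ Finset.range N, (2 * R * t) ^ i / (i.factorial : ℝ) * a (0 + i) 0 ≤
        ∑ i ∈ Finset.range N, X ^ i / (i.factorial : ℝ) * (ε / (4 * E)) := by
      refine Finset.sum_le_sum fun i hi => ?_
      have k5 : a (0 + i) 0 ≤ ε / (4 * E) := by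
        have := h1 i (Finset.mem_range.1 hi) c0 hc0
        rw [ha]
        simpa using this
      have k6 : (2 * R * t) ^ i / (i.factorial : ℝ) ≤ X ^ i / (i.factorial : ℝ) :=
        div_le_div_of_nonneg_right (pow_le_pow_left₀ tX0 tX i) (by positivity)
      refine (mul_le_mul_of_nonneg_left k5 (by positivity)).trans ?_
      exact mul_le_mul_of_nonneg_right k6 (by positivity)
    rw [← Finset.sum_mul] at k4
    refine k4.trans (mul_le_mul_of_nonneg_right ?_ (by positivity))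
    rw [hE]
    exact Real.sum_le_exp_of_nonneg X0 N
  have k7 : E * (ε / (4 * E)) = ε / 4 := by field_simp
  have k8 : (2 * R * t) ^ N / (N.factorial : ℝ) * (C * b0 ^ (N + l.length)) ≤ ε / 2 := by
    refine le_trans (mul_le_mul_of_nonneg_right ?_ (by positivity)) hN
    exact div_le_div_of_nonneg_right (pow_le_pow_left₀ tX0 tX N) (by positivity)
  linarith

lemma PP.union {u : ℕ → ℂ → ℝ} {φ : ℂ → ℝ} {Q Q' : Set ℂ} (H : PP h u φ Q) (H' : PP h u φ Q')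
    (hB : IsOpen B) (hu : ∀ n, ContDiffOn ℝ ∞ (u n) B) (hφ : TF B φ) (hφ0 : ∀ z, 0 ≤ φ z)
    (hQ : ∀ᶠ n in atTop, ∀ c ∈ Q ∪ Q', ∀ z ∈ tsupport φ, z + h n * c ∈ B) :
    PP h u φ (Q ∪ Q') := by
  intro l ε hε
  obtain ⟨δ1, p1, h1⟩ := H l ε hε
  obtain ⟨δ2, p2, h2⟩ := H' l ε hε
  refine ⟨min δ1 δ2, lt_min p1 p2, ?_⟩
  filter_upwards [h1, h2, hQ] with n h1 h2 h3 c hc
  rcases hc with hc | hc
  · exact (mm_mono hB hu hφ hφ0 (h3 c (Or.inl hc)) (min_le_left _ _) _).trans (h1 c hc)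
  · exact (mm_mono hB hu hφ hφ0 (h3 c (Or.inr hc)) (min_le_right _ _) _).trans (h2 c hc)

theorem tay (GR : S_GR) (hB : IsOpen B) (hp : ∀ n, 0 < h n) (hh : Tendsto h atTop (𝓝 0))
    {ρ : ℂ → ℝ} (hρ : ContDiffOn ℝ ∞ ρ B)
    {u : ℕ → ℂ → ℝ} (hu : ∀ n, ContDiffOn ℝ ∞ (u n) B) (hM : ∀ k, MK2 B h k (cx u))
    (he : ∀ n, ∀ z ∈ B, rd h 1 (rd h 1 u) n z + rd h I (rd h I u) n z = -(ρ z * u n z))
    {φ : ℂ → ℝ} (hφ : TF B φ) (hφ0 : ∀ z, 0 ≤ φ z) {R : ℝ} (hR : 0 ≤ R) (l : List Bool) {ε : ℝ}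
    (hε : 0 < ε) : ∃ δ : ℝ, 0 < δ ∧ ∀ᶠ n in atTop, ∀ c ∈ Metric.closedBall (0 : ℂ) R,
      ∫ z in Sub φ (fun z => |u n z| ≤ δ), φ z * wd h u l n (z + h n * c) ^ 2 ≤ ε := by
  obtain ⟨C, b0, C0, hb0, hG⟩ := gb GR hB hp hh hρ hu hM he hφ hφ0
    (R := 2 * R) (by positivity)
  have G1 := hG []
  have H0 : PP h u φ {0} := by
    intro l ε hε
    obtain ⟨δ, δ0, hδ⟩ := sm hB hp hh hu hM hφ hφ0 l hε
    refine ⟨δ, δ0, hδ.mono fun n hn c hc => ?_⟩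
    rw [Set.mem_singleton_iff] at hc
    subst hc
    unfold mm
    simpa using hn
  have H1 : ∀ d : ℂ, d = dir true ∨ d = -dir true →
      PP h u φ {c | ∃ c0 ∈ ({0} : Set ℂ), ∃ t ∈ Set.Icc (0 : ℝ) R, c = c0 + t * d} := by
    intro d hd
    refine H0.ext GR hB hp hh hρ hu hM he hφ hφ0 hd (R' := R) hR fun c hc t ht => ?_
    rw [Set.mem_singleton_iff] at hc
    subst hc
    rw [zero_add, mem_closedBall_zero_iff, norm_mul, norm_real, Real.norm_eq_abs,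
      abs_of_nonneg ht.1]
    have : ‖d‖ = 1 := by rcases hd with rfl | rfl <;> simp [dir]
    rw [this, mul_one]; exact ht.2
  have inR : ∀ d : ℂ, (d = dir true ∨ d = -dir true) →
      ∀ c ∈ {c | ∃ c0 ∈ ({0} : Set ℂ), ∃ t ∈ Set.Icc (0 : ℝ) R, c = c0 + t * d}, ‖c‖ ≤ R := by
    rintro d hd c ⟨c0, hc0, t, ht, rfl⟩
    rw [Set.mem_singleton_iff] at hc0
    subst hc0
    rw [zero_add, norm_mul, norm_real, Real.norm_eq_abs, abs_of_nonneg ht.1]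
    have : ‖d‖ = 1 := by rcases hd with rfl | rfl <;> simp [dir]
    rw [this, mul_one]; exact ht.2
  obtain ⟨Q, hQ⟩ : ∃ Q : Set ℂ, Q =
    {c | ∃ c0 ∈ ({0} : Set ℂ), ∃ t ∈ Set.Icc (0 : ℝ) R, c = c0 + t * dir true} ∪
    {c | ∃ c0 ∈ ({0} : Set ℂ), ∃ t ∈ Set.Icc (0 : ℝ) R, c = c0 + t * (-dir true)} := ⟨_, rfl⟩
  have QR : ∀ c ∈ Q, ‖c‖ ≤ R := by
    intro c hc
    rw [hQ] at hc
    rcases hc with hc | hc
    · exact inR _ (Or.inl rfl) c hc
    · exact inR _ (Or.inr rfl) c hc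
  have H2 : PP h u φ Q := by
    rw [hQ]
    refine (H1 _ (Or.inl rfl)).union (H1 _ (Or.inr rfl)) hB hu hφ hφ0 ?_
    rw [← hQ]
    refine G1.mono fun n hn c hc => (hn c ?_).1
    rw [mem_closedBall_zero_iff]
    have := QR c hc
    linarith
  have H3 : ∀ d : ℂ, d = dir false ∨ d = -dir false →
      PP h u φ {c | ∃ c0 ∈ Q, ∃ t ∈ Set.Icc (0 : ℝ) R, c = c0 + t * d} := by
    intro d hd
    refine H2.ext GR hB hp hh hρ hu hM he hφ hφ0 hd (R' := 2 * R) hR fun c hc t ht => ?_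
    have : ‖d‖ = 1 := by rcases hd with rfl | rfl <;> simp [dir]
    have h1 := QR c hc
    have h2 := norm_add_le c (t * d)
    rw [norm_mul, norm_real, Real.norm_eq_abs, abs_of_nonneg ht.1, this, mul_one] at h2
    rw [mem_closedBall_zero_iff]
    linarith [ht.2]
  obtain ⟨δ1, p1, h1⟩ := H3 _ (Or.inl rfl) l ε hε
  obtain ⟨δ2, p2, h2⟩ := H3 _ (Or.inr rfl) l ε hε
  refine ⟨min δ1 δ2, lt_min p1 p2, ?_⟩
  filter_upwards [h1, h2, G1] with n h1 h2 h3 c hc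
  rw [mem_closedBall_zero_iff] at hc
  have hin : ∀ z ∈ tsupport φ, z + h n * c ∈ B := (h3 c (by
    rw [mem_closedBall_zero_iff]; linarith)).1
  have re1 : |c.re| ≤ R := (Complex.abs_re_le_norm c).trans hc
  have im1 : |c.im| ≤ R := (Complex.abs_im_le_norm c).trans hc
  have cQ : (c.re : ℂ) ∈ Q := by
    rw [hQ]
    rcases le_total 0 c.re with h0 | h0
    · left
      refine ⟨0, rfl, c.re, ⟨h0, (le_abs_self _).trans re1⟩, ?_⟩
      simp [dir]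
    · right
      refine ⟨0, rfl, -c.re, ⟨by linarith, (neg_le_abs _).trans re1⟩, ?_⟩
      simp [dir]
  have ec : c = (c.re : ℂ) + c.im * I := (Complex.re_add_im c).symm
  show mm h u φ n (min δ1 δ2) l c ≤ ε
  rcases le_total 0 c.im with h0 | h0
  · refine (mm_mono hB hu hφ hφ0 hin (min_le_left _ _) _).trans (h1 c ?_)
    refine ⟨_, cQ, c.im, ⟨h0, (le_abs_self _).trans im1⟩, ?_⟩
    simpa [dir] using ec
  · refine (mm_mono hB hu hφ hφ0 hin (min_le_right _ _) _).trans (h2 c ?_)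
    refine ⟨_, cQ, -c.im, ⟨by linarith, (neg_le_abs _).trans im1⟩, ?_⟩
    simpa [dir] using ec

end

end Pool.Agent.P8H31.VC
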