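import Pool.Agent.P8H31.VC.Tay

/-!
Project VC (helper31): the mass of the translates, one direction.
-/

set_option autoImplicit false
open MeasureTheory Filter Topology Complex
open scoped ContDiff ENNReal

namespace Pool.Agent.P8H31.VC

open Pool.Agent.W745.RW Pool.Agent.TH294.RS Pool.Agent.TH294.RG Pool.Agent.TH421.DF
open Pool.Agent.TH421.AC Pool.Agent.P8H31.NZ

noncomputable section

variable {B : Set ℂ} {h : ℕ → ℝ}

lemma dstep (hB : IsOpen B) {u : ℕ → ℂ → ℝ} (hu : ∀ n, ContDiffOn ℝ ∞ (u n) B) {n : ℕ}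
    {S Z : Set ℂ} (hS : IsCompact S) (hZ : MeasurableSet Z) (hZS : Z ⊆ S) {φ : ℂ → ℝ}
    (hφ : Continuous φ) (hφ0 : ∀ z, 0 ≤ φ z) {c0 d : ℂ} {b : Bool} (hd : d = dir b ∨ d = -dir b)
    {R : ℝ} (hin : ∀ z ∈ S, ∀ t ∈ Set.Icc (0 : ℝ) R, z + h n * (c0 + t * d) ∈ B) (l : List Bool) :
    IntegrableOn (fun s : ℝ => ∫ z in Z, φ z * wd h u l n (z + h n * (c0 + s * d)) ^ 2)
      (Set.Icc 0 R) ∧
    ∀ t ∈ Set.Icc (0 : ℝ) R, ∫ z in Z, φ z * wd h u l n (z + h n * (c0 + t * d)) ^ 2 ≤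
      2 * (∫ z in Z, φ z * wd h u l n (z + h n * (c0 + (0 : ℝ) * d)) ^ 2) +
      2 * R * ∫ s in (0 : ℝ)..t, ∫ z in Z, φ z * wd h u (b :: l) n (z + h n * (c0 + s * d)) ^ 2 := by
  have cg : Continuous (fun p : ℂ × ℝ => p.1 + h n * (c0 + p.2 * d)) := by fun_prop
  have mp : Set.MapsTo (fun p : ℂ × ℝ => p.1 + h n * (c0 + p.2 * d)) (S ×ˢ Set.Icc 0 R) B :=
    fun p hp => hin p.1 hp.1 p.2 hp.2
  have cF : ∀ l, ContinuousOn (Function.uncurry fun (z : ℂ) (s : ℝ) =>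
      φ z * wd h u l n (z + h n * (c0 + s * d)) ^ 2) (S ×ˢ Set.Icc 0 R) := by
    intro l
    have h1 : ContinuousOn (fun p : ℂ × ℝ => wd h u l n (p.1 + h n * (c0 + p.2 * d)))
        (S ×ˢ Set.Icc 0 R) := (wd_sm hB hu l n).continuousOn.comp cg.continuousOn mp
    have h2 : ContinuousOn (fun p : ℂ × ℝ => φ p.1) (S ×ˢ Set.Icc 0 R) :=
      (hφ.comp continuous_fst).continuousOn
    exact h2.mul (h1.pow 2)
  have sw := swap hS hZ hZS (cF l)
  have sw' := swap hS hZ hZS (cF (b :: l))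
  refine ⟨sw.1, fun t ht => ?_⟩
  obtain ⟨j1, j2⟩ := sw'.2 t ht
  have R0 : 0 ≤ R := ht.1.trans ht.2
  have iF : ∀ s ∈ Set.Icc (0 : ℝ) R, IntegrableOn (fun z =>
      φ z * wd h u l n (z + h n * (c0 + s * d)) ^ 2) Z := by
    intro s hs
    refine (ContinuousOn.integrableOn_compact hS ?_).mono_set hZS
    exact (cF l).comp (f := fun z : ℂ => (z, s)) (by fun_prop) fun z hz => ⟨hz, hs⟩
  have zR : (0 : ℝ) ∈ Set.Icc (0 : ℝ) R := ⟨le_rfl, R0⟩
  rw [← j2, ← integral_const_mul, ← integral_const_mul, ← integral_add ((iF 0 zR).const_mul 2)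
    (j1.const_mul _)]
  refine setIntegral_mono_on (iF t ht) (((iF 0 zR).const_mul 2).add (j1.const_mul _)) hZ
    fun z hz => ?_
  have hzS := hZS hz
  obtain ⟨g, hg⟩ : ∃ g : ℝ → ℝ, g = fun s : ℝ => wd h u l n (z + h n * (c0 + s * d)) := ⟨_, rfl⟩
  obtain ⟨g', hg'⟩ : ∃ g' : ℝ → ℝ, g' = fun s : ℝ => h n * fderiv ℝ (wd h u l n)
    (z + h n * (c0 + s * d)) d := ⟨_, rfl⟩
  have cz : ContinuousOn (fun s : ℝ => z + h n * (c0 + s * d)) (Set.Icc 0 R) := by fun_prop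
  have mz : Set.MapsTo (fun s : ℝ => z + h n * (c0 + s * d)) (Set.Icc 0 R) B :=
    fun s hs => hin z hzS s hs
  have dg : ∀ s ∈ Set.Icc (0 : ℝ) R, HasDerivAt g (g' s) s := by
    intro s hs
    have h1 : HasDerivAt (fun s : ℝ => z + h n * (c0 + s * d)) (h n * d) s := by
      have h2 : HasDerivAt (fun s : ℝ => (s : ℂ)) 1 s := ofRealCLM.hasDerivAt
      have h3 := ((h2.mul_const d).const_add c0).const_mul (h n : ℂ)
      have h4 := h3.const_add z
      simpa using h4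
    have h5 : HasFDerivAt (wd h u l n) (fderiv ℝ (wd h u l n) (z + h n * (c0 + s * d)))
        (z + h n * (c0 + s * d)) := (rdA hB (wd_sm hB hu l n) (mz hs)).hasFDerivAt
    have h6 := h5.comp_hasDerivAt s h1
    have h7 : fderiv ℝ (wd h u l n) (z + h n * (c0 + s * d)) (h n * d) = g' s := by
      rw [hg']
      have : (h n : ℂ) * d = (h n : ℝ) • d := by rw [real_smul]
      rw [this, map_smul, smul_eq_mul]
    rw [h7] at h6
    rw [hg]; exact h6
  have cg' : ContinuousOn g' (Set.Icc 0 R) := by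
    rw [hg']
    exact continuousOn_const.mul ((rsd hB (wd_sm hB hu l n) d).continuousOn.comp cz mz)
  have ui : Set.uIcc 0 t ⊆ Set.Icc 0 R := by
    rw [Set.uIcc_of_le ht.1]; exact Set.Icc_subset_Icc_right ht.2
  have i1 : IntervalIntegrable g' volume 0 t := (cg'.mono ui).intervalIntegrable
  have i2 : IntervalIntegrable (fun s => g' s ^ 2) volume 0 t :=
    ((cg'.mono ui).pow 2).intervalIntegrable
  have e1 : ∫ s in (0 : ℝ)..t, g' s = g t - g 0 :=
    intervalIntegral.integral_eq_sub_of_hasDerivAt (fun s hs => dg s (ui hs)) i1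
  have e2 := cs_int ht.1 i1 i2
  have e3 : ∀ s, g' s ^ 2 = wd h u (b :: l) n (z + h n * (c0 + s * d)) ^ 2 := by
    intro s
    rw [hg']
    show (h n * fderiv ℝ (wd h u l n) (z + h n * (c0 + s * d)) d) ^ 2 =
      (h n * fderiv ℝ (wd h u l n) (z + h n * (c0 + s * d)) (dir b)) ^ 2
    rcases hd with rfl | rfl
    · rfl
    · rw [map_neg]; ring
  have e4 : ∫ s in (0 : ℝ)..t, φ z * wd h u (b :: l) n (z + h n * (c0 + s * d)) ^ 2 =
      φ z * ∫ s in (0 : ℝ)..t, g' s ^ 2 := by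
    rw [← intervalIntegral.integral_const_mul]
    refine intervalIntegral.integral_congr fun s _ => ?_
    show _ = φ z * g' s ^ 2
    rw [e3]
  have e5 : 0 ≤ ∫ s in (0 : ℝ)..t, g' s ^ 2 :=
    intervalIntegral.integral_nonneg ht.1 fun s _ => sq_nonneg _
  rw [e1] at e2
  have e6 : g t ^ 2 ≤ 2 * g 0 ^ 2 + 2 * R * ∫ s in (0 : ℝ)..t, g' s ^ 2 := by
    have := mul_le_mul_of_nonneg_right ht.2 e5
    nlinarith [sq_nonneg (g t - 2 * g 0)]
  have e7 := mul_le_mul_of_nonneg_left e6 (hφ0 z)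
  have e8 : wd h u l n (z + h n * (c0 + t * d)) = g t := by rw [hg]
  have e9 : wd h u l n (z + h n * (c0 + (0 : ℝ) * d)) = g 0 := by rw [hg]
  show φ z * wd h u l n (z + h n * (c0 + t * d)) ^ 2 ≤
    2 * (φ z * wd h u l n (z + h n * (c0 + (0 : ℝ) * d)) ^ 2) + 2 * R * _
  rw [e4, e8, e9]
  linarith

end

end Pool.Agent.P8H31.VC
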