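import Pool.Agent.P8H31.VC.Dsc
import Pool.Agent.P8H31.NZ.Laws

/-!
Project VC (helper31): the set where the solution is small and the quiet discs.
-/

set_option autoImplicit false
open MeasureTheory Filter Topology Complex
open scoped ContDiff ENNReal

namespace Pool.Agent.P8H31.VC

open Pool.Agent.W745.RW Pool.Agent.TH294.RS Pool.Agent.TH294.RG Pool.Agent.TH421.DF
open Pool.Agent.TH421.AC Pool.Agent.P8H31.NZ

noncomputable section

/-- the points of `Ω` where the mean of `f` over the disc of radius `r` is at most `η` -/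
def quiet (Ω : Set ℂ) (r : ℝ) (f : ℂ → ℝ) (η : ℝ) : Set ℂ := {z | z ∈ Ω ∧ mean r f z ≤ η}

/-- integrals over a set of a function supported in a measurable set -/
lemma set_cut {S Z : Set ℂ} (hS : MeasurableSet S) {F : ℂ → ℝ} (h0 : ∀ z, z ∉ S → F z = 0) :
    ∫ z in Z, F z = ∫ z in S ∩ Z, F z := by
  rw [← Measure.restrict_restrict hS]
  exact (setIntegral_eq_integral_of_forall_compl_eq_zero h0).symm

lemma quiet_cut {Ω : Set ℂ} {φ : ℂ → ℝ} (hφ : tsupport φ ⊆ Ω) (r : ℝ) (f : ℂ → ℝ) (η : ℝ)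
    (g : ℂ → ℝ) : ∫ z in quiet Ω r f η, φ z * g z =
      ∫ z in Sub φ (fun z => mean r f z ≤ η), φ z * g z := by
  rw [set_cut (isClosed_tsupport φ).measurableSet fun z hz => by
    rw [image_eq_zero_of_notMem_tsupport hz, zero_mul]]
  congr 2
  ext z
  exact ⟨fun h => ⟨h.1, h.2.2⟩, fun h => ⟨h.1, hφ h.1, h.2⟩⟩

lemma near_cut {Ω : Set ℂ} {φ : ℂ → ℝ} (hφ : tsupport φ ⊆ Ω) (f : ℂ → ℝ) (δ : ℝ)
    (g : ℂ → ℝ) : ∫ z in near Ω f δ, φ z * g z =
      ∫ z in Sub φ (fun z => |f z| ≤ δ), φ z * g z := by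
  rw [set_cut (isClosed_tsupport φ).measurableSet fun z hz => by
    rw [image_eq_zero_of_notMem_tsupport hz, zero_mul]]
  congr 2
  ext z
  exact ⟨fun h => ⟨h.1, h.2.2⟩, fun h => ⟨h.1, hφ h.1, h.2⟩⟩

/-- **Where the solution is small, it is small in a disc.** -/
theorem vac (GR : S_GR) (FU : S_FU) {B : Set ℂ} {h : ℕ → ℝ} (hB : IsOpen B) (hp : ∀ n, 0 < h n)
    (hh : Tendsto h atTop (𝓝 0)) {ρ : ℂ → ℝ} (hρ : ContDiffOn ℝ ∞ ρ B)
    {u : ℕ → ℂ → ℝ} (hu : ∀ n, ContDiffOn ℝ ∞ (u n) B) (hM : ∀ k, MK2 B h k (cx u))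
    (he : ∀ n, ∀ z ∈ B, rd h 1 (rd h 1 u) n z + rd h I (rd h I u) n z = -(ρ z * u n z))
    {φ : ℂ → ℝ} (hφ : TF B φ) (hφ0 : ∀ z, 0 ≤ φ z) {R : ℝ} (hR : 0 ≤ R) {ε : ℝ} (hε : 0 < ε) :
    ∃ δ : ℝ, 0 < δ ∧ ∀ᶠ n in atTop, ∫ z in Sub φ (fun z => |u n z| ≤ δ),
      φ z * mean (R * h n) (fun w => u n w ^ 2) z ≤ ε := by
  obtain ⟨δ, δ0, hδ⟩ := tay GR hB hp hh hρ hu hM he hφ hφ0 hR [] hε
  obtain ⟨r0, r1, hr⟩ := FU hB hφ.1.continuous hφ.2.1 hφ.2.2 hφ0
  have g2 : ∀ᶠ n in atTop, R * h n < r0 := by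
    have : Tendsto (fun n => R * h n) atTop (𝓝 0) := by simpa using hh.const_mul R
    exact this.eventually (gt_mem_nhds r1)
  refine ⟨δ, δ0, ?_⟩
  filter_upwards [hδ, g2] with n h1 h2
  refine hr (fun w => u n w ^ 2) ((hu n).continuousOn.pow 2) _ (mul_nonneg hR (hp n).le) h2.le _
    (mS hB hu hφ n δ) (fun z hz => hz.1) ε fun c hc => ?_
  have h3 := h1 (R * c) (by
    rw [mem_closedBall_zero_iff, norm_mul, norm_real, Real.norm_eq_abs, abs_of_nonneg hR]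
    rw [mem_ball_zero_iff] at hc
    exact mul_le_of_le_one_right hR hc.le)
  refine le_trans (le_of_eq ?_) h3
  congr 1; funext z
  have e : ((R * h n : ℝ) : ℂ) * c = h n * (R * c) := by push_cast; ring
  show φ z * u n (z + ((R * h n : ℝ) : ℂ) * c) ^ 2 = φ z * u n (z + h n * (R * c)) ^ 2
  rw [e]

/-- the small set is at most the quiet set -/
lemma small_quiet (MC : S_MC) {B : Set ℂ} {h : ℕ → ℝ} (hB : IsOpen B) (hp : ∀ n, 0 < h n)
    (hh : Tendsto h atTop (𝓝 0)) {u : ℕ → ℂ → ℝ} (hu : ∀ n, ContDiffOn ℝ ∞ (u n) B)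
    {φ : ℂ → ℝ} (hφ : TF B φ) (hφ0 : ∀ z, 0 ≤ φ z) {R : ℝ} (hR : 0 ≤ R)
    (hv : ∀ ε : ℝ, 0 < ε → ∃ δ : ℝ, 0 < δ ∧ ∀ᶠ n in atTop,
      ∫ z in Sub φ (fun z => |u n z| ≤ δ), φ z * mean (R * h n) (fun w => u n w ^ 2) z ≤ ε)
    {η ε : ℝ} (hη : 0 < η) (hε : 0 < ε) : ∃ δ : ℝ, 0 < δ ∧ ∀ᶠ n in atTop,
      ∫ z in Sub φ (fun z => |u n z| ≤ δ), φ z ≤
        (∫ z in Sub φ (fun z => mean (R * h n) (fun w => u n w ^ 2) z ≤ η), φ z) + ε := by
  obtain ⟨δ, δ0, hδ⟩ := hv (η * ε) (by positivity)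
  obtain ⟨r0, r1, hr⟩ := MC hB hφ.2.1 hφ.2.2
  have g2 : ∀ᶠ n in atTop, R * h n < r0 := by
    have : Tendsto (fun n => R * h n) atTop (𝓝 0) := by simpa using hh.const_mul R
    exact this.eventually (gt_mem_nhds r1)
  refine ⟨δ, δ0, ?_⟩
  filter_upwards [hδ, g2] with n h1 h2
  obtain ⟨m, hm⟩ : ∃ m : ℂ → ℝ, m = mean (R * h n) (fun w => u n w ^ 2) := ⟨_, rfl⟩
  have cm : ContinuousOn m (tsupport φ) := by
    rw [hm]
    exact hr _ ((hu n).continuousOn.pow 2) _ (mul_nonneg hR (hp n).le) h2.le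
  have m0 : ∀ z, 0 ≤ m z := fun z => by
    rw [hm]; unfold mean
    exact mul_nonneg (by positivity) (integral_nonneg fun c => sq_nonneg _)
  rw [← hm] at h1 ⊢
  have hc : IsCompact (tsupport φ) := hφ.2.1
  have i1 : IntegrableOn φ (tsupport φ) := hφ.1.continuous.continuousOn.integrableOn_compact hc
  have i2 : IntegrableOn (fun z => φ z * m z) (tsupport φ) :=
    (hφ.1.continuous.continuousOn.mul cm).integrableOn_compact hc
  obtain ⟨Z, hZ⟩ : ∃ Z : Set ℂ, Z = Sub φ (fun z => |u n z| ≤ δ) := ⟨_, rfl⟩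
  obtain ⟨W, hW⟩ : ∃ W : Set ℂ, W = Sub φ (fun z => m z ≤ η) := ⟨_, rfl⟩
  have mZ : MeasurableSet Z := by rw [hZ]; exact mS hB hu hφ n δ
  have mW : MeasurableSet W := by rw [hW]; exact (Sub_le hc cm continuousOn_const).measurableSet
  have ZS : Z ⊆ tsupport φ := by rw [hZ]; exact fun z hz => hz.1
  have WS : W ⊆ tsupport φ := by rw [hW]; exact fun z hz => hz.1
  rw [← hZ] at h1 ⊢
  rw [← hW]
  have i3 : IntegrableOn (W.indicator φ) (tsupport φ) := i1.indicator mW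
  have i4 : IntegrableOn (fun z => η⁻¹ * (φ z * m z)) (tsupport φ) := i2.const_mul _
  have i5 : IntegrableOn (fun z => W.indicator φ z + η⁻¹ * (φ z * m z)) (tsupport φ) := i3.add i4
  have key : ∫ z in Z, φ z ≤ ∫ z in Z, (W.indicator φ z + η⁻¹ * (φ z * m z)) := by
    refine setIntegral_mono_on (i1.mono_set ZS) (i5.mono_set ZS) mZ
      fun z hz => ?_
    by_cases hz2 : z ∈ W
    · rw [Set.indicator_of_mem hz2]
      have : 0 ≤ η⁻¹ * (φ z * m z) := mul_nonneg (inv_pos.2 hη).le (mul_nonneg (hφ0 z) (m0 z))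
      linarith
    · rw [Set.indicator_of_notMem hz2, zero_add]
      have h3 : η < m z := by
        by_contra hc2
        exact hz2 (by rw [hW]; exact ⟨ZS hz, not_lt.1 hc2⟩)
      have h4 : 1 ≤ η⁻¹ * m z := by
        rw [inv_mul_eq_div, le_div_iff₀ hη]; linarith
      have := mul_le_mul_of_nonneg_left h4 (hφ0 z)
      linarith
  refine key.trans ?_
  rw [integral_add (i3.mono_set ZS) (i4.mono_set ZS), integral_const_mul]
  refine add_le_add ?_ ?_
  · rw [setIntegral_indicator mW]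
    exact setIntegral_mono_set (i1.mono_set WS) (ae_of_all _ hφ0)
      (HasSubset.Subset.eventuallyLE Set.inter_subset_right)
  · have := mul_le_mul_of_nonneg_left h1 (inv_pos.2 hη).le
    rwa [← mul_assoc, inv_mul_cancel₀ hη.ne', one_mul] at this

/-- the quiet set is at most the small set -/
lemma quiet_small (MC : S_MC) (UP : S_UP) {B : Set ℂ} {h : ℕ → ℝ} (hB : IsOpen B)
    (hp : ∀ n, 0 < h n) (hh : Tendsto h atTop (𝓝 0)) {u : ℕ → ℂ → ℝ}
    (hu : ∀ n, ContDiffOn ℝ ∞ (u n) B)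
    {φ : ℂ → ℝ} (hφ : TF B φ) (hφ0 : ∀ z, 0 ≤ φ z) {R : ℝ} (hR : 0 < R)
    {δ ε : ℝ} (hδ : 0 < δ) (hε : 0 < ε) : ∃ η : ℝ, 0 < η ∧ ∀ η' : ℝ, 0 < η' → η' ≤ η →
      ∀ᶠ n in atTop,
      ∫ z in Sub φ (fun z => mean (R * h n) (fun w => u n w ^ 2) z ≤ η'), φ z ≤
        (∫ z in Sub φ (fun z => |u n z| ≤ δ), φ z) + ε := by
  obtain ⟨C, r2, C0, r3, hC⟩ := UP hB hφ.1.continuous hφ.2.1 hφ.2.2 hφ0
  obtain ⟨r0, r1, hr⟩ := MC hB hφ.2.1 hφ.2.2
  have g2 : ∀ᶠ n in atTop, R * h n < min r0 r2 := by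
    have : Tendsto (fun n => R * h n) atTop (𝓝 0) := by simpa using hh.const_mul R
    exact this.eventually (gt_mem_nhds (lt_min r1 r3))
  refine ⟨ε * δ ^ 2 / (C + 1), by positivity, fun η hη hηl => ?_⟩
  filter_upwards [g2] with n h2
  have cu : ContinuousOn (fun w => u n w ^ 2) B := (hu n).continuousOn.pow 2
  have h3 := hC _ cu (fun z _ => sq_nonneg _) (R * h n) (mul_pos hR (hp n))
    (h2.le.trans (min_le_right _ _)) η hη.le
  obtain ⟨m, hm⟩ : ∃ m : ℂ → ℝ, m = mean (R * h n) (fun w => u n w ^ 2) := ⟨_, rfl⟩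
  have cm : ContinuousOn m (tsupport φ) := by
    rw [hm]
    exact hr _ cu _ (mul_pos hR (hp n)).le (h2.le.trans (min_le_left _ _))
  rw [← hm] at h3 ⊢
  have hc : IsCompact (tsupport φ) := hφ.2.1
  have i1 : IntegrableOn φ (tsupport φ) := hφ.1.continuous.continuousOn.integrableOn_compact hc
  have i2 : IntegrableOn (fun z => φ z * u n z ^ 2) (tsupport φ) :=
    (hφ.1.continuous.continuousOn.mul (cu.mono hφ.2.2)).integrableOn_compact hc
  obtain ⟨Z, hZ⟩ : ∃ Z : Set ℂ, Z = Sub φ (fun z => |u n z| ≤ δ) := ⟨_, rfl⟩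
  obtain ⟨W, hW⟩ : ∃ W : Set ℂ, W = Sub φ (fun z => m z ≤ η) := ⟨_, rfl⟩
  have mZ : MeasurableSet Z := by rw [hZ]; exact mS hB hu hφ n δ
  have mW : MeasurableSet W := by rw [hW]; exact (Sub_le hc cm continuousOn_const).measurableSet
  have ZS : Z ⊆ tsupport φ := by rw [hZ]; exact fun z hz => hz.1
  have WS : W ⊆ tsupport φ := by rw [hW]; exact fun z hz => hz.1
  have h4 : ∫ z in W, φ z * u n z ^ 2 ≤ C * η := by rw [hW]; exact h3
  rw [← hZ, ← hW]
  have i3 : IntegrableOn (Z.indicator φ) (tsupport φ) := i1.indicator mZ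
  have i4 : IntegrableOn (fun z => (δ ^ 2)⁻¹ * (φ z * u n z ^ 2)) (tsupport φ) := i2.const_mul _
  have i5 : IntegrableOn (fun z => Z.indicator φ z + (δ ^ 2)⁻¹ * (φ z * u n z ^ 2))
    (tsupport φ) := i3.add i4
  have key : ∫ z in W, φ z ≤ ∫ z in W, (Z.indicator φ z + (δ ^ 2)⁻¹ * (φ z * u n z ^ 2)) := by
    refine setIntegral_mono_on (i1.mono_set WS) (i5.mono_set WS) mW
      fun z hz => ?_
    by_cases hz2 : z ∈ Z
    · rw [Set.indicator_of_mem hz2]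
      have : 0 ≤ (δ ^ 2)⁻¹ * (φ z * u n z ^ 2) :=
        mul_nonneg (by positivity) (mul_nonneg (hφ0 z) (sq_nonneg _))
      linarith
    · rw [Set.indicator_of_notMem hz2, zero_add]
      have h3 : δ < |u n z| := by
        by_contra hc2
        exact hz2 (by rw [hZ]; exact ⟨WS hz, not_lt.1 hc2⟩)
      have h5 : δ ^ 2 ≤ u n z ^ 2 := by
        rw [← sq_abs (u n z)]; exact pow_le_pow_left₀ hδ.le h3.le 2
      have h4 : 1 ≤ (δ ^ 2)⁻¹ * u n z ^ 2 := by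
        rw [inv_mul_eq_div, le_div_iff₀ (by positivity)]; linarith
      have := mul_le_mul_of_nonneg_left h4 (hφ0 z)
      linarith
  refine key.trans ?_
  rw [integral_add (i3.mono_set WS) (i4.mono_set WS), integral_const_mul]
  refine add_le_add ?_ ?_
  · rw [setIntegral_indicator mZ]
    exact setIntegral_mono_set (i1.mono_set ZS) (ae_of_all _ hφ0)
      (HasSubset.Subset.eventuallyLE Set.inter_subset_right)
  · have h5 := h4.trans (mul_le_mul_of_nonneg_left hηl C0)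
    have h6 : C * (ε * δ ^ 2 / (C + 1)) ≤ ε * δ ^ 2 := by
      have e1 : C * (ε * δ ^ 2 / (C + 1)) = ε * δ ^ 2 * (C / (C + 1)) := by field_simp
      rw [e1]
      refine mul_le_of_le_one_right (by positivity) ?_
      rw [div_le_one (by positivity)]; linarith
    rw [inv_mul_eq_div, div_le_iff₀ (by positivity)]
    exact h5.trans h6

/-- the mass of the small set is at most the atom -/
lemma near_le {Ω : Set ℂ} (hΩ : IsOpen Ω) {ρ : ℂ → ℝ} (hρ : ContinuousOn ρ Ω)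
    (hρ0 : ∀ z ∈ Ω, 0 < ρ z) {u : ℕ → ℂ → ℝ} (hu : ∀ n, ContinuousOn (u n) Ω) {φ : ℂ → ℝ}
    (hφ : TF Ω φ) (hφ0 : ∀ z, 0 ≤ φ z) {ν : Measure ℝ} [IsFiniteMeasure ν] {σ : ℕ → ℕ}
    (hg : ∀ g : ℝ → ℝ, Continuous g → HasCompactSupport g →
      Tendsto (fun n => ∫ z, φ z * (g (u (σ n) z) * ρ z)) atTop (𝓝 (∫ x, g x ∂ν)))
    {ε : ℝ} (hε : 0 < ε) : ∃ δ : ℝ, 0 < δ ∧
    ∀ᶠ n in atTop, ∫ z in near Ω (u (σ n)) δ, φ z * ρ z ≤ ν.real {0} + ε := by
  have h1 : Tendsto (fun k : ℕ => ∫ x, flat (1 / ((k : ℝ) + 1)) x ∂ν) atTop (𝓝 (ν.real {0})) := by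
    have e1 : ν.real {0} = ∫ x, ({0} : Set ℝ).indicator (fun _ => (1 : ℝ)) x ∂ν := by
      rw [integral_indicator (measurableSet_singleton 0), setIntegral_const, smul_eq_mul, mul_one]
    rw [e1]
    refine tendsto_integral_of_dominated_convergence (fun _ => 1)
      (fun k => (flat_co _).aestronglyMeasurable) (integrable_const _)
      (fun k => ae_of_all _ fun x => ?_) (ae_of_all _ fun x => ?_)
    · rw [Real.norm_eq_abs, abs_of_nonneg (flat_nn _ x)]; exact flat_le _ x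
    · by_cases hx : x = 0
      · subst hx
        rw [Set.indicator_of_mem (Set.mem_singleton 0)]
        refine tendsto_const_nhds.congr fun k => ?_
        rw [flat_one (by positivity) (by rw [abs_zero]; positivity)]
      · rw [Set.indicator_of_notMem (by simpa using hx)]
        have h2 : ∀ᶠ k : ℕ in atTop, 1 / ((k : ℝ) + 1) < |x| / 2 :=
          (tendsto_one_div_add_atTop_nhds_zero_nat (𝕜 := ℝ)).eventually
            (gt_mem_nhds (by have := abs_pos.2 hx; positivity))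
        refine (tendsto_const_nhds (x := (0 : ℝ))).congr' (h2.mono fun k hk => ?_)
        have kp : 0 < 1 / ((k : ℝ) + 1) := by positivity
        have h3 : 2 ≤ |x| / (1 / ((k : ℝ) + 1)) := by rw [le_div_iff₀ kp]; linarith
        show 0 = min 1 (max 0 (2 - |x| / (1 / ((k : ℝ) + 1))))
        rw [max_eq_left (show 2 - |x| / (1 / ((k : ℝ) + 1)) ≤ 0 by linarith)]
        exact (min_eq_right zero_le_one).symm
  obtain ⟨k, hk⟩ := (h1.eventually (gt_mem_nhds (show ν.real {0} < ν.real {0} + ε / 2 by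
    linarith))).exists
  obtain ⟨δ, hδ⟩ : ∃ δ : ℝ, δ = 1 / ((k : ℝ) + 1) := ⟨_, rfl⟩
  have δ0 : 0 < δ := by rw [hδ]; positivity
  rw [← hδ] at hk
  refine ⟨δ, δ0, ?_⟩
  have h3 := (hg (flat δ) (flat_co δ) (flat_cs δ0)).eventually
    (gt_mem_nhds (show ∫ x, flat δ x ∂ν < ν.real {0} + ε by linarith))
  refine h3.mono fun n hn => le_trans ?_ hn.le
  have iρ : Integrable (fun z => φ z * ρ z) :=
    Pool.Agent.W311.RW.int_mul hΩ hφ hρ
  have iT : Integrable (fun z => φ z * (flat δ (u (σ n) z) * ρ z)) :=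
    Pool.Agent.W311.RW.int_mul hΩ hφ (((flat_co δ).comp_continuousOn (hu _)).mul hρ)
  rw [← integral_indicator (near_meas hΩ (hu _) δ)]
  refine integral_mono (iρ.indicator (near_meas hΩ (hu _) δ)) iT fun z => ?_
  by_cases hz : z ∈ near Ω (u (σ n)) δ
  · rw [Set.indicator_of_mem hz]
    show φ z * ρ z ≤ φ z * (flat δ (u (σ n) z) * ρ z)
    rw [flat_one δ0 hz.2, one_mul]
  · rw [Set.indicator_of_notMem hz]
    show 0 ≤ φ z * (flat δ (u (σ n) z) * ρ z)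
    by_cases hzΩ : z ∈ Ω
    · exact mul_nonneg (hφ0 z) (mul_nonneg (flat_nn _ _) (hρ0 z hzΩ).le)
    · rw [TF.zero hφ hzΩ, zero_mul]

end

end Pool.Agent.P8H31.VC
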