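import Pool.Agent.P8H31.NZ.Small

/-!
Project VC (helper31): the homogeneous energy principle: where `|H| ≤ κ A`, the derivative of `H` is
small in the mean.
-/

set_option autoImplicit false
open MeasureTheory Filter Topology Complex
open scoped ContDiff ENNReal

namespace Pool.Agent.P8H31.VC

open Pool.Agent.W745.RW Pool.Agent.TH294.RS Pool.Agent.TH294.RG Pool.Agent.TH421.DF
open Pool.Agent.TH421.AC Pool.Agent.P8H31.NZ

noncomputable section

variable {B : Set ℂ} {h : ℕ → ℝ}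

/-- a cut-off with bounded primitive -/
lemma exists_th : ∃ (θ : ℝ → ℝ) (C : ℝ), ContDiff ℝ ∞ θ ∧ (∀ x, 0 ≤ θ x) ∧ (∀ x, θ x ≤ 1) ∧
    (∀ x, |x| ≤ 1 → θ x = 1) ∧ 0 ≤ C ∧ (∀ x, |Pr θ x| ≤ C) ∧ ∀ x, |x * θ x| ≤ 2 := by
  let f : ContDiffBump (0 : ℝ) := ⟨1, 2, one_pos, one_lt_two⟩
  have cf : Continuous (fun x => f x) := f.continuous
  have hi : Integrable (fun x => |f x|) :=
    (cf.integrable_of_hasCompactSupport f.hasCompactSupport).abs
  refine ⟨f, ∫ x, |f x|, f.contDiff, fun x => f.nonneg, fun x => f.le_one, fun x hx => ?_,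
    integral_nonneg fun x => abs_nonneg _, fun x => ?_, fun x => ?_⟩
  · apply f.one_of_mem_closedBall
    rw [mem_closedBall_zero_iff, Real.norm_eq_abs]; exact hx
  · have h1 := intervalIntegral.norm_integral_le_integral_norm_uIoc (f := fun x => f x)
      (a := 0) (b := x) (μ := volume)
    refine h1.trans ?_
    exact setIntegral_le_integral hi (ae_of_all _ fun x => abs_nonneg _)
  · by_cases hx : |x| < 2
    · rw [abs_mul, abs_of_nonneg f.nonneg]
      have := f.le_one (x := x)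
      have h0 := f.nonneg (x := x)
      nlinarith [abs_nonneg x]
    · have : f x = 0 := by
        apply f.zero_of_le_dist
        rw [dist_zero_right, Real.norm_eq_abs]
        exact not_lt.1 hx
      rw [this, mul_zero, abs_zero]
      norm_num

/-- **The homogeneous energy principle.** -/
theorem hom (hB : IsOpen B) (hp : ∀ n, 0 < h n) (hh : Tendsto h atTop (𝓝 0))
    {H : ℕ → ℂ → ℝ} (hH : ∀ n, ContDiffOn ℝ ∞ (H n) B) (hM : MK2 B h 2 (cx H))
    {A : ℕ → ℂ → ℝ} (hA : ∀ n, ContDiffOn ℝ ∞ (A n) B) (hA0 : ∀ n, ∀ z ∈ B, 0 < A n z)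
    (lA : LB B 2 (cx A)) {v : ℂ} (lA1 : LB B 2 (cx (rd h v A)))
    {φ : ℂ → ℝ} (hφ : TF B φ) (hφ0 : ∀ z, 0 ≤ φ z) (hv : v = 1 ∨ v = I) :
    ∃ C : ℝ, 0 ≤ C ∧ ∀ᶠ n in atTop, ∀ κ : ℝ, 0 < κ →
      ∫ z in Sub φ (fun z => |H n z| ≤ κ * A n z), φ z * rd h v H n z ^ 2 ≤ κ * C := by
  obtain ⟨θ, Cθ, sθ, θ0, θ1, θe, Cθ0, hCθ, hxθ⟩ := exists_th
  obtain ⟨S, hS⟩ : ∃ S : Set ℂ, S = tsupport φ := ⟨_, rfl⟩
  have hSc : IsCompact S := by rw [hS]; exact hφ.2.1
  have hSB : S ⊆ B := by rw [hS]; exact hφ.2.2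
  have z0 : ∀ z, z ∉ S → φ z = 0 := fun z hz => image_eq_zero_of_notMem_tsupport (by rwa [hS] at hz)
  have z1 : ∀ z, z ∉ S → fderiv ℝ φ z v = 0 := fun z hz => by
    rw [fderiv_of_notMem_tsupport ℝ (by rwa [hS] at hz)]; rfl
  have cφ : Continuous φ := hφ.1.continuous
  have cφ' : Continuous (fun z => fderiv ℝ φ z v) :=
    ((hφ.1.fderiv_right (m := ∞) le_rfl).clm_apply contDiff_const).continuous
  obtain ⟨M, hM1⟩ := hSc.exists_bound_of_continuousOn cφ.continuousOn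
  obtain ⟨M', hM2⟩ := hSc.exists_bound_of_continuousOn cφ'.continuousOn
  have r1 : MK2 B h 1 (cx (rd h v H)) := by
    rcases hv with rfl | rfl
    · exact (mk_rd hB hH hM).1
    · exact (mk_rd hB hH hM).2
  have r2 : MK2 B h 0 (cx (rd h v (rd h v H))) := by
    rcases hv with rfl | rfl
    · exact (mk_rd hB (rd_sm hB hH 1) r1).1
    · exact (mk_rd hB (rd_sm hB hH I) r1).2
  obtain ⟨C1, hC1, b1⟩ := lb_re r1.lb hSc hSB
  obtain ⟨C2, hC2, b2⟩ := lb_re r2.lb hSc hSB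
  obtain ⟨C3, hC3, b3⟩ := lb_re lA hSc hSB
  obtain ⟨C4, hC4, b4⟩ := lb_re lA1 hSc hSB
  obtain ⟨N, hN⟩ : ∃ N : ℝ, N = |M| + |M'| := ⟨_, rfl⟩
  have N0 : 0 ≤ N := by rw [hN]; positivity
  refine ⟨N * ((Cθ + 2) * (C1 + C4) + Cθ * (C3 + C2) + Cθ * (C3 + C1)), by positivity, ?_⟩
  filter_upwards [b1, b2, b3, b4, ev_h1 hh] with n b1 b2 b3 b4 h1 κ hκ
  have sH := hH n
  have sA := hA n
  have sH1 := rsd hB sH v
  -- the quotient
  obtain ⟨q, hq⟩ : ∃ q : ℂ → ℝ, q = fun z => κ⁻¹ * (H n z * (A n z)⁻¹) := ⟨_, rfl⟩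
  have sI : ContDiffOn ℝ ∞ (fun z => (A n z)⁻¹) B := sA.inv fun z hz => (hA0 n z hz).ne'
  have sq : ContDiffOn ℝ ∞ q B := by rw [hq]; exact contDiffOn_const.mul (sH.mul sI)
  have sP : ContDiffOn ℝ ∞ (fun z => Pr θ (q z)) B := (Pr_sm sθ).comp_contDiffOn sq
  obtain ⟨U, hU⟩ : ∃ U : ℂ → ℝ, U = fun z =>
    φ z * (κ * (A n z * Pr θ (q z)) * fderiv ℝ (H n) z v) := ⟨_, rfl⟩
  have sU : ContDiffOn ℝ ∞ U B := by
    rw [hU]; exact hφ.1.contDiffOn.mul ((contDiffOn_const.mul (sA.mul sP)).mul sH1)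
  have zU : ∀ z, z ∉ S → U z = 0 := fun z hz => by
    rw [hU]; show φ z * _ = 0; rw [z0 z hz, zero_mul]
  have nhU : ∀ z, z ∉ S → U =ᶠ[𝓝 z] fun _ => 0 := by
    intro z hz
    filter_upwards [hSc.isClosed.isOpen_compl.mem_nhds (hz : z ∈ Sᶜ)] with w hw
    exact zU w hw
  have gU : ContDiff ℝ ∞ U := by
    refine contDiff_iff_contDiffAt.2 fun w => ?_
    by_cases hw : w ∈ B
    · exact sU.contDiffAt (hB.mem_nhds hw)
    · exact contDiffAt_const.congr_of_eventuallyEq (nhU w fun h => hw (hSB h))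
  obtain ⟨iU, jU⟩ := Pool.Agent.W366.RW.int_zero U gU (HasCompactSupport.intro hSc zU) v
  -- the terms
  obtain ⟨X1, hX1⟩ : ∃ X : ℂ → ℝ, X = fun z => φ z * (θ (q z) * rd h v H n z ^ 2) := ⟨_, rfl⟩
  obtain ⟨X2, hX2⟩ : ∃ X : ℂ → ℝ, X = fun z =>
    φ z * (κ * ((Pr θ (q z) - q z * θ (q z)) * (rd h v A n z * rd h v H n z))) := ⟨_, rfl⟩
  obtain ⟨X3, hX3⟩ : ∃ X : ℂ → ℝ, X = fun z =>
    φ z * (κ * (Pr θ (q z) * (A n z * rd h v (rd h v H) n z))) := ⟨_, rfl⟩
  obtain ⟨X4, hX4⟩ : ∃ X : ℂ → ℝ, X = fun z =>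
    fderiv ℝ φ z v * (h n * κ * (Pr θ (q z) * (A n z * rd h v H n z))) := ⟨_, rfl⟩
  have key : ∀ z, X1 z = h n ^ 2 * fderiv ℝ U z v - X2 z - X3 z - X4 z := by
    intro z
    rw [hX1, hX2, hX3, hX4]
    beta_reduce
    by_cases hz : z ∈ B
    · have a0 := (hA0 n z hz).ne'
      have d1 : HasFDerivAt φ (fderiv ℝ φ z) z :=
        (hφ.1.differentiable (by simp) z).hasFDerivAt
      have d2 : HasFDerivAt (H n) (fderiv ℝ (H n) z) z := (rdA hB sH hz).hasFDerivAt
      have dA : HasFDerivAt (A n) (fderiv ℝ (A n) z) z := (rdA hB sA hz).hasFDerivAt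
      have dI : HasFDerivAt (fun w => (A n w)⁻¹) (-((A n z) ^ 2)⁻¹ • fderiv ℝ (A n) z) z :=
        (hasDerivAt_inv a0).comp_hasFDerivAt z dA
      have dq : HasFDerivAt q (κ⁻¹ • (H n z • (-((A n z) ^ 2)⁻¹ • fderiv ℝ (A n) z) +
          (A n z)⁻¹ • fderiv ℝ (H n) z)) z := by
        rw [hq]; exact (d2.mul dI).const_mul κ⁻¹
      have d3 : HasFDerivAt (fun w => Pr θ (q w)) (θ (q z) •
          (κ⁻¹ • (H n z • (-((A n z) ^ 2)⁻¹ • fderiv ℝ (A n) z) +
          (A n z)⁻¹ • fderiv ℝ (H n) z))) z :=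
        (Pr_d sθ (q z)).comp_hasFDerivAt z dq
      have d4 : HasFDerivAt (fun w => fderiv ℝ (H n) w v)
          (fderiv ℝ (fun w => fderiv ℝ (H n) w v) z) z := (rdA hB sH1 hz).hasFDerivAt
      have d5 := (d1.mul (((dA.mul d3).const_mul κ).mul d4)).fderiv
      have e1 : fderiv ℝ U z v = φ z * ((κ * (A n z * Pr θ (q z))) *
          fderiv ℝ (fun w => fderiv ℝ (H n) w v) z v +
          fderiv ℝ (H n) z v * (κ * (A n z * (θ (q z) * (κ⁻¹ * (H n z * (-((A n z) ^ 2)⁻¹ *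
            fderiv ℝ (A n) z v) + (A n z)⁻¹ * fderiv ℝ (H n) z v))) +
            Pr θ (q z) * fderiv ℝ (A n) z v))) +
          (κ * (A n z * Pr θ (q z)) * fderiv ℝ (H n) z v) * fderiv ℝ φ z v := by
        rw [hU]
        have e3 := congrArg (fun L : ℂ →L[ℝ] ℝ => L v) d5
        refine Eq.trans e3 ?_
        simp only [add_apply, smul_apply, smul_eq_mul, Pi.mul_apply]
        try ring
      have e2 : rd h v (rd h v H) n z = h n ^ 2 * fderiv ℝ (fun w => fderiv ℝ (H n) w v) z v := by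
        show h n * fderiv ℝ (fun w => h n * fderiv ℝ (H n) w v) z v = _
        rw [fderiv_const_mul (rdA hB sH1 hz)]
        simp only [smul_apply, smul_eq_mul]; ring
      have e4 : q z = κ⁻¹ * (H n z * (A n z)⁻¹) := by rw [hq]
      obtain ⟨P, hP⟩ : ∃ P : ℝ, P = Pr θ (q z) := ⟨_, rfl⟩
      obtain ⟨t, ht⟩ : ∃ t : ℝ, t = θ (q z) := ⟨_, rfl⟩
      rw [e1, e2, ← hP, ← ht, e4]
      simp only [rd]
      have k0 := hκ.ne'
      field_simp
      ring
    · have hzS : z ∉ S := fun h => hz (hSB h)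
      rw [z0 z hzS, z1 z hzS, (nhU z hzS).fderiv_eq]; simp
  -- continuity and integrability
  have cq : ContinuousOn q S := sq.continuousOn.mono hSB
  have cP : ContinuousOn (fun z => Pr θ (q z)) S := sP.continuousOn.mono hSB
  have ct : ContinuousOn (fun z => θ (q z)) S := sθ.continuous.comp_continuousOn cq
  have cr : ContinuousOn (rd h v H n) S := (rd_sm hB hH v n).continuousOn.mono hSB
  have crr : ContinuousOn (rd h v (rd h v H) n) S :=
    (rd_sm hB (rd_sm hB hH v) v n).continuousOn.mono hSB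
  have cA : ContinuousOn (A n) S := sA.continuousOn.mono hSB
  have crA : ContinuousOn (rd h v A n) S := (rd_sm hB hA v n).continuousOn.mono hSB
  have i1 : Integrable X1 := by
    rw [hX1]
    exact rint hSc (cφ.continuousOn.mul (ct.mul (cr.pow 2))) fun z hz => by rw [z0 z hz, zero_mul]
  have i2 : Integrable X2 := by
    rw [hX2]
    exact rint hSc (cφ.continuousOn.mul (continuousOn_const.mul ((cP.sub (cq.mul ct)).mul
      (crA.mul cr)))) fun z hz => by rw [z0 z hz, zero_mul]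
  have i3 : Integrable X3 := by
    rw [hX3]
    exact rint hSc (cφ.continuousOn.mul (continuousOn_const.mul (cP.mul (cA.mul crr))))
      fun z hz => by rw [z0 z hz, zero_mul]
  have i4 : Integrable X4 := by
    rw [hX4]
    exact rint hSc (cφ'.continuousOn.mul (continuousOn_const.mul (cP.mul (cA.mul cr))))
      fun z hz => by rw [z1 z hz, zero_mul]
  have tot : ∫ z, X1 z = -(∫ z, X2 z) - (∫ z, X3 z) - ∫ z, X4 z := by
    have k1 : Integrable (fun z => h n ^ 2 * fderiv ℝ U z v) := iU.const_mul _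
    have k2 : Integrable (fun z => h n ^ 2 * fderiv ℝ U z v - X2 z) := k1.sub i2
    have k3 : Integrable (fun z => h n ^ 2 * fderiv ℝ U z v - X2 z - X3 z) := k2.sub i3
    simp only [key]
    rw [integral_sub k3 i4, integral_sub k2 i3, integral_sub k1 i2, integral_const_mul, jU,
      mul_zero, zero_sub]
  -- bounds: `∫_S (F² + G²)` for continuous functions
  have lin : ∀ (X F G : ℂ → ℝ) (c D E : ℝ), (∀ z, z ∉ S → X z = 0) → Integrable X →
      0 ≤ c → ContinuousOn F S → ContinuousOn G S → (∀ z ∈ S, |X z| ≤ c * (F z ^ 2 + G z ^ 2)) →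
      ∫ z in S, F z ^ 2 ≤ D → ∫ z in S, G z ^ 2 ≤ E → |∫ z, X z| ≤ c * (D + E) := by
    intro X F G c D E hX0 iX hc cF cG hXle hD hE
    refine (abs_integral_le_integral_abs).trans ?_
    rw [out_int (S := S) (fun z hz => by rw [hX0 z hz, abs_zero])]
    have iF : IntegrableOn (fun z => F z ^ 2) S := (cF.pow 2).integrableOn_compact hSc
    have iG : IntegrableOn (fun z => G z ^ 2) S := (cG.pow 2).integrableOn_compact hSc
    have h2 : ∫ z in S, |X z| ≤ ∫ z in S, c * (F z ^ 2 + G z ^ 2) :=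
      setIntegral_mono_on iX.abs.integrableOn ((iF.add iG).const_mul c) hSc.measurableSet hXle
    rw [integral_const_mul, integral_add iF iG] at h2
    exact h2.trans (mul_le_mul_of_nonneg_left (add_le_add hD hE) hc)
  have amgm : ∀ x y : ℝ, |x * y| ≤ x ^ 2 + y ^ 2 := by
    intro x y
    rw [abs_mul, ← sq_abs x, ← sq_abs y]
    nlinarith [sq_nonneg (|x| - |y|), abs_nonneg x, abs_nonneg y, sq_nonneg |x|, sq_nonneg |y|]
  have hφN : ∀ z ∈ S, |φ z| ≤ N := fun z hz => by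
    rw [hN]
    exact ((hM1 z hz).trans (le_abs_self M)).trans (le_add_of_nonneg_right (abs_nonneg _))
  have hφN' : ∀ z ∈ S, |fderiv ℝ φ z v| ≤ N := fun z hz => by
    rw [hN]
    exact ((hM2 z hz).trans (le_abs_self M')).trans (le_add_of_nonneg_left (abs_nonneg _))
  have B2 : |∫ z, X2 z| ≤ N * (κ * (Cθ + 2)) * (C4 + C1) := by
    refine lin X2 (rd h v A n) (rd h v H n) _ C4 C1 (fun z hz => by rw [hX2]; simp [z0 z hz]) i2
      (by positivity) crA cr (fun z hz => ?_) b4 b1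
    rw [hX2]
    beta_reduce
    rw [abs_mul, abs_mul, abs_mul, abs_of_pos hκ]
    have t1 : |Pr θ (q z) - q z * θ (q z)| ≤ Cθ + 2 :=
      (abs_sub _ _).trans (add_le_add (hCθ _) (hxθ _))
    have t2 := amgm (rd h v A n z) (rd h v H n z)
    have t3 : 0 ≤ rd h v A n z ^ 2 + rd h v H n z ^ 2 := by positivity
    calc |φ z| * (κ * (|Pr θ (q z) - q z * θ (q z)| * |rd h v A n z * rd h v H n z|))
        ≤ N * (κ * ((Cθ + 2) * (rd h v A n z ^ 2 + rd h v H n z ^ 2))) := by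
          have := hφN z hz
          gcongr
      _ = N * (κ * (Cθ + 2)) * (rd h v A n z ^ 2 + rd h v H n z ^ 2) := by ring
  have B3 : |∫ z, X3 z| ≤ N * (κ * Cθ) * (C3 + C2) := by
    refine lin X3 (A n) (rd h v (rd h v H) n) _ C3 C2 (fun z hz => by rw [hX3]; simp [z0 z hz]) i3
      (by positivity) cA crr (fun z hz => ?_) b3 b2
    rw [hX3]
    beta_reduce
    rw [abs_mul, abs_mul, abs_mul, abs_of_pos hκ]
    have t1 := hCθ (q z)
    have t2 := amgm (A n z) (rd h v (rd h v H) n z)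
    calc |φ z| * (κ * (|Pr θ (q z)| * |A n z * rd h v (rd h v H) n z|))
        ≤ N * (κ * (Cθ * (A n z ^ 2 + rd h v (rd h v H) n z ^ 2))) := by
          have := hφN z hz
          gcongr
      _ = N * (κ * Cθ) * (A n z ^ 2 + rd h v (rd h v H) n z ^ 2) := by ring
  have B4 : |∫ z, X4 z| ≤ N * (κ * Cθ) * (C3 + C1) := by
    refine lin X4 (A n) (rd h v H n) _ C3 C1 (fun z hz => by rw [hX4]; simp [z1 z hz]) i4
      (by positivity) cA cr (fun z hz => ?_) b3 b1
    rw [hX4]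
    beta_reduce
    rw [abs_mul, abs_mul, abs_mul, abs_mul, abs_of_pos hκ, abs_of_pos (hp n)]
    have t1 := hCθ (q z)
    have t2 := amgm (A n z) (rd h v H n z)
    have hn := (hp n).le
    calc |fderiv ℝ φ z v| * (h n * κ * (|Pr θ (q z)| * |A n z * rd h v H n z|))
        ≤ N * (1 * κ * (Cθ * (A n z ^ 2 + rd h v H n z ^ 2))) := by
          have := hφN' z hz
          gcongr
      _ = N * (κ * Cθ) * (A n z ^ 2 + rd h v H n z ^ 2) := by ring
  have fin : ∫ z, X1 z ≤ κ * (N * ((Cθ + 2) * (C1 + C4) + Cθ * (C3 + C2) + Cθ * (C3 + C1))) := by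
    rw [tot]
    have t2 := neg_abs_le (∫ z, X2 z)
    have t3 := neg_abs_le (∫ z, X3 z)
    have t4 := neg_abs_le (∫ z, X4 z)
    have e : κ * (N * ((Cθ + 2) * (C1 + C4) + Cθ * (C3 + C2) + Cθ * (C3 + C1))) =
        N * (κ * (Cθ + 2)) * (C4 + C1) + N * (κ * Cθ) * (C3 + C2) +
          N * (κ * Cθ) * (C3 + C1) := by ring
    rw [e]
    linarith
  -- restriction to the set
  refine le_trans ?_ fin
  have x1nn : ∀ z, 0 ≤ X1 z := fun z => by
    rw [hX1]; exact mul_nonneg (hφ0 z) (mul_nonneg (θ0 _) (sq_nonneg _))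
  have cT : IsCompact (Sub φ (fun z => |H n z| ≤ κ * A n z)) := by
    rw [hS] at hSB cA
    exact Sub_le hφ.2.1 (sH.continuousOn.mono hSB).abs (continuousOn_const.mul cA)
  have eq1 : ∀ z ∈ Sub φ (fun z => |H n z| ≤ κ * A n z), φ z * rd h v H n z ^ 2 = X1 z := by
    rintro z ⟨hz, hz2⟩
    have hzB : z ∈ B := hφ.2.2 hz
    have a0 := hA0 n z hzB
    have : θ (q z) = 1 := by
      apply θe
      rw [hq]
      beta_reduce
      rw [abs_mul, abs_mul, abs_inv, abs_inv, abs_of_pos hκ, abs_of_pos a0]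
      have : κ⁻¹ * (|H n z| * (A n z)⁻¹) = |H n z| / (κ * A n z) := by
        field_simp
      rw [this, div_le_one (by positivity)]
      exact hz2
    rw [hX1]
    beta_reduce
    rw [this, one_mul]
  rw [setIntegral_congr_fun cT.measurableSet eq1]
  exact setIntegral_le_integral i1 (ae_of_all _ x1nn)

end

end Pool.Agent.P8H31.VC
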