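import Pool.Agent.P8H31.VC.Scale
import Pool.Agent.P8H86.VC.K1

/-!
Project VC (helper31): the variance of the local masses at the scale of the wavelength, lower bound.
-/

set_option autoImplicit false
open MeasureTheory Filter Topology Complex ProbabilityTheory
open scoped ContDiff ENNReal

namespace Pool.Agent.P8H31.VC

open Pool.Agent.W745.RW Pool.Agent.TH294.RS Pool.Agent.TH294.RG Pool.Agent.TH421.DF
open Pool.Agent.TH421.AC Pool.Agent.P8H31.NZ Pool.Agent.P8H86.VC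

noncomputable section

variable {m : ℂ → ℝ} {ν : Kernel ℂ ℝ} {Ω : Set ℂ} {a : ℂ → ℝ} {h : ℕ → ℝ}
  {u : ℕ → ℂ → ℝ} {K : Set ℂ} {T : ℝ}

lemma alg3 {t : ℝ} (ht : 0 < t) (X a b c : ℝ) :
    (X + (a + b + c)) ^ 2 ≤ (1 + t) * X ^ 2 + 3 * (1 + 1 / t) * (a ^ 2 + b ^ 2 + c ^ 2) := by
  obtain ⟨s, hs⟩ : ∃ s : ℝ, s = a + b + c := ⟨_, rfl⟩
  have s5 : s ^ 2 ≤ 3 * (a ^ 2 + b ^ 2 + c ^ 2) := by
    rw [hs]
    linarith [sq_nonneg (a - b), sq_nonneg (a - c), sq_nonneg (b - c)]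
  rw [← hs]
  have s6 : (X + s) ^ 2 ≤ (1 + t) * X ^ 2 + (1 + 1 / t) * s ^ 2 := by
    have h1 : 0 ≤ (t * X - s) ^ 2 / t := by positivity
    have h2 : (t * X - s) ^ 2 / t = t * X ^ 2 - 2 * X * s + 1 / t * s ^ 2 := by
      field_simp
      ring
    rw [h2] at h1
    linarith
  have := mul_le_mul_of_nonneg_left s5 (show 0 ≤ 1 + 1 / t by positivity)
  linarith

/-- **The scale of the wavelength, lower bound.** -/
theorem scale_low (K6 : S_K6) (E2 : S_E2) (E3 : S_E3) (E4 : S_E4)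
    (Y : Hyp m ν Ω a h u K T) {φ : ℂ → ℝ}
    (hφ : TF (interior K) φ) (hφ0 : ∀ z, 0 ≤ φ z) {ε : ℝ} (hε : 0 < ε) :
    ∃ R0 : ℝ, 0 < R0 ∧ ∀ R : ℝ, R0 ≤ R → ∀ᶠ n in atTop,
      2 / 3 * ((∫ z, φ z * u n z ^ 4) - 3 * ∫ z, φ z * (m z * m z)) ≤
        (∫ z, φ z * (mean (R * h n) (fun z => u n z ^ 2) z - m z) ^ 2) + ε := by
  have hB : IsOpen (interior K) := isOpen_interior
  have hBΩ : interior K ⊆ Ω := interior_subset.trans Y.hKΩ
  have hp := Y.H.hpos
  have cφ : Continuous φ := hφ.1.continuous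
  have cm : ContinuousOn m (interior K) := Y.hms.continuousOn.mono hBΩ
  obtain ⟨E, E0, hE⟩ := Y.ebd hφ hφ0
  obtain ⟨R1, r1, R1p, r1p, hup⟩ := scale_up k1 E2 Y hφ hφ0 one_pos
  obtain ⟨t, t0, t1, ht⟩ := sm_le (a := E + 1) (b := ε / 4) (by positivity) (by positivity)
  obtain ⟨P, hP⟩ : ∃ P : ℝ, P = 3 * (1 + 1 / t) := ⟨_, rfl⟩
  have P0 : 0 ≤ P := by rw [hP]; positivity
  obtain ⟨δ, δ0, δ1, hδ⟩ := sm_le (a := 4 * P + 1) (b := ε / 2) (by positivity) (by positivity)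
  obtain ⟨N0, hN0⟩ := E2 Y hφ hφ0 δ δ0
  obtain ⟨M0, hM0⟩ := E3 Y hφ hφ0 δ δ0
  obtain ⟨N, hN⟩ : ∃ N : ℕ, N = M0 + 1 := ⟨_, rfl⟩
  obtain ⟨N1, hN1⟩ := hM0 N (by omega)
  obtain ⟨rg, G1, G2, e, rG1, rG2, re, id⟩ := p1 hB Y.ag N (by omega)
  obtain ⟨R0, r0, R0p, r0p, hc⟩ := comb2 k1 hB Y.H.hpos Y.H.hlim Y.rb rg rG1 rG2 re id hφ hφ0 δ0
  obtain ⟨r6, M6, L6, r6p, M60, cL6, hL6, h6⟩ := K6 hB cφ hφ.2.1 hφ.2.2 hφ0
  obtain ⟨χ, hχ, hχ1, χ0, -⟩ := exists_cut hB cL6 hL6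
  obtain ⟨C4, h4⟩ := E4 Y hχ χ0
  obtain ⟨L4, cL4, hL4, hk4⟩ := k4 hB cφ hφ.2.1 hφ.2.2 hφ0
  obtain ⟨r7, M7, K7, r7p, M70, cK7, hK7B, hSK7, hin7, -⟩ := k1 hB cφ hφ.2.1 hφ.2.2 hφ0
  refine ⟨max R0 R1, lt_max_of_lt_left R0p, fun R hR => ?_⟩
  have hR0 : R0 ≤ R := (le_max_left _ _).trans hR
  have hR1 : R1 ≤ R := (le_max_right _ _).trans hR
  have Rp : 0 < R := lt_of_lt_of_le R0p hR0
  -- the choice of `N'`
  obtain ⟨N', hN'0, hN'1, hN'p, hN'C⟩ : ∃ N' : ℕ, N0 ≤ N' ∧ N1 ≤ N' ∧ 0 < N' ∧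
      M6 * (R ^ 2 * (|C4| / (N' : ℝ) ^ 2)) ≤ δ := by
    have l1 : Tendsto (fun k : ℕ => M6 * (R ^ 2 * (|C4| / (k : ℝ) ^ 2))) atTop
        (𝓝 (M6 * (R ^ 2 * 0))) := by
      refine Tendsto.const_mul _ (Tendsto.const_mul _ ?_)
      refine tendsto_const_nhds.div_atTop ?_
      exact (tendsto_pow_atTop two_ne_zero).comp tendsto_natCast_atTop_atTop
    rw [mul_zero, mul_zero] at l1
    obtain ⟨N', h1, h2⟩ := ((l1.eventually (ge_mem_nhds δ0)).and
      (eventually_ge_atTop (N0 + N1 + 1))).exists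
    exact ⟨N', by omega, by omega, by omega, h1⟩
  obtain ⟨rg', -⟩ := p1 hB Y.ag N' hN'p
  obtain ⟨c1, hc1⟩ := rg.2 L4 cL4 hL4
  obtain ⟨c2, hc2⟩ := rg'.2 L4 cL4 hL4
  obtain ⟨x, xp, -, hx⟩ := sm_le (a := 2 * |c1| + 2 * |c2|) (b := δ) (by positivity) δ0
  obtain ⟨r4, r4p, hr4⟩ := hk4 x xp
  have hsm : ∀ᶠ n in atTop, R * h n < min (min r0 r1) (min r4 (min r6 r7)) := by
    have : Tendsto (fun n => R * h n) atTop (𝓝 0) := by simpa using Y.H.hlim.const_mul R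
    exact this.eventually (gt_mem_nhds (by positivity))
  filter_upwards [hE, hup, hN0 N' hN'0, hN1 N' hN'1, hc, h4 N' hN'p, hc1, hc2, hsm] with n
    b1 b2 b3 b4 b5 b6 b7 b8 b9
  have hn := hp n
  have rp : 0 < R * h n := mul_pos Rp hn
  have q0 : R * h n ≤ r0 := b9.le.trans ((min_le_left _ _).trans (min_le_left _ _))
  have q1 : R * h n ≤ r1 := b9.le.trans ((min_le_left _ _).trans (min_le_right _ _))
  have q4 : R * h n ≤ r4 := b9.le.trans ((min_le_right _ _).trans (min_le_left _ _))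
  have q6 : R * h n ≤ r6 := b9.le.trans ((min_le_right _ _).trans
    ((min_le_right _ _).trans (min_le_left _ _)))
  have q7 : R * h n ≤ r7 := b9.le.trans ((min_le_right _ _).trans
    ((min_le_right _ _).trans (min_le_right _ _)))
  obtain ⟨r, hr⟩ : ∃ r : ℝ, r = R * h n := ⟨_, rfl⟩
  rw [← hr] at rp q0 q1 q4 q6 q7 ⊢
  have d2 := b2 r (by rw [hr]; exact mul_le_mul_of_nonneg_right hR1 hn.le) q1
  have d5 := b5 r (by rw [hr]; exact mul_le_mul_of_nonneg_right hR0 hn.le) q0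
  obtain ⟨f, hf⟩ : ∃ f : ℂ → ℝ, f = fun z => u n z ^ 2 := ⟨_, rfl⟩
  obtain ⟨g, hg⟩ : ∃ g : ℂ → ℝ, g = fun z => (FF a h u N n z).re := ⟨_, rfl⟩
  obtain ⟨g', hg'⟩ : ∃ g' : ℂ → ℝ, g' = fun z => (FF a h u N' n z).re := ⟨_, rfl⟩
  have sf : ContDiffOn ℝ ∞ f (interior K) := by rw [hf]; exact Y.rb.1 n
  have sg1 : ContDiffOn ℝ ∞ g (interior K) := by rw [hg]; exact rg.1 n
  have sg2 : ContDiffOn ℝ ∞ g' (interior K) := by rw [hg']; exact rg'.1 n
  have cf := sf.continuousOn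
  have cg := sg1.continuousOn
  have cg' := sg2.continuousOn
  simp only [FF_norm] at b3
  simp only [FF_norm2] at b4
  rw [← hf] at d2 d5 ⊢
  rw [← hg] at d5
  have e3 : ∫ z, φ z * ((FF a h u N' n z).re - m z) ^ 2 = ∫ z, φ z * (g' z - m z) ^ 2 := by
    rw [hg']
  rw [e3] at b3
  have e4 : ∫ z, φ z * ((FF a h u N n z).re - (FF a h u N' n z).re) ^ 2 =
      ∫ z, φ z * (g z - g' z) ^ 2 := by rw [hg, hg']
  rw [e4] at b4
  -- the slow variation
  have d6 : ∫ z, φ z * (mean r g' z - g' z) ^ 2 ≤ δ := by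
    refine (h6 g' sg2 r rp.le q6).trans (le_trans ?_ hN'C)
    refine mul_le_mul_of_nonneg_left ?_ M60
    have e5 : r ^ 2 * ∫ z in L6, (fderiv ℝ g' z 1 ^ 2 + fderiv ℝ g' z I ^ 2) =
        R ^ 2 * ∫ z in L6, ((h n * fderiv ℝ g' z 1) ^ 2 + (h n * fderiv ℝ g' z I) ^ 2) := by
      rw [← integral_const_mul, ← integral_const_mul, hr]
      congr 1; funext z; ring
    rw [e5]
    refine mul_le_mul_of_nonneg_left ?_ (sq_nonneg R)
    have cd1 : ContinuousOn (fun z => (h n * fderiv ℝ g' z 1) ^ 2 + (h n * fderiv ℝ g' z I) ^ 2)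
        (interior K) :=
      ((continuousOn_const.mul (rsd hB sg2 1).continuousOn).pow 2).add
        ((continuousOn_const.mul (rsd hB sg2 I).continuousOn).pow 2)
    have i1 : Integrable (fun z => χ z * ((h n * fderiv ℝ g' z 1) ^ 2 +
        (h n * fderiv ℝ g' z I) ^ 2)) := Pool.Agent.W311.RW.int_mul hB hχ cd1
    have e7 : ∫ z in L6, ((h n * fderiv ℝ g' z 1) ^ 2 + (h n * fderiv ℝ g' z I) ^ 2) ≤
        ∫ z, χ z * ((h n * fderiv ℝ g' z 1) ^ 2 + (h n * fderiv ℝ g' z I) ^ 2) := by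
      have e8 : ∫ z in L6, ((h n * fderiv ℝ g' z 1) ^ 2 + (h n * fderiv ℝ g' z I) ^ 2) =
          ∫ z in L6, χ z * ((h n * fderiv ℝ g' z 1) ^ 2 + (h n * fderiv ℝ g' z I) ^ 2) :=
        setIntegral_congr_fun cL6.measurableSet fun z hz => by
          show _ = χ z * _
          rw [hχ1 z hz, one_mul]
      rw [e8]
      exact setIntegral_le_integral i1 (ae_of_all _ fun z => mul_nonneg (χ0 z) (by positivity))
    refine e7.trans (le_trans ?_ (div_le_div_of_nonneg_right (le_abs_self C4) (by positivity)))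
    rw [hg']; exact b6
  -- the contraction
  have d4 : ∫ z, φ z * (mean r g z - mean r g' z) ^ 2 ≤ 2 * δ := by
    have h1 := hr4 (fun z => g z - g' z) (cg.sub cg') r rp.le q4
    have hm7 : ∀ z ∈ tsupport φ, ∀ c ∈ Metric.closedBall (0 : ℂ) 1, z + r * c ∈ K7 :=
      fun z hz c hc => hin7 z hz c hc r rp.le q7
    have e5 : ∫ z, φ z * (mean r g z - mean r g' z) ^ 2 =
        ∫ z, φ z * mean r (fun z => g z - g' z) z ^ 2 := by
      congr 1; funext z
      by_cases hz : z ∈ tsupport φ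
      · have : mean r (fun z => g z - g' z) z = mean r g z - mean r g' z := by
          rw [mean_kav, mean_kav, mean_kav]
          unfold kav
          rw [← integral_sub (kin (hm7 z hz) (cg.mono hK7B) continuousOn_const)
            (kin (hm7 z hz) (cg'.mono hK7B) continuousOn_const)]
          congr 1; funext c; ring
        rw [this]
      · rw [image_eq_zero_of_notMem_tsupport hz]; simp
    rw [e5]
    have h2 : ∫ z in L4, (g z - g' z) ^ 2 ≤ 2 * |c1| + 2 * |c2| := by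
      have i1 : IntegrableOn (fun z => g z ^ 2) L4 :=
        ((cg.mono hL4).pow 2).integrableOn_compact cL4
      have i2 : IntegrableOn (fun z => g' z ^ 2) L4 :=
        ((cg'.mono hL4).pow 2).integrableOn_compact cL4
      have h2 : ∫ z in L4, (g z - g' z) ^ 2 ≤ ∫ z in L4, (2 * g z ^ 2 + 2 * g' z ^ 2) := by
        refine integral_mono_of_nonneg (ae_of_all _ fun z => sq_nonneg _)
          ((i1.const_mul 2).add (i2.const_mul 2)) (ae_of_all _ fun z => ?_)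
        show (g z - g' z) ^ 2 ≤ 2 * g z ^ 2 + 2 * g' z ^ 2
        nlinarith [sq_nonneg (g z + g' z)]
      rw [integral_add (i1.const_mul 2) (i2.const_mul 2), integral_const_mul,
        integral_const_mul] at h2
      have k1 : ∫ z in L4, g z ^ 2 ≤ |c1| := by rw [hg]; exact b7.trans (le_abs_self _)
      have k2 : ∫ z in L4, g' z ^ 2 ≤ |c2| := by rw [hg']; exact b8.trans (le_abs_self _)
      linarith
    have h3 := mul_le_mul_of_nonneg_left h2 xp.le
    linarith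
  -- the sum
  have hm7 : ∀ z ∈ tsupport φ, ∀ c ∈ Metric.closedBall (0 : ℂ) 1, z + r * c ∈ K7 :=
    fun z hz c hc => hin7 z hz c hc r rp.le q7
  have cmean : ∀ {F : ℂ → ℝ}, ContinuousOn F (interior K) →
      ContinuousOn (mean r F) (tsupport φ) := by
    intro F hF
    have : mean r F = kav (fun _ => 1 / Real.pi) r F := by funext z; exact mean_kav _ _ _
    rw [this]; exact kco cK7 hm7 (hF.mono hK7B) continuousOn_const
  have int : ∀ {F : ℂ → ℝ}, ContinuousOn F (tsupport φ) → Integrable (fun z => φ z * F z ^ 2) := by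
    intro F hF
    refine rint hφ.2.1 (cφ.continuousOn.mul (hF.pow 2)) fun z hz => ?_
    rw [image_eq_zero_of_notMem_tsupport hz, zero_mul]
  have i0 : Integrable (fun z => (1 + t) * (φ z * (mean r f z - m z) ^ 2)) :=
    (int ((cmean cf).sub (cm.mono hφ.2.2))).const_mul _
  have i1 : Integrable (fun z => P * (φ z * (mean r g' z - g' z) ^ 2)) :=
    (int ((cmean cg').sub (cg'.mono hφ.2.2))).const_mul _
  have i2 : Integrable (fun z => P * (φ z * (mean r g z - mean r g' z) ^ 2)) :=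
    (int ((cmean cg).sub (cmean cg'))).const_mul _
  have i3 : Integrable (fun z => P * (φ z * (mean r f z - mean r g z) ^ 2)) :=
    (int ((cmean cf).sub (cmean cg))).const_mul _
  have l1 : Integrable (fun z => P * (φ z * (mean r g' z - g' z) ^ 2) +
    P * (φ z * (mean r g z - mean r g' z) ^ 2)) := i1.add i2
  have l2 : Integrable (fun z => P * (φ z * (mean r g' z - g' z) ^ 2) +
    P * (φ z * (mean r g z - mean r g' z) ^ 2) + P * (φ z * (mean r f z - mean r g z) ^ 2)) :=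
    l1.add i3
  have main : ∫ z, φ z * (g' z - m z) ^ 2 ≤ ∫ z, ((1 + t) * (φ z * (mean r f z - m z) ^ 2) +
      (P * (φ z * (mean r g' z - g' z) ^ 2) + P * (φ z * (mean r g z - mean r g' z) ^ 2) +
        P * (φ z * (mean r f z - mean r g z) ^ 2))) := by
    refine integral_mono_of_nonneg (ae_of_all _ fun z => mul_nonneg (hφ0 z) (sq_nonneg _))
      (i0.add l2) (ae_of_all _ fun z => ?_)
    show φ z * (g' z - m z) ^ 2 ≤ (1 + t) * (φ z * (mean r f z - m z) ^ 2) +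
      (P * (φ z * (mean r g' z - g' z) ^ 2) + P * (φ z * (mean r g z - mean r g' z) ^ 2) +
        P * (φ z * (mean r f z - mean r g z) ^ 2))
    have h1 := alg3 t0 (mean r f z - m z) (g' z - mean r g' z) (mean r g' z - mean r g z)
      (mean r g z - mean r f z)
    rw [← hP] at h1
    have h2 := mul_le_mul_of_nonneg_left h1 (hφ0 z)
    have h3 : mean r f z - m z + (g' z - mean r g' z + (mean r g' z - mean r g z) +
      (mean r g z - mean r f z)) = g' z - m z := by ring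
    rw [h3] at h2
    refine h2.trans (le_of_eq ?_)
    ring
  rw [integral_add i0 l2, integral_add l1 i3, integral_add i1 i2] at main
  simp only [integral_const_mul] at main
  obtain ⟨X, hX⟩ : ∃ X : ℝ, X = ∫ z, φ z * (mean r f z - m z) ^ 2 := ⟨_, rfl⟩
  obtain ⟨w, hw⟩ : ∃ w : ℝ, w = 2 / 3 * ((∫ z, φ z * u n z ^ 4) - 3 * ∫ z, φ z * (m z * m z)) :=
    ⟨_, rfl⟩
  rw [← hX] at main d2 ⊢
  rw [← hw] at b1 b3 d2 ⊢
  rw [abs_le] at b3
  have s1 := mul_le_mul_of_nonneg_left d6 P0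
  have s2 := mul_le_mul_of_nonneg_left d4 P0
  have s3 := mul_le_mul_of_nonneg_left d5 P0
  have s4 : t * X ≤ t * (E + 1) := mul_le_mul_of_nonneg_left (by linarith) t0.le
  have s5 := b3.1
  linarith

end

end Pool.Agent.P8H31.VC
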