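import Pool.Agent.P8H31.VC.ConvF

/-!
Project VC (helper31): the variance of the local masses, without a bound for the fourth moments.
-/

set_option autoImplicit false
open MeasureTheory Filter Topology Complex ProbabilityTheory
open scoped ContDiff ENNReal

namespace Pool.Agent.P8H31.VC

open Pool.Agent.W745.RW Pool.Agent.TH294.RS Pool.Agent.TH294.RG Pool.Agent.TH421.DF
open Pool.Agent.TH421.AC Pool.Agent.P8H31.NZ Pool.Agent.P8H86.VC

noncomputable section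

variable {m : ℂ → ℝ} {ν : Kernel ℂ ℝ} {Ω : Set ℂ} {a : ℂ → ℝ} {h : ℕ → ℝ}
  {u : ℕ → ℂ → ℝ} {K : Set ℂ}

lemma cmean_real (r : ℝ) (g : ℂ → ℝ) (z : ℂ) :
    cmean r (fun z => ((g z : ℝ) : ℂ)) z = ((mean r g z : ℝ) : ℂ) := by
  unfold cmean mean
  rw [integral_complex_ofReal]
  push_cast
  rfl

lemma VV_mass (a : ℂ → ℝ) (h : ℕ → ℝ) (u : ℕ → ℂ → ℝ) (φ m : ℂ → ℝ) (n : ℕ) (r : ℝ) :
    VV φ (fun z => (m z : ℂ)) (pr a h u 0 0 n) r =
      ∫ z, φ z * (mean r (fun z => u n z ^ 2) z - m z) ^ 2 := by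
  have e1 : pr a h u 0 0 n = fun z => ((u n z ^ 2 : ℝ) : ℂ) := by
    funext z
    have : ww a h (fun n z => (u n z : ℂ)) 0 n z = (u n z : ℂ) := rfl
    unfold pr
    rw [this]
    push_cast; ring
  unfold VV
  congr 1; funext z
  rw [e1, cmean_real, ← ofReal_sub, norm_real, Real.norm_eq_abs, sq_abs]

lemma kap00 : kap 0 0 = 2 / 3 := by
  unfold kap
  rw [if_pos]
  simp

/-- all scales -/
theorem mass_upF (AGZ : S_AGZ) (FP1 : S_FP1) (FE2 : S_FE2) (Y : HypF m ν Ω a h u K)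
    {φ : ℂ → ℝ} (hφ : TF (interior K) φ) (hφ0 : ∀ z, 0 ≤ φ z) {ε : ℝ} (hε : 0 < ε) :
    ∃ R0 r0 : ℝ, 0 < R0 ∧ 0 < r0 ∧ ∀ᶠ n in atTop, ∀ r : ℝ, R0 * h n ≤ r → r ≤ r0 →
      ∫ z, φ z * (mean r (fun z => u n z ^ 2) z - m z) ^ 2 ≤
        2 / 3 * exc φ m (u n) + ε * TT K (u n) := by
  have := Y.mk1
  have hB : IsOpen (interior K) := isOpen_interior
  have hc : ContDiffOn ℝ ∞ (fun z => (m z : ℂ)) Ω := ofRealCLM.contDiff.comp_contDiffOn Y.hms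
  have hcc : ∀ᵐ z ∂(volume.restrict Ω), cc (MM m ea ν) 0 0 z = (m z : ℂ) :=
    ae_of_all _ fun z => by simp [cc, MZ, MM_0]
  obtain ⟨R0, r0, R0p, r0p, h1⟩ := phase_upF AGZ FP1 FE2 Y hφ hφ0 0 0 hc hcc hε
  obtain ⟨r7, K7, r7p, cK7, hK7, hin7⟩ := rad hB hφ hφ0
  refine ⟨R0, min r0 r7, R0p, by positivity, h1.mono fun n hn r hr hr' => ?_⟩
  have rp : 0 ≤ r := (mul_nonneg R0p.le (Y.H.hpos n).le).trans hr
  have h2 := hn r hr (hr'.trans (min_le_left _ _))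
  rw [VV_sc Y hK7 (fun z hz c hc => hin7 z hz c hc r rp (hr'.trans (min_le_right _ _))), kap00]
    at h2
  rw [← VV_mass a h u φ m n r]
  refine unsc (h2.trans (le_of_eq ?_))
  unfold excF
  ring

/-- the scale of the wavelength -/
theorem mass_eqF (K6 : S_K6) (AGZ : S_AGZ) (FP1 : S_FP1) (FE2 : S_FE2) (FE3 : S_FE3)
    (FE4 : S_FE4) (Y : HypF m ν Ω a h u K) {φ : ℂ → ℝ}
    (hφ : TF (interior K) φ) (hφ0 : ∀ z, 0 ≤ φ z) {ε : ℝ} (hε : 0 < ε) :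
    ∃ R0 : ℝ, 0 < R0 ∧ ∀ R : ℝ, R0 ≤ R → ∀ᶠ n in atTop,
      |(∫ z, φ z * (mean (R * h n) (fun z => u n z ^ 2) z - m z) ^ 2) -
        2 / 3 * exc φ m (u n)| ≤ ε * TT K (u n) := by
  have := Y.mk1
  have hB : IsOpen (interior K) := isOpen_interior
  have hc : ContDiffOn ℝ ∞ (fun z => (m z : ℂ)) Ω := ofRealCLM.contDiff.comp_contDiffOn Y.hms
  have hcc : ∀ᵐ z ∂(volume.restrict Ω), cc (MM m ea ν) 0 0 z = (m z : ℂ) :=
    ae_of_all _ fun z => by simp [cc, MZ, MM_0]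
  obtain ⟨R1, r1, R1p, r1p, h1⟩ := mass_upF AGZ FP1 FE2 Y hφ hφ0 hε
  obtain ⟨R2, R2p, h2⟩ := phase_lowF K6 AGZ FP1 FE2 FE3 FE4 Y hφ hφ0 0 0 hc hcc hε
  obtain ⟨r7, K7, r7p, cK7, hK7, hin7⟩ := rad hB hφ hφ0
  refine ⟨max R1 R2, lt_max_of_lt_left R1p, fun R hR => ?_⟩
  have hsm : ∀ᶠ n in atTop, R * h n < min r1 r7 := by
    have : Tendsto (fun n => R * h n) atTop (𝓝 0) := by simpa using Y.H.hlim.const_mul R
    exact this.eventually (gt_mem_nhds (by positivity))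
  filter_upwards [h1, h2 R ((le_max_right _ _).trans hR), hsm] with n b1 b2 b3
  have hn := Y.H.hpos n
  have Rp : 0 < R := lt_of_lt_of_le R1p ((le_max_left _ _).trans hR)
  have rp : 0 ≤ R * h n := mul_nonneg Rp.le hn.le
  have b4 := b1 (R * h n) (mul_le_mul_of_nonneg_right ((le_max_left _ _).trans hR) hn.le)
    (b3.le.trans (min_le_left _ _))
  rw [VV_sc Y hK7 (fun z hz c hc => hin7 z hz c hc (R * h n) rp
    (b3.le.trans (min_le_right _ _))), kap00] at b2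
  have b5 : 2 / 3 * exc φ m (u n) ≤
      VV φ (fun z => (m z : ℂ)) (pr a h u 0 0 n) (R * h n) + ε * TT K (u n) := by
    refine unsc (le_trans (le_of_eq ?_) b2)
    unfold excF
    ring
  rw [VV_mass] at b5
  rw [abs_le]
  constructor <;> linarith

end

end Pool.Agent.P8H31.VC
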