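import Pool.Agent.P8H31.VC.Two

/-!
Project VC (helper31): the variance of the local phase space averages and the fourth moment.
-/

set_option autoImplicit false
open MeasureTheory Filter Topology Complex ProbabilityTheory
open scoped ContDiff ENNReal

namespace Pool.Agent.P8H31.VC

open Pool.Agent.W745.RW Pool.Agent.TH294.RS Pool.Agent.TH294.RG Pool.Agent.TH421.DF
open Pool.Agent.TH421.AC Pool.Agent.P8H31.NZ Pool.Agent.P8H86.VC

noncomputable section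

/-- the mean of a complex valued function -/
def cmean (r : ℝ) (f : ℂ → ℂ) (z : ℂ) : ℂ :=
  ((1 / Real.pi : ℝ) : ℂ) * ∫ c in Metric.ball (0 : ℂ) 1, f (z + r * c)

/-- the mean square deviation of the local means -/
def VV (φ : ℂ → ℝ) (c f : ℂ → ℂ) (r : ℝ) : ℝ := ∫ z, φ z * ‖cmean r f z - c z‖ ^ 2

lemma cmean_split {K : Set ℂ} {f : ℂ → ℂ} (hf : ContinuousOn f K) {z : ℂ} {r : ℝ}
    (hm : ∀ c ∈ Metric.closedBall (0 : ℂ) 1, z + r * c ∈ K) :
    (cmean r f z).re = mean r (fun z => (f z).re) z ∧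
      (cmean r f z).im = mean r (fun z => (f z).im) z := by
  have c1 : ContinuousOn (fun c => f (z + r * c)) (Metric.closedBall (0 : ℂ) 1) :=
    hf.comp (by fun_prop) hm
  have i1 : IntegrableOn (fun c => f (z + r * c)) (Metric.ball (0 : ℂ) 1) :=
    (c1.integrableOn_compact (isCompact_closedBall (0 : ℂ) 1)).mono_set
      Metric.ball_subset_closedBall
  unfold cmean mean
  rw [re_ofReal_mul, im_ofReal_mul]
  refine ⟨?_, ?_⟩
  · congr 1
    exact (integral_re i1).symm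
  · congr 1
    exact (integral_im i1).symm

lemma nsq (x y : ℂ) : ‖x - y‖ ^ 2 = (x.re - y.re) ^ 2 + (x.im - y.im) ^ 2 := by
  simp only [Complex.sq_norm, normSq_apply, sub_re, sub_im]
  ring

/-- a radius such that the discs stay in a compact set -/
lemma rad {B : Set ℂ} (hB : IsOpen B) {φ : ℂ → ℝ} (hφ : TF B φ) (hφ0 : ∀ z, 0 ≤ φ z) :
    ∃ (r7 : ℝ) (K7 : Set ℂ), 0 < r7 ∧ IsCompact K7 ∧ K7 ⊆ B ∧ ∀ z ∈ tsupport φ,
      ∀ c ∈ Metric.closedBall (0 : ℂ) 1, ∀ r : ℝ, 0 ≤ r → r ≤ r7 → z + r * c ∈ K7 := by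
  obtain ⟨r7, M7, K7, r7p, M70, cK7, hK7B, hSK7, hin7, -⟩ :=
    k1 hB hφ.1.continuous hφ.2.1 hφ.2.2 hφ0
  exact ⟨r7, K7, r7p, cK7, hK7B, hin7⟩

/-- the splitting of the variance -/
lemma VV_split {B : Set ℂ} {φ : ℂ → ℝ} (hφ : TF B φ) {K7 : Set ℂ}
    (cK7 : IsCompact K7) (hK7 : K7 ⊆ B) {r : ℝ}
    (hm : ∀ z ∈ tsupport φ, ∀ c ∈ Metric.closedBall (0 : ℂ) 1, z + r * c ∈ K7)
    {f : ℂ → ℂ} (hf : ContinuousOn f B) {c : ℂ → ℂ} (hc : ContinuousOn c B) :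
    VV φ c f r = (∫ z, φ z * (mean r (fun z => (f z).re) z - (c z).re) ^ 2) +
      ∫ z, φ z * (mean r (fun z => (f z).im) z - (c z).im) ^ 2 := by
  have cφ : Continuous φ := hφ.1.continuous
  have cmn : ∀ {G : ℂ → ℝ}, ContinuousOn G B → ContinuousOn (mean r G) (tsupport φ) := by
    intro G hG
    have : mean r G = kav (fun _ => 1 / Real.pi) r G := by funext z; exact mean_kav _ _ _
    rw [this]; exact kco cK7 hm (hG.mono hK7) continuousOn_const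
  have int : ∀ {G : ℂ → ℝ}, ContinuousOn G (tsupport φ) → Integrable (fun z => φ z * G z ^ 2) := by
    intro G hG
    refine rint hφ.2.1 (cφ.continuousOn.mul (hG.pow 2)) fun z hz => ?_
    rw [image_eq_zero_of_notMem_tsupport hz, zero_mul]
  have cr : ContinuousOn (fun z => (f z).re) B := continuous_re.comp_continuousOn hf
  have ci : ContinuousOn (fun z => (f z).im) B := continuous_im.comp_continuousOn hf
  have cr' : ContinuousOn (fun z => (c z).re) B := continuous_re.comp_continuousOn hc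
  have ci' : ContinuousOn (fun z => (c z).im) B := continuous_im.comp_continuousOn hc
  have i1 : Integrable (fun z => φ z * (mean r (fun z => (f z).re) z - (c z).re) ^ 2) :=
    int ((cmn cr).sub (cr'.mono hφ.2.2))
  have i2 : Integrable (fun z => φ z * (mean r (fun z => (f z).im) z - (c z).im) ^ 2) :=
    int ((cmn ci).sub (ci'.mono hφ.2.2))
  unfold VV
  rw [← integral_add i1 i2]
  congr 1; funext z
  by_cases hz : z ∈ tsupport φ
  · obtain ⟨e1, e2⟩ := cmean_split (hf.mono hK7) (hm z hz)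
    rw [nsq, e1, e2]; ring
  · rw [image_eq_zero_of_notMem_tsupport hz]; simp

/-- the splitting of the other integral -/
lemma gc_split {B : Set ℂ} {φ : ℂ → ℝ} (hφ : TF B φ)
    {f : ℂ → ℂ} (hf : ContinuousOn f B) {c : ℂ → ℂ} (hc : ContinuousOn c B) :
    ∫ z, φ z * ‖f z - c z‖ ^ 2 = (∫ z, φ z * ((f z).re - (c z).re) ^ 2) +
      ∫ z, φ z * ((f z).im - (c z).im) ^ 2 := by
  have cφ : Continuous φ := hφ.1.continuous
  have int : ∀ {G : ℂ → ℝ}, ContinuousOn G B → Integrable (fun z => φ z * G z ^ 2) := by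
    intro G hG
    refine rint hφ.2.1 (cφ.continuousOn.mul ((hG.mono hφ.2.2).pow 2)) fun z hz => ?_
    rw [image_eq_zero_of_notMem_tsupport hz, zero_mul]
  have cr : ContinuousOn (fun z => (f z).re) B := continuous_re.comp_continuousOn hf
  have ci : ContinuousOn (fun z => (f z).im) B := continuous_im.comp_continuousOn hf
  have cr' : ContinuousOn (fun z => (c z).re) B := continuous_re.comp_continuousOn hc
  have ci' : ContinuousOn (fun z => (c z).im) B := continuous_im.comp_continuousOn hc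
  have i1 : Integrable (fun z => φ z * ((f z).re - (c z).re) ^ 2) := int (cr.sub cr')
  have i2 : Integrable (fun z => φ z * ((f z).im - (c z).im) ^ 2) := int (ci.sub ci')
  rw [← integral_add i1 i2]
  congr 1; funext z
  rw [nsq]; ring

variable {m : ℂ → ℝ} {ν : Kernel ℂ ℝ} {Ω : Set ℂ} {a : ℂ → ℝ} {h : ℕ → ℝ}
  {u : ℕ → ℂ → ℝ} {K : Set ℂ} {T : ℝ}

/-- the product of two members of the ladder -/
def pr (a : ℂ → ℝ) (h : ℕ → ℝ) (u : ℕ → ℂ → ℝ) (i j : ℤ) (n : ℕ) (z : ℂ) : ℂ :=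
  ww a h (fun n z => (u n z : ℂ)) i n z * ww a h (fun n z => (u n z : ℂ)) j n z

lemma Hyp.cw (Y : Hyp m ν Ω a h u K T) (k : ℤ) (n : ℕ) :
    ContinuousOn (ww a h (fun n z => (u n z : ℂ)) k n) (interior K) := (Y.ag.bd k).co n

lemma Hyp.cp (Y : Hyp m ν Ω a h u K T) (i j : ℤ) (n : ℕ) :
    ContinuousOn (pr a h u i j n) (interior K) := (Y.cw i n).mul (Y.cw j n)

lemma Hyp.cF (Y : Hyp m ν Ω a h u K T) (i j : ℤ) (N n : ℕ) :
    ContinuousOn (FG a h u i j N n) (interior K) := by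
  unfold FG FA
  exact continuousOn_finsetSum _ fun q _ => continuousOn_const.mul ((Y.cw _ n).mul (Y.cw _ n))

lemma kap_nn (i j : ℤ) : 0 ≤ kap i j := by unfold kap; split_ifs <;> norm_num

lemma kap_le (i j : ℤ) : kap i j ≤ 2 / 3 := by unfold kap; split_ifs <;> norm_num

/-- the excess -/
def exc (φ m u : ℂ → ℝ) : ℝ := (∫ z, φ z * u z ^ 4) - 3 * ∫ z, φ z * (m z * m z)

/-- **All scales, upper bound.** -/
theorem phase_up (GP1 : S_GP1) (GE2 : S_GE2) (Y : Hyp m ν Ω a h u K T) {φ : ℂ → ℝ}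
    (hφ : TF (interior K) φ) (hφ0 : ∀ z, 0 ≤ φ z) (i j : ℤ) {c : ℂ → ℂ}
    (hc : ContDiffOn ℝ ∞ c Ω) (hcc : ∀ᵐ z ∂(volume.restrict Ω), cc (MM m ea ν) i j z = c z)
    {ε : ℝ} (hε : 0 < ε) :
    ∃ R0 r0 : ℝ, 0 < R0 ∧ 0 < r0 ∧ ∀ᶠ n in atTop, ∀ r : ℝ, R0 * h n ≤ r → r ≤ r0 →
      VV φ c (pr a h u i j n) r ≤ kap i j * exc φ m (u n) + ε := by
  have hB : IsOpen (interior K) := isOpen_interior
  have hBΩ : interior K ⊆ Ω := interior_subset.trans Y.hKΩ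
  have cB : ContinuousOn c (interior K) := hc.continuousOn.mono hBΩ
  have cr' : ContinuousOn (fun z => (c z).re) (interior K) := continuous_re.comp_continuousOn cB
  have ci' : ContinuousOn (fun z => (c z).im) (interior K) := continuous_im.comp_continuousOn cB
  obtain ⟨E, E0, hE⟩ := Y.ebd hφ hφ0
  obtain ⟨t, t0, t1, ht⟩ := sm_le (a := E + 3) (b := ε / 2) (by positivity) (by positivity)
  obtain ⟨δ, hδ⟩ : ∃ δ : ℝ, δ = min 1 (ε / 2) := ⟨_, rfl⟩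
  have δ0 : 0 < δ := by rw [hδ]; positivity
  have δ1 : δ ≤ 1 := by rw [hδ]; exact min_le_left _ _
  have δ2 : δ ≤ ε / 2 := by rw [hδ]; exact min_le_right _ _
  obtain ⟨N0, hN0⟩ := GE2 Y hφ hφ0 i j hc hcc δ δ0
  obtain ⟨N, hN⟩ : ∃ N : ℕ, N = N0 + 1 := ⟨_, rfl⟩
  have hN1 := hN0 N (by omega)
  obtain ⟨D1, D2⟩ := GP1 hB Y.ag i j N (by omega)
  obtain ⟨R1, r1, R1p, r1p, h1⟩ := up_real hB Y.H.hpos Y.H.hlim D1 cr' hφ hφ0 t0
  obtain ⟨R2, r2, R2p, r2p, h2⟩ := up_real hB Y.H.hpos Y.H.hlim D2 ci' hφ hφ0 t0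
  obtain ⟨r7, K7, r7p, cK7, hK7, hin7⟩ := rad hB hφ hφ0
  refine ⟨max R1 R2, min r7 (min r1 r2), lt_max_of_lt_left R1p, by positivity, ?_⟩
  filter_upwards [hN1, h1, h2, hE] with n b1 b2 b3 b4 r hr hr'
  have hn := Y.H.hpos n
  have r0 : 0 ≤ r := (mul_nonneg (R1p.le.trans (le_max_left _ _)) hn.le).trans hr
  have q7 : r ≤ r7 := hr'.trans (min_le_left _ _)
  have q1 : r ≤ r1 := hr'.trans ((min_le_right _ _).trans (min_le_left _ _))
  have q2 : r ≤ r2 := hr'.trans ((min_le_right _ _).trans (min_le_right _ _))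
  have d1 := b2 r ((mul_le_mul_of_nonneg_right (le_max_left _ _) hn.le).trans hr) q1
  have d2 := b3 r ((mul_le_mul_of_nonneg_right (le_max_right _ _) hn.le).trans hr) q2
  rw [VV_split hφ cK7 hK7 (fun z hz c hc => hin7 z hz c hc r r0 q7) (Y.cp i j n) cB]
  rw [gc_split hφ (Y.cF i j N n) cB] at b1
  change ∫ z, φ z * (mean r (fun z => (pr a h u i j n z).re) z - (c z).re) ^ 2 ≤ _ at d1
  change ∫ z, φ z * (mean r (fun z => (pr a h u i j n z).im) z - (c z).im) ^ 2 ≤ _ at d2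
  obtain ⟨y1, hy1⟩ : ∃ y : ℝ, y = ∫ z, φ z * ((FG a h u i j N n z).re - (c z).re) ^ 2 := ⟨_, rfl⟩
  obtain ⟨y2, hy2⟩ : ∃ y : ℝ, y = ∫ z, φ z * ((FG a h u i j N n z).im - (c z).im) ^ 2 := ⟨_, rfl⟩
  rw [← hy1] at d1 b1
  rw [← hy2] at d2 b1
  change |y1 + y2 - kap i j * exc φ m (u n)| ≤ δ at b1
  change 2 / 3 * exc φ m (u n) ≤ E at b4
  obtain ⟨x, hx⟩ : ∃ x : ℝ, x = exc φ m (u n) := ⟨_, rfl⟩
  rw [← hx] at b1 b4 ⊢
  have b5 : kap i j * x ≤ E := by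
    unfold kap
    split_ifs
    · exact b4
    · rw [zero_mul]; exact E0
  rw [abs_le] at b1
  have c2 : t * (y1 + y2) ≤ t * (E + 1) := mul_le_mul_of_nonneg_left (by linarith [b1.2]) t0.le
  linarith [b1.2]

/-- **The scale of the wavelength, lower bound.** -/
theorem phase_low (K6 : S_K6) (GP1 : S_GP1) (GE2 : S_GE2) (GE3 : S_GE3) (GE4 : S_GE4)
    (Y : Hyp m ν Ω a h u K T) {φ : ℂ → ℝ}
    (hφ : TF (interior K) φ) (hφ0 : ∀ z, 0 ≤ φ z) (i j : ℤ) {c : ℂ → ℂ}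
    (hc : ContDiffOn ℝ ∞ c Ω) (hcc : ∀ᵐ z ∂(volume.restrict Ω), cc (MM m ea ν) i j z = c z)
    {ε : ℝ} (hε : 0 < ε) :
    ∃ R0 : ℝ, 0 < R0 ∧ ∀ R : ℝ, R0 ≤ R → ∀ᶠ n in atTop,
      kap i j * exc φ m (u n) ≤ VV φ c (pr a h u i j n) (R * h n) + ε := by
  have hB : IsOpen (interior K) := isOpen_interior
  have hBΩ : interior K ⊆ Ω := interior_subset.trans Y.hKΩ
  have cB : ContinuousOn c (interior K) := hc.continuousOn.mono hBΩ
  have cr' : ContinuousOn (fun z => (c z).re) (interior K) := continuous_re.comp_continuousOn cB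
  have ci' : ContinuousOn (fun z => (c z).im) (interior K) := continuous_im.comp_continuousOn cB
  obtain ⟨E, E0, hE⟩ := Y.ebd hφ hφ0
  obtain ⟨R1, r1, R1p, r1p, hup⟩ := phase_up GP1 GE2 Y hφ hφ0 i j hc hcc one_pos
  obtain ⟨t, t0, t1, ht⟩ := sm_le (a := E + 1) (b := ε / 4) (by positivity) (by positivity)
  obtain ⟨δ, hδ⟩ : ∃ δ : ℝ, δ = ε / 4 := ⟨_, rfl⟩
  have δ0 : 0 < δ := by rw [hδ]; positivity
  obtain ⟨N0, hN0⟩ := GE2 Y hφ hφ0 i j hc hcc δ δ0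
  have D := fun (N : ℕ) (hN : 0 < N) => GP1 hB Y.ag i j N hN
  have S := fun (χ : ℂ → ℝ) (hχ : TF (interior K) χ) (χ0 : ∀ z, 0 ≤ χ z) => GE4 Y hχ χ0 i j
  have Cy : ∀ ε : ℝ, 0 < ε → ∃ N0 : ℕ, ∀ N : ℕ, N0 ≤ N → ∃ N1 : ℕ, ∀ N' : ℕ, N1 ≤ N' →
      ∀ᶠ n in atTop, (∫ z, φ z * ((FG a h u i j N n z).re - (FG a h u i j N' n z).re) ^ 2 ≤ ε) ∧
        ∫ z, φ z * ((FG a h u i j N n z).im - (FG a h u i j N' n z).im) ^ 2 ≤ ε := by
    intro ε hε
    obtain ⟨N0, hN0⟩ := GE3 Y hφ hφ0 i j ε hε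
    refine ⟨N0, fun N hN => ?_⟩
    obtain ⟨N1, hN1⟩ := hN0 N hN
    refine ⟨N1, fun N' hN' => ?_⟩
    filter_upwards [hN1 N' hN'] with n hn
    rw [gc_split hφ (Y.cF i j N n) (Y.cF i j N' n)] at hn
    have p1 : 0 ≤ ∫ z, φ z * ((FG a h u i j N n z).re - (FG a h u i j N' n z).re) ^ 2 :=
      integral_nonneg fun z => mul_nonneg (hφ0 z) (sq_nonneg _)
    have p2 : 0 ≤ ∫ z, φ z * ((FG a h u i j N n z).im - (FG a h u i j N' n z).im) ^ 2 :=
      integral_nonneg fun z => mul_nonneg (hφ0 z) (sq_nonneg _)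
    constructor <;> linarith
  obtain ⟨A1, A1p, hA1⟩ := low_real K6 hB Y.H.hpos Y.H.hlim
    (g := fun N n z => (FG a h u i j N n z).re) (fun N hN => (D N hN).1) cr' hφ hφ0
    (fun ε hε => by
      obtain ⟨N0, hN0⟩ := Cy ε hε
      refine ⟨N0, fun N hN => ?_⟩
      obtain ⟨N1, hN1⟩ := hN0 N hN
      exact ⟨N1, fun N' hN' => (hN1 N' hN').mono fun n hn => hn.1⟩)
    (fun χ hχ χ0 => by
      obtain ⟨C, hC⟩ := S χ hχ χ0
      exact ⟨C, fun N hN => (hC N hN).mono fun n hn => hn.1⟩) t0 δ0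
  obtain ⟨A2, A2p, hA2⟩ := low_real K6 hB Y.H.hpos Y.H.hlim
    (g := fun N n z => (FG a h u i j N n z).im) (fun N hN => (D N hN).2) ci' hφ hφ0
    (fun ε hε => by
      obtain ⟨N0, hN0⟩ := Cy ε hε
      refine ⟨N0, fun N hN => ?_⟩
      obtain ⟨N1, hN1⟩ := hN0 N hN
      exact ⟨N1, fun N' hN' => (hN1 N' hN').mono fun n hn => hn.2⟩)
    (fun χ hχ χ0 => by
      obtain ⟨C, hC⟩ := S χ hχ χ0
      exact ⟨C, fun N hN => (hC N hN).mono fun n hn => hn.2⟩) t0 δ0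
  obtain ⟨r7, K7, r7p, cK7, hK7, hin7⟩ := rad hB hφ hφ0
  refine ⟨max R1 (max A1 A2), lt_max_of_lt_left R1p, fun R hR => ?_⟩
  have hR1 : R1 ≤ R := (le_max_left _ _).trans hR
  have hRA1 : A1 ≤ R := ((le_max_left _ _).trans (le_max_right _ _)).trans hR
  have hRA2 : A2 ≤ R := ((le_max_right _ _).trans (le_max_right _ _)).trans hR
  have Rp : 0 < R := lt_of_lt_of_le R1p hR1
  obtain ⟨M1, hM1⟩ := hA1 R hRA1
  obtain ⟨M2, hM2⟩ := hA2 R hRA2
  obtain ⟨N, hN⟩ : ∃ N : ℕ, N = N0 + M1 + M2 := ⟨_, rfl⟩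
  have hsm : ∀ᶠ n in atTop, R * h n < min r1 r7 := by
    have : Tendsto (fun n => R * h n) atTop (𝓝 0) := by simpa using Y.H.hlim.const_mul R
    exact this.eventually (gt_mem_nhds (by positivity))
  filter_upwards [hE, hup, hN0 N (by omega), hM1 N (by omega), hM2 N (by omega), hsm] with n
    b1 b2 b3 b4 b5 b9
  have hn := Y.H.hpos n
  have q1 : R * h n ≤ r1 := b9.le.trans (min_le_left _ _)
  have q7 : R * h n ≤ r7 := b9.le.trans (min_le_right _ _)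
  have rp : 0 ≤ R * h n := mul_nonneg Rp.le hn.le
  have d2 := b2 (R * h n) (mul_le_mul_of_nonneg_right hR1 hn.le) q1
  rw [gc_split hφ (Y.cF i j N n) cB] at b3
  have e2 := VV_split hφ cK7 hK7 (fun z hz c hc => hin7 z hz c hc (R * h n) rp q7) (Y.cp i j n) cB
  change ∫ z, φ z * ((FG a h u i j N n z).re - (c z).re) ^ 2 ≤ (1 + t) *
    (∫ z, φ z * (mean (R * h n) (fun z => (pr a h u i j n z).re) z - (c z).re) ^ 2) + δ at b4
  change ∫ z, φ z * ((FG a h u i j N n z).im - (c z).im) ^ 2 ≤ (1 + t) *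
    (∫ z, φ z * (mean (R * h n) (fun z => (pr a h u i j n z).im) z - (c z).im) ^ 2) + δ at b5
  change |(∫ z, φ z * ((FG a h u i j N n z).re - (c z).re) ^ 2) +
    (∫ z, φ z * ((FG a h u i j N n z).im - (c z).im) ^ 2) - kap i j * exc φ m (u n)| ≤ δ at b3
  change 2 / 3 * exc φ m (u n) ≤ E at b1
  obtain ⟨x, hx⟩ : ∃ x : ℝ, x = exc φ m (u n) := ⟨_, rfl⟩
  obtain ⟨V, hV⟩ : ∃ V : ℝ, V = VV φ c (pr a h u i j n) (R * h n) := ⟨_, rfl⟩
  rw [← hx] at b1 b3 d2 ⊢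
  rw [← hV] at d2 e2 ⊢
  have b6 : kap i j * x ≤ E := by
    unfold kap
    split_ifs
    · exact b1
    · rw [zero_mul]; exact E0
  rw [abs_le] at b3
  have s4 : t * V ≤ t * (E + 1) := mul_le_mul_of_nonneg_left (by linarith) t0.le
  have s5 : (1 + t) *
    (∫ z, φ z * (mean (R * h n) (fun z => (pr a h u i j n z).re) z - (c z).re) ^ 2) + (1 + t) *
    (∫ z, φ z * (mean (R * h n) (fun z => (pr a h u i j n z).im) z - (c z).im) ^ 2) =
      V + t * V := by rw [e2]; ring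
  linarith [b3.1]

end

end Pool.Agent.P8H31.VC
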