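import Pool.Agent.P8H31.VC.Stm5

/-!
Project VC (helper31), fifth part: one more package (ODD).
-/

set_option autoImplicit false
open MeasureTheory Filter Topology Complex ProbabilityTheory
open scoped ContDiff ENNReal

namespace Pool.Agent.P8H31.VC

open Pool.Agent.W745.RW Pool.Agent.TH294.RS Pool.Agent.TH294.RG Pool.Agent.TH421.DF
open Pool.Agent.TH421.AC Pool.Agent.P8H31.NZ

/-- ODD (80 lines): the moments of odd order vanish, without any bound for the fourth moments. With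
`w k = (DP a h)^[k] u` (`k ≥ 0`; bounded in `L²` on compact subsets: `RawG.lb2`,
`Pool.Agent.TH294.RG`, see also `Pool.Agent.P8H31.VC.Words`): for smooth test functions `ψ`
`∫ ψ (w (i+1) * w j + w i * w (j+1)) = ∫ ψ DP (w i * w j) = - h ∫ (∂(a ψ)) w i w j → 0`
(`i, j ≥ 0`, exact product rule; integration by parts `Pool.Agent.W366.RW.int_zero` as in
`AG.step2`). So `∫ ψ w 0 w k ≡ (-1)^i ∫ ψ w i w (k-i) ≡ (-1)^k ∫ ψ w k w 0`, hence `2 ∫ ψ w 0 w k → 0`
for odd `k`; by `qe` the limit is `∫ ψ M k`, so `M k = 0` a.e. (end of the proof: `Hyp.odd` in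
`Pool.Agent.P8H31.VC.Conv2`, with `Ω` in place of `interior K`). -/
def S_ODD : Prop := ∀ {m : ℂ → ℝ} {ν : Kernel ℂ ℝ} {Ω : Set ℂ} {a : ℂ → ℝ} {h : ℕ → ℝ}
  {u : ℕ → ℂ → ℝ} {K : Set ℂ}, HypF m ν Ω a h u K → ∀ {k : ℕ}, ¬ Even k →
  ∀ᵐ z ∂(volume.restrict (interior K)), MM m ea ν k z = 0

end Pool.Agent.P8H31.VC
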