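import Pool.Agent.P8H31.VC.TwoF
import Pool.Agent.P8H31.VC.Stm6

/-!
Project VC (helper31): the variance of the local phase space averages and the fourth moment, without
a bound for the fourth moments.
-/

set_option autoImplicit false
open MeasureTheory Filter Topology Complex ProbabilityTheory
open scoped ContDiff ENNReal

namespace Pool.Agent.P8H31.VC

open Pool.Agent.W745.RW Pool.Agent.TH294.RS Pool.Agent.TH294.RG Pool.Agent.TH421.DF
open Pool.Agent.TH421.AC Pool.Agent.P8H31.NZ Pool.Agent.P8H86.VC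

noncomputable section

variable {m : ℂ → ℝ} {ν : Kernel ℂ ℝ} {Ω : Set ℂ} {a : ℂ → ℝ} {h : ℕ → ℝ}
  {u : ℕ → ℂ → ℝ} {K : Set ℂ}

/-- the normalised excess -/
def excF (K : Set ℂ) (φ m : ℂ → ℝ) (u : ℕ → ℂ → ℝ) (n : ℕ) : ℝ :=
  fc K u n ^ 4 * exc φ m (u n)

lemma HypF.ebd (Y : HypF m ν Ω a h u K) {φ : ℂ → ℝ} (hφ : TF (interior K) φ)
    (hφ0 : ∀ z, 0 ≤ φ z) : ∃ E : ℝ, 0 ≤ E ∧ ∀ n, 2 / 3 * excF K φ m u n ≤ E := by
  obtain ⟨Mφ, hMφ⟩ := hφ.2.1.exists_bound_of_continuousOn hφ.1.continuous.continuousOn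
  have hφM : ∀ z, φ z ≤ |Mφ| := by
    intro z
    by_cases hz : z ∈ tsupport φ
    · exact (le_abs_self _).trans ((hMφ z hz).trans (le_abs_self _))
    · rw [image_eq_zero_of_notMem_tsupport hz]; exact abs_nonneg _
  have A0 : 0 ≤ ∫ z, φ z * (m z * m z) :=
    integral_nonneg fun z => mul_nonneg (hφ0 z) (mul_self_nonneg _)
  have hB : IsOpen (interior K) := isOpen_interior
  have hBΩ : interior K ⊆ Ω := interior_subset.trans Y.hKΩ
  refine ⟨2 / 3 * |Mφ|, by positivity, fun n => ?_⟩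
  have i4 : Integrable (fun z => φ z * u n z ^ 4) :=
    Pool.Agent.W311.RW.int_mul hB hφ (((Y.H.sm n).continuousOn.mono hBΩ).pow 4)
  have cu : ContinuousOn (fun z => u n z ^ 4) K := ((Y.H.sm n).continuousOn.mono Y.hKΩ).pow 4
  have e3 : ∫ z, φ z * u n z ^ 4 ≤ |Mφ| * ∫ z in K, u n z ^ 4 := by
    rw [← integral_const_mul, ← integral_indicator Y.hK.measurableSet]
    have i3 : IntegrableOn (fun z => |Mφ| * u n z ^ 4) K :=
      (continuousOn_const.mul cu).integrableOn_compact Y.hK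
    refine integral_mono i4 ((integrable_indicator_iff Y.hK.measurableSet).2 i3) fun z => ?_
    by_cases hz : z ∈ K
    · rw [Set.indicator_of_mem hz]
      exact mul_le_mul_of_nonneg_right (hφM z) (by positivity)
    · rw [Set.indicator_of_notMem hz]
      show φ z * _ ≤ 0
      rw [TF.zero hφ (fun h => hz (interior_subset h)), zero_mul]
  have e4 : exc φ m (u n) ≤ |Mφ| * (1 + ∫ z in K, u n z ^ 4) := by
    unfold exc
    have := abs_nonneg Mφ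
    linarith
  have f0 : 0 ≤ fc K u n ^ 4 := by have := fc_pos K u n; positivity
  have e5 := mul_le_mul_of_nonneg_left e4 f0
  have e6 := fc_mul K u n
  have e7 : fc K u n ^ 4 * (|Mφ| * (1 + ∫ z in K, u n z ^ 4)) = |Mφ| := by
    rw [mul_left_comm, e6, mul_one]
  unfold excF
  rw [e7] at e5
  linarith

lemma fc2_nn (K : Set ℂ) (u : ℕ → ℂ → ℝ) (n : ℕ) : 0 ≤ fc K u n ^ 2 := sq_nonneg _

lemma fc2_le (K : Set ℂ) (u : ℕ → ℂ → ℝ) (n : ℕ) : fc K u n ^ 2 ≤ 1 :=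
  pow_le_one₀ (fc_pos K u n).le (fc_le K u n)

lemma A0w {B : Set ℂ} (A : AG0 B a h (ww a h (fun n z => (u n z : ℂ)))) (k : ℤ) (n : ℕ) :
    ContinuousOn (ww a h (fun n z => (u n z : ℂ)) k n) B := (A.bd k).co n

lemma A0p {B : Set ℂ} (A : AG0 B a h (ww a h (fun n z => (u n z : ℂ)))) (i j : ℤ) (n : ℕ) :
    ContinuousOn (pr a h u i j n) B := (A0w A i n).mul (A0w A j n)

lemma A0F {B : Set ℂ} (A : AG0 B a h (ww a h (fun n z => (u n z : ℂ)))) (i j : ℤ) (N n : ℕ) :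
    ContinuousOn (FG a h u i j N n) B := by
  unfold FG FA
  exact continuousOn_finsetSum _ fun q _ => continuousOn_const.mul ((A0w A _ n).mul (A0w A _ n))

lemma rem (t : ℝ) (c : ℂ) : ((t : ℂ) * c).re = t * c.re ∧ ((t : ℂ) * c).im = t * c.im :=
  ⟨re_ofReal_mul _ _, im_ofReal_mul _ _⟩

/-- **All scales, upper bound.** -/
theorem phase_upF (AGZ : S_AGZ) (FP1 : S_FP1) (FE2 : S_FE2) (Y : HypF m ν Ω a h u K) {φ : ℂ → ℝ}
    (hφ : TF (interior K) φ) (hφ0 : ∀ z, 0 ≤ φ z) (i j : ℤ) {c : ℂ → ℂ}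
    (hc : ContDiffOn ℝ ∞ c Ω) (hcc : ∀ᵐ z ∂(volume.restrict Ω), cc (MM m ea ν) i j z = c z)
    {ε : ℝ} (hε : 0 < ε) :
    ∃ R0 r0 : ℝ, 0 < R0 ∧ 0 < r0 ∧ ∀ᶠ n in atTop, ∀ r : ℝ, R0 * h n ≤ r → r ≤ r0 →
      VV φ (fun z => (fc K u n ^ 2 : ℝ) * c z) (pr a h (sc K u) i j n) r ≤
        kap i j * excF K φ m u n + ε := by
  have hB : IsOpen (interior K) := isOpen_interior
  have hBΩ : interior K ⊆ Ω := interior_subset.trans Y.hKΩ
  have A := AGZ Y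
  have cB : ContinuousOn c (interior K) := hc.continuousOn.mono hBΩ
  have cr' : ContinuousOn (fun z => (c z).re) (interior K) := continuous_re.comp_continuousOn cB
  have ci' : ContinuousOn (fun z => (c z).im) (interior K) := continuous_im.comp_continuousOn cB
  obtain ⟨E, E0, hE⟩ := Y.ebd hφ hφ0
  obtain ⟨t, t0, t1, ht⟩ := sm_le (a := E + 3) (b := ε / 2) (by positivity) (by positivity)
  obtain ⟨δ, hδ⟩ : ∃ δ : ℝ, δ = min 1 (ε / 2) := ⟨_, rfl⟩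
  have δ0 : 0 < δ := by rw [hδ]; positivity
  have δ1 : δ ≤ 1 := by rw [hδ]; exact min_le_left _ _
  have δ2 : δ ≤ ε / 2 := by rw [hδ]; exact min_le_right _ _
  obtain ⟨N0, hN0⟩ := FE2 Y hφ hφ0 i j hc hcc δ δ0
  obtain ⟨N, hN⟩ : ∃ N : ℕ, N = N0 + 1 := ⟨_, rfl⟩
  have hN1 := hN0 N (by omega)
  obtain ⟨D1, D2⟩ := FP1 hB A i j N (by omega)
  obtain ⟨R1, r1, R1p, r1p, h1⟩ := up_realT hB Y.H.hpos Y.H.hlim D1 cr' (fc2_nn K u)
    (fc2_le K u) hφ hφ0 t0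
  obtain ⟨R2, r2, R2p, r2p, h2⟩ := up_realT hB Y.H.hpos Y.H.hlim D2 ci' (fc2_nn K u)
    (fc2_le K u) hφ hφ0 t0
  obtain ⟨r7, K7, r7p, cK7, hK7, hin7⟩ := rad hB hφ hφ0
  refine ⟨max R1 R2, min r7 (min r1 r2), lt_max_of_lt_left R1p, by positivity, ?_⟩
  filter_upwards [hN1, h1, h2] with n b1 b2 b3 r hr hr'
  have b4 := hE n
  have hn := Y.H.hpos n
  have r0 : 0 ≤ r := (mul_nonneg (R1p.le.trans (le_max_left _ _)) hn.le).trans hr
  have q7 : r ≤ r7 := hr'.trans (min_le_left _ _)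
  have q1 : r ≤ r1 := hr'.trans ((min_le_right _ _).trans (min_le_left _ _))
  have q2 : r ≤ r2 := hr'.trans ((min_le_right _ _).trans (min_le_right _ _))
  have d1 := b2 r ((mul_le_mul_of_nonneg_right (le_max_left _ _) hn.le).trans hr) q1
  have d2 := b3 r ((mul_le_mul_of_nonneg_right (le_max_right _ _) hn.le).trans hr) q2
  have cBt : ContinuousOn (fun z => ((fc K u n ^ 2 : ℝ) : ℂ) * c z) (interior K) :=
    continuousOn_const.mul cB
  rw [VV_split hφ cK7 hK7 (fun z hz c hc => hin7 z hz c hc r r0 q7) (A0p A i j n) cBt]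
  rw [gc_split hφ (A0F A i j N n) cBt] at b1
  simp only [(rem _ _).1, (rem _ _).2] at b1 ⊢
  change ∫ z, φ z * (mean r (fun z => (pr a h (sc K u) i j n z).re) z -
    fc K u n ^ 2 * (c z).re) ^ 2 ≤ _ at d1
  change ∫ z, φ z * (mean r (fun z => (pr a h (sc K u) i j n z).im) z -
    fc K u n ^ 2 * (c z).im) ^ 2 ≤ _ at d2
  obtain ⟨y1, hy1⟩ : ∃ y : ℝ, y = ∫ z, φ z * ((FG a h (sc K u) i j N n z).re -
    fc K u n ^ 2 * (c z).re) ^ 2 := ⟨_, rfl⟩
  obtain ⟨y2, hy2⟩ : ∃ y : ℝ, y = ∫ z, φ z * ((FG a h (sc K u) i j N n z).im -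
    fc K u n ^ 2 * (c z).im) ^ 2 := ⟨_, rfl⟩
  rw [← hy1] at d1 b1
  rw [← hy2] at d2 b1
  change |y1 + y2 - kap i j * excF K φ m u n| ≤ δ at b1
  obtain ⟨x, hx⟩ : ∃ x : ℝ, x = excF K φ m u n := ⟨_, rfl⟩
  rw [← hx] at b1 b4 ⊢
  have b5 : kap i j * x ≤ E := by
    unfold kap
    split_ifs
    · exact b4
    · rw [zero_mul]; exact E0
  rw [abs_le] at b1
  have c2 : t * (y1 + y2) ≤ t * (E + 1) := mul_le_mul_of_nonneg_left (by linarith [b1.2]) t0.le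
  linarith [b1.2]

/-- **The scale of the wavelength, lower bound.** -/
theorem phase_lowF (K6 : S_K6) (AGZ : S_AGZ) (FP1 : S_FP1) (FE2 : S_FE2) (FE3 : S_FE3)
    (FE4 : S_FE4) (Y : HypF m ν Ω a h u K) {φ : ℂ → ℝ}
    (hφ : TF (interior K) φ) (hφ0 : ∀ z, 0 ≤ φ z) (i j : ℤ) {c : ℂ → ℂ}
    (hc : ContDiffOn ℝ ∞ c Ω) (hcc : ∀ᵐ z ∂(volume.restrict Ω), cc (MM m ea ν) i j z = c z)
    {ε : ℝ} (hε : 0 < ε) :
    ∃ R0 : ℝ, 0 < R0 ∧ ∀ R : ℝ, R0 ≤ R → ∀ᶠ n in atTop,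
      kap i j * excF K φ m u n ≤ VV φ (fun z => (fc K u n ^ 2 : ℝ) * c z)
        (pr a h (sc K u) i j n) (R * h n) + ε := by
  have hB : IsOpen (interior K) := isOpen_interior
  have hBΩ : interior K ⊆ Ω := interior_subset.trans Y.hKΩ
  have A := AGZ Y
  have cB : ContinuousOn c (interior K) := hc.continuousOn.mono hBΩ
  have cr' : ContinuousOn (fun z => (c z).re) (interior K) := continuous_re.comp_continuousOn cB
  have ci' : ContinuousOn (fun z => (c z).im) (interior K) := continuous_im.comp_continuousOn cB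
  obtain ⟨E, E0, hE⟩ := Y.ebd hφ hφ0
  obtain ⟨R1, r1, R1p, r1p, hup⟩ := phase_upF AGZ FP1 FE2 Y hφ hφ0 i j hc hcc one_pos
  obtain ⟨t, t0, t1, ht⟩ := sm_le (a := E + 1) (b := ε / 4) (by positivity) (by positivity)
  obtain ⟨δ, hδ⟩ : ∃ δ : ℝ, δ = ε / 4 := ⟨_, rfl⟩
  have δ0 : 0 < δ := by rw [hδ]; positivity
  obtain ⟨N0, hN0⟩ := FE2 Y hφ hφ0 i j hc hcc δ δ0
  have D := fun (N : ℕ) (hN : 0 < N) => FP1 hB A i j N hN
  have S := fun (χ : ℂ → ℝ) (hχ : TF (interior K) χ) (χ0 : ∀ z, 0 ≤ χ z) => FE4 Y hχ χ0 i j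
  have Cy : ∀ ε : ℝ, 0 < ε → ∃ N0 : ℕ, ∀ N : ℕ, N0 ≤ N → ∃ N1 : ℕ, ∀ N' : ℕ, N1 ≤ N' →
      ∀ᶠ n in atTop, (∫ z, φ z * ((FG a h (sc K u) i j N n z).re -
        (FG a h (sc K u) i j N' n z).re) ^ 2 ≤ ε) ∧
        ∫ z, φ z * ((FG a h (sc K u) i j N n z).im - (FG a h (sc K u) i j N' n z).im) ^ 2 ≤ ε := by
    intro ε hε
    obtain ⟨N0, hN0⟩ := FE3 Y hφ hφ0 i j ε hε
    refine ⟨N0, fun N hN => ?_⟩
    obtain ⟨N1, hN1⟩ := hN0 N hN
    refine ⟨N1, fun N' hN' => ?_⟩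
    filter_upwards [hN1 N' hN'] with n hn
    rw [gc_split hφ (A0F A i j N n) (A0F A i j N' n)] at hn
    have p1 : 0 ≤ ∫ z, φ z * ((FG a h (sc K u) i j N n z).re -
        (FG a h (sc K u) i j N' n z).re) ^ 2 :=
      integral_nonneg fun z => mul_nonneg (hφ0 z) (sq_nonneg _)
    have p2 : 0 ≤ ∫ z, φ z * ((FG a h (sc K u) i j N n z).im -
        (FG a h (sc K u) i j N' n z).im) ^ 2 :=
      integral_nonneg fun z => mul_nonneg (hφ0 z) (sq_nonneg _)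
    constructor <;> linarith
  obtain ⟨A1, A1p, hA1⟩ := low_realT K6 hB Y.H.hpos Y.H.hlim
    (g := fun N n z => (FG a h (sc K u) i j N n z).re) (fun N hN => (D N hN).1) cr' hφ hφ0
    (fun ε hε => by
      obtain ⟨N0, hN0⟩ := Cy ε hε
      refine ⟨N0, fun N hN => ?_⟩
      obtain ⟨N1, hN1⟩ := hN0 N hN
      exact ⟨N1, fun N' hN' => (hN1 N' hN').mono fun n hn => hn.1⟩)
    (fun χ hχ χ0 => by
      obtain ⟨C, hC⟩ := S χ hχ χ0
      exact ⟨C, fun N hN => (hC N hN).mono fun n hn => hn.1⟩)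
    (q' := fun n => fc K u n ^ 2) t0 δ0
  obtain ⟨A2, A2p, hA2⟩ := low_realT K6 hB Y.H.hpos Y.H.hlim
    (g := fun N n z => (FG a h (sc K u) i j N n z).im) (fun N hN => (D N hN).2) ci' hφ hφ0
    (fun ε hε => by
      obtain ⟨N0, hN0⟩ := Cy ε hε
      refine ⟨N0, fun N hN => ?_⟩
      obtain ⟨N1, hN1⟩ := hN0 N hN
      exact ⟨N1, fun N' hN' => (hN1 N' hN').mono fun n hn => hn.2⟩)
    (fun χ hχ χ0 => by
      obtain ⟨C, hC⟩ := S χ hχ χ0
      exact ⟨C, fun N hN => (hC N hN).mono fun n hn => hn.2⟩)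
    (q' := fun n => fc K u n ^ 2) t0 δ0
  obtain ⟨r7, K7, r7p, cK7, hK7, hin7⟩ := rad hB hφ hφ0
  refine ⟨max R1 (max A1 A2), lt_max_of_lt_left R1p, fun R hR => ?_⟩
  have hR1 : R1 ≤ R := (le_max_left _ _).trans hR
  have hRA1 : A1 ≤ R := ((le_max_left _ _).trans (le_max_right _ _)).trans hR
  have hRA2 : A2 ≤ R := ((le_max_right _ _).trans (le_max_right _ _)).trans hR
  have Rp : 0 < R := lt_of_lt_of_le R1p hR1
  obtain ⟨M1, hM1⟩ := hA1 R hRA1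
  obtain ⟨M2, hM2⟩ := hA2 R hRA2
  obtain ⟨N, hN⟩ : ∃ N : ℕ, N = N0 + M1 + M2 := ⟨_, rfl⟩
  have hsm : ∀ᶠ n in atTop, R * h n < min r1 r7 := by
    have : Tendsto (fun n => R * h n) atTop (𝓝 0) := by simpa using Y.H.hlim.const_mul R
    exact this.eventually (gt_mem_nhds (by positivity))
  filter_upwards [hup, hN0 N (by omega), hM1 N (by omega), hM2 N (by omega), hsm] with n
    b2 b3 b4 b5 b9
  have b1 := hE n
  have hn := Y.H.hpos n
  have q1 : R * h n ≤ r1 := b9.le.trans (min_le_left _ _)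
  have q7 : R * h n ≤ r7 := b9.le.trans (min_le_right _ _)
  have rp : 0 ≤ R * h n := mul_nonneg Rp.le hn.le
  have d2 := b2 (R * h n) (mul_le_mul_of_nonneg_right hR1 hn.le) q1
  have cBt : ContinuousOn (fun z => ((fc K u n ^ 2 : ℝ) : ℂ) * c z) (interior K) :=
    continuousOn_const.mul cB
  rw [gc_split hφ (A0F A i j N n) cBt] at b3
  have e2 := VV_split hφ cK7 hK7 (fun z hz c hc => hin7 z hz c hc (R * h n) rp q7)
    (A0p A i j n) cBt
  simp only [(rem _ _).1, (rem _ _).2] at b3 e2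
  change ∫ z, φ z * ((FG a h (sc K u) i j N n z).re - fc K u n ^ 2 * (c z).re) ^ 2 ≤ (1 + t) *
    (∫ z, φ z * (mean (R * h n) (fun z => (pr a h (sc K u) i j n z).re) z -
      fc K u n ^ 2 * (c z).re) ^ 2) + δ at b4
  change ∫ z, φ z * ((FG a h (sc K u) i j N n z).im - fc K u n ^ 2 * (c z).im) ^ 2 ≤ (1 + t) *
    (∫ z, φ z * (mean (R * h n) (fun z => (pr a h (sc K u) i j n z).im) z -
      fc K u n ^ 2 * (c z).im) ^ 2) + δ at b5
  change |(∫ z, φ z * ((FG a h (sc K u) i j N n z).re - fc K u n ^ 2 * (c z).re) ^ 2) +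
    (∫ z, φ z * ((FG a h (sc K u) i j N n z).im - fc K u n ^ 2 * (c z).im) ^ 2) -
      kap i j * excF K φ m u n| ≤ δ at b3
  obtain ⟨x, hx⟩ : ∃ x : ℝ, x = excF K φ m u n := ⟨_, rfl⟩
  obtain ⟨V, hV⟩ : ∃ V : ℝ, V = VV φ (fun z => (fc K u n ^ 2 : ℝ) * c z)
    (pr a h (sc K u) i j n) (R * h n) := ⟨_, rfl⟩
  rw [← hx] at b1 b3 d2 ⊢
  rw [← hV] at d2 e2 ⊢
  have b6 : kap i j * x ≤ E := by
    unfold kap
    split_ifs
    · exact b1
    · rw [zero_mul]; exact E0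
  rw [abs_le] at b3
  have s4 : t * V ≤ t * (E + 1) := mul_le_mul_of_nonneg_left (by linarith) t0.le
  have s5 : (1 + t) *
    (∫ z, φ z * (mean (R * h n) (fun z => (pr a h (sc K u) i j n z).re) z -
      fc K u n ^ 2 * (c z).re) ^ 2) + (1 + t) *
    (∫ z, φ z * (mean (R * h n) (fun z => (pr a h (sc K u) i j n z).im) z -
      fc K u n ^ 2 * (c z).im) ^ 2) = V + t * V := by rw [e2]; ring
  linarith [b3.1]

/-- the scaled variance -/
lemma VV_sc (Y : HypF m ν Ω a h u K) {φ : ℂ → ℝ} {K7 : Set ℂ}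
    (hK7 : K7 ⊆ interior K) {r : ℝ}
    (hm : ∀ z ∈ tsupport φ, ∀ c ∈ Metric.closedBall (0 : ℂ) 1, z + r * c ∈ K7) (i j : ℤ)
    (c : ℂ → ℂ) (n : ℕ) :
    VV φ (fun z => (fc K u n ^ 2 : ℝ) * c z) (pr a h (sc K u) i j n) r =
      fc K u n ^ 4 * VV φ c (pr a h u i j n) r := by
  have hB : IsOpen (interior K) := isOpen_interior
  have hBΩ : interior K ⊆ Ω := interior_subset.trans Y.hKΩ
  have hw := fun k => ww_sc hB h (Y.H.sa.mono hBΩ) (fun n => (Y.H.sm n).mono hBΩ) K k n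
  unfold VV
  rw [← integral_const_mul]
  congr 1; funext z
  by_cases hz : z ∈ tsupport φ
  · have e0 : ∫ x in Metric.ball (0 : ℂ) 1, pr a h (sc K u) i j n (z + r * x) =
        ((fc K u n ^ 2 : ℝ) : ℂ) * ∫ x in Metric.ball (0 : ℂ) 1, pr a h u i j n (z + r * x) := by
      rw [← integral_const_mul]
      refine setIntegral_congr_fun (Metric.isOpen_ball.measurableSet) fun x hx => ?_
      have hzx : z + r * x ∈ interior K := hK7 (hm z hz x (ball_cl x hx))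
      show ww a h (fun n z => (sc K u n z : ℂ)) i n (z + r * x) *
        ww a h (fun n z => (sc K u n z : ℂ)) j n (z + r * x) = ((fc K u n ^ 2 : ℝ) : ℂ) *
          (ww a h (fun n z => (u n z : ℂ)) i n (z + r * x) *
            ww a h (fun n z => (u n z : ℂ)) j n (z + r * x))
      rw [hw i _ hzx, hw j _ hzx]
      push_cast
      ring
    have e1 : cmean r (pr a h (sc K u) i j n) z =
        ((fc K u n ^ 2 : ℝ) : ℂ) * cmean r (pr a h u i j n) z := by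
      unfold cmean
      rw [e0]
      ring
    rw [e1, ← mul_sub, norm_mul, norm_real, Real.norm_eq_abs, abs_of_nonneg (sq_nonneg _)]
    ring
  · rw [image_eq_zero_of_notMem_tsupport hz]; simp

end

end Pool.Agent.P8H31.VC
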