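import Pool.Agent.P8H31.VC.Conv2

/-!
Project VC (helper31): the excess is the mean square of the local plane waves.
-/

set_option autoImplicit false
open MeasureTheory Filter Topology Complex ProbabilityTheory
open scoped ContDiff ENNReal

namespace Pool.Agent.P8H31.VC

open Pool.Agent.W745.RW Pool.Agent.TH294.RS Pool.Agent.TH294.RG Pool.Agent.TH421.DF
open Pool.Agent.TH421.AC Pool.Agent.P8H31.NZ Pool.Agent.P8H86.VC

noncomputable section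

lemma sq_cmp {t : ℝ} (ht : 0 < t) (x c : ℂ) :
    |‖x‖ ^ 2 - ‖x - c‖ ^ 2| ≤ t * ‖x - c‖ ^ 2 + (1 + 1 / t) * ‖c‖ ^ 2 := by
  obtain ⟨y, hy⟩ : ∃ y : ℂ, y = x - c := ⟨_, rfl⟩
  have hx : x = y + c := by rw [hy]; ring
  rw [← hy, hx]
  have h1 : ‖y + c‖ ≤ ‖y‖ + ‖c‖ := norm_add_le _ _
  have h2 : |‖y‖ - ‖c‖| ≤ ‖y + c‖ := by
    have := abs_norm_sub_norm_le y (-c)
    rwa [norm_neg, sub_neg_eq_add] at this
  have h3 : 2 * (‖y‖ * ‖c‖) ≤ t * ‖y‖ ^ 2 + 1 / t * ‖c‖ ^ 2 := by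
    have h4 : 0 ≤ (t * ‖y‖ - ‖c‖) ^ 2 / t := by positivity
    have h5 : (t * ‖y‖ - ‖c‖) ^ 2 / t = t * ‖y‖ ^ 2 - 2 * (‖y‖ * ‖c‖) + 1 / t * ‖c‖ ^ 2 := by
      field_simp
      ring
    rw [h5] at h4
    linarith
  have h6 : ‖y + c‖ ^ 2 ≤ (‖y‖ + ‖c‖) ^ 2 := pow_le_pow_left₀ (norm_nonneg _) h1 2
  have h7 : (‖y‖ - ‖c‖) ^ 2 ≤ ‖y + c‖ ^ 2 := by
    rw [← sq_abs (‖y‖ - ‖c‖)]
    exact pow_le_pow_left₀ (abs_nonneg _) h2 2
  have h8 : 0 ≤ ‖c‖ ^ 2 := by positivity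
  rw [abs_le]
  constructor <;> nlinarith

/-- the comparison of the mean squares -/
lemma pl_one {B : Set ℂ} {φ : ℂ → ℝ} (hφ : TF B φ) (hφ0 : ∀ z, 0 ≤ φ z) {K7 : Set ℂ}
    (cK7 : IsCompact K7) (hK7 : K7 ⊆ B) {r : ℝ}
    (hm : ∀ z ∈ tsupport φ, ∀ c ∈ Metric.closedBall (0 : ℂ) 1, z + r * c ∈ K7)
    {f : ℂ → ℂ} (hf : ContinuousOn f B) {c : ℂ → ℂ} (hc : ContinuousOn c B) {t : ℝ} (ht : 0 < t) :
    |(∫ z, φ z * ‖cmean r f z‖ ^ 2) - VV φ c f r| ≤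
      t * VV φ c f r + (1 + 1 / t) * ∫ z, φ z * ‖c z‖ ^ 2 := by
  have cφ : Continuous φ := hφ.1.continuous
  have cmn : ∀ {G : ℂ → ℝ}, ContinuousOn G B → ContinuousOn (mean r G) (tsupport φ) := by
    intro G hG
    have : mean r G = kav (fun _ => 1 / Real.pi) r G := by funext z; exact mean_kav _ _ _
    rw [this]; exact kco cK7 hm (hG.mono hK7) continuousOn_const
  have int : ∀ {G : ℂ → ℝ}, ContinuousOn G (tsupport φ) → Integrable (fun z => φ z * G z ^ 2) := by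
    intro G hG
    refine rint hφ.2.1 (cφ.continuousOn.mul (hG.pow 2)) fun z hz => ?_
    rw [image_eq_zero_of_notMem_tsupport hz, zero_mul]
  have cr : ContinuousOn (fun z => (f z).re) B := continuous_re.comp_continuousOn hf
  have ci : ContinuousOn (fun z => (f z).im) B := continuous_im.comp_continuousOn hf
  have cM : ContinuousOn (cmean r f) (tsupport φ) := by
    have h1 : ContinuousOn (fun z => ((mean r (fun z => (f z).re) z : ℝ) : ℂ) +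
        ((mean r (fun z => (f z).im) z : ℝ) : ℂ) * I) (tsupport φ) :=
      (continuous_ofReal.comp_continuousOn (cmn cr)).add
        ((continuous_ofReal.comp_continuousOn (cmn ci)).mul continuousOn_const)
    refine h1.congr fun z hz => ?_
    obtain ⟨e1, e2⟩ := cmean_split (hf.mono hK7) (hm z hz)
    show cmean r f z = ((mean r (fun z => (f z).re) z : ℝ) : ℂ) +
        ((mean r (fun z => (f z).im) z : ℝ) : ℂ) * I
    rw [← e1, ← e2, re_add_im]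
  have i1 : Integrable (fun z => φ z * ‖cmean r f z‖ ^ 2) := int cM.norm
  have i2 : Integrable (fun z => φ z * ‖cmean r f z - c z‖ ^ 2) :=
    int (cM.sub (hc.mono hφ.2.2)).norm
  have i3 : Integrable (fun z => φ z * ‖c z‖ ^ 2) := int (hc.mono hφ.2.2).norm
  unfold VV
  rw [← integral_sub i1 i2]
  have h1 : |∫ z, (φ z * ‖cmean r f z‖ ^ 2 - φ z * ‖cmean r f z - c z‖ ^ 2)| ≤
      ∫ z, (t * (φ z * ‖cmean r f z - c z‖ ^ 2) + (1 + 1 / t) * (φ z * ‖c z‖ ^ 2)) := by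
    rw [← Real.norm_eq_abs]
    refine norm_integral_le_of_norm_le ((i2.const_mul t).add (i3.const_mul _))
      (ae_of_all _ fun z => ?_)
    have h2 := mul_le_mul_of_nonneg_left (sq_cmp ht (cmean r f z) (c z)) (hφ0 z)
    have h3 : ‖φ z * ‖cmean r f z‖ ^ 2 - φ z * ‖cmean r f z - c z‖ ^ 2‖ =
        φ z * |‖cmean r f z‖ ^ 2 - ‖cmean r f z - c z‖ ^ 2| := by
      rw [Real.norm_eq_abs, ← mul_sub, abs_mul, abs_of_nonneg (hφ0 z)]
    rw [h3]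
    refine h2.trans (le_of_eq ?_)
    ring
  rw [integral_add (i2.const_mul t) (i3.const_mul _), integral_const_mul,
    integral_const_mul] at h1
  exact h1

variable {m : ℂ → ℝ} {ν : Kernel ℂ ℝ} {Ω : Set ℂ} {a : ℂ → ℝ} {h : ℕ → ℝ}
  {u : ℕ → ℂ → ℝ} {K : Set ℂ} {T : ℝ}

/-- **The excess is the mean square of the local plane waves.** -/
theorem planes (K6 : S_K6) (GP1 : S_GP1) (GE2 : S_GE2) (GE3 : S_GE3) (GE4 : S_GE4)
    (Y : Hyp m ν Ω a h u K T)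
    (hν : ∀ k : ℕ, Even k → ∃ c : ℂ → ℂ, ContDiffOn ℝ ∞ c Ω ∧
      ∀ᵐ z ∂(volume.restrict Ω), ∫ α, ea α ^ k ∂(ν z) = c z) {φ : ℂ → ℝ}
    (hφ : TF (interior K) φ) (hφ0 : ∀ z, 0 ≤ φ z) {ε : ℝ} (hε : 0 < ε) :
    ∃ S0 : ℕ, ∀ S : ℕ, S0 ≤ S → ∃ R0 : ℝ, 0 < R0 ∧ ∀ R : ℝ, R0 ≤ R → ∀ᶠ n in atTop,
      |(S : ℝ)⁻¹ * (∑ s ∈ Finset.Icc 1 S,
          ∫ z, φ z * ‖cmean (R * h n) (dn a h u (2 * s) 0 n) z‖ ^ 2) -
        2 / 3 * exc φ m (u n)| ≤ ε := by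
  have hB : IsOpen (interior K) := isOpen_interior
  have hBΩ : interior K ⊆ Ω := interior_subset.trans Y.hKΩ
  obtain ⟨E, E0, hE⟩ := Y.ebd hφ hφ0
  obtain ⟨t, t0, t1, ht⟩ := sm_le (a := E + 1) (b := ε / 4) (by positivity) (by positivity)
  obtain ⟨δ, δ0, δ1, hδ⟩ := sm_le (a := 1 + 1 / t) (b := ε / 4) (by positivity) (by positivity)
  obtain ⟨ε', hε'⟩ : ∃ x : ℝ, x = min 1 (ε / 4) := ⟨_, rfl⟩
  have ε0 : 0 < ε' := by rw [hε']; positivity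
  have ε1 : ε' ≤ 1 := by rw [hε']; exact min_le_left _ _
  have ε4 : ε' ≤ ε / 4 := by rw [hε']; exact min_le_right _ _
  have W := wiener Y hφ hφ0
  obtain ⟨S0, hS0⟩ := eventually_atTop.1 ((W.eventually (gt_mem_nhds δ0)).and
    (eventually_gt_atTop 0))
  refine ⟨S0, fun S hS => ?_⟩
  obtain ⟨hS1, hS2⟩ := hS0 S hS
  have Sp : (0 : ℝ) < S := by exact_mod_cast hS2
  -- the smooth limits
  choose c hc hcc using fun s : ℕ => ex_lim (ν := ν) Y.hms hν (2 * s) 0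
  have ev : ∀ s : ℕ, ∀ᶠ R : ℝ in atTop, ∀ᶠ n in atTop,
      |VV φ (lmt m ν (2 * s) 0) (dn a h u (2 * s) 0 n) (R * h n) -
        2 / 3 * exc φ m (u n)| ≤ ε' := by
    intro s
    obtain ⟨R0, R0p, h1⟩ := ph_eq K6 GP1 GE2 GE3 GE4 Y hν hφ hφ0 (2 * s) 0 ε0
    rw [if_pos (by rw [add_zero]; exact even_two_mul s)] at h1
    exact eventually_atTop.2 ⟨R0, h1⟩
  have ev2 : ∀ᶠ R : ℝ in atTop, ∀ s ∈ Finset.Icc 1 S, ∀ᶠ n in atTop,
      |VV φ (lmt m ν (2 * s) 0) (dn a h u (2 * s) 0 n) (R * h n) -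
        2 / 3 * exc φ m (u n)| ≤ ε' := (Finset.eventually_all _).2 fun s _ => ev s
  obtain ⟨R0, hR0⟩ := eventually_atTop.1 (ev2.and (eventually_gt_atTop 0))
  obtain ⟨r7, K7, r7p, cK7, hK7, hin7⟩ := rad hB hφ hφ0
  refine ⟨max R0 1, by positivity, fun R hR => ?_⟩
  obtain ⟨hR1, hR2⟩ := hR0 R ((le_max_left _ _).trans hR)
  have hsm : ∀ᶠ n in atTop, R * h n < r7 := by
    have : Tendsto (fun n => R * h n) atTop (𝓝 0) := by simpa using Y.H.hlim.const_mul R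
    exact this.eventually (gt_mem_nhds r7p)
  have ev3 : ∀ᶠ n in atTop, ∀ s ∈ Finset.Icc 1 S,
      |VV φ (lmt m ν (2 * s) 0) (dn a h u (2 * s) 0 n) (R * h n) -
        2 / 3 * exc φ m (u n)| ≤ ε' := (Finset.eventually_all _).2 hR1
  filter_upwards [hE, ev3, hsm] with n b1 b2 b3
  have hn := Y.H.hpos n
  have rp : 0 ≤ R * h n := mul_nonneg hR2.le hn.le
  change 2 / 3 * exc φ m (u n) ≤ E at b1
  obtain ⟨x, hx⟩ : ∃ x : ℝ, x = 2 / 3 * exc φ m (u n) := ⟨_, rfl⟩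
  rw [← hx] at b1 b2 ⊢
  obtain ⟨V, hV⟩ : ∃ V : ℕ → ℝ, V = fun s => VV φ (lmt m ν (2 * s) 0) (dn a h u (2 * s) 0 n)
    (R * h n) := ⟨_, rfl⟩
  obtain ⟨Q, hQ⟩ : ∃ Q : ℕ → ℝ, Q = fun s =>
    ∫ z, φ z * ‖cmean (R * h n) (dn a h u (2 * s) 0 n) z‖ ^ 2 := ⟨_, rfl⟩
  obtain ⟨C, hC⟩ : ∃ C : ℕ → ℝ, C = fun s => ∫ z, φ z * ‖lmt m ν (2 * s) 0 z‖ ^ 2 := ⟨_, rfl⟩
  have p1 : ∀ s : ℕ, |Q s - V s| ≤ t * V s + (1 + 1 / t) * C s := by
    intro s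
    have h1 := pl_one hφ hφ0 cK7 hK7 (r := R * h n)
      (fun z hz c hc => hin7 z hz c hc (R * h n) rp b3.le)
      (Y.cp ((2 * s : ℕ) : ℤ) (-((0 : ℕ) : ℤ)) n) ((hc s).continuousOn.mono hBΩ) t0
    have e1 : VV φ (c s) (pr a h u ((2 * s : ℕ) : ℤ) (-((0 : ℕ) : ℤ)) n) (R * h n) = V s := by
      rw [hV]; exact (Y.conv hφ (2 * s) 0 (hcc s) n (R * h n)).symm
    have e2 : ∫ z, φ z * ‖cmean (R * h n) (pr a h u ((2 * s : ℕ) : ℤ) (-((0 : ℕ) : ℤ)) n) z‖ ^ 2 =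
        Q s := by
      rw [hQ]
      have : pr a h u ((2 * s : ℕ) : ℤ) (-((0 : ℕ) : ℤ)) n = dn a h u (2 * s) 0 n := by
        funext z
        rw [pr_eq]
        show (-1) ^ 0 * dn a h u (2 * s) 0 n z = _
        rw [pow_zero, one_mul]
      rw [this]
    have e3 : ∫ z, φ z * ‖c s z‖ ^ 2 = C s := by
      rw [hC]
      have h4 := ae_restrict_of_ae_restrict_of_subset hBΩ (hcc s)
      rw [ae_restrict_iff' hB.measurableSet] at h4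
      refine integral_congr_ae ?_
      filter_upwards [h4] with z hz
      by_cases hzB : z ∈ interior K
      · show φ z * _ = φ z * _
        rw [← hz hzB, cc_lmt (by rw [add_zero]; exact even_two_mul s), nn1]
      · show φ z * _ = φ z * _
        rw [TF.zero hφ hzB, zero_mul, zero_mul]
    rw [e1, e2, e3] at h1
    exact h1
  have p2 : ∀ s ∈ Finset.Icc 1 S, |V s - x| ≤ ε' := by rw [hV]; exact b2
  -- averages
  have avg : ∀ y : ℝ, (S : ℝ)⁻¹ * ∑ _s ∈ Finset.Icc 1 S, y = y := by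
    intro y
    rw [Finset.sum_const, Nat.card_Icc, Nat.add_sub_cancel, nsmul_eq_mul, ← mul_assoc,
      inv_mul_cancel₀ Sp.ne', one_mul]
  have q0 : ∀ s ∈ Finset.Icc 1 S, |Q s - x| ≤ (ε' + t * (x + ε')) + (1 + 1 / t) * C s := by
    intro s hs
    have h1 := p2 s hs
    have h2 := p1 s
    rw [abs_le] at h1
    have h3 : t * V s ≤ t * (x + ε') := mul_le_mul_of_nonneg_left (by linarith [h1.2]) t0.le
    rw [abs_le] at h2 ⊢
    constructor <;> linarith [h1.1, h1.2, h2.1, h2.2]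
  have q1 : |(S : ℝ)⁻¹ * (∑ s ∈ Finset.Icc 1 S, Q s) - x| ≤
      (ε' + t * (x + ε')) + (1 + 1 / t) * ((S : ℝ)⁻¹ * ∑ s ∈ Finset.Icc 1 S, C s) := by
    have e1 : (S : ℝ)⁻¹ * (∑ s ∈ Finset.Icc 1 S, Q s) - x =
        (S : ℝ)⁻¹ * ∑ s ∈ Finset.Icc 1 S, (Q s - x) := by
      rw [Finset.sum_sub_distrib, mul_sub, avg]
    rw [e1, abs_mul, abs_of_nonneg (show 0 ≤ (S : ℝ)⁻¹ by positivity)]
    have h1 : |∑ s ∈ Finset.Icc 1 S, (Q s - x)| ≤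
        ∑ s ∈ Finset.Icc 1 S, ((ε' + t * (x + ε')) + (1 + 1 / t) * C s) :=
      (Finset.abs_sum_le_sum_abs _ _).trans (Finset.sum_le_sum q0)
    refine (mul_le_mul_of_nonneg_left h1 (show 0 ≤ (S : ℝ)⁻¹ by positivity)).trans (le_of_eq ?_)
    rw [Finset.sum_add_distrib, mul_add, avg, ← Finset.mul_sum]
    ring
  have q2 : (S : ℝ)⁻¹ * ∑ s ∈ Finset.Icc 1 S, C s < δ := by rw [hC]; exact hS1
  have q3 : (1 + 1 / t) * ((S : ℝ)⁻¹ * ∑ s ∈ Finset.Icc 1 S, C s) ≤ (1 + 1 / t) * δ :=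
    mul_le_mul_of_nonneg_left q2.le (by positivity)
  have q4 : t * (x + ε') ≤ t * (E + 1) := mul_le_mul_of_nonneg_left (by linarith) t0.le
  have q5 : (E + 1) * t ≤ ε / 4 := ht
  rw [hQ] at q1
  refine q1.trans ?_
  nlinarith

end

end Pool.Agent.P8H31.VC
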