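import Pool.Agent.P8H31.VC.Stm2

/-!
Project VC (helper31), third part, MP_a52643_an: the excess of the fourth moment IS `3/2` times the
variance of the local masses at the scale of the wavelength: packages.
-/

set_option autoImplicit false
open MeasureTheory Filter Topology Complex ProbabilityTheory
open scoped ContDiff ENNReal

namespace Pool.Agent.P8H31.VC

open Pool.Agent.W745.RW Pool.Agent.TH294.RS Pool.Agent.TH294.RG Pool.Agent.TH421.DF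
open Pool.Agent.TH421.AC Pool.Agent.P8H31.NZ

noncomputable section

/-- the hypotheses of `mean_var` -/
structure Hyp (m : ℂ → ℝ) (ν : Kernel ℂ ℝ) (Ω : Set ℂ) (a : ℂ → ℝ) (h : ℕ → ℝ) (u : ℕ → ℂ → ℝ)
    (K : Set ℂ) (T : ℝ) : Prop where
  mk1 : IsMarkovKernel ν
  hm : ∀ K : Set ℂ, IsCompact K → K ⊆ Ω → MemLp m 2 (volume.restrict K)
  hms : ContDiffOn ℝ ∞ m Ω
  hp : ∀ᵐ z ∂(volume.restrict Ω), par ea (ν z) = 0
  H : RawG Ω a h u (MM m ea ν)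
  hK : IsCompact K
  hKΩ : K ⊆ Ω
  hT : ∀ᶠ n in atTop, ∫ z in K, u n z ^ 4 ≤ T

/-- E1 (exact second moments, 120 lines). Copy the proof of `FA_sharp`
(`Pool.Agent.TH294.RG.Jc6`) for `i = j = 0`, but apply `fam_rel` to the family over
`Option (ℤ × ℤ)` (`Finset.insertNone (s ×ˢ s)`, `Finset.sum_insertNone`) with the additional member
`(0,0,0,0)` with the coefficient `-(1/3 ‖∑ α‖² + 2/3 ‖∑ sg α‖²)`: then the hypothesis `hC` holds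
with `C = 0` (`ep2 0 0 0 0 = 1`), so the difference is at most `ε (1 + ∫_K u⁴)` in absolute value.
The Gaussian sum: `GG' 0 0 0 0` gives `3 ∫ φ m²`; for the rest use `split` in the proof of `FA_gauss`
(`Pool.Agent.TH294.RG.Jc2`): it is `(∫ φ m²) ‖∑ sg α‖²` plus two cross terms bounded as there by
`Sw`. -/
def S_E1 : Prop := ∀ {m : ℂ → ℝ} {ν : Kernel ℂ ℝ} {Ω : Set ℂ} {a : ℂ → ℝ} {h : ℕ → ℝ}
  {u : ℕ → ℂ → ℝ} {K : Set ℂ} {T : ℝ}, Hyp m ν Ω a h u K T → ∀ {φ : ℂ → ℝ}, TF (interior K) φ →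
  (∀ z, 0 ≤ φ z) → ∀ (s : Finset ℤ) (α : ℤ → ℂ) (ε : ℝ), 0 < ε → ∀ᶠ n in atTop,
    |(∫ z, φ z * ‖FA (ww a h (fun n z => (u n z : ℂ))) 0 0 s α n z‖ ^ 2) -
      ((∫ z, φ z * (m z * m z)) * ‖∑ k ∈ s, sg k * α k‖ ^ 2 +
        (1 / 3 * ‖∑ k ∈ s, α k‖ ^ 2 + 2 / 3 * ‖∑ k ∈ s, sg k * α k‖ ^ 2) *
          ((∫ z, φ z * u n z ^ 4) - 3 * ∫ z, φ z * (m z * m z)))| ≤
      Sw (MM m ea ν) φ s α + ε * (1 + ∫ z in K, u n z ^ 4)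

/-- E2 (from E1; 100 lines): the proof of `mean_var` (`Pool.Agent.P8H31.NZ.Mean`) with equality, for
all large `N`. -/
def S_E2 : Prop := ∀ {m : ℂ → ℝ} {ν : Kernel ℂ ℝ} {Ω : Set ℂ} {a : ℂ → ℝ} {h : ℕ → ℝ}
  {u : ℕ → ℂ → ℝ} {K : Set ℂ} {T : ℝ}, Hyp m ν Ω a h u K T → ∀ {φ : ℂ → ℝ}, TF (interior K) φ →
  (∀ z, 0 ≤ φ z) → ∀ ε : ℝ, 0 < ε → ∃ N0 : ℕ, ∀ N : ℕ, N0 ≤ N → ∀ᶠ n in atTop,
    |(∫ z, φ z * ‖FF a h u N n z - (m z : ℂ)‖ ^ 2) -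
      2 / 3 * ((∫ z, φ z * u n z ^ 4) - 3 * ∫ z, φ z * (m z * m z))| ≤ ε

/-- E3 (Cauchy property; 100 lines): `FF N - FF N' = FA .. 0 0 s α` with `s` the integers from `1`
to `max N N'`, `α k = N⁻¹ sg k [k ≤ N] - N'⁻¹ sg k [k ≤ N']`, so `∑ sg α = 0`, `‖∑ α‖` is small
(`sum_sg`, `av_sg` in `Jc7`), and `Sw` is at most `2` or `4` times the sum of the two values for
`N` and `N'` plus cross terms: `Sw` for `N` is `N⁻² ∑∑ (fK (k - l) + fK (k + l))`, tending to `0`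
(`Sw_lim`); for the cross term use that `fK` is even in Cesàro density zero (or Cauchy-Schwarz:
`‖FF N - FF N'‖² ≤ 2 ‖FF N - m‖² + ..` is NOT enough). Alternatively bound
`N⁻¹ N'⁻¹ ∑_{k ≤ N} ∑_{l ≤ N'} fK (k ± l)` directly: for fixed `N` and `N' → ∞` it tends to `0`
since `(1/N') ∑_{|j| ≤ N'} fK j → 0`, which follows from `Sw_lim` (the double average of
`fK (k - l)` over `1 ≤ k, l ≤ 2N'+1` is at least `1/(4 N' + 2)` times that sum).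
Use `FA_sharp` (or E1). -/
def S_E3 : Prop := ∀ {m : ℂ → ℝ} {ν : Kernel ℂ ℝ} {Ω : Set ℂ} {a : ℂ → ℝ} {h : ℕ → ℝ}
  {u : ℕ → ℂ → ℝ} {K : Set ℂ} {T : ℝ}, Hyp m ν Ω a h u K T → ∀ {φ : ℂ → ℝ}, TF (interior K) φ →
  (∀ z, 0 ≤ φ z) → ∀ ε : ℝ, 0 < ε → ∃ N0 : ℕ, ∀ N : ℕ, N0 ≤ N → ∃ N1 : ℕ, ∀ N' : ℕ, N1 ≤ N' →
    ∀ᶠ n in atTop, ∫ z, φ z * ‖FF a h u N n z - FF a h u N' n z‖ ^ 2 ≤ ε

/-- E4 (slow variation; 150 lines): `DP (w k * w (-k)) = w (k+1) * w (-k) + w k * w (-k+1) + h e`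
(fields `up` of `AG`); times `sg k`, summed over `1 ≤ k ≤ N`, this telescopes:
`DP (FF N) = (1/N) (sg N * w (N+1) * w (-N) - w 1 * w 0) + h e`, `e` locally bounded in `L²`
(`LB B 2`). `‖w j * w k‖² ≤ (‖w j‖⁴ + ‖w k‖⁴)/2`, and `∫ χ ‖w k‖⁴ = ∫ χ ‖w k w (-k)‖²` is bounded for
large `n` by a constant independent of `k` (`FA_sharp` with `s = {k}`, `i = j = 0`, `α = 1`; `fK` is
bounded, `fK_MM`, and `∫ χ u⁴ ≤ ‖χ‖ T`). Finally `DP f = h a (∂_1 f - I ∂_I f)` and `DM` likewise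
(`FF` is real up to conjugation: `conj (w k) = sg k w (-k)`, `ww_cj`; so `DM (FF N)` has the same
norm, or treat it in the same way), `a > 0` is bounded below on compact sets, and
`2 ∂_1 f = (∂_1 - I ∂_I) f + (∂_1 + I ∂_I) f` etc. -/
def S_E4 : Prop := ∀ {m : ℂ → ℝ} {ν : Kernel ℂ ℝ} {Ω : Set ℂ} {a : ℂ → ℝ} {h : ℕ → ℝ}
  {u : ℕ → ℂ → ℝ} {K : Set ℂ} {T : ℝ}, Hyp m ν Ω a h u K T → ∀ {χ : ℂ → ℝ}, TF (interior K) χ →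
  (∀ z, 0 ≤ χ z) → ∃ C : ℝ, ∀ N : ℕ, 0 < N → ∀ᶠ n in atTop,
    ∫ z, χ z * ((h n * fderiv ℝ (fun z => (FF a h u N n z).re) z 1) ^ 2 +
      (h n * fderiv ℝ (fun z => (FF a h u N n z).re) z I) ^ 2) ≤ C / N ^ 2

/-- K6 (80 lines): the mean over a small disc and the gradient. `F(z + r c) - F(z) =
∫_0^1 r (c.re ∂_1 F + c.im ∂_I F)(z + s r c) ds`; Cauchy-Schwarz twice, Fubini, translation as in
K1. -/
def S_K6 : Prop := ∀ {Ω : Set ℂ} {φ : ℂ → ℝ}, IsOpen Ω → Continuous φ → HasCompactSupport φ →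
  tsupport φ ⊆ Ω → (∀ z, 0 ≤ φ z) → ∃ (r0 M : ℝ) (K : Set ℂ), 0 < r0 ∧ 0 ≤ M ∧ IsCompact K ∧
  K ⊆ Ω ∧ ∀ F : ℂ → ℝ, ContDiffOn ℝ ∞ F Ω → ∀ r : ℝ, 0 ≤ r → r ≤ r0 →
    ∫ z, φ z * (mean r F z - F z) ^ 2 ≤
      M * (r ^ 2 * ∫ z in K, (fderiv ℝ F z 1 ^ 2 + fderiv ℝ F z I ^ 2))

end

end Pool.Agent.P8H31.VC
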