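import Pool.Agent.P8H31.VC.Comb2
import Pool.Agent.P8H31.VC.Stm3
import Pool.Agent.P8H86.VC.P1
import Pool.Agent.P8H86.VC.K45

/-!
Project VC (helper31): the variance of the local masses and the fourth moment.
-/

set_option autoImplicit false
open MeasureTheory Filter Topology Complex ProbabilityTheory
open scoped ContDiff ENNReal

namespace Pool.Agent.P8H31.VC

open Pool.Agent.W745.RW Pool.Agent.TH294.RS Pool.Agent.TH294.RG Pool.Agent.TH421.DF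
open Pool.Agent.TH421.AC Pool.Agent.P8H31.NZ Pool.Agent.P8H86.VC

noncomputable section

variable {m : ℂ → ℝ} {ν : Kernel ℂ ℝ} {Ω : Set ℂ} {a : ℂ → ℝ} {h : ℕ → ℝ}
  {u : ℕ → ℂ → ℝ} {K : Set ℂ} {T : ℝ}

lemma Hyp.ag (Y : Hyp m ν Ω a h u K T) :
    AG (interior K) a h (ww a h (fun n z => (u n z : ℂ))) (MM m ea ν) := by
  have := Y.mk1
  have hB : IsOpen (interior K) := isOpen_interior
  have hBΩ : interior K ⊆ Ω := interior_subset.trans Y.hKΩ
  have hmB : ∀ K' : Set ℂ, IsCompact K' → K' ⊆ interior K → MemLp m 2 (volume.restrict K') :=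
    fun K' hK' hKB => Y.hm K' hK' (hKB.trans hBΩ)
  have cu : ∀ n, ContinuousOn (fun z => u n z ^ 4) K := fun n =>
    ((Y.H.sm n).continuousOn.mono Y.hKΩ).pow 4
  have H1' : RawG (interior K) a h u (MM m ea ν) := Y.H.cmp hBΩ tendsto_id
  exact H1'.as hB (fun k => ((MM_ml ea_meas ea_norm (B := interior K) (ν := ν) hmB) k))
    (fun z => by rw [MM_0, conj_ofReal])
    (fun K' hK' hKB => ⟨T, Y.hT.mono fun n hn => by
      have : ∫ z in K', u n z ^ 4 ≤ ∫ z in K, u n z ^ 4 := by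
        refine setIntegral_mono_set ((cu _).integrableOn_compact Y.hK)
          (ae_of_all _ fun z => by positivity) ?_
        exact (hKB.trans interior_subset).eventuallyLE
      linarith⟩)

lemma Hyp.rb (Y : Hyp m ν Ω a h u K T) : RB (interior K) (fun n z => u n z ^ 2) := by
  have hBΩ : interior K ⊆ Ω := interior_subset.trans Y.hKΩ
  refine ⟨fun n => ((Y.H.sm n).mono hBΩ).pow 2, fun K' hK' hKB => ⟨T, Y.hT.mono fun n hn => ?_⟩⟩
  have cu : ContinuousOn (fun z => u n z ^ 4) K := ((Y.H.sm n).continuousOn.mono Y.hKΩ).pow 4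
  have h1 : ∫ z in K', u n z ^ 4 ≤ ∫ z in K, u n z ^ 4 := by
    refine setIntegral_mono_set (cu.integrableOn_compact Y.hK)
      (ae_of_all _ fun z => by positivity) ?_
    exact (hKB.trans interior_subset).eventuallyLE
  have h2 : ∀ z, (u n z ^ 2) ^ 2 = u n z ^ 4 := fun z => by ring
  simp only [h2]
  linarith

/-- the averages are real -/
lemma FF_real (a : ℂ → ℝ) (h : ℕ → ℝ) (u : ℕ → ℂ → ℝ) (N n : ℕ) (z : ℂ) :
    FF a h u N n z = ((FF a h u N n z).re : ℂ) := by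
  have hu : ∀ n z, (starRingEnd ℂ) ((u n z : ℂ)) = (u n z : ℂ) := fun n z => conj_ofReal _
  refine (Complex.conj_eq_iff_re.1 ?_).symm
  unfold FF FA
  rw [map_sum]
  refine Finset.sum_congr rfl fun k _ => ?_
  beta_reduce
  rw [map_mul, map_mul, map_mul, sg_conj, ww_cj a h hu, ww_cj a h hu, map_inv₀,
    Complex.conj_natCast]
  rw [show -(0 + k) = 0 - k by ring, show -(0 - k) = 0 + k by ring]
  have e1 : sg (0 + k) * sg (0 - k) = 1 := by
    rw [← sg_add]; simp [sg]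
  linear_combination ((N : ℂ)⁻¹ * sg k * (ww a h (fun n z => (u n z : ℂ)) (0 + k) n z) *
    (ww a h (fun n z => (u n z : ℂ)) (0 - k) n z)) * e1

lemma FF_norm (a : ℂ → ℝ) (h : ℕ → ℝ) (u : ℕ → ℂ → ℝ) (N n : ℕ) (z : ℂ) (x : ℝ) :
    ‖FF a h u N n z - (x : ℂ)‖ ^ 2 = ((FF a h u N n z).re - x) ^ 2 := by
  rw [FF_real a h u N n z, ← ofReal_sub, norm_real, Real.norm_eq_abs, sq_abs, ofReal_re]

lemma FF_norm2 (a : ℂ → ℝ) (h : ℕ → ℝ) (u : ℕ → ℂ → ℝ) (N N' n : ℕ) (z : ℂ) :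
    ‖FF a h u N n z - FF a h u N' n z‖ ^ 2 =
      ((FF a h u N n z).re - (FF a h u N' n z).re) ^ 2 := by
  rw [FF_real a h u N' n z, FF_norm, ofReal_re]

lemma Hyp.ebd (Y : Hyp m ν Ω a h u K T) {φ : ℂ → ℝ} (hφ : TF (interior K) φ)
    (hφ0 : ∀ z, 0 ≤ φ z) : ∃ E : ℝ, 0 ≤ E ∧ ∀ᶠ n in atTop,
      2 / 3 * ((∫ z, φ z * u n z ^ 4) - 3 * ∫ z, φ z * (m z * m z)) ≤ E := by
  obtain ⟨Mφ, hMφ⟩ := hφ.2.1.exists_bound_of_continuousOn hφ.1.continuous.continuousOn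
  have hφM : ∀ z, φ z ≤ |Mφ| := by
    intro z
    by_cases hz : z ∈ tsupport φ
    · exact (le_abs_self _).trans ((hMφ z hz).trans (le_abs_self _))
    · rw [image_eq_zero_of_notMem_tsupport hz]; exact abs_nonneg _
  have A0 : 0 ≤ ∫ z, φ z * (m z * m z) :=
    integral_nonneg fun z => mul_nonneg (hφ0 z) (mul_self_nonneg _)
  have hB : IsOpen (interior K) := isOpen_interior
  have hBΩ : interior K ⊆ Ω := interior_subset.trans Y.hKΩ
  have T0 : 0 ≤ T := by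
    obtain ⟨n, hn⟩ := Y.hT.exists
    exact (integral_nonneg fun z => by positivity).trans hn
  refine ⟨2 / 3 * (|Mφ| * T), by positivity, Y.hT.mono fun n hn => ?_⟩
  have i4 : Integrable (fun z => φ z * u n z ^ 4) :=
    Pool.Agent.W311.RW.int_mul hB hφ (((Y.H.sm n).continuousOn.mono hBΩ).pow 4)
  have cu : ContinuousOn (fun z => u n z ^ 4) K := ((Y.H.sm n).continuousOn.mono Y.hKΩ).pow 4
  have e3 : ∫ z, φ z * u n z ^ 4 ≤ |Mφ| * ∫ z in K, u n z ^ 4 := by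
    rw [← integral_const_mul, ← integral_indicator Y.hK.measurableSet]
    have i3 : IntegrableOn (fun z => |Mφ| * u n z ^ 4) K :=
      (continuousOn_const.mul cu).integrableOn_compact Y.hK
    refine integral_mono i4 ((integrable_indicator_iff Y.hK.measurableSet).2 i3) fun z => ?_
    by_cases hz : z ∈ K
    · rw [Set.indicator_of_mem hz]
      exact mul_le_mul_of_nonneg_right (hφM z) (by positivity)
    · rw [Set.indicator_of_notMem hz]
      show φ z * _ ≤ 0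
      rw [TF.zero hφ (fun h => hz (interior_subset h)), zero_mul]
  have := mul_le_mul_of_nonneg_left hn (abs_nonneg Mφ)
  linarith

/-- **All scales, upper bound.** -/
theorem scale_up (K1 : S_K1) (E2 : S_E2) (Y : Hyp m ν Ω a h u K T) {φ : ℂ → ℝ}
    (hφ : TF (interior K) φ) (hφ0 : ∀ z, 0 ≤ φ z) {ε : ℝ} (hε : 0 < ε) :
    ∃ R0 r0 : ℝ, 0 < R0 ∧ 0 < r0 ∧ ∀ᶠ n in atTop, ∀ r : ℝ, R0 * h n ≤ r → r ≤ r0 →
      ∫ z, φ z * (mean r (fun z => u n z ^ 2) z - m z) ^ 2 ≤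
        2 / 3 * ((∫ z, φ z * u n z ^ 4) - 3 * ∫ z, φ z * (m z * m z)) + ε := by
  have hB : IsOpen (interior K) := isOpen_interior
  have hBΩ : interior K ⊆ Ω := interior_subset.trans Y.hKΩ
  obtain ⟨E, E0, hE⟩ := Y.ebd hφ hφ0
  obtain ⟨t, t0, t1, ht⟩ := sm_le (a := E + 2) (b := ε / 2) (by positivity) (by positivity)
  obtain ⟨δ, hδ⟩ : ∃ δ : ℝ, δ = min 1 (ε / 2) := ⟨_, rfl⟩
  have δ0 : 0 < δ := by rw [hδ]; positivity
  have δ1 : δ ≤ 1 := by rw [hδ]; exact min_le_left _ _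
  have δ2 : δ ≤ ε / 2 := by rw [hδ]; exact min_le_right _ _
  obtain ⟨N0, hN0⟩ := E2 Y hφ hφ0 δ δ0
  obtain ⟨N, hN⟩ : ∃ N : ℕ, N = N0 + 1 := ⟨_, rfl⟩
  have hN1 := hN0 N (by omega)
  obtain ⟨rg, G1, G2, e, r1, r2, re, id⟩ := p1 hB Y.ag N (by omega)
  obtain ⟨R0, r0, R0p, r0p, hc⟩ := comb K1 k4 k5 hB Y.H.hpos Y.H.hlim Y.rb rg r1 r2 re id
    (Y.hms.continuousOn.mono hBΩ) hφ hφ0 t0
  refine ⟨R0, r0, R0p, r0p, ?_⟩
  filter_upwards [hN1, hc, hE] with n b1 b2 b3 r hr hr'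
  have b4 := b2 r hr hr'
  simp only [FF_norm] at b1
  rw [abs_le] at b1
  obtain ⟨x, hx⟩ : ∃ x : ℝ, x = 2 / 3 * ((∫ z, φ z * u n z ^ 4) - 3 * ∫ z, φ z * (m z * m z)) :=
    ⟨_, rfl⟩
  obtain ⟨y, hy⟩ : ∃ y : ℝ, y = ∫ z, φ z * ((FF a h u N n z).re - m z) ^ 2 := ⟨_, rfl⟩
  rw [← hx, ← hy] at b1
  rw [← hy] at b4
  rw [← hx] at b3 ⊢
  have c1 : y ≤ x + δ := by linarith [b1.2]
  have c2 : t * y ≤ t * (E + 1) := mul_le_mul_of_nonneg_left (by linarith) t0.le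
  linarith

end

end Pool.Agent.P8H31.VC
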