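import Pool.Agent.P8H31.VC.Words

/-!
Project VC (helper31): where the solution is small, its semiclassical derivatives are small in `L²`.
-/

set_option autoImplicit false
open MeasureTheory Filter Topology Complex
open scoped ContDiff ENNReal

namespace Pool.Agent.P8H31.VC

open Pool.Agent.W745.RW Pool.Agent.TH294.RS Pool.Agent.TH294.RG Pool.Agent.TH421.DF
open Pool.Agent.TH421.AC Pool.Agent.P8H31.NZ

noncomputable section

variable {B : Set ℂ} {h : ℕ → ℝ}

theorem sm (hB : IsOpen B) (hp : ∀ n, 0 < h n) (hh : Tendsto h atTop (𝓝 0))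
    {u : ℕ → ℂ → ℝ} (hu : ∀ n, ContDiffOn ℝ ∞ (u n) B) (hM : ∀ k, MK2 B h k (cx u))
    {φ : ℂ → ℝ} (hφ : TF B φ) (hφ0 : ∀ z, 0 ≤ φ z) (l : List Bool) {ε : ℝ} (hε : 0 < ε) :
    ∃ δ : ℝ, 0 < δ ∧ ∀ᶠ n in atTop,
      ∫ z in Sub φ (fun z => |u n z| ≤ δ), φ z * wd h u l n z ^ 2 ≤ ε := by
  obtain ⟨S, hS⟩ : ∃ S : Set ℂ, S = tsupport φ := ⟨_, rfl⟩
  have hSc : IsCompact S := by rw [hS]; exact hφ.2.1
  have hSB : S ⊆ B := by rw [hS]; exact hφ.2.2
  have cφ : Continuous φ := hφ.1.continuous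
  obtain ⟨M, hM0⟩ : ∃ M : ℝ, M = ∫ z in S, φ z := ⟨_, rfl⟩
  have M0 : 0 ≤ M := by rw [hM0]; exact integral_nonneg hφ0
  obtain ⟨q, hq⟩ : ∃ q : ℝ, q = ε / (4 * (M + 1)) := ⟨_, rfl⟩
  have q0 : 0 < q := by rw [hq]; positivity
  have qM : q * M ≤ ε / 4 := by
    have e1 : q * M = ε / 4 * (M / (M + 1)) := by rw [hq]; field_simp
    rw [e1]
    refine mul_le_of_le_one_right (by positivity) ?_
    rw [div_le_one (by positivity)]; linarith
  have hσ : 0 < √q := Real.sqrt_pos.2 q0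
  obtain ⟨κ, κ0, hκ⟩ := chain hB hp hh hu hM hφ hφ0 {l} hσ l (1 / 2) (by norm_num) (ε / 2)
    (by positivity)
  refine ⟨κ * √q, by positivity, hκ.mono fun n hn => ?_⟩
  obtain ⟨A, hA⟩ : ∃ A : ℂ → ℝ, A = am h u {l} (√q) n := ⟨_, rfl⟩
  have A2 : ∀ z, A z ^ 2 = q + wd h u l n z ^ 2 := fun z => by
    rw [hA, am_sq, Real.sq_sqrt q0.le, Finset.sum_singleton]
  have A0 : ∀ z, 0 < A z := fun z => by rw [hA]; exact am_pos u _ hσ n z
  have cA : ContinuousOn A S := by rw [hA]; exact (am_sm hB hu {l} hσ n).continuousOn.mono hSB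
  have cW : ∀ l, ContinuousOn (wd h u l n) S := fun l => (wd_sm hB hu l n).continuousOn.mono hSB
  obtain ⟨D, hD⟩ : ∃ D : Set ℂ, D = Sub φ (fun z => |u n z| ≤ κ * A z) ∩
    Sub φ (fun z => 1 / 2 * A z ≤ |wd h u l n z|) := ⟨_, rfl⟩
  rw [← hA, ← hD] at hn
  have hSm : MeasurableSet S := hSc.measurableSet
  have mD : MeasurableSet D := by
    rw [hD]
    subst hS
    exact (Sub_le hφ.2.1 (cW []).abs (continuousOn_const.mul cA)).measurableSet.inter
      (Sub_le hφ.2.1 (continuousOn_const.mul cA) (cW l).abs).measurableSet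
  have mZ : MeasurableSet (Sub φ (fun z => |u n z| ≤ κ * √q)) := by
    subst hS
    exact (Sub_le hφ.2.1 (cW []).abs continuousOn_const).measurableSet
  have ZS : Sub φ (fun z => |u n z| ≤ κ * √q) ⊆ S := by rw [hS]; exact fun z hz => hz.1
  have DS : D ⊆ S := by rw [hD, hS]; exact fun z hz => hz.1.1
  have i1 : IntegrableOn (fun z => φ z * A z ^ 2) S :=
    (cφ.continuousOn.mul (cA.pow 2)).integrableOn_compact hSc
  have i2 : IntegrableOn (fun z => φ z * wd h u l n z ^ 2) S :=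
    (cφ.continuousOn.mul ((cW l).pow 2)).integrableOn_compact hSc
  have i3 : IntegrableOn φ S := cφ.continuousOn.integrableOn_compact hSc
  have key : ∀ z ∈ Sub φ (fun z => |u n z| ≤ κ * √q), φ z * wd h u l n z ^ 2 ≤
      2 * q * φ z + D.indicator (fun z => φ z * A z ^ 2) z := by
    rintro z ⟨hz, h1⟩
    have e0 : wd h u [] n z = u n z := rfl
    have hzS : z ∈ S := by rw [hS]; exact hz
    have a0 := A0 z
    have a2 := A2 z
    have p := hφ0 z
    have sq0 := sq_nonneg (wd h u l n z)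
    have aq : √q ≤ A z := by
      rw [← Real.sqrt_sq a0.le, a2]
      exact Real.sqrt_le_sqrt (by linarith)
    have hd : |u n z| ≤ κ * A z := h1.trans (mul_le_mul_of_nonneg_left aq κ0.le)
    by_cases h2 : 1 / 2 * A z ≤ |wd h u l n z|
    · have hzD : z ∈ D := by rw [hD]; exact ⟨⟨hz, hd⟩, ⟨hz, h2⟩⟩
      rw [Set.indicator_of_mem hzD]
      have := mul_le_mul_of_nonneg_left (show wd h u l n z ^ 2 ≤ A z ^ 2 by linarith) p
      have : 0 ≤ 2 * q * φ z := by positivity
      linarith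
    · have i0 : 0 ≤ D.indicator (fun z => φ z * A z ^ 2) z :=
        Set.indicator_nonneg (fun z _ => mul_nonneg (hφ0 z) (sq_nonneg _)) z
      have h3 : |wd h u l n z| ^ 2 ≤ (1 / 2 * A z) ^ 2 :=
        pow_le_pow_left₀ (abs_nonneg _) (not_le.1 h2).le 2
      rw [sq_abs, mul_pow, a2] at h3
      have h4 : wd h u l n z ^ 2 ≤ 2 * q := by linarith
      have := mul_le_mul_of_nonneg_left h4 p
      linarith
  have iI : IntegrableOn (fun z => 2 * q * φ z + D.indicator (fun z => φ z * A z ^ 2) z) S :=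
    (i3.const_mul _).add (i1.indicator mD)
  calc ∫ z in Sub φ (fun z => |u n z| ≤ κ * √q), φ z * wd h u l n z ^ 2
      ≤ ∫ z in Sub φ (fun z => |u n z| ≤ κ * √q),
          (2 * q * φ z + D.indicator (fun z => φ z * A z ^ 2) z) :=
        setIntegral_mono_on (i2.mono_set ZS) (iI.mono_set ZS) mZ key
    _ ≤ ∫ z in S, (2 * q * φ z + D.indicator (fun z => φ z * A z ^ 2) z) := by
        refine setIntegral_mono_set iI (ae_of_all _ fun z => ?_) ZS.eventuallyLE
        exact add_nonneg (mul_nonneg (by positivity) (hφ0 z))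
          (Set.indicator_nonneg (fun z _ => mul_nonneg (hφ0 z) (sq_nonneg _)) z)
    _ = 2 * (q * M) + ∫ z in D, φ z * A z ^ 2 := by
        rw [integral_add (i3.const_mul _) (i1.indicator mD), integral_const_mul,
          setIntegral_indicator mD, Set.inter_eq_self_of_subset_right DS, ← hM0]
        ring
    _ ≤ ε := by linarith

end

end Pool.Agent.P8H31.VC
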