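import Pool.Agent.P8H31.VC.Stm
import Pool.Agent.P8H31.NZ.Fin

/-!
Project VC (helper31), second part, MP_a52643_an: the fourth moment controls equidistribution on all
scales above the wavelength: packages.
-/

set_option autoImplicit false
open MeasureTheory Filter Topology Complex
open scoped ContDiff ENNReal

namespace Pool.Agent.P8H31.VC

open Pool.Agent.W745.RW Pool.Agent.TH294.RS Pool.Agent.TH294.RG Pool.Agent.TH421.DF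
open Pool.Agent.TH421.AC Pool.Agent.P8H31.NZ

noncomputable section

/-- smooth on `B` and locally bounded in `L²` on `B` (real valued sequences) -/
def RB (B : Set ℂ) (f : ℕ → ℂ → ℝ) : Prop :=
  (∀ n, ContDiffOn ℝ ∞ (f n) B) ∧
  ∀ K : Set ℂ, IsCompact K → K ⊆ B → ∃ C : ℝ, ∀ᶠ n in atTop, ∫ z in K, f n z ^ 2 ≤ C

/-- P1 (telescoping, 120 lines). With `D_k = sg k * (w k * w (-k))` (`sg k = (-1)^|k|`):
`DM (w (k+1) * w (-k)) = - w k * w (-k) - w (k+1) * w (-k-1) + h e`, `e` locally bounded in `L²`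
(product rule `db_mul`, the fields `dn` of `AG` for `w (k+1)` and `w (-k)`; compare `AS.step2` in
`Pool.Agent.TH294.RS.Abs`). So `D_(k+1) - D_k = sg k * DM (w (k+1) * w (-k)) + h e`. Sum:
`D_k = D_0 + ...`, `D_0 = u²`, and `FF a h u N = (1/N) ∑_{k=1}^N D_k` (`FF`, `FA` with `i = j = 0`,
`α k = N⁻¹ sg k`). Finally `DM a h f = h a (∂_1 f + I ∂_I f)`
`= h (∂_1 (a f) + ∂_I (I a f)) - h (∂_1 a + I ∂_I a) f`; take real parts. Products of two sequences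
with `LB B 4` are `LB B 2` (`LB.mul4`). -/
def S_P1 : Prop := ∀ {B : Set ℂ} {a : ℂ → ℝ} {h : ℕ → ℝ} {u : ℕ → ℂ → ℝ} {M : ℕ → ℂ → ℂ},
  IsOpen B → AG B a h (ww a h (fun n z => (u n z : ℂ))) M → ∀ N : ℕ, 0 < N →
  RB B (fun n z => (FF a h u N n z).re) ∧
  ∃ G1 G2 e : ℕ → ℂ → ℝ, RB B G1 ∧ RB B G2 ∧ RB B e ∧ ∀ n, ∀ z ∈ B,
    u n z ^ 2 = (FF a h u N n z).re +
      h n * (fderiv ℝ (G1 n) z 1 + fderiv ℝ (G2 n) z I) + h n * e n z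

/-- K1 (the kernel lemma, 60 lines): Cauchy-Schwarz in `c`, then Fubini and translation:
`∫ φ(z) (∫ κ(c) f(z + r c) dc)² dz ≤ ‖κ‖₁ ∫ |κ(c)| ∫ φ(z) f(z + r c)² dz dc`, and
`∫ φ(z) f(z + r c)² dz ≤ M ∫_K f²`, `K` the closed `r0`-neighbourhood of the support, `M = sup φ`. -/
def S_K1 : Prop := ∀ {Ω : Set ℂ} {φ : ℂ → ℝ}, IsOpen Ω → Continuous φ → HasCompactSupport φ →
  tsupport φ ⊆ Ω → (∀ z, 0 ≤ φ z) → ∃ (r0 M : ℝ) (K : Set ℂ), 0 < r0 ∧ 0 ≤ M ∧ IsCompact K ∧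
  K ⊆ Ω ∧ tsupport φ ⊆ K ∧ (∀ z ∈ tsupport φ, ∀ c ∈ Metric.closedBall (0 : ℂ) 1, ∀ r : ℝ, 0 ≤ r →
    r ≤ r0 → z + r * c ∈ K) ∧
  ∀ f : ℂ → ℝ, ContinuousOn f Ω → ∀ κ : ℂ → ℝ, ContinuousOn κ (Metric.closedBall 0 1) →
  ∀ r : ℝ, 0 ≤ r → r ≤ r0 →
    ∫ z, φ z * (∫ c in Metric.ball (0 : ℂ) 1, κ c * f (z + r * c)) ^ 2 ≤
      (∫ c in Metric.ball (0 : ℂ) 1, |κ c|) ^ 2 * (M * ∫ z in K, f z ^ 2)

/-- K2 (derivative of the kernel, 40 lines): `∂_v` of `c ↦ χ(c) G(z + r c)` has integral `0`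
(`Pool.Agent.W366.RW.int_zero`). -/
def S_K2 : Prop := ∀ {Ω : Set ℂ} {G χ : ℂ → ℝ} {z v : ℂ} {r : ℝ}, IsOpen Ω → ContDiffOn ℝ ∞ G Ω →
  TF (Metric.ball 0 1) χ → 0 < r → (∀ c ∈ Metric.closedBall (0 : ℂ) 1, z + r * c ∈ Ω) →
  ∫ c in Metric.ball (0 : ℂ) 1, χ c * fderiv ℝ G (z + r * c) v =
    -(1 / r) * ∫ c in Metric.ball (0 : ℂ) 1, fderiv ℝ χ c v * G (z + r * c)

/-- K3 (smooth approximation of the disc, 40 lines): `χ = (1/π) * cut-off` (`exists_cut` for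
`closedBall 0 (1 - s) ⊆ ball 0 1`); the difference is at most `1/π` on the annulus, of area
`π (1 - (1-s)²)`. -/
def S_K3 : Prop := ∀ τ : ℝ, 0 < τ → ∃ χ : ℂ → ℝ, TF (Metric.ball 0 1) χ ∧
  ∫ c in Metric.ball (0 : ℂ) 1, |1 / Real.pi - χ c| ≤ τ

/-- K4 (contraction, 80 lines): Jensen or Cauchy-Schwarz: `(mean r f z)² ≤ mean r (f²) z`; Fubini
and translation; `|φ(w - r c) - φ(w)| ≤ ε` for `r ≤ r0` (uniform continuity). -/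
def S_K4 : Prop := ∀ {Ω : Set ℂ} {φ : ℂ → ℝ}, IsOpen Ω → Continuous φ → HasCompactSupport φ →
  tsupport φ ⊆ Ω → (∀ z, 0 ≤ φ z) → ∃ K : Set ℂ, IsCompact K ∧ K ⊆ Ω ∧ ∀ ε : ℝ, 0 < ε →
  ∃ r0 : ℝ, 0 < r0 ∧ ∀ f : ℂ → ℝ, ContinuousOn f Ω → ∀ r : ℝ, 0 ≤ r → r ≤ r0 →
    ∫ z, φ z * mean r f z ^ 2 ≤ (∫ z, φ z * f z ^ 2) + ε * ∫ z in K, f z ^ 2

/-- K5 (30 lines): means of a continuous function converge uniformly. -/
def S_K5 : Prop := ∀ {Ω S : Set ℂ} {m : ℂ → ℝ}, IsOpen Ω → IsCompact S → S ⊆ Ω →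
  ContinuousOn m Ω → ∀ ε : ℝ, 0 < ε → ∃ r0 : ℝ, 0 < r0 ∧ ∀ r : ℝ, 0 ≤ r → r ≤ r0 →
    ∀ z ∈ S, |mean r m z - m z| ≤ ε

end

end Pool.Agent.P8H31.VC
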