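import Pool.Agent.P8H31.VC.Stm3

/-!
Project VC (helper31), fourth part, MP_a52643_an: phase space version of the fourth moment identity:
packages. `FG .. i j N` replaces `FF .. N` (the case `i = j = 0`). Each package is an adaptation of an
existing file with `0 0` replaced by `i j`.
-/

set_option autoImplicit false
open MeasureTheory Filter Topology Complex ProbabilityTheory
open scoped ContDiff ENNReal

namespace Pool.Agent.P8H31.VC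

open Pool.Agent.W745.RW Pool.Agent.TH294.RS Pool.Agent.TH294.RG Pool.Agent.TH421.DF
open Pool.Agent.TH421.AC Pool.Agent.P8H31.NZ

noncomputable section

/-- the average over `1 ≤ k ≤ N` of `(-1)^k W_(i+k) W_(j-k)` (`FF` is the case `i = j = 0`) -/
def FG (a : ℂ → ℝ) (h : ℕ → ℝ) (u : ℕ → ℂ → ℝ) (i j : ℤ) (N : ℕ) (n : ℕ) (z : ℂ) : ℂ :=
  FA (ww a h (fun n z => (u n z : ℂ))) i j ((Finset.Icc 1 N).map Nat.castEmbedding)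
    (fun k => (N : ℂ)⁻¹ * sg k) n z

/-- the part of the excess -/
def kap (i j : ℤ) : ℝ := if Even (i + j) then 2 / 3 else 0

/-- the cross terms with a shift -/
def Swg (M : ℕ → ℂ → ℂ) (φ : ℂ → ℝ) (i j : ℤ) (s : Finset ℤ) (α : ℤ → ℂ) : ℝ :=
  ∑ k ∈ s, ∑ l ∈ s, ‖α k‖ * ‖α l‖ * (fK M φ (k - l) + fK M φ (i - j + k + l))

/-- `f = g + h ∂G + h e` -/
def Dc (B : Set ℂ) (h : ℕ → ℝ) (f g : ℕ → ℂ → ℝ) : Prop :=
  RB B f ∧ RB B g ∧ ∃ G1 G2 e : ℕ → ℂ → ℝ, RB B G1 ∧ RB B G2 ∧ RB B e ∧ ∀ n, ∀ z ∈ B,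
    f n z = g n z + h n * (fderiv ℝ (G1 n) z 1 + fderiv ℝ (G2 n) z I) + h n * e n z

/-- GP1 (helper86: from `Pool.Agent.P8H86.VC.P1`, 60 new lines). For all integers `k ≥ 0`
`w i * w j = sg k * (w (i+k) * w (j-k)) + DM P_k + h Q_k` (the lemma `tele` with `i j`), hence the
average; then real parts AND imaginary parts (the imaginary part of `f` is the real part of
`-I * f`, so apply the last step of `p1` to `-I * (w i * w j)`, `-I * FG`, `-I * P`, `-I * Q`). -/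
def S_GP1 : Prop := ∀ {B : Set ℂ} {a : ℂ → ℝ} {h : ℕ → ℝ} {u : ℕ → ℂ → ℝ} {M : ℕ → ℂ → ℂ},
  IsOpen B → AG B a h (ww a h (fun n z => (u n z : ℂ))) M → ∀ (i j : ℤ) (N : ℕ), 0 < N →
  Dc B h (fun n z => (ww a h (fun n z => (u n z : ℂ)) i n z *
      ww a h (fun n z => (u n z : ℂ)) j n z).re) (fun n z => (FG a h u i j N n z).re) ∧
  Dc B h (fun n z => (ww a h (fun n z => (u n z : ℂ)) i n z *
      ww a h (fun n z => (u n z : ℂ)) j n z).im) (fun n z => (FG a h u i j N n z).im)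

/-- GE1 (helper86: from `Pool.Agent.P8H86.VC.E1`; `gauss_eq`, `FA_sq` are already general; `ep_sum`
with `i j`: by `ep2_FA` the weight is `1/3 ‖∑ α‖² + kap i j ‖∑ sg α‖²`). The main term:
`sg (i+j) * cc M (-i) (-j) z = conj (cc M i j z)` for `M = MM m ea ν` (`cc`, `MZ` unfolded), so it is
`∫ φ ‖cc M i j‖²`. -/
def S_GE1 : Prop := ∀ {m : ℂ → ℝ} {ν : Kernel ℂ ℝ} {Ω : Set ℂ} {a : ℂ → ℝ} {h : ℕ → ℝ}
  {u : ℕ → ℂ → ℝ} {K : Set ℂ} {T : ℝ}, Hyp m ν Ω a h u K T → ∀ {φ : ℂ → ℝ}, TF (interior K) φ →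
  (∀ z, 0 ≤ φ z) → ∀ (i j : ℤ) (s : Finset ℤ) (α : ℤ → ℂ) (ε : ℝ), 0 < ε → ∀ᶠ n in atTop,
    |(∫ z, φ z * ‖FA (ww a h (fun n z => (u n z : ℂ))) i j s α n z‖ ^ 2) -
      ((∫ z, φ z * ‖cc (MM m ea ν) i j z‖ ^ 2) * ‖∑ k ∈ s, sg k * α k‖ ^ 2 +
        (1 / 3 * ‖∑ k ∈ s, α k‖ ^ 2 + kap i j * ‖∑ k ∈ s, sg k * α k‖ ^ 2) *
          ((∫ z, φ z * u n z ^ 4) - 3 * ∫ z, φ z * (m z * m z)))| ≤
      Swg (MM m ea ν) φ i j s α + ε * (1 + ∫ z in K, u n z ^ 4)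

/-- GE2 (helper4: from `Pool.Agent.P8H4.VC.E2`; hypothesis GE1). The limit `c` of `W_i W_j` is smooth.
The cross term `∫ φ Re (FG * conj c)` tends to `∫ φ ‖c‖²` (real and imaginary parts of `c` as factors
of the test function, as `m` before). `Swg` for `α k = N⁻¹ sg k` tends to `0`: from `Sw_lim` and
`shiftq` (`fK ≤ A`, shift by `i - j` costs at most `|i - j| A` for each `k`). -/
def S_GE2 : Prop := ∀ {m : ℂ → ℝ} {ν : Kernel ℂ ℝ} {Ω : Set ℂ} {a : ℂ → ℝ} {h : ℕ → ℝ}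
  {u : ℕ → ℂ → ℝ} {K : Set ℂ} {T : ℝ}, Hyp m ν Ω a h u K T → ∀ {φ : ℂ → ℝ}, TF (interior K) φ →
  (∀ z, 0 ≤ φ z) → ∀ (i j : ℤ) {c : ℂ → ℂ}, ContDiffOn ℝ ∞ c Ω →
  (∀ᵐ z ∂(volume.restrict Ω), cc (MM m ea ν) i j z = c z) →
  ∀ ε : ℝ, 0 < ε → ∃ N0 : ℕ, ∀ N : ℕ, N0 ≤ N → ∀ᶠ n in atTop,
    |(∫ z, φ z * ‖FG a h u i j N n z - c z‖ ^ 2) -
      kap i j * ((∫ z, φ z * u n z ^ 4) - 3 * ∫ z, φ z * (m z * m z))| ≤ ε

/-- GE3 (helper76: from `Pool.Agent.P8H76.VC.E3`; hypothesis GE1 instead of `FA_sharp`, which is only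
for even `i + j`; the shift `i - j` costs `|i - j| A / N` by `shiftq`). -/
def S_GE3 : Prop := ∀ {m : ℂ → ℝ} {ν : Kernel ℂ ℝ} {Ω : Set ℂ} {a : ℂ → ℝ} {h : ℕ → ℝ}
  {u : ℕ → ℂ → ℝ} {K : Set ℂ} {T : ℝ}, Hyp m ν Ω a h u K T → ∀ {φ : ℂ → ℝ}, TF (interior K) φ →
  (∀ z, 0 ≤ φ z) → ∀ (i j : ℤ) (ε : ℝ), 0 < ε → ∃ N0 : ℕ, ∀ N : ℕ, N0 ≤ N → ∃ N1 : ℕ,
    ∀ N' : ℕ, N1 ≤ N' → ∀ᶠ n in atTop,
      ∫ z, φ z * ‖FG a h u i j N n z - FG a h u i j N' n z‖ ^ 2 ≤ ε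

/-- GE4 (helper76: from `Pool.Agent.P8H76.VC.E4`). `DP` of the average telescopes as before
(`P k = w (i+k+1) * w (j-k)`), and so does `DM` (`dn` fields of `AG`:
`DM (w p) = - w (p-1) + h e`, `P' k = w (i+k) * w (j-k-1)`); then
`‖DP F‖² + ‖DM F‖² = 2 a² h² (‖∂_1 F‖² + ‖∂_I F‖²)` for complex `F`. -/
def S_GE4 : Prop := ∀ {m : ℂ → ℝ} {ν : Kernel ℂ ℝ} {Ω : Set ℂ} {a : ℂ → ℝ} {h : ℕ → ℝ}
  {u : ℕ → ℂ → ℝ} {K : Set ℂ} {T : ℝ}, Hyp m ν Ω a h u K T → ∀ {χ : ℂ → ℝ}, TF (interior K) χ →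
  (∀ z, 0 ≤ χ z) → ∀ (i j : ℤ), ∃ C : ℝ, ∀ N : ℕ, 0 < N → ∀ᶠ n in atTop,
    (∫ z, χ z * ((h n * fderiv ℝ (fun z => (FG a h u i j N n z).re) z 1) ^ 2 +
      (h n * fderiv ℝ (fun z => (FG a h u i j N n z).re) z I) ^ 2) ≤ C / N ^ 2) ∧
    ∫ z, χ z * ((h n * fderiv ℝ (fun z => (FG a h u i j N n z).im) z 1) ^ 2 +
      (h n * fderiv ℝ (fun z => (FG a h u i j N n z).im) z I) ^ 2) ≤ C / N ^ 2

end

end Pool.Agent.P8H31.VC
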