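import Pool.Agent.P8H31.VC.Stm4

/-!
Project VC (helper31), fifth part, MP_a52643_an: the phase space identity WITHOUT the bound `T` for the
fourth moments (relative errors). Everything is stated for the scaled sequence
`sc K u n = (1 + ∫_K u_n⁴)^(-1/4) u_n`, whose fourth moments are at most `1`. Each package is an
adaptation of an existing file (`Hyp` is replaced by `HypF`, which has no `T`).
-/

set_option autoImplicit false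
open MeasureTheory Filter Topology Complex ProbabilityTheory
open scoped ContDiff ENNReal

namespace Pool.Agent.P8H31.VC

open Pool.Agent.W745.RW Pool.Agent.TH294.RS Pool.Agent.TH294.RG Pool.Agent.TH421.DF
open Pool.Agent.TH421.AC Pool.Agent.P8H31.NZ

noncomputable section

/-- `Hyp` without the bound for the fourth moments -/
structure HypF (m : ℂ → ℝ) (ν : Kernel ℂ ℝ) (Ω : Set ℂ) (a : ℂ → ℝ) (h : ℕ → ℝ) (u : ℕ → ℂ → ℝ)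
    (K : Set ℂ) : Prop where
  mk1 : IsMarkovKernel ν
  hm : ∀ K : Set ℂ, IsCompact K → K ⊆ Ω → MemLp m 2 (volume.restrict K)
  hms : ContDiffOn ℝ ∞ m Ω
  hp : ∀ᵐ z ∂(volume.restrict Ω), par ea (ν z) = 0
  H : RawG Ω a h u (MM m ea ν)
  hK : IsCompact K
  hKΩ : K ⊆ Ω

/-- the scaling factor `(1 + ∫_K u⁴)^(-1/4)` -/
def fc (K : Set ℂ) (u : ℕ → ℂ → ℝ) (n : ℕ) : ℝ := (1 + ∫ z in K, u n z ^ 4) ^ (-(1 / 4 : ℝ))

/-- the scaled sequence -/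
def sc (K : Set ℂ) (u : ℕ → ℂ → ℝ) (n : ℕ) (z : ℂ) : ℝ := fc K u n * u n z

lemma fc_pos (K : Set ℂ) (u : ℕ → ℂ → ℝ) (n : ℕ) : 0 < fc K u n :=
  Real.rpow_pos_of_pos (by
    have : 0 ≤ ∫ z in K, u n z ^ 4 := integral_nonneg fun z => by positivity
    linarith) _

lemma fc_le (K : Set ℂ) (u : ℕ → ℂ → ℝ) (n : ℕ) : fc K u n ≤ 1 :=
  Real.rpow_le_one_of_one_le_of_nonpos (by
    have : 0 ≤ ∫ z in K, u n z ^ 4 := integral_nonneg fun z => by positivity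
    linarith) (by norm_num)

lemma fc_four (K : Set ℂ) (u : ℕ → ℂ → ℝ) (n : ℕ) :
    fc K u n ^ 4 = (1 + ∫ z in K, u n z ^ 4)⁻¹ := by
  have : 0 ≤ ∫ z in K, u n z ^ 4 := integral_nonneg fun z => by positivity
  unfold fc
  rw [← Real.rpow_natCast, ← Real.rpow_mul (by linarith)]
  norm_num
  rw [Real.rpow_neg_one]

lemma fc_mul (K : Set ℂ) (u : ℕ → ℂ → ℝ) (n : ℕ) :
    fc K u n ^ 4 * (1 + ∫ z in K, u n z ^ 4) = 1 := by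
  have : 0 ≤ ∫ z in K, u n z ^ 4 := integral_nonneg fun z => by positivity
  rw [fc_four, inv_mul_cancel₀ (by linarith)]

/-- the ladder of the scaled sequence -/
lemma ww_sc {B : Set ℂ} (hB : IsOpen B) {a : ℂ → ℝ} (h : ℕ → ℝ) {u : ℕ → ℂ → ℝ}
    (ha : ContDiffOn ℝ ∞ a B) (hu : ∀ n, ContDiffOn ℝ ∞ (u n) B) (K : Set ℂ) (k : ℤ) (n : ℕ) :
    ∀ z ∈ B, ww a h (fun n z => (sc K u n z : ℂ)) k n z =
      (fc K u n : ℂ) * ww a h (fun n z => (u n z : ℂ)) k n z := by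
  have e0 : ∀ z, ((sc K u n z : ℝ) : ℂ) = (fc K u n : ℂ) * (u n z : ℂ) := by
    intro z; unfold sc; push_cast; rfl
  have hw : ∀ j : ℕ, ∀ z ∈ B, wn a h (fun n z => (sc K u n z : ℂ)) j n z =
      (fc K u n : ℂ) * wn a h (fun n z => (u n z : ℂ)) j n z := by
    intro j
    induction j with
    | zero => intro z _; exact e0 z
    | succ j ih =>
      intro z hz
      rw [wn_succ, wn_succ]
      have s1 : ContDiffOn ℝ ∞ (wn a h (fun n z => (u n z : ℂ)) j n) B :=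
        DPk_sm hB ha (h n) (ofRealCLM.contDiff.comp_contDiffOn (hu n)) j
      rw [DP_cg hB (h n) ih hz, DP_cm (h n) (da hB s1 hz)]
  intro z hz
  have hr : ∀ n z, (starRingEnd ℂ) ((u n z : ℂ)) = (u n z : ℂ) := fun n z => conj_ofReal _
  have hr' : ∀ n z, (starRingEnd ℂ) ((sc K u n z : ℂ)) = (sc K u n z : ℂ) :=
    fun n z => conj_ofReal _
  rcases Int.eq_nat_or_neg k with ⟨j, rfl | rfl⟩
  · exact hw j z hz
  · rw [ww_neg hr', ww_neg hr, hw j z hz, map_mul, conj_ofReal]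
    ring

/-- the part of `AG` without limits -/
structure AG0 (B : Set ℂ) (a : ℂ → ℝ) (h : ℕ → ℝ) (w : ℤ → ℕ → ℂ → ℂ) : Prop where
  hpos : ∀ n, 0 < h n
  hlim : Tendsto h atTop (𝓝 0)
  sa : ContDiffOn ℝ ∞ a B
  pa : ∀ z ∈ B, 0 < a z
  bd : ∀ k, LB B 4 (w k)
  up : ∀ k, ∃ e, LB B 4 e ∧ ∀ n, ∀ z ∈ B,
    DP a (h n) (w k n) z = w (k + 1) n z + (h n : ℂ) * e n z
  dn : ∀ k, ∃ e, LB B 4 e ∧ ∀ n, ∀ z ∈ B,
    DM a (h n) (w k n) z = - w (k - 1) n z + (h n : ℂ) * e n z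
  cj : ∀ k n, ∀ z ∈ B, (starRingEnd ℂ) (w k n z) = (-1) ^ k.natAbs * w (-k) n z

/-- AGZ (copy of `mkAG`, `Pool.Agent.TH294.RG.Sys`, and of `RawG.as`, `Pool.Agent.TH294.RG.Gen`,
without the last three fields, for the sequence `sc K u`; `∫_K' (sc K u)⁴ ≤ 1` for `K' ⊆ K` by
`fc_mul`). -/
def S_AGZ : Prop := ∀ {m : ℂ → ℝ} {ν : Kernel ℂ ℝ} {Ω : Set ℂ} {a : ℂ → ℝ} {h : ℕ → ℝ}
  {u : ℕ → ℂ → ℝ} {K : Set ℂ}, HypF m ν Ω a h u K →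
  AG0 (interior K) a h (ww a h (fun n z => (sc K u n z : ℂ)))

/-- FP1 (copy of `Pool.Agent.P8H86.VC.GP1` with `AG0` for `AG`: only the fields `dn`, `bd`, `sa` are
used). -/
def S_FP1 : Prop := ∀ {B : Set ℂ} {a : ℂ → ℝ} {h : ℕ → ℝ} {u : ℕ → ℂ → ℝ},
  IsOpen B → AG0 B a h (ww a h (fun n z => (u n z : ℂ))) → ∀ (i j : ℤ) (N : ℕ), 0 < N →
  Dc B h (fun n z => (ww a h (fun n z => (u n z : ℂ)) i n z *
      ww a h (fun n z => (u n z : ℂ)) j n z).re) (fun n z => (FG a h u i j N n z).re) ∧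
  Dc B h (fun n z => (ww a h (fun n z => (u n z : ℂ)) i n z *
      ww a h (fun n z => (u n z : ℂ)) j n z).im) (fun n z => (FG a h u i j N n z).im)

/-- FE1 (copy of `Pool.Agent.P8H86.VC.GE1`: `T` is not used there). -/
def S_FE1 : Prop := ∀ {m : ℂ → ℝ} {ν : Kernel ℂ ℝ} {Ω : Set ℂ} {a : ℂ → ℝ} {h : ℕ → ℝ}
  {u : ℕ → ℂ → ℝ} {K : Set ℂ}, HypF m ν Ω a h u K → ∀ {φ : ℂ → ℝ}, TF (interior K) φ →
  (∀ z, 0 ≤ φ z) → ∀ (i j : ℤ) (s : Finset ℤ) (α : ℤ → ℂ) (ε : ℝ), 0 < ε → ∀ᶠ n in atTop,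
    |(∫ z, φ z * ‖FA (ww a h (fun n z => (u n z : ℂ))) i j s α n z‖ ^ 2) -
      ((∫ z, φ z * ‖cc (MM m ea ν) i j z‖ ^ 2) * ‖∑ k ∈ s, sg k * α k‖ ^ 2 +
        (1 / 3 * ‖∑ k ∈ s, α k‖ ^ 2 + kap i j * ‖∑ k ∈ s, sg k * α k‖ ^ 2) *
          ((∫ z, φ z * u n z ^ 4) - 3 * ∫ z, φ z * (m z * m z)))| ≤
      Swg (MM m ea ν) φ i j s α + ε * (1 + ∫ z in K, u n z ^ 4)

/-- FE2 (helper4: from `Pool.Agent.P8H4.VC.Ge2`). The target is `fc² c`, the excess is multiplied by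
`fc⁴` (`fc_mul`, `ww_sc`: `FG` of the scaled sequence is `fc² FG` on `interior K`). The two point
limits without `T`: `fc² ∫ ψ w_i w_j - fc² ∫ ψ cc i j → 0`: if not, along a subsequence it stays
`≥ ε`; pass to a further subsequence with `fc → κ` (compactness of `Icc 0 1`), scale
(`RawG.scale2`) and use `RawG.as` and `AG.two` for the scaled subsequence, exactly as at the
beginning of the proof of `joint_ineq` (`Pool.Agent.TH294.RG.Jc7`). -/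
def S_FE2 : Prop := ∀ {m : ℂ → ℝ} {ν : Kernel ℂ ℝ} {Ω : Set ℂ} {a : ℂ → ℝ} {h : ℕ → ℝ}
  {u : ℕ → ℂ → ℝ} {K : Set ℂ}, HypF m ν Ω a h u K → ∀ {φ : ℂ → ℝ}, TF (interior K) φ →
  (∀ z, 0 ≤ φ z) → ∀ (i j : ℤ) {c : ℂ → ℂ}, ContDiffOn ℝ ∞ c Ω →
  (∀ᵐ z ∂(volume.restrict Ω), cc (MM m ea ν) i j z = c z) →
  ∀ ε : ℝ, 0 < ε → ∃ N0 : ℕ, ∀ N : ℕ, N0 ≤ N → ∀ᶠ n in atTop,
    |(∫ z, φ z * ‖FG a h (sc K u) i j N n z - (fc K u n ^ 2 : ℝ) * c z‖ ^ 2) -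
      kap i j * (fc K u n ^ 4 *
        ((∫ z, φ z * u n z ^ 4) - 3 * ∫ z, φ z * (m z * m z)))| ≤ ε

/-- FE3 (helper76: from `Pool.Agent.P8H76.VC.GE3`, hypothesis FE1; multiply by `fc⁴`). -/
def S_FE3 : Prop := ∀ {m : ℂ → ℝ} {ν : Kernel ℂ ℝ} {Ω : Set ℂ} {a : ℂ → ℝ} {h : ℕ → ℝ}
  {u : ℕ → ℂ → ℝ} {K : Set ℂ}, HypF m ν Ω a h u K → ∀ {φ : ℂ → ℝ}, TF (interior K) φ →
  (∀ z, 0 ≤ φ z) → ∀ (i j : ℤ) (ε : ℝ), 0 < ε → ∃ N0 : ℕ, ∀ N : ℕ, N0 ≤ N → ∃ N1 : ℕ,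
    ∀ N' : ℕ, N1 ≤ N' → ∀ᶠ n in atTop,
      ∫ z, φ z * ‖FG a h (sc K u) i j N n z - FG a h (sc K u) i j N' n z‖ ^ 2 ≤ ε

/-- FE4 (helper76: from `Pool.Agent.P8H76.VC.GE4`, hypotheses AGZ and FE1 or `FA_sharp`): the bounds
`∫ φ ‖w_k‖⁴ ≤ C (1 + ∫_K u⁴)` give `∫ φ ‖fc w_k‖⁴ ≤ C`; the errors by `AG0`. -/
def S_FE4 : Prop := ∀ {m : ℂ → ℝ} {ν : Kernel ℂ ℝ} {Ω : Set ℂ} {a : ℂ → ℝ} {h : ℕ → ℝ}
  {u : ℕ → ℂ → ℝ} {K : Set ℂ}, HypF m ν Ω a h u K → ∀ {χ : ℂ → ℝ}, TF (interior K) χ →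
  (∀ z, 0 ≤ χ z) → ∀ (i j : ℤ), ∃ C : ℝ, ∀ N : ℕ, 0 < N → ∀ᶠ n in atTop,
    (∫ z, χ z * ((h n * fderiv ℝ (fun z => (FG a h (sc K u) i j N n z).re) z 1) ^ 2 +
      (h n * fderiv ℝ (fun z => (FG a h (sc K u) i j N n z).re) z I) ^ 2) ≤ C / N ^ 2) ∧
    ∫ z, χ z * ((h n * fderiv ℝ (fun z => (FG a h (sc K u) i j N n z).im) z 1) ^ 2 +
      (h n * fderiv ℝ (fun z => (FG a h (sc K u) i j N n z).im) z I) ^ 2) ≤ C / N ^ 2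

end

end Pool.Agent.P8H31.VC
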