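import Pool.Agent.P8H31.VC.Sm

/-!
Project VC (helper31): Taylor recursion.
-/

set_option autoImplicit false
open MeasureTheory Filter Topology Complex
open scoped ContDiff ENNReal

namespace Pool.Agent.P8H31.VC

open Pool.Agent.W745.RW Pool.Agent.TH294.RS Pool.Agent.TH294.RG Pool.Agent.TH421.DF
open Pool.Agent.TH421.AC Pool.Agent.P8H31.NZ

noncomputable section

/-- Cauchy-Schwarz on an interval -/
lemma cs_int {g : ℝ → ℝ} {t : ℝ} (ht : 0 ≤ t) (hg : IntervalIntegrable g volume 0 t)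
    (hg2 : IntervalIntegrable (fun s => g s ^ 2) volume 0 t) :
    (∫ s in (0 : ℝ)..t, g s) ^ 2 ≤ t * ∫ s in (0 : ℝ)..t, g s ^ 2 := by
  rcases ht.eq_or_lt with rfl | h0
  · simp
  obtain ⟨a, ha⟩ : ∃ a : ℝ, a = (∫ s in (0 : ℝ)..t, g s) / t := ⟨_, rfl⟩
  have h1 : 0 ≤ ∫ s in (0 : ℝ)..t, (g s - a) ^ 2 :=
    intervalIntegral.integral_nonneg ht fun s _ => sq_nonneg _
  have h2 : ∫ s in (0 : ℝ)..t, (g s - a) ^ 2 =
      (∫ s in (0 : ℝ)..t, g s ^ 2) - 2 * a * (∫ s in (0 : ℝ)..t, g s) + a ^ 2 * t := by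
    have e : (fun s => (g s - a) ^ 2) = fun s => g s ^ 2 - 2 * a * g s + a ^ 2 := by
      funext s; ring
    rw [e, intervalIntegral.integral_add (hg2.sub (hg.const_mul _)) intervalIntegrable_const,
      intervalIntegral.integral_sub hg2 (hg.const_mul _), intervalIntegral.integral_const_mul,
      intervalIntegral.integral_const]
    simp only [smul_eq_mul]; ring
  have h3 : ∫ s in (0 : ℝ)..t, g s = a * t := by rw [ha]; field_simp
  rw [h2, h3] at h1
  rw [h3]
  nlinarith

/-- exchange of the integrals -/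
lemma swap {S Z : Set ℂ} (hS : IsCompact S) (hZ : MeasurableSet Z) (hZS : Z ⊆ S) {R : ℝ}
    {F : ℂ → ℝ → ℝ} (hF : ContinuousOn (Function.uncurry F) (S ×ˢ Set.Icc 0 R)) :
    IntegrableOn (fun s => ∫ z in Z, F z s) (Set.Icc 0 R) ∧
    ∀ t ∈ Set.Icc (0 : ℝ) R, IntegrableOn (fun z => ∫ s in (0 : ℝ)..t, F z s) Z ∧
      ∫ z in Z, ∫ s in (0 : ℝ)..t, F z s = ∫ s in (0 : ℝ)..t, ∫ z in Z, F z s := by
  have i0 : IntegrableOn (Function.uncurry F) (S ×ˢ Set.Icc 0 R) (volume.prod volume) :=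
    hF.integrableOn_compact (hS.prod isCompact_Icc)
  have i1 : ∀ T ⊆ Set.Icc (0 : ℝ) R, Integrable (Function.uncurry F)
      ((volume.restrict Z).prod (volume.restrict T)) := by
    intro T hT
    rw [Measure.prod_restrict]
    exact i0.mono_set (Set.prod_mono hZS hT)
  refine ⟨(i1 _ subset_rfl).integral_prod_right, fun t ht => ?_⟩
  have j := i1 (Set.Ioc 0 t) fun x hx => ⟨hx.1.le, hx.2.trans ht.2⟩
  simp only [intervalIntegral.integral_of_le ht.1]
  exact ⟨j.integral_prod_left, integral_integral_swap j⟩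

/-- the recursion -/
lemma recn {a : ℕ → ℝ → ℝ} {R : ℝ} (hR : 0 ≤ R)
    (h1 : ∀ j, ∀ t ∈ Set.Icc (0 : ℝ) R, a j t ≤ 2 * a j 0 + 2 * R * ∫ s in (0 : ℝ)..t, a (j + 1) s)
    (h2 : ∀ j, IntegrableOn (a j) (Set.Icc 0 R)) {J : ℕ} {S : ℝ}
    (h3 : ∀ t ∈ Set.Icc (0 : ℝ) R, a J t ≤ S) (N : ℕ) :
    ∀ j, j + N = J → ∀ t ∈ Set.Icc (0 : ℝ) R, a j t ≤
      2 * (∑ i ∈ Finset.range N, (2 * R * t) ^ i / (i.factorial : ℝ) * a (j + i) 0) +
        (2 * R * t) ^ N / (N.factorial : ℝ) * S := by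
  induction N with
  | zero =>
    intro j hj t ht
    rw [add_zero] at hj
    subst hj
    simpa using h3 t ht
  | succ N ih =>
    intro j hj t ht
    refine (h1 j t ht).trans ?_
    obtain ⟨P, hP⟩ : ∃ P : ℝ → ℝ, P = fun s =>
      2 * (∑ i ∈ Finset.range N, (2 * R * s) ^ i / (i.factorial : ℝ) * a (j + 1 + i) 0) +
        (2 * R * s) ^ N / (N.factorial : ℝ) * S := ⟨_, rfl⟩
    have cP : Continuous P := by rw [hP]; fun_prop
    have m1 : ∫ s in (0 : ℝ)..t, a (j + 1) s ≤ ∫ s in (0 : ℝ)..t, P s := by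
      refine intervalIntegral.integral_mono_on ht.1 ?_ (cP.intervalIntegrable _ _) fun s hs => ?_
      · rw [intervalIntegrable_iff_integrableOn_Icc_of_le ht.1]
        exact (h2 (j + 1)).mono_set (Set.Icc_subset_Icc_right ht.2)
      · rw [hP]; exact ih (j + 1) (by omega) s ⟨hs.1, hs.2.trans ht.2⟩
    have m2 : ∀ i : ℕ, ∫ s in (0 : ℝ)..t, (2 * R * s) ^ i / (i.factorial : ℝ) =
        (2 * R) ^ i * t ^ (i + 1) / ((i + 1).factorial : ℝ) := by
      intro i
      have e : (fun s : ℝ => (2 * R * s) ^ i / (i.factorial : ℝ)) =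
          fun s => (2 * R) ^ i / (i.factorial : ℝ) * s ^ i := by
        funext s; rw [mul_pow]; ring
      rw [e, intervalIntegral.integral_const_mul, integral_pow]
      have f0 : (i.factorial : ℝ) ≠ 0 := by positivity
      have f1 : ((i + 1).factorial : ℝ) = (i + 1) * i.factorial := by
        rw [Nat.factorial_succ]; push_cast; ring
      have f2 : (i : ℝ) + 1 ≠ 0 := by positivity
      rw [f1]
      rw [zero_pow (Nat.succ_ne_zero i)]
      field_simp
      ring
    have m3 : ∫ s in (0 : ℝ)..t, P s =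
        2 * (∑ i ∈ Finset.range N, (2 * R) ^ i * t ^ (i + 1) / ((i + 1).factorial : ℝ) *
          a (j + 1 + i) 0) + (2 * R) ^ N * t ^ (N + 1) / ((N + 1).factorial : ℝ) * S := by
      rw [hP]
      have ci : ∀ i : ℕ, ∀ c : ℝ, IntervalIntegrable
          (fun s : ℝ => (2 * R * s) ^ i / (i.factorial : ℝ) * c) volume 0 t := fun i c =>
        (by fun_prop : Continuous (fun s : ℝ => (2 * R * s) ^ i / (i.factorial : ℝ) * c))
          |>.intervalIntegrable _ _
      have cs : IntervalIntegrable (fun s : ℝ => 2 * ∑ i ∈ Finset.range N,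
          (2 * R * s) ^ i / (i.factorial : ℝ) * a (j + 1 + i) 0) volume 0 t :=
        (by fun_prop : Continuous (fun s : ℝ => 2 * ∑ i ∈ Finset.range N,
          (2 * R * s) ^ i / (i.factorial : ℝ) * a (j + 1 + i) 0)) |>.intervalIntegrable _ _
      rw [intervalIntegral.integral_add cs (ci N _), intervalIntegral.integral_const_mul,
        intervalIntegral.integral_finset_sum fun i _ => ci i _,
        intervalIntegral.integral_mul_const, m2]
      congr 2
      refine Finset.sum_congr rfl fun i _ => ?_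
      rw [intervalIntegral.integral_mul_const, m2]
    have m4 := mul_le_mul_of_nonneg_left m1 (by positivity : 0 ≤ 2 * R)
    rw [m3] at m4
    have m5 : 2 * a j 0 + 2 * R *
        (2 * (∑ i ∈ Finset.range N, (2 * R) ^ i * t ^ (i + 1) / ((i + 1).factorial : ℝ) *
          a (j + 1 + i) 0) + (2 * R) ^ N * t ^ (N + 1) / ((N + 1).factorial : ℝ) * S) =
        2 * (∑ i ∈ Finset.range (N + 1), (2 * R * t) ^ i / (i.factorial : ℝ) * a (j + i) 0) +
        (2 * R * t) ^ (N + 1) / ((N + 1).factorial : ℝ) * S := by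
      rw [Finset.sum_range_succ', mul_add, mul_add, Finset.mul_sum, Finset.mul_sum, Finset.mul_sum]
      have e2 : ∀ i ∈ Finset.range N, 2 * R * (2 * ((2 * R) ^ i * t ^ (i + 1) /
          ((i + 1).factorial : ℝ) * a (j + 1 + i) 0)) =
          2 * ((2 * R * t) ^ (i + 1) / ((i + 1).factorial : ℝ) * a (j + (i + 1)) 0) := by
        intro i _
        have : j + 1 + i = j + (i + 1) := by ring
        rw [this, mul_pow (2 * R) t]
        ring
      rw [Finset.sum_congr rfl e2]
      simp only [pow_zero, Nat.factorial_zero, Nat.cast_one, div_one, one_mul, add_zero]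
      rw [mul_pow (2 * R) t]
      ring
    linarith

end

end Pool.Agent.P8H31.VC
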