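import Pool.Agent.P8H31.VC.Stm4
import Pool.Agent.P8H31.VC.Low

/-!
Project VC (helper31): comparison of the local means and of slowly varying averages, both directions,
for real sequences.
-/

set_option autoImplicit false
open MeasureTheory Filter Topology Complex ProbabilityTheory
open scoped ContDiff ENNReal

namespace Pool.Agent.P8H31.VC

open Pool.Agent.W745.RW Pool.Agent.TH294.RS Pool.Agent.TH294.RG Pool.Agent.TH421.DF
open Pool.Agent.TH421.AC Pool.Agent.P8H31.NZ Pool.Agent.P8H86.VC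

noncomputable section

/-- upper bound -/
theorem up_real {B : Set ℂ} {h : ℕ → ℝ} (hB : IsOpen B) (hp : ∀ n, 0 < h n)
    (hh : Tendsto h atTop (𝓝 0)) {f g : ℕ → ℂ → ℝ} (D : Dc B h f g) {c : ℂ → ℝ}
    (hc : ContinuousOn c B) {φ : ℂ → ℝ} (hφ : TF B φ) (hφ0 : ∀ z, 0 ≤ φ z) {ε : ℝ} (hε : 0 < ε) :
    ∃ R0 r0 : ℝ, 0 < R0 ∧ 0 < r0 ∧ ∀ᶠ n in atTop, ∀ r : ℝ,
      R0 * h n ≤ r → r ≤ r0 → ∫ z, φ z * (mean r (f n) z - c z) ^ 2 ≤
        (1 + ε) * (∫ z, φ z * (g n z - c z) ^ 2) + ε := by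
  obtain ⟨rf, rg, G1, G2, e, r1, r2, re, id⟩ := D
  exact comb k1 k4 k5 hB hp hh rf rg r1 r2 re id hc hφ hφ0 hε

/-- lower bound -/
theorem low_real (K6 : S_K6) {B : Set ℂ} {h : ℕ → ℝ} (hB : IsOpen B) (hp : ∀ n, 0 < h n)
    (hh : Tendsto h atTop (𝓝 0)) {F : ℕ → ℂ → ℝ} {g : ℕ → ℕ → ℂ → ℝ}
    (D : ∀ N : ℕ, 0 < N → Dc B h F (g N)) {c : ℂ → ℝ}
    (hc : ContinuousOn c B) {φ : ℂ → ℝ} (hφ : TF B φ) (hφ0 : ∀ z, 0 ≤ φ z)
    (C : ∀ ε : ℝ, 0 < ε → ∃ N0 : ℕ, ∀ N : ℕ, N0 ≤ N → ∃ N1 : ℕ, ∀ N' : ℕ, N1 ≤ N' →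
      ∀ᶠ n in atTop, ∫ z, φ z * (g N n z - g N' n z) ^ 2 ≤ ε)
    (S : ∀ χ : ℂ → ℝ, TF B χ → (∀ z, 0 ≤ χ z) → ∃ C : ℝ, ∀ N : ℕ, 0 < N → ∀ᶠ n in atTop,
      ∫ z, χ z * ((h n * fderiv ℝ (g N n) z 1) ^ 2 + (h n * fderiv ℝ (g N n) z I) ^ 2) ≤ C / N ^ 2)
    {t : ℝ} (t0 : 0 < t) {ε : ℝ} (hε : 0 < ε) :
    ∃ R0 : ℝ, 0 < R0 ∧ ∀ R : ℝ, R0 ≤ R → ∃ M0 : ℕ, ∀ N' : ℕ, M0 ≤ N' → ∀ᶠ n in atTop,
      ∫ z, φ z * (g N' n z - c z) ^ 2 ≤
        (1 + t) * (∫ z, φ z * (mean (R * h n) (F n) z - c z) ^ 2) + ε := by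
  have cφ : Continuous φ := hφ.1.continuous
  obtain ⟨P, hP⟩ : ∃ P : ℝ, P = 3 * (1 + 1 / t) := ⟨_, rfl⟩
  have P0 : 0 ≤ P := by rw [hP]; positivity
  obtain ⟨δ, δ0, δ1, hδ⟩ := sm_le (a := 4 * P) (b := ε) (by positivity) hε
  obtain ⟨M0, hM0⟩ := C δ δ0
  obtain ⟨N, hN⟩ : ∃ N : ℕ, N = M0 + 1 := ⟨_, rfl⟩
  obtain ⟨N1, hN1⟩ := hM0 N (by omega)
  obtain ⟨rf, rg, G1, G2, e, rG1, rG2, re, id⟩ := D N (by omega)
  obtain ⟨R0, r0, R0p, r0p, hcc⟩ := comb2 k1 hB hp hh rf rg rG1 rG2 re id hφ hφ0 δ0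
  obtain ⟨r6, M6, L6, r6p, M60, cL6, hL6, h6⟩ := K6 hB cφ hφ.2.1 hφ.2.2 hφ0
  obtain ⟨χ, hχ, hχ1, χ0, -⟩ := exists_cut hB cL6 hL6
  obtain ⟨C4, h4⟩ := S χ hχ χ0
  obtain ⟨L4, cL4, hL4, hk4⟩ := k4 hB cφ hφ.2.1 hφ.2.2 hφ0
  obtain ⟨r7, M7, K7, r7p, M70, cK7, hK7B, hSK7, hin7, -⟩ := k1 hB cφ hφ.2.1 hφ.2.2 hφ0
  refine ⟨R0, R0p, fun R hR0 => ?_⟩
  have Rp : 0 < R := lt_of_lt_of_le R0p hR0
  -- the choice of `N'`
  have l1 : Tendsto (fun k : ℕ => M6 * (R ^ 2 * (|C4| / (k : ℝ) ^ 2))) atTop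
      (𝓝 (M6 * (R ^ 2 * 0))) := by
    refine Tendsto.const_mul _ (Tendsto.const_mul _ ?_)
    refine tendsto_const_nhds.div_atTop ?_
    exact (tendsto_pow_atTop two_ne_zero).comp tendsto_natCast_atTop_atTop
  rw [mul_zero, mul_zero] at l1
  obtain ⟨M1, hM1⟩ := eventually_atTop.1 ((l1.eventually (ge_mem_nhds δ0)).and
    (eventually_ge_atTop (N1 + 1)))
  refine ⟨M1, fun N' hNM => ?_⟩
  obtain ⟨hN'C, hN'2⟩ := hM1 N' hNM
  have hN'1 : N1 ≤ N' := by omega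
  have hN'p : 0 < N' := by omega
  obtain ⟨-, rg', -⟩ := D N' hN'p
  obtain ⟨c1, hc1⟩ := rg.2 L4 cL4 hL4
  obtain ⟨c2, hc2⟩ := rg'.2 L4 cL4 hL4
  obtain ⟨x, xp, -, hx⟩ := sm_le (a := 2 * |c1| + 2 * |c2|) (b := δ) (by positivity) δ0
  obtain ⟨r4, r4p, hr4⟩ := hk4 x xp
  have hsm : ∀ᶠ n in atTop, R * h n < min r0 (min r4 (min r6 r7)) := by
    have : Tendsto (fun n => R * h n) atTop (𝓝 0) := by simpa using hh.const_mul R
    exact this.eventually (gt_mem_nhds (by positivity))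
  filter_upwards [hN1 N' hN'1, hcc, h4 N' hN'p, hc1, hc2, hsm] with n b4 b5 b6 b7 b8 b9
  have hn := hp n
  have rp : 0 < R * h n := mul_pos Rp hn
  have q0 : R * h n ≤ r0 := b9.le.trans (min_le_left _ _)
  have q4 : R * h n ≤ r4 := b9.le.trans ((min_le_right _ _).trans (min_le_left _ _))
  have q6 : R * h n ≤ r6 := b9.le.trans ((min_le_right _ _).trans
    ((min_le_right _ _).trans (min_le_left _ _)))
  have q7 : R * h n ≤ r7 := b9.le.trans ((min_le_right _ _).trans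
    ((min_le_right _ _).trans (min_le_right _ _)))
  obtain ⟨r, hr⟩ : ∃ r : ℝ, r = R * h n := ⟨_, rfl⟩
  rw [← hr] at rp q0 q4 q6 q7 ⊢
  have d5 := b5 r (by rw [hr]; exact mul_le_mul_of_nonneg_right hR0 hn.le) q0
  obtain ⟨f, hf⟩ : ∃ f : ℂ → ℝ, f = F n := ⟨_, rfl⟩
  obtain ⟨g0, hg⟩ : ∃ g0 : ℂ → ℝ, g0 = g N n := ⟨_, rfl⟩
  obtain ⟨g', hg'⟩ : ∃ g' : ℂ → ℝ, g' = g N' n := ⟨_, rfl⟩
  have sf : ContDiffOn ℝ ∞ f B := by rw [hf]; exact rf.1 n
  have sg1 : ContDiffOn ℝ ∞ g0 B := by rw [hg]; exact rg.1 n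
  have sg2 : ContDiffOn ℝ ∞ g' B := by rw [hg']; exact rg'.1 n
  have cf := sf.continuousOn
  have cg := sg1.continuousOn
  have cg' := sg2.continuousOn
  rw [← hg, ← hg'] at b4
  rw [← hg'] at b6 b8 ⊢
  rw [← hg] at b7 d5
  rw [← hf] at d5 ⊢
  -- the slow variation
  have d6 : ∫ z, φ z * (mean r g' z - g' z) ^ 2 ≤ δ := by
    refine (h6 g' sg2 r rp.le q6).trans (le_trans ?_ hN'C)
    refine mul_le_mul_of_nonneg_left ?_ M60
    have e5 : r ^ 2 * ∫ z in L6, (fderiv ℝ g' z 1 ^ 2 + fderiv ℝ g' z I ^ 2) =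
        R ^ 2 * ∫ z in L6, ((h n * fderiv ℝ g' z 1) ^ 2 + (h n * fderiv ℝ g' z I) ^ 2) := by
      rw [← integral_const_mul, ← integral_const_mul, hr]
      congr 1; funext z; ring
    rw [e5]
    refine mul_le_mul_of_nonneg_left ?_ (sq_nonneg R)
    have cd1 : ContinuousOn (fun z => (h n * fderiv ℝ g' z 1) ^ 2 + (h n * fderiv ℝ g' z I) ^ 2)
        B :=
      ((continuousOn_const.mul (rsd hB sg2 1).continuousOn).pow 2).add
        ((continuousOn_const.mul (rsd hB sg2 I).continuousOn).pow 2)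
    have i1 : Integrable (fun z => χ z * ((h n * fderiv ℝ g' z 1) ^ 2 +
        (h n * fderiv ℝ g' z I) ^ 2)) := Pool.Agent.W311.RW.int_mul hB hχ cd1
    have e7 : ∫ z in L6, ((h n * fderiv ℝ g' z 1) ^ 2 + (h n * fderiv ℝ g' z I) ^ 2) ≤
        ∫ z, χ z * ((h n * fderiv ℝ g' z 1) ^ 2 + (h n * fderiv ℝ g' z I) ^ 2) := by
      have e8 : ∫ z in L6, ((h n * fderiv ℝ g' z 1) ^ 2 + (h n * fderiv ℝ g' z I) ^ 2) =
          ∫ z in L6, χ z * ((h n * fderiv ℝ g' z 1) ^ 2 + (h n * fderiv ℝ g' z I) ^ 2) :=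
        setIntegral_congr_fun cL6.measurableSet fun z hz => by
          show _ = χ z * _
          rw [hχ1 z hz, one_mul]
      rw [e8]
      exact setIntegral_le_integral i1 (ae_of_all _ fun z => mul_nonneg (χ0 z) (by positivity))
    exact e7.trans (b6.trans (div_le_div_of_nonneg_right (le_abs_self C4) (by positivity)))
  -- the contraction
  have hm7 : ∀ z ∈ tsupport φ, ∀ c ∈ Metric.closedBall (0 : ℂ) 1, z + r * c ∈ K7 :=
    fun z hz c hc => hin7 z hz c hc r rp.le q7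
  have d4 : ∫ z, φ z * (mean r g0 z - mean r g' z) ^ 2 ≤ 2 * δ := by
    have h1 := hr4 (fun z => g0 z - g' z) (cg.sub cg') r rp.le q4
    have e5 : ∫ z, φ z * (mean r g0 z - mean r g' z) ^ 2 =
        ∫ z, φ z * mean r (fun z => g0 z - g' z) z ^ 2 := by
      congr 1; funext z
      by_cases hz : z ∈ tsupport φ
      · have : mean r (fun z => g0 z - g' z) z = mean r g0 z - mean r g' z := by
          rw [mean_kav, mean_kav, mean_kav]
          unfold kav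
          rw [← integral_sub (kin (hm7 z hz) (cg.mono hK7B) continuousOn_const)
            (kin (hm7 z hz) (cg'.mono hK7B) continuousOn_const)]
          congr 1; funext c; ring
        rw [this]
      · rw [image_eq_zero_of_notMem_tsupport hz]; simp
    rw [e5]
    have h2 : ∫ z in L4, (g0 z - g' z) ^ 2 ≤ 2 * |c1| + 2 * |c2| := by
      have i1 : IntegrableOn (fun z => g0 z ^ 2) L4 :=
        ((cg.mono hL4).pow 2).integrableOn_compact cL4
      have i2 : IntegrableOn (fun z => g' z ^ 2) L4 :=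
        ((cg'.mono hL4).pow 2).integrableOn_compact cL4
      have h2 : ∫ z in L4, (g0 z - g' z) ^ 2 ≤ ∫ z in L4, (2 * g0 z ^ 2 + 2 * g' z ^ 2) := by
        refine integral_mono_of_nonneg (ae_of_all _ fun z => sq_nonneg _)
          ((i1.const_mul 2).add (i2.const_mul 2)) (ae_of_all _ fun z => ?_)
        show (g0 z - g' z) ^ 2 ≤ 2 * g0 z ^ 2 + 2 * g' z ^ 2
        nlinarith [sq_nonneg (g0 z + g' z)]
      rw [integral_add (i1.const_mul 2) (i2.const_mul 2), integral_const_mul,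
        integral_const_mul] at h2
      have k1 : ∫ z in L4, g0 z ^ 2 ≤ |c1| := b7.trans (le_abs_self _)
      have k2 : ∫ z in L4, g' z ^ 2 ≤ |c2| := b8.trans (le_abs_self _)
      linarith
    have h3 := mul_le_mul_of_nonneg_left h2 xp.le
    linarith
  -- the sum
  have cmean : ∀ {G : ℂ → ℝ}, ContinuousOn G B →
      ContinuousOn (mean r G) (tsupport φ) := by
    intro G hG
    have : mean r G = kav (fun _ => 1 / Real.pi) r G := by funext z; exact mean_kav _ _ _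
    rw [this]; exact kco cK7 hm7 (hG.mono hK7B) continuousOn_const
  have int : ∀ {G : ℂ → ℝ}, ContinuousOn G (tsupport φ) → Integrable (fun z => φ z * G z ^ 2) := by
    intro G hG
    refine rint hφ.2.1 (cφ.continuousOn.mul (hG.pow 2)) fun z hz => ?_
    rw [image_eq_zero_of_notMem_tsupport hz, zero_mul]
  have i0 : Integrable (fun z => (1 + t) * (φ z * (mean r f z - c z) ^ 2)) :=
    (int ((cmean cf).sub (hc.mono hφ.2.2))).const_mul _
  have i1 : Integrable (fun z => P * (φ z * (mean r g' z - g' z) ^ 2)) :=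
    (int ((cmean cg').sub (cg'.mono hφ.2.2))).const_mul _
  have i2 : Integrable (fun z => P * (φ z * (mean r g0 z - mean r g' z) ^ 2)) :=
    (int ((cmean cg).sub (cmean cg'))).const_mul _
  have i3 : Integrable (fun z => P * (φ z * (mean r f z - mean r g0 z) ^ 2)) :=
    (int ((cmean cf).sub (cmean cg))).const_mul _
  have l1 : Integrable (fun z => P * (φ z * (mean r g' z - g' z) ^ 2) +
    P * (φ z * (mean r g0 z - mean r g' z) ^ 2)) := i1.add i2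
  have l2 : Integrable (fun z => P * (φ z * (mean r g' z - g' z) ^ 2) +
    P * (φ z * (mean r g0 z - mean r g' z) ^ 2) + P * (φ z * (mean r f z - mean r g0 z) ^ 2)) :=
    l1.add i3
  have main : ∫ z, φ z * (g' z - c z) ^ 2 ≤ ∫ z, ((1 + t) * (φ z * (mean r f z - c z) ^ 2) +
      (P * (φ z * (mean r g' z - g' z) ^ 2) + P * (φ z * (mean r g0 z - mean r g' z) ^ 2) +
        P * (φ z * (mean r f z - mean r g0 z) ^ 2))) := by
    refine integral_mono_of_nonneg (ae_of_all _ fun z => mul_nonneg (hφ0 z) (sq_nonneg _))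
      (i0.add l2) (ae_of_all _ fun z => ?_)
    show φ z * (g' z - c z) ^ 2 ≤ (1 + t) * (φ z * (mean r f z - c z) ^ 2) +
      (P * (φ z * (mean r g' z - g' z) ^ 2) + P * (φ z * (mean r g0 z - mean r g' z) ^ 2) +
        P * (φ z * (mean r f z - mean r g0 z) ^ 2))
    have h1 := alg3 t0 (mean r f z - c z) (g' z - mean r g' z) (mean r g' z - mean r g0 z)
      (mean r g0 z - mean r f z)
    rw [← hP] at h1
    have h2 := mul_le_mul_of_nonneg_left h1 (hφ0 z)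
    have h3 : mean r f z - c z + (g' z - mean r g' z + (mean r g' z - mean r g0 z) +
      (mean r g0 z - mean r f z)) = g' z - c z := by ring
    rw [h3] at h2
    refine h2.trans (le_of_eq ?_)
    ring
  rw [integral_add i0 l2, integral_add l1 i3, integral_add i1 i2] at main
  simp only [integral_const_mul] at main
  have s1 := mul_le_mul_of_nonneg_left d6 P0
  have s2 := mul_le_mul_of_nonneg_left d4 P0
  have s3 := mul_le_mul_of_nonneg_left d5 P0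
  linarith

end

end Pool.Agent.P8H31.VC
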