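import Pool.Agent.P8H31.VC.Stm5
import Pool.Agent.P8H31.VC.Planes

/-!
Project VC (helper31): comparison of the local means and of slowly varying averages, with targets
multiplied by numbers in `[0, 1]`.
-/

set_option autoImplicit false
open MeasureTheory Filter Topology Complex ProbabilityTheory
open scoped ContDiff ENNReal

namespace Pool.Agent.P8H31.VC

open Pool.Agent.W745.RW Pool.Agent.TH294.RS Pool.Agent.TH294.RG Pool.Agent.TH421.DF
open Pool.Agent.TH421.AC Pool.Agent.P8H31.NZ Pool.Agent.P8H86.VC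

noncomputable section

/-- **Comparison of the means**, with a scaled target. -/
theorem combT (K1 : S_K1) (K4 : S_K4) (K5 : S_K5) {B : Set ℂ} {h : ℕ → ℝ} (hB : IsOpen B)
    (hp : ∀ n, 0 < h n) (hh : Tendsto h atTop (𝓝 0)) {f g G1 G2 e : ℕ → ℂ → ℝ} (hf : RB B f)
    (hg : RB B g) (hG1 : RB B G1) (hG2 : RB B G2) (he : RB B e)
    (id : ∀ n, ∀ z ∈ B, f n z = g n z +
      h n * (fderiv ℝ (G1 n) z 1 + fderiv ℝ (G2 n) z I) + h n * e n z)
    {m : ℂ → ℝ} (hm : ContinuousOn m B) {q' : ℕ → ℝ} (q0' : ∀ n, 0 ≤ q' n)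
    (q1' : ∀ n, q' n ≤ 1) {φ : ℂ → ℝ} (hφ : TF B φ) (hφ0 : ∀ z, 0 ≤ φ z)
    {ε : ℝ} (hε : 0 < ε) : ∃ R0 r0 : ℝ, 0 < R0 ∧ 0 < r0 ∧ ∀ᶠ n in atTop, ∀ r : ℝ,
      R0 * h n ≤ r → r ≤ r0 → ∫ z, φ z * (mean r (f n) z - q' n * m z) ^ 2 ≤
        (1 + ε) * (∫ z, φ z * (g n z - q' n * m z) ^ 2) + ε := by
  obtain ⟨r1, M, K, r1p, M0, cK, hKB, hSK, hin, hK1⟩ := K1 hB hφ.1.continuous hφ.2.1 hφ.2.2 hφ0
  obtain ⟨L, cL, hLB, hK4⟩ := K4 hB hφ.1.continuous hφ.2.1 hφ.2.2 hφ0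
  obtain ⟨Cf, hCf⟩ := hf.2 K cK hKB
  obtain ⟨Cg, hCg⟩ := hg.2 K cK hKB
  obtain ⟨C2', hC2⟩ := hG1.2 K cK hKB
  obtain ⟨C3', hC3⟩ := hG2.2 K cK hKB
  obtain ⟨Ce', hCe⟩ := he.2 K cK hKB
  obtain ⟨CL, hCL⟩ := hg.2 L cL hLB
  have cφ : Continuous φ := hφ.1.continuous
  obtain ⟨Φ, hΦ⟩ : ∃ Φ : ℝ, Φ = ∫ z, φ z := ⟨_, rfl⟩
  have Φ0 : 0 ≤ Φ := by rw [hΦ]; exact integral_nonneg hφ0
  obtain ⟨P, hP⟩ : ∃ P : ℝ, P = 5 * (1 + 1 / ε) := ⟨_, rfl⟩
  have P0 : 0 ≤ P := by rw [hP]; positivity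
  -- the parameters
  obtain ⟨x4, x4p, -, hx4⟩ := sm_le (a := (1 + ε) * (2 * |CL| + 2 * ∫ z in L, m z ^ 2))
    (b := ε / 6) (by
      have : 0 ≤ ∫ z in L, m z ^ 2 := integral_nonneg fun z => sq_nonneg _
      positivity) (by positivity)
  obtain ⟨x5, x5p, x51, hx5⟩ := sm_le (a := P * Φ) (b := ε / 6) (by positivity) (by positivity)
  obtain ⟨τ, τp, τ1, hτ⟩ := sm_le (a := P * (M * (2 * |Cf| + 2 * |Cg|))) (b := ε / 6)
    (by positivity) (by positivity)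
  obtain ⟨χ, hχ, hχτ⟩ := k3 τ τp
  obtain ⟨a2, ha2⟩ : ∃ a : ℝ, a = (∫ c in Metric.ball (0 : ℂ) 1, |fderiv ℝ χ c 1|) ^ 2 := ⟨_, rfl⟩
  obtain ⟨a3, ha3⟩ : ∃ a : ℝ, a = (∫ c in Metric.ball (0 : ℂ) 1, |fderiv ℝ χ c I|) ^ 2 := ⟨_, rfl⟩
  obtain ⟨a4, ha4⟩ : ∃ a : ℝ, a = (∫ c in Metric.ball (0 : ℂ) 1, |χ c|) ^ 2 := ⟨_, rfl⟩
  have a20 : 0 ≤ a2 := by rw [ha2]; positivity
  have a30 : 0 ≤ a3 := by rw [ha3]; positivity
  have a40 : 0 ≤ a4 := by rw [ha4]; positivity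
  obtain ⟨q, qp, q1, hq⟩ := sm_le (a := P * (a2 * (M * |C2'|) + a3 * (M * |C3'|))) (b := ε / 6)
    (by positivity) (by positivity)
  obtain ⟨y, yp, y1, hy⟩ := sm_le (a := P * (a4 * (M * |Ce'|))) (b := ε / 6)
    (by positivity) (by positivity)
  obtain ⟨r4, r4p, hr4⟩ := hK4 x4 x4p
  obtain ⟨r5, r5p, hr5⟩ := K5 hB hφ.2.1 hφ.2.2 hm x5 x5p
  refine ⟨1 / q, min r1 (min r4 r5), by positivity, by positivity, ?_⟩
  have hev : ∀ᶠ n in atTop, h n < y := hh.eventually (gt_mem_nhds yp)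
  filter_upwards [hCf, hCg, hC2, hC3, hCe, hCL, hev] with n bf bg b2 b3 be bL hy' r hr hr'
  have rr1 : r ≤ r1 := hr'.trans (min_le_left _ _)
  have rr4 : r ≤ r4 := hr'.trans ((min_le_right _ _).trans (min_le_left _ _))
  have rr5 : r ≤ r5 := hr'.trans ((min_le_right _ _).trans (min_le_right _ _))
  have hn := hp n
  have r0 : 0 < r := lt_of_lt_of_le (by positivity) hr
  have hrq : h n / r ≤ q := by
    rw [div_le_iff₀ r0]
    have := mul_le_mul_of_nonneg_left hr qp.le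
    have e : q * (1 / q * h n) = h n := by field_simp
    linarith
  have hr0 : 0 ≤ h n / r := by positivity
  have hm1 : ∀ z ∈ tsupport φ, ∀ c ∈ Metric.closedBall (0 : ℂ) 1, z + r * c ∈ K :=
    fun z hz c hc => hin z hz c hc r r0.le rr1
  -- continuity
  have cf := (hf.1 n).continuousOn
  have cg := (hg.1 n).continuousOn
  have ce := (he.1 n).continuousOn
  have cG1 := (hG1.1 n).continuousOn
  have cG2 := (hG2.1 n).continuousOn
  have cfg : ContinuousOn (fun w => f n w - g n w) B := cf.sub cg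
  have hmn : ContinuousOn (fun w => q' n * m w) B := continuousOn_const.mul hm
  have cgm : ContinuousOn (fun w => g n w - q' n * m w) B := cg.sub hmn
  have cχ : ContinuousOn χ (Metric.closedBall (0 : ℂ) 1) := hχ.1.continuous.continuousOn
  have cχ1 : ContinuousOn (fun c => 1 / Real.pi - χ c) (Metric.closedBall (0 : ℂ) 1) :=
    continuousOn_const.sub cχ
  have cd : ∀ v : ℂ, ContinuousOn (fun c => fderiv ℝ χ c v) (Metric.closedBall (0 : ℂ) 1) :=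
    fun v => ((hχ.1.fderiv_right (m := ∞) le_rfl).clm_apply contDiff_const).continuous.continuousOn
  obtain ⟨X, hX⟩ : ∃ X : ℂ → ℝ, X = mean r (fun w => g n w - q' n * m w) := ⟨_, rfl⟩
  obtain ⟨Y0, hY0⟩ : ∃ Y : ℂ → ℝ, Y = fun z => mean r (fun w => q' n * m w) z - q' n * m z := ⟨_, rfl⟩
  obtain ⟨Y1, hY1⟩ : ∃ Y : ℂ → ℝ, Y = kav (fun c => 1 / Real.pi - χ c) r
    (fun w => f n w - g n w) := ⟨_, rfl⟩
  obtain ⟨Y2, hY2⟩ : ∃ Y : ℂ → ℝ, Y = kav (fun c => fderiv ℝ χ c 1) r (G1 n) := ⟨_, rfl⟩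
  obtain ⟨Y3, hY3⟩ : ∃ Y : ℂ → ℝ, Y = kav (fun c => fderiv ℝ χ c I) r (G2 n) := ⟨_, rfl⟩
  obtain ⟨Y4, hY4⟩ : ∃ Y : ℂ → ℝ, Y = kav χ r (e n) := ⟨_, rfl⟩
  have kX : ContinuousOn X (tsupport φ) := by
    have : X = kav (fun _ => 1 / Real.pi) r (fun w => g n w - q' n * m w) := by
      rw [hX]; funext z; exact mean_kav _ _ _
    rw [this]; exact kco cK hm1 (cgm.mono hKB) continuousOn_const
  have kY0 : ContinuousOn Y0 (tsupport φ) := by
    have : Y0 = fun z => kav (fun _ => 1 / Real.pi) r (fun w => q' n * m w) z - q' n * m z := by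
      rw [hY0]; funext z; rw [mean_kav]
    rw [this]
    exact (kco cK hm1 (hmn.mono hKB) continuousOn_const).sub (hmn.mono hφ.2.2)
  have kY1 : ContinuousOn Y1 (tsupport φ) := by
    rw [hY1]; exact kco cK hm1 (cfg.mono hKB) cχ1
  have kY2 : ContinuousOn Y2 (tsupport φ) := by
    rw [hY2]; exact kco cK hm1 (cG1.mono hKB) (cd 1)
  have kY3 : ContinuousOn Y3 (tsupport φ) := by
    rw [hY3]; exact kco cK hm1 (cG2.mono hKB) (cd I)
  have kY4 : ContinuousOn Y4 (tsupport φ) := by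
    rw [hY4]; exact kco cK hm1 (ce.mono hKB) cχ
  have int : ∀ {F : ℂ → ℝ}, ContinuousOn F (tsupport φ) → Integrable (fun z => φ z * F z ^ 2) := by
    intro F hF
    refine rint hφ.2.1 (cφ.continuousOn.mul (hF.pow 2)) fun z hz => ?_
    rw [image_eq_zero_of_notMem_tsupport hz, zero_mul]
  -- the bounds
  have m0 : 0 ≤ ∫ z in L, m z ^ 2 := integral_nonneg fun z => sq_nonneg _
  have bX : ∫ z, φ z * X z ^ 2 ≤ (∫ z, φ z * (g n z - q' n * m z) ^ 2) +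
      x4 * (2 * |CL| + 2 * ∫ z in L, m z ^ 2) := by
    rw [hX]
    refine (hr4 _ cgm r r0.le rr4).trans ?_
    have h1 : ∫ z in L, (g n z - q' n * m z) ^ 2 ≤ 2 * |CL| + 2 * ∫ z in L, m z ^ 2 := by
      have i1 : IntegrableOn (fun z => g n z ^ 2) L :=
        ((cg.mono hLB).pow 2).integrableOn_compact cL
      have i2 : IntegrableOn (fun z => m z ^ 2) L :=
        ((hm.mono hLB).pow 2).integrableOn_compact cL
      have h2 : ∫ z in L, (g n z - q' n * m z) ^ 2 ≤ ∫ z in L, (2 * g n z ^ 2 + 2 * m z ^ 2) := by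
        refine integral_mono_of_nonneg (ae_of_all _ fun z => sq_nonneg _)
          ((i1.const_mul 2).add (i2.const_mul 2)) (ae_of_all _ fun z => ?_)
        show (g n z - q' n * m z) ^ 2 ≤ 2 * g n z ^ 2 + 2 * m z ^ 2
        have w1 : (q' n * m z) ^ 2 ≤ m z ^ 2 := by
          rw [mul_pow]
          exact mul_le_of_le_one_left (sq_nonneg _) (pow_le_one₀ (q0' n) (q1' n))
        nlinarith [sq_nonneg (g n z + q' n * m z)]
      rw [integral_add (i1.const_mul 2) (i2.const_mul 2), integral_const_mul,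
        integral_const_mul] at h2
      have := bL.trans (le_abs_self CL)
      linarith
    have := mul_le_mul_of_nonneg_left h1 x4p.le
    linarith
  have bY0 : ∫ z, φ z * Y0 z ^ 2 ≤ x5 * Φ := by
    have h1 : ∫ z, φ z * Y0 z ^ 2 ≤ ∫ z, x5 * φ z := by
      refine integral_mono_of_nonneg (ae_of_all _ fun z => mul_nonneg (hφ0 z) (sq_nonneg _))
        ((cφ.integrable_of_hasCompactSupport hφ.2.1).const_mul _) (ae_of_all _ fun z => ?_)
      show φ z * Y0 z ^ 2 ≤ x5 * φ z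
      by_cases hz : z ∈ tsupport φ
      · have h2 : |Y0 z| ≤ x5 := by
          rw [hY0]
          have w2 : mean r (fun w => q' n * m w) z - q' n * m z = q' n * (mean r m z - m z) := by
            unfold mean
            rw [integral_const_mul]
            ring
          show |mean r (fun w => q' n * m w) z - q' n * m z| ≤ x5
          rw [w2, abs_mul, abs_of_nonneg (q0' n)]
          have w3 := hr5 r r0.le rr5 z hz
          exact (mul_le_of_le_one_left (abs_nonneg _) (q1' n)).trans w3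
        have h3 : Y0 z ^ 2 ≤ x5 := by
          rw [← sq_abs]
          have := pow_le_pow_left₀ (abs_nonneg _) h2 2
          nlinarith
        have := mul_le_mul_of_nonneg_left h3 (hφ0 z)
        linarith
      · rw [image_eq_zero_of_notMem_tsupport hz]; simp
    rwa [integral_const_mul, ← hΦ] at h1
  have bY1 : ∫ z, φ z * Y1 z ^ 2 ≤ τ * (M * (2 * |Cf| + 2 * |Cg|)) := by
    rw [hY1]
    refine (hK1 _ cfg _ cχ1 r r0.le rr1).trans ?_
    have h1 : ∫ z in K, (f n z - g n z) ^ 2 ≤ 2 * |Cf| + 2 * |Cg| := by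
      have i1 : IntegrableOn (fun z => f n z ^ 2) K :=
        ((cf.mono hKB).pow 2).integrableOn_compact cK
      have i2 : IntegrableOn (fun z => g n z ^ 2) K :=
        ((cg.mono hKB).pow 2).integrableOn_compact cK
      have h2 : ∫ z in K, (f n z - g n z) ^ 2 ≤ ∫ z in K, (2 * f n z ^ 2 + 2 * g n z ^ 2) := by
        refine integral_mono_of_nonneg (ae_of_all _ fun z => sq_nonneg _)
          ((i1.const_mul 2).add (i2.const_mul 2)) (ae_of_all _ fun z => ?_)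
        show (f n z - g n z) ^ 2 ≤ 2 * f n z ^ 2 + 2 * g n z ^ 2
        nlinarith [sq_nonneg (f n z + g n z)]
      rw [integral_add (i1.const_mul 2) (i2.const_mul 2), integral_const_mul,
        integral_const_mul] at h2
      have := bf.trans (le_abs_self Cf)
      have := bg.trans (le_abs_self Cg)
      linarith
    have h3 : (∫ c in Metric.ball (0 : ℂ) 1, |1 / Real.pi - χ c|) ^ 2 ≤ τ := by
      have h4 : 0 ≤ ∫ c in Metric.ball (0 : ℂ) 1, |1 / Real.pi - χ c| :=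
        integral_nonneg fun c => abs_nonneg _
      have := pow_le_pow_left₀ h4 hχτ 2
      nlinarith
    have h5 : 0 ≤ ∫ z in K, (f n z - g n z) ^ 2 := integral_nonneg fun z => sq_nonneg _
    exact mul_le_mul h3 (mul_le_mul_of_nonneg_left h1 M0) (mul_nonneg M0 h5) τp.le
  have bY2 : ∫ z, φ z * Y2 z ^ 2 ≤ a2 * (M * |C2'|) := by
    rw [hY2, ha2]
    refine (hK1 _ cG1 _ (cd 1) r r0.le rr1).trans ?_
    exact mul_le_mul_of_nonneg_left (mul_le_mul_of_nonneg_left (b2.trans (le_abs_self _)) M0)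
      (sq_nonneg _)
  have bY3 : ∫ z, φ z * Y3 z ^ 2 ≤ a3 * (M * |C3'|) := by
    rw [hY3, ha3]
    refine (hK1 _ cG2 _ (cd I) r r0.le rr1).trans ?_
    exact mul_le_mul_of_nonneg_left (mul_le_mul_of_nonneg_left (b3.trans (le_abs_self _)) M0)
      (sq_nonneg _)
  have bY4 : ∫ z, φ z * Y4 z ^ 2 ≤ a4 * (M * |Ce'|) := by
    rw [hY4, ha4]
    refine (hK1 _ ce _ cχ r r0.le rr1).trans ?_
    exact mul_le_mul_of_nonneg_left (mul_le_mul_of_nonneg_left (be.trans (le_abs_self _)) M0)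
      (sq_nonneg _)
  -- the sum
  have i0 : Integrable (fun z => (1 + ε) * (φ z * X z ^ 2)) := (int kX).const_mul _
  have j0 : Integrable (fun z => P * (φ z * Y0 z ^ 2)) := (int kY0).const_mul _
  have j1 : Integrable (fun z => P * (φ z * Y1 z ^ 2)) := (int kY1).const_mul _
  have j2 : Integrable (fun z => P * (h n / r) ^ 2 * (φ z * Y2 z ^ 2)) := (int kY2).const_mul _
  have j3 : Integrable (fun z => P * (h n / r) ^ 2 * (φ z * Y3 z ^ 2)) := (int kY3).const_mul _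
  have j4 : Integrable (fun z => P * h n ^ 2 * (φ z * Y4 z ^ 2)) := (int kY4).const_mul _
  have l1 : Integrable (fun z => P * (φ z * Y0 z ^ 2) + P * (φ z * Y1 z ^ 2)) := j0.add j1
  have l2 : Integrable (fun z => P * (φ z * Y0 z ^ 2) + P * (φ z * Y1 z ^ 2) +
    P * (h n / r) ^ 2 * (φ z * Y2 z ^ 2)) := l1.add j2
  have l3 : Integrable (fun z => P * (φ z * Y0 z ^ 2) + P * (φ z * Y1 z ^ 2) +
    P * (h n / r) ^ 2 * (φ z * Y2 z ^ 2) + P * (h n / r) ^ 2 * (φ z * Y3 z ^ 2)) := l2.add j3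
  have l4 : Integrable (fun z => P * (φ z * Y0 z ^ 2) + P * (φ z * Y1 z ^ 2) +
    P * (h n / r) ^ 2 * (φ z * Y2 z ^ 2) + P * (h n / r) ^ 2 * (φ z * Y3 z ^ 2) +
      P * h n ^ 2 * (φ z * Y4 z ^ 2)) := l3.add j4
  have main : ∫ z, φ z * (mean r (f n) z - q' n * m z) ^ 2 ≤ ∫ z, ((1 + ε) * (φ z * X z ^ 2) +
      (P * (φ z * Y0 z ^ 2) + P * (φ z * Y1 z ^ 2) + P * (h n / r) ^ 2 * (φ z * Y2 z ^ 2) +
        P * (h n / r) ^ 2 * (φ z * Y3 z ^ 2) + P * h n ^ 2 * (φ z * Y4 z ^ 2))) := by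
    refine integral_mono_of_nonneg (ae_of_all _ fun z => mul_nonneg (hφ0 z) (sq_nonneg _))
      (i0.add l4) (ae_of_all _ fun z => ?_)
    show φ z * (mean r (f n) z - q' n * m z) ^ 2 ≤ (1 + ε) * (φ z * X z ^ 2) +
      (P * (φ z * Y0 z ^ 2) + P * (φ z * Y1 z ^ 2) + P * (h n / r) ^ 2 * (φ z * Y2 z ^ 2) +
        P * (h n / r) ^ 2 * (φ z * Y3 z ^ 2) + P * h n ^ 2 * (φ z * Y4 z ^ 2))
    by_cases hz : z ∈ tsupport φ
    · have D := dec hB hKB cf cg (hG1.1 n) (hG2.1 n) ce hmn (id n) hχ r0 (hm1 z hz)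
      have D' : mean r (f n) z - q' n * m z = X z + (Y0 z + Y1 z + (-(h n / r)) * Y2 z +
          (-(h n / r)) * Y3 z + h n * Y4 z) := by
        rw [hX, hY0, hY1, hY2, hY3, hY4]; exact D
      rw [D']
      have s8 := mul_le_mul_of_nonneg_left (alg hε (X z) (Y0 z) (Y1 z) (Y2 z) (Y3 z) (Y4 z)
        (h n / r) (h n)) (hφ0 z)
      rw [← hP] at s8
      linarith
    · rw [image_eq_zero_of_notMem_tsupport hz]; simp
  rw [integral_add i0 l4, integral_add l3 j4, integral_add l2 j3, integral_add l1 j2,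
    integral_add j0 j1] at main
  simp only [integral_const_mul] at main
  refine main.trans ?_
  have t1 := mul_le_mul_of_nonneg_left bX (show 0 ≤ 1 + ε by positivity)
  have t2 := mul_le_mul_of_nonneg_left bY0 P0
  have t3 := mul_le_mul_of_nonneg_left bY1 P0
  have hr2 : (h n / r) ^ 2 ≤ q := by
    have := pow_le_pow_left₀ hr0 hrq 2
    nlinarith
  have hn2 : h n ^ 2 ≤ y := by nlinarith
  have n2 : 0 ≤ ∫ z, φ z * Y2 z ^ 2 := integral_nonneg fun z => mul_nonneg (hφ0 z) (sq_nonneg _)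
  have n3 : 0 ≤ ∫ z, φ z * Y3 z ^ 2 := integral_nonneg fun z => mul_nonneg (hφ0 z) (sq_nonneg _)
  have n4 : 0 ≤ ∫ z, φ z * Y4 z ^ 2 := integral_nonneg fun z => mul_nonneg (hφ0 z) (sq_nonneg _)
  have t4 : P * (h n / r) ^ 2 * (∫ z, φ z * Y2 z ^ 2) ≤ P * (q * (a2 * (M * |C2'|))) := by
    rw [mul_assoc]
    exact mul_le_mul_of_nonneg_left (mul_le_mul hr2 bY2 n2 qp.le) P0
  have t5 : P * (h n / r) ^ 2 * (∫ z, φ z * Y3 z ^ 2) ≤ P * (q * (a3 * (M * |C3'|))) := by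
    rw [mul_assoc]
    exact mul_le_mul_of_nonneg_left (mul_le_mul hr2 bY3 n3 qp.le) P0
  have t6 : P * h n ^ 2 * (∫ z, φ z * Y4 z ^ 2) ≤ P * (y * (a4 * (M * |Ce'|))) := by
    rw [mul_assoc]
    exact mul_le_mul_of_nonneg_left (mul_le_mul hn2 bY4 n4 yp.le) P0
  linarith

/-- upper bound -/
theorem up_realT {B : Set ℂ} {h : ℕ → ℝ} (hB : IsOpen B) (hp : ∀ n, 0 < h n)
    (hh : Tendsto h atTop (𝓝 0)) {f g : ℕ → ℂ → ℝ} (D : Dc B h f g) {c : ℂ → ℝ}
    (hc : ContinuousOn c B) {q' : ℕ → ℝ} (q0' : ∀ n, 0 ≤ q' n) (q1' : ∀ n, q' n ≤ 1)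
    {φ : ℂ → ℝ} (hφ : TF B φ) (hφ0 : ∀ z, 0 ≤ φ z) {ε : ℝ} (hε : 0 < ε) :
    ∃ R0 r0 : ℝ, 0 < R0 ∧ 0 < r0 ∧ ∀ᶠ n in atTop, ∀ r : ℝ,
      R0 * h n ≤ r → r ≤ r0 → ∫ z, φ z * (mean r (f n) z - q' n * c z) ^ 2 ≤
        (1 + ε) * (∫ z, φ z * (g n z - q' n * c z) ^ 2) + ε := by
  obtain ⟨rf, rg, G1, G2, e, r1, r2, re, id⟩ := D
  exact combT k1 k4 k5 hB hp hh rf rg r1 r2 re id hc q0' q1' hφ hφ0 hε

/-- lower bound, with a scaled target -/
theorem low_realT (K6 : S_K6) {B : Set ℂ} {h : ℕ → ℝ} (hB : IsOpen B) (hp : ∀ n, 0 < h n)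
    (hh : Tendsto h atTop (𝓝 0)) {F : ℕ → ℂ → ℝ} {g : ℕ → ℕ → ℂ → ℝ}
    (D : ∀ N : ℕ, 0 < N → Dc B h F (g N)) {c : ℂ → ℝ}
    (hc : ContinuousOn c B) {φ : ℂ → ℝ} (hφ : TF B φ) (hφ0 : ∀ z, 0 ≤ φ z)
    (C : ∀ ε : ℝ, 0 < ε → ∃ N0 : ℕ, ∀ N : ℕ, N0 ≤ N → ∃ N1 : ℕ, ∀ N' : ℕ, N1 ≤ N' →
      ∀ᶠ n in atTop, ∫ z, φ z * (g N n z - g N' n z) ^ 2 ≤ ε)
    (S : ∀ χ : ℂ → ℝ, TF B χ → (∀ z, 0 ≤ χ z) → ∃ C : ℝ, ∀ N : ℕ, 0 < N → ∀ᶠ n in atTop,
      ∫ z, χ z * ((h n * fderiv ℝ (g N n) z 1) ^ 2 + (h n * fderiv ℝ (g N n) z I) ^ 2) ≤ C / N ^ 2)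
    {q' : ℕ → ℝ} {t : ℝ} (t0 : 0 < t) {ε : ℝ} (hε : 0 < ε) :
    ∃ R0 : ℝ, 0 < R0 ∧ ∀ R : ℝ, R0 ≤ R → ∃ M0 : ℕ, ∀ N' : ℕ, M0 ≤ N' → ∀ᶠ n in atTop,
      ∫ z, φ z * (g N' n z - q' n * c z) ^ 2 ≤
        (1 + t) * (∫ z, φ z * (mean (R * h n) (F n) z - q' n * c z) ^ 2) + ε := by
  have cφ : Continuous φ := hφ.1.continuous
  obtain ⟨P, hP⟩ : ∃ P : ℝ, P = 3 * (1 + 1 / t) := ⟨_, rfl⟩
  have P0 : 0 ≤ P := by rw [hP]; positivity
  obtain ⟨δ, δ0, δ1, hδ⟩ := sm_le (a := 4 * P) (b := ε) (by positivity) hε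
  obtain ⟨M0, hM0⟩ := C δ δ0
  obtain ⟨N, hN⟩ : ∃ N : ℕ, N = M0 + 1 := ⟨_, rfl⟩
  obtain ⟨N1, hN1⟩ := hM0 N (by omega)
  obtain ⟨rf, rg, G1, G2, e, rG1, rG2, re, id⟩ := D N (by omega)
  obtain ⟨R0, r0, R0p, r0p, hcc⟩ := comb2 k1 hB hp hh rf rg rG1 rG2 re id hφ hφ0 δ0
  obtain ⟨r6, M6, L6, r6p, M60, cL6, hL6, h6⟩ := K6 hB cφ hφ.2.1 hφ.2.2 hφ0
  obtain ⟨χ, hχ, hχ1, χ0, -⟩ := exists_cut hB cL6 hL6
  obtain ⟨C4, h4⟩ := S χ hχ χ0
  obtain ⟨L4, cL4, hL4, hk4⟩ := k4 hB cφ hφ.2.1 hφ.2.2 hφ0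
  obtain ⟨r7, M7, K7, r7p, M70, cK7, hK7B, hSK7, hin7, -⟩ := k1 hB cφ hφ.2.1 hφ.2.2 hφ0
  refine ⟨R0, R0p, fun R hR0 => ?_⟩
  have Rp : 0 < R := lt_of_lt_of_le R0p hR0
  -- the choice of `N'`
  have l1 : Tendsto (fun k : ℕ => M6 * (R ^ 2 * (|C4| / (k : ℝ) ^ 2))) atTop
      (𝓝 (M6 * (R ^ 2 * 0))) := by
    refine Tendsto.const_mul _ (Tendsto.const_mul _ ?_)
    refine tendsto_const_nhds.div_atTop ?_
    exact (tendsto_pow_atTop two_ne_zero).comp tendsto_natCast_atTop_atTop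
  rw [mul_zero, mul_zero] at l1
  obtain ⟨M1, hM1⟩ := eventually_atTop.1 ((l1.eventually (ge_mem_nhds δ0)).and
    (eventually_ge_atTop (N1 + 1)))
  refine ⟨M1, fun N' hNM => ?_⟩
  obtain ⟨hN'C, hN'2⟩ := hM1 N' hNM
  have hN'1 : N1 ≤ N' := by omega
  have hN'p : 0 < N' := by omega
  obtain ⟨-, rg', -⟩ := D N' hN'p
  obtain ⟨c1, hc1⟩ := rg.2 L4 cL4 hL4
  obtain ⟨c2, hc2⟩ := rg'.2 L4 cL4 hL4
  obtain ⟨x, xp, -, hx⟩ := sm_le (a := 2 * |c1| + 2 * |c2|) (b := δ) (by positivity) δ0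
  obtain ⟨r4, r4p, hr4⟩ := hk4 x xp
  have hsm : ∀ᶠ n in atTop, R * h n < min r0 (min r4 (min r6 r7)) := by
    have : Tendsto (fun n => R * h n) atTop (𝓝 0) := by simpa using hh.const_mul R
    exact this.eventually (gt_mem_nhds (by positivity))
  filter_upwards [hN1 N' hN'1, hcc, h4 N' hN'p, hc1, hc2, hsm] with n b4 b5 b6 b7 b8 b9
  have hn := hp n
  have rp : 0 < R * h n := mul_pos Rp hn
  have q0 : R * h n ≤ r0 := b9.le.trans (min_le_left _ _)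
  have q4 : R * h n ≤ r4 := b9.le.trans ((min_le_right _ _).trans (min_le_left _ _))
  have q6 : R * h n ≤ r6 := b9.le.trans ((min_le_right _ _).trans
    ((min_le_right _ _).trans (min_le_left _ _)))
  have q7 : R * h n ≤ r7 := b9.le.trans ((min_le_right _ _).trans
    ((min_le_right _ _).trans (min_le_right _ _)))
  obtain ⟨r, hr⟩ : ∃ r : ℝ, r = R * h n := ⟨_, rfl⟩
  rw [← hr] at rp q0 q4 q6 q7 ⊢
  have d5 := b5 r (by rw [hr]; exact mul_le_mul_of_nonneg_right hR0 hn.le) q0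
  obtain ⟨f, hf⟩ : ∃ f : ℂ → ℝ, f = F n := ⟨_, rfl⟩
  obtain ⟨g0, hg⟩ : ∃ g0 : ℂ → ℝ, g0 = g N n := ⟨_, rfl⟩
  obtain ⟨g', hg'⟩ : ∃ g' : ℂ → ℝ, g' = g N' n := ⟨_, rfl⟩
  have sf : ContDiffOn ℝ ∞ f B := by rw [hf]; exact rf.1 n
  have sg1 : ContDiffOn ℝ ∞ g0 B := by rw [hg]; exact rg.1 n
  have sg2 : ContDiffOn ℝ ∞ g' B := by rw [hg']; exact rg'.1 n
  have cf := sf.continuousOn
  have cg := sg1.continuousOn
  have cg' := sg2.continuousOn
  rw [← hg, ← hg'] at b4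
  rw [← hg'] at b6 b8 ⊢
  rw [← hg] at b7 d5
  rw [← hf] at d5 ⊢
  -- the slow variation
  have d6 : ∫ z, φ z * (mean r g' z - g' z) ^ 2 ≤ δ := by
    refine (h6 g' sg2 r rp.le q6).trans (le_trans ?_ hN'C)
    refine mul_le_mul_of_nonneg_left ?_ M60
    have e5 : r ^ 2 * ∫ z in L6, (fderiv ℝ g' z 1 ^ 2 + fderiv ℝ g' z I ^ 2) =
        R ^ 2 * ∫ z in L6, ((h n * fderiv ℝ g' z 1) ^ 2 + (h n * fderiv ℝ g' z I) ^ 2) := by
      rw [← integral_const_mul, ← integral_const_mul, hr]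
      congr 1; funext z; ring
    rw [e5]
    refine mul_le_mul_of_nonneg_left ?_ (sq_nonneg R)
    have cd1 : ContinuousOn (fun z => (h n * fderiv ℝ g' z 1) ^ 2 + (h n * fderiv ℝ g' z I) ^ 2)
        B :=
      ((continuousOn_const.mul (rsd hB sg2 1).continuousOn).pow 2).add
        ((continuousOn_const.mul (rsd hB sg2 I).continuousOn).pow 2)
    have i1 : Integrable (fun z => χ z * ((h n * fderiv ℝ g' z 1) ^ 2 +
        (h n * fderiv ℝ g' z I) ^ 2)) := Pool.Agent.W311.RW.int_mul hB hχ cd1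
    have e7 : ∫ z in L6, ((h n * fderiv ℝ g' z 1) ^ 2 + (h n * fderiv ℝ g' z I) ^ 2) ≤
        ∫ z, χ z * ((h n * fderiv ℝ g' z 1) ^ 2 + (h n * fderiv ℝ g' z I) ^ 2) := by
      have e8 : ∫ z in L6, ((h n * fderiv ℝ g' z 1) ^ 2 + (h n * fderiv ℝ g' z I) ^ 2) =
          ∫ z in L6, χ z * ((h n * fderiv ℝ g' z 1) ^ 2 + (h n * fderiv ℝ g' z I) ^ 2) :=
        setIntegral_congr_fun cL6.measurableSet fun z hz => by
          show _ = χ z * _
          rw [hχ1 z hz, one_mul]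
      rw [e8]
      exact setIntegral_le_integral i1 (ae_of_all _ fun z => mul_nonneg (χ0 z) (by positivity))
    exact e7.trans (b6.trans (div_le_div_of_nonneg_right (le_abs_self C4) (by positivity)))
  -- the contraction
  have hm7 : ∀ z ∈ tsupport φ, ∀ c ∈ Metric.closedBall (0 : ℂ) 1, z + r * c ∈ K7 :=
    fun z hz c hc => hin7 z hz c hc r rp.le q7
  have d4 : ∫ z, φ z * (mean r g0 z - mean r g' z) ^ 2 ≤ 2 * δ := by
    have h1 := hr4 (fun z => g0 z - g' z) (cg.sub cg') r rp.le q4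
    have e5 : ∫ z, φ z * (mean r g0 z - mean r g' z) ^ 2 =
        ∫ z, φ z * mean r (fun z => g0 z - g' z) z ^ 2 := by
      congr 1; funext z
      by_cases hz : z ∈ tsupport φ
      · have : mean r (fun z => g0 z - g' z) z = mean r g0 z - mean r g' z := by
          rw [mean_kav, mean_kav, mean_kav]
          unfold kav
          rw [← integral_sub (kin (hm7 z hz) (cg.mono hK7B) continuousOn_const)
            (kin (hm7 z hz) (cg'.mono hK7B) continuousOn_const)]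
          congr 1; funext c; ring
        rw [this]
      · rw [image_eq_zero_of_notMem_tsupport hz]; simp
    rw [e5]
    have h2 : ∫ z in L4, (g0 z - g' z) ^ 2 ≤ 2 * |c1| + 2 * |c2| := by
      have i1 : IntegrableOn (fun z => g0 z ^ 2) L4 :=
        ((cg.mono hL4).pow 2).integrableOn_compact cL4
      have i2 : IntegrableOn (fun z => g' z ^ 2) L4 :=
        ((cg'.mono hL4).pow 2).integrableOn_compact cL4
      have h2 : ∫ z in L4, (g0 z - g' z) ^ 2 ≤ ∫ z in L4, (2 * g0 z ^ 2 + 2 * g' z ^ 2) := by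
        refine integral_mono_of_nonneg (ae_of_all _ fun z => sq_nonneg _)
          ((i1.const_mul 2).add (i2.const_mul 2)) (ae_of_all _ fun z => ?_)
        show (g0 z - g' z) ^ 2 ≤ 2 * g0 z ^ 2 + 2 * g' z ^ 2
        nlinarith [sq_nonneg (g0 z + g' z)]
      rw [integral_add (i1.const_mul 2) (i2.const_mul 2), integral_const_mul,
        integral_const_mul] at h2
      have k1 : ∫ z in L4, g0 z ^ 2 ≤ |c1| := b7.trans (le_abs_self _)
      have k2 : ∫ z in L4, g' z ^ 2 ≤ |c2| := b8.trans (le_abs_self _)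
      linarith
    have h3 := mul_le_mul_of_nonneg_left h2 xp.le
    linarith
  -- the sum
  have cmean : ∀ {G : ℂ → ℝ}, ContinuousOn G B →
      ContinuousOn (mean r G) (tsupport φ) := by
    intro G hG
    have : mean r G = kav (fun _ => 1 / Real.pi) r G := by funext z; exact mean_kav _ _ _
    rw [this]; exact kco cK7 hm7 (hG.mono hK7B) continuousOn_const
  have int : ∀ {G : ℂ → ℝ}, ContinuousOn G (tsupport φ) → Integrable (fun z => φ z * G z ^ 2) := by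
    intro G hG
    refine rint hφ.2.1 (cφ.continuousOn.mul (hG.pow 2)) fun z hz => ?_
    rw [image_eq_zero_of_notMem_tsupport hz, zero_mul]
  have i0 : Integrable (fun z => (1 + t) * (φ z * (mean r f z - q' n * c z) ^ 2)) :=
    (int ((cmean cf).sub ((continuousOn_const.mul (hc.mono hφ.2.2))))).const_mul _
  have i1 : Integrable (fun z => P * (φ z * (mean r g' z - g' z) ^ 2)) :=
    (int ((cmean cg').sub (cg'.mono hφ.2.2))).const_mul _
  have i2 : Integrable (fun z => P * (φ z * (mean r g0 z - mean r g' z) ^ 2)) :=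
    (int ((cmean cg).sub (cmean cg'))).const_mul _
  have i3 : Integrable (fun z => P * (φ z * (mean r f z - mean r g0 z) ^ 2)) :=
    (int ((cmean cf).sub (cmean cg))).const_mul _
  have l1 : Integrable (fun z => P * (φ z * (mean r g' z - g' z) ^ 2) +
    P * (φ z * (mean r g0 z - mean r g' z) ^ 2)) := i1.add i2
  have l2 : Integrable (fun z => P * (φ z * (mean r g' z - g' z) ^ 2) +
    P * (φ z * (mean r g0 z - mean r g' z) ^ 2) + P * (φ z * (mean r f z - mean r g0 z) ^ 2)) :=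
    l1.add i3
  have main : ∫ z, φ z * (g' z - q' n * c z) ^ 2 ≤ ∫ z, ((1 + t) * (φ z * (mean r f z - q' n * c z) ^ 2) +
      (P * (φ z * (mean r g' z - g' z) ^ 2) + P * (φ z * (mean r g0 z - mean r g' z) ^ 2) +
        P * (φ z * (mean r f z - mean r g0 z) ^ 2))) := by
    refine integral_mono_of_nonneg (ae_of_all _ fun z => mul_nonneg (hφ0 z) (sq_nonneg _))
      (i0.add l2) (ae_of_all _ fun z => ?_)
    show φ z * (g' z - q' n * c z) ^ 2 ≤ (1 + t) * (φ z * (mean r f z - q' n * c z) ^ 2) +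
      (P * (φ z * (mean r g' z - g' z) ^ 2) + P * (φ z * (mean r g0 z - mean r g' z) ^ 2) +
        P * (φ z * (mean r f z - mean r g0 z) ^ 2))
    have h1 := alg3 t0 (mean r f z - q' n * c z) (g' z - mean r g' z) (mean r g' z - mean r g0 z)
      (mean r g0 z - mean r f z)
    rw [← hP] at h1
    have h2 := mul_le_mul_of_nonneg_left h1 (hφ0 z)
    have h3 : mean r f z - q' n * c z + (g' z - mean r g' z + (mean r g' z - mean r g0 z) +
      (mean r g0 z - mean r f z)) = g' z - q' n * c z := by ring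
    rw [h3] at h2
    refine h2.trans (le_of_eq ?_)
    ring
  rw [integral_add i0 l2, integral_add l1 i3, integral_add i1 i2] at main
  simp only [integral_const_mul] at main
  have s1 := mul_le_mul_of_nonneg_left d6 P0
  have s2 := mul_le_mul_of_nonneg_left d4 P0
  have s3 := mul_le_mul_of_nonneg_left d5 P0
  linarith

end

end Pool.Agent.P8H31.VC
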