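import Pool.Agent.P8H31.VC.Hom

/-!
Project VC (helper31): iterated semiclassical derivatives; where the solution is small, they are
small in `L²`.
-/

set_option autoImplicit false
open MeasureTheory Filter Topology Complex
open scoped ContDiff ENNReal

namespace Pool.Agent.P8H31.VC

open Pool.Agent.W745.RW Pool.Agent.TH294.RS Pool.Agent.TH294.RG Pool.Agent.TH421.DF
open Pool.Agent.TH421.AC Pool.Agent.P8H31.NZ

noncomputable section

variable {B : Set ℂ} {h : ℕ → ℝ}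

/-- the two coordinate directions -/
def dir (b : Bool) : ℂ := if b then 1 else I

lemma dir_or (b : Bool) : dir b = 1 ∨ dir b = I := by
  cases b
  · right; rfl
  · left; rfl

/-- iterated semiclassical derivatives -/
def wd (h : ℕ → ℝ) (u : ℕ → ℂ → ℝ) : List Bool → ℕ → ℂ → ℝ
  | [] => u
  | b :: l => rd h (dir b) (wd h u l)

lemma wd_sm (hB : IsOpen B) {u : ℕ → ℂ → ℝ} (hu : ∀ n, ContDiffOn ℝ ∞ (u n) B) (l : List Bool) :
    ∀ n, ContDiffOn ℝ ∞ (wd h u l n) B := by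
  induction l with
  | nil => exact hu
  | cons b l ih => intro n; exact rd_sm hB ih (dir b) n

lemma wd_mk (hB : IsOpen B) {u : ℕ → ℂ → ℝ} (hu : ∀ n, ContDiffOn ℝ ∞ (u n) B)
    (hM : ∀ k, MK2 B h k (cx u)) (l : List Bool) : ∀ k, MK2 B h k (cx (wd h u l)) := by
  induction l with
  | nil => exact hM
  | cons b l ih =>
    intro k
    have h1 := mk_rd hB (wd_sm hB hu l) (ih (k + 1))
    cases b
    · exact h1.2
    · exact h1.1

/-- `√(σ² + Σ w_l²)` -/
def am (h : ℕ → ℝ) (u : ℕ → ℂ → ℝ) (F : Finset (List Bool)) (σ : ℝ) (n : ℕ) (z : ℂ) : ℝ :=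
  √(σ ^ 2 + ∑ l ∈ F, wd h u l n z ^ 2)

lemma am_sq (u : ℕ → ℂ → ℝ) (F : Finset (List Bool)) (σ : ℝ) (n : ℕ) (z : ℂ) :
    am h u F σ n z ^ 2 = σ ^ 2 + ∑ l ∈ F, wd h u l n z ^ 2 :=
  Real.sq_sqrt (by positivity)

lemma am_pos (u : ℕ → ℂ → ℝ) (F : Finset (List Bool)) {σ : ℝ} (hσ : 0 < σ) (n : ℕ) (z : ℂ) :
    0 < am h u F σ n z := Real.sqrt_pos.2 (by positivity)

lemma am_sm (hB : IsOpen B) {u : ℕ → ℂ → ℝ} (hu : ∀ n, ContDiffOn ℝ ∞ (u n) B)
    (F : Finset (List Bool)) {σ : ℝ} (hσ : 0 < σ) (n : ℕ) :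
    ContDiffOn ℝ ∞ (am h u F σ n) B := by
  unfold am
  refine ContDiffOn.sqrt (contDiffOn_const.add (ContDiffOn.sum fun l _ =>
    (wd_sm hB hu l n).pow 2)) fun z _ => ?_
  positivity

lemma am_rd (hB : IsOpen B) {u : ℕ → ℂ → ℝ} (hu : ∀ n, ContDiffOn ℝ ∞ (u n) B)
    (F : Finset (List Bool)) {σ : ℝ} (hσ : 0 < σ) (b : Bool) (n : ℕ) {z : ℂ} (hz : z ∈ B) :
    rd h (dir b) (am h u F σ) n z ^ 2 ≤ ∑ l ∈ F, wd h u (b :: l) n z ^ 2 := by
  have hA := am_pos (h := h) u F hσ n z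
  have e1 : am h u F σ n z * rd h (dir b) (am h u F σ) n z =
      ∑ l ∈ F, wd h u l n z * wd h u (b :: l) n z := by
    have d1 : HasFDerivAt (am h u F σ n) (fderiv ℝ (am h u F σ n) z) z :=
      (rdA hB (am_sm hB hu F hσ n) hz).hasFDerivAt
    have d2 := (d1.mul d1).fderiv
    have d3 : HasFDerivAt (fun w => σ ^ 2 + ∑ l ∈ F, wd h u l n w * wd h u l n w)
        (∑ l ∈ F, (wd h u l n z • fderiv ℝ (wd h u l n) z +
          wd h u l n z • fderiv ℝ (wd h u l n) z)) z := by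
      refine (HasFDerivAt.fun_sum fun l _ => ?_).const_add _
      have := (rdA hB (wd_sm (h := h) hB hu l n) hz).hasFDerivAt
      exact this.mul this
    have e2 : (fun w => am h u F σ n w * am h u F σ n w) =
        fun w => σ ^ 2 + ∑ l ∈ F, wd h u l n w * wd h u l n w := by
      funext w
      rw [← sq, am_sq]
      congr 1
      exact Finset.sum_congr rfl fun l _ => sq _
    have e3 : fderiv ℝ (fun w => am h u F σ n w * am h u F σ n w) z (dir b) =
        2 * (am h u F σ n z * fderiv ℝ (am h u F σ n) z (dir b)) := by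
      have := congrArg (fun L : ℂ →L[ℝ] ℝ => L (dir b)) d2
      refine Eq.trans this ?_
      simp only [add_apply, smul_apply, smul_eq_mul]
      ring
    have e4 : fderiv ℝ (fun w => am h u F σ n w * am h u F σ n w) z (dir b) =
        2 * ∑ l ∈ F, wd h u l n z * fderiv ℝ (wd h u l n) z (dir b) := by
      rw [e2, d3.fderiv]
      simp only [ContinuousLinearMap.sum_apply, add_apply, smul_apply, smul_eq_mul]
      rw [Finset.mul_sum]
      refine Finset.sum_congr rfl fun l _ => ?_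
      ring
    have e5 := e3.symm.trans e4
    have e6 : ∑ l ∈ F, wd h u l n z * wd h u (b :: l) n z =
        h n * ∑ l ∈ F, wd h u l n z * fderiv ℝ (wd h u l n) z (dir b) := by
      rw [Finset.mul_sum]
      refine Finset.sum_congr rfl fun l _ => ?_
      show wd h u l n z * (h n * fderiv ℝ (wd h u l n) z (dir b)) = _
      ring
    rw [e6]
    show am h u F σ n z * (h n * fderiv ℝ (am h u F σ n) z (dir b)) = _
    linear_combination (h n / 2) * e5
  have e2 : (∑ l ∈ F, wd h u l n z * wd h u (b :: l) n z) ^ 2 ≤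
      (∑ l ∈ F, wd h u l n z ^ 2) * ∑ l ∈ F, wd h u (b :: l) n z ^ 2 :=
    Finset.sum_mul_sq_le_sq_mul_sq _ _ _
  have e3 : ∑ l ∈ F, wd h u l n z ^ 2 ≤ am h u F σ n z ^ 2 := by
    rw [am_sq]; have := sq_nonneg σ; linarith
  have s0 : 0 ≤ ∑ l ∈ F, wd h u (b :: l) n z ^ 2 := Finset.sum_nonneg fun _ _ => sq_nonneg _
  rw [← e1, mul_pow] at e2
  have e4 := e2.trans (mul_le_mul_of_nonneg_right e3 s0)
  exact le_of_mul_le_mul_left e4 (by positivity)

lemma am_lb (hB : IsOpen B) {u : ℕ → ℂ → ℝ} (hu : ∀ n, ContDiffOn ℝ ∞ (u n) B)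
    (hM : ∀ k, MK2 B h k (cx u)) (F : Finset (List Bool)) {σ : ℝ} (hσ : 0 < σ) :
    LB B 2 (cx (am h u F σ)) ∧ ∀ b, LB B 2 (cx (rd h (dir b) (am h u F σ))) := by
  have sA := am_sm (h := h) hB hu F hσ
  have sm1 : ∀ n, ContDiffOn ℝ ∞ (cx (am h u F σ) n) B := fun n =>
    ofRealCLM.contDiff.comp_contDiffOn (sA n)
  have sm2 : ∀ b n, ContDiffOn ℝ ∞ (cx (rd h (dir b) (am h u F σ)) n) B := fun b n =>
    ofRealCLM.contDiff.comp_contDiffOn (rd_sm hB sA (dir b) n)
  have bound : ∀ (G : Finset (List Bool)) (K : Set ℂ), IsCompact K → K ⊆ B →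
      ∃ C : ℝ, ∀ᶠ n in atTop, ∫ z in K, ∑ l ∈ G, wd h u l n z ^ 2 ≤ C := by
    intro G K hK hKB
    choose C _ hC using fun l : List Bool => lb_re (wd_mk hB hu hM l 0) hK hKB
    refine ⟨∑ l ∈ G, C l, ?_⟩
    have : ∀ᶠ n in atTop, ∀ l ∈ G, ∫ z in K, wd h u l n z ^ 2 ≤ C l :=
      (Finset.eventually_all _).2 fun l _ => hC l
    refine this.mono fun n hn => ?_
    rw [integral_finsetSum _ fun l _ => ?_]
    · exact Finset.sum_le_sum hn
    · exact (((wd_sm hB hu l n).continuousOn.mono hKB).pow 2).integrableOn_compact hK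
  have cs : ∀ (G : Finset (List Bool)) (K : Set ℂ), K ⊆ B → ∀ n,
      ContinuousOn (fun z => ∑ l ∈ G, wd h u l n z ^ 2) K := fun G K hKB n =>
    continuousOn_finsetSum _ fun l _ => ((wd_sm hB hu l n).continuousOn.mono hKB).pow 2
  refine ⟨⟨sm1, fun K hK hKB => ?_⟩, fun b => ⟨sm2 b, fun K hK hKB => ?_⟩⟩
  · obtain ⟨C, hC⟩ := bound F K hK hKB
    refine ⟨(∫ z in K, σ ^ 2) + C, hC.mono fun n hn => ?_⟩
    have e : ∀ z, ‖cx (am h u F σ) n z‖ ^ 2 = σ ^ 2 + ∑ l ∈ F, wd h u l n z ^ 2 := fun z => by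
      rw [cx, norm_real, Real.norm_eq_abs, sq_abs, am_sq]
    simp only [e]
    have i1 : IntegrableOn (fun _ : ℂ => σ ^ 2) K := continuousOn_const.integrableOn_compact hK
    have i2 : IntegrableOn (fun z => ∑ l ∈ F, wd h u l n z ^ 2) K :=
      (cs F K hKB n).integrableOn_compact hK
    rw [integral_add i1 i2]
    exact add_le_add le_rfl hn
  · obtain ⟨C, hC⟩ := bound (F.map ⟨fun l => b :: l, List.cons_injective⟩) K hK hKB
    refine ⟨C, hC.mono fun n hn => le_trans ?_ hn⟩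
    refine intK_mono hK ((((sm2 b n).continuousOn.mono hKB).norm).pow 2) (cs _ K hKB n)
      fun z hz => ?_
    rw [cx, norm_real, Real.norm_eq_abs, sq_abs, Finset.sum_map]
    exact am_rd hB hu F hσ b n (hKB hz)

/-- the chain: where `u ≤ κ A`, a given derivative is at most `κ' A`, up to a set of small mass -/
theorem chain (hB : IsOpen B) (hp : ∀ n, 0 < h n) (hh : Tendsto h atTop (𝓝 0))
    {u : ℕ → ℂ → ℝ} (hu : ∀ n, ContDiffOn ℝ ∞ (u n) B) (hM : ∀ k, MK2 B h k (cx u))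
    {φ : ℂ → ℝ} (hφ : TF B φ) (hφ0 : ∀ z, 0 ≤ φ z) (F : Finset (List Bool)) {σ : ℝ} (hσ : 0 < σ)
    (l : List Bool) : ∀ κ' : ℝ, 0 < κ' → ∀ ε : ℝ, 0 < ε → ∃ κ : ℝ, 0 < κ ∧ ∀ᶠ n in atTop,
      ∫ z in Sub φ (fun z => |u n z| ≤ κ * am h u F σ n z) ∩
        Sub φ (fun z => κ' * am h u F σ n z ≤ |wd h u l n z|), φ z * am h u F σ n z ^ 2 ≤ ε := by
  have sA := am_sm (h := h) hB hu F hσ
  obtain ⟨lA, lA1⟩ := am_lb hB hu hM F hσ
  have hSB : tsupport φ ⊆ B := hφ.2.2
  have cA : ∀ n, ContinuousOn (am h u F σ n) (tsupport φ) := fun n =>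
    (sA n).continuousOn.mono hSB
  have cW : ∀ l n, ContinuousOn (wd h u l n) (tsupport φ) := fun l n =>
    (wd_sm hB hu l n).continuousOn.mono hSB
  have ap : ∀ n z, 0 < am h u F σ n z := fun n z => am_pos u F hσ n z
  have m1 : ∀ n κ l, MeasurableSet (Sub φ (fun z => |wd h u l n z| ≤ κ * am h u F σ n z)) :=
    fun n κ l => (Sub_le hφ.2.1 (cW l n).abs (continuousOn_const.mul (cA n))).measurableSet
  have m2 : ∀ n κ l, MeasurableSet (Sub φ (fun z => κ * am h u F σ n z ≤ |wd h u l n z|)) :=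
    fun n κ l => (Sub_le hφ.2.1 (continuousOn_const.mul (cA n)) (cW l n).abs).measurableSet
  have iG : ∀ n, IntegrableOn (fun z => φ z * am h u F σ n z ^ 2) (tsupport φ) := fun n =>
    (hφ.1.continuous.continuousOn.mul ((cA n).pow 2)).integrableOn_compact hφ.2.1
  have nn : ∀ n z, 0 ≤ φ z * am h u F σ n z ^ 2 := fun n z => mul_nonneg (hφ0 z) (sq_nonneg _)
  induction l with
  | nil =>
    intro κ' hκ' ε hε
    refine ⟨κ' / 2, by positivity, Eventually.of_forall fun n => ?_⟩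
    have : Sub φ (fun z => |u n z| ≤ κ' / 2 * am h u F σ n z) ∩
        Sub φ (fun z => κ' * am h u F σ n z ≤ |wd h u [] n z|) = ∅ := by
      ext z
      simp only [Set.mem_inter_iff, Set.mem_empty_iff_false, iff_false]
      rintro ⟨⟨_, h1⟩, ⟨_, h2⟩⟩
      have e : wd h u [] n z = u n z := rfl
      rw [e] at h2
      have := mul_pos hκ' (ap n z)
      linarith
    rw [this]
    simp [hε.le]
  | cons b l ih =>
    intro κ' hκ' ε hε
    obtain ⟨C, C0, hC⟩ := hom hB hp hh (wd_sm hB hu l) (wd_mk hB hu hM l 2) sA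
      (fun n z _ => ap n z) lA (lA1 b) hφ hφ0 (dir_or b)
    obtain ⟨s, hs⟩ : ∃ s : ℝ, s = ε * κ' ^ 2 / (2 * (C + 1)) := ⟨_, rfl⟩
    have s0 : 0 < s := by rw [hs]; positivity
    have sC : s * C ≤ ε * κ' ^ 2 / 2 := by
      have e1 : s * C = (ε * κ' ^ 2 / 2) * (C / (C + 1)) := by rw [hs]; field_simp
      rw [e1]
      refine mul_le_of_le_one_right (by positivity) ?_
      rw [div_le_one (by positivity)]; linarith
    obtain ⟨κ, κ0, hκ⟩ := ih s s0 (ε / 2) (by positivity)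
    refine ⟨κ, κ0, ?_⟩
    filter_upwards [hκ, hC] with n h1 h2
    have h2 := h2 s s0
    obtain ⟨P, hP⟩ : ∃ P : Set ℂ, P = Sub φ (fun z => |u n z| ≤ κ * am h u F σ n z) ∩
      Sub φ (fun z => s * am h u F σ n z ≤ |wd h u l n z|) := ⟨_, rfl⟩
    obtain ⟨D, hD⟩ : ∃ D : Set ℂ, D = Sub φ (fun z => |wd h u l n z| ≤ s * am h u F σ n z) ∩
      Sub φ (fun z => κ' * am h u F σ n z ≤ |wd h u (b :: l) n z|) := ⟨_, rfl⟩
    have mP : MeasurableSet P := by
      rw [hP]; exact (m1 n κ []).inter (m2 n s l)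
    have mD : MeasurableSet D := by
      rw [hD]; exact (m1 n s l).inter (m2 n κ' (b :: l))
    have PS : P ⊆ tsupport φ := by rw [hP]; exact fun z hz => hz.1.1
    have DS : D ⊆ tsupport φ := by rw [hD]; exact fun z hz => hz.1.1
    have sub : Sub φ (fun z => |u n z| ≤ κ * am h u F σ n z) ∩
        Sub φ (fun z => κ' * am h u F σ n z ≤ |wd h u (b :: l) n z|) ⊆ P ∪ D := by
      rintro z ⟨⟨hz, z1⟩, ⟨_, z2⟩⟩
      rcases le_total (s * am h u F σ n z) |wd h u l n z| with h | h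
      · left; rw [hP]; exact ⟨⟨hz, z1⟩, ⟨hz, h⟩⟩
      · right; rw [hD]; exact ⟨⟨hz, h⟩, ⟨hz, z2⟩⟩
    have iPD : IntegrableOn (fun z => φ z * am h u F σ n z ^ 2) (P ∪ D) :=
      (iG n).mono_set (Set.union_subset PS DS)
    have b1 : ∫ z in Sub φ (fun z => |u n z| ≤ κ * am h u F σ n z) ∩
        Sub φ (fun z => κ' * am h u F σ n z ≤ |wd h u (b :: l) n z|), φ z * am h u F σ n z ^ 2 ≤
        ∫ z in P ∪ D, φ z * am h u F σ n z ^ 2 :=
      setIntegral_mono_set iPD (ae_of_all _ (nn n)) sub.eventuallyLE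
    have b2 : ∫ z in P ∪ D, φ z * am h u F σ n z ^ 2 ≤
        (∫ z in P, φ z * am h u F σ n z ^ 2) + ∫ z in D, φ z * am h u F σ n z ^ 2 := by
      have e4 : P ∪ D = P ∪ (D \ P) := by rw [Set.union_diff_self]
      have i1 : IntegrableOn (fun z => φ z * am h u F σ n z ^ 2) (D \ P) :=
        (iG n).mono_set (Set.diff_subset.trans DS)
      rw [e4, setIntegral_union Set.disjoint_sdiff_right (mD.diff mP) ((iG n).mono_set PS) i1]
      refine add_le_add le_rfl ?_
      exact setIntegral_mono_set ((iG n).mono_set DS) (ae_of_all _ (nn n))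
        Set.diff_subset.eventuallyLE
    have b3 : κ' ^ 2 * ∫ z in D, φ z * am h u F σ n z ^ 2 ≤ s * C := by
      refine le_trans ?_ h2
      rw [← integral_const_mul]
      have i1 : IntegrableOn (fun z => φ z * rd h (dir b) (wd h u l) n z ^ 2)
          (Sub φ (fun z => |wd h u l n z| ≤ s * am h u F σ n z)) := by
        refine (ContinuousOn.integrableOn_compact hφ.2.1 ?_).mono_set fun z hz => hz.1
        exact hφ.1.continuous.continuousOn.mul ((cW (b :: l) n).pow 2)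
      refine le_trans ?_ (setIntegral_mono_set i1 (ae_of_all _ fun z =>
        mul_nonneg (hφ0 z) (sq_nonneg _)) (show D ≤ᵐ[volume] _ from ?_))
      · refine setIntegral_mono_on (((iG n).mono_set DS).const_mul _) (i1.mono_set ?_) mD
          fun z hz => ?_
        · rw [hD]; exact Set.inter_subset_left
        · rw [hD] at hz
          have h5 : κ' * am h u F σ n z ≤ |rd h (dir b) (wd h u l) n z| := hz.2.2
          have h6 := pow_le_pow_left₀ (mul_pos hκ' (ap n z)).le h5 2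
          rw [sq_abs, mul_pow] at h6
          have h7 := mul_le_mul_of_nonneg_left h6 (hφ0 z)
          linarith
      · rw [hD]; exact Set.inter_subset_left.eventuallyLE
    have b4 : ∫ z in D, φ z * am h u F σ n z ^ 2 ≤ ε / 2 := by
      have h8 : 0 < κ' ^ 2 := by positivity
      have h9 := b3.trans sC
      nlinarith
    rw [← hP] at h1
    linarith

end

end Pool.Agent.P8H31.VC
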